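import Mathlib
import Pool.Agent.Helper384.BzK2

/-!
Probabilities of events for a random subset of a finite set: basic rules, independence, and the
van den Berg-Kesten inequality for increasing events (the proof of the latter is the one of the
file `Results/MP_950aae_pr/FirstOrder.lean`).
-/

set_option autoImplicit false
set_option maxHeartbeats 1000000
set_option linter.unusedSectionVars false
set_option linter.unusedVariables false

namespace Pool.Agent.V5helper97.BootPr

section BKsec

variable {α : Type*} [DecidableEq α]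

/-- weight of the subset `S` of `Λ` when elements are present independently with prob. `p` -/
def wt (p : ℝ) (Λ S : Finset α) : ℝ := ∏ e ∈ Λ, if e ∈ S then p else 1 - p

open Classical in
/-- probability of the set family `A` for a random subset of `Λ` -/
noncomputable def q (p : ℝ) (Λ : Finset α) (A : Set (Finset α)) : ℝ :=
  ∑ S ∈ Λ.powerset, if S ∈ A then wt p Λ S else 0

/-- disjoint occurrence -/
def box (A B : Set (Finset α)) : Set (Finset α) :=
  {S | ∃ I J, Disjoint I J ∧ I ⊆ S ∧ J ⊆ S ∧ I ∈ A ∧ J ∈ B}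

/-- increasing families -/
def Up (A : Set (Finset α)) : Prop := ∀ S T, S ⊆ T → S ∈ A → T ∈ A

/-- the family obtained by adding `e` -/
def addE (e : α) (A : Set (Finset α)) : Set (Finset α) := {S | insert e S ∈ A}

theorem wt_nonneg {p : ℝ} (h0 : 0 ≤ p) (h1 : p ≤ 1) (Λ S : Finset α) : 0 ≤ wt p Λ S := by
  unfold wt
  apply Finset.prod_nonneg
  intro e _
  split_ifs <;> linarith

theorem wt_insert {p : ℝ} {e : α} {Λ S : Finset α} (he : e ∉ Λ) (hS : S ⊆ Λ) :
    wt p (insert e Λ) S = (1 - p) * wt p Λ S := by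
  unfold wt
  rw [Finset.prod_insert he, if_neg (fun h => he (hS h))]

theorem wt_insert' {p : ℝ} {e : α} {Λ S : Finset α} (he : e ∉ Λ) :
    wt p (insert e Λ) (insert e S) = p * wt p Λ S := by
  unfold wt
  rw [Finset.prod_insert he, if_pos (Finset.mem_insert_self _ _)]
  congr 1
  apply Finset.prod_congr rfl
  intro x hx
  have : x ≠ e := fun h => he (h ▸ hx)
  simp [Finset.mem_insert, this]

theorem q_insert (p : ℝ) {e : α} {Λ : Finset α} (he : e ∉ Λ) (A : Set (Finset α)) :
    q p (insert e Λ) A = (1 - p) * q p Λ A + p * q p Λ (addE e A) := by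
  classical
  unfold q
  rw [Finset.sum_powerset_insert he, Finset.mul_sum, Finset.mul_sum]
  congr 1
  · apply Finset.sum_congr rfl
    intro S hS
    rw [Finset.mem_powerset] at hS
    rw [wt_insert he hS]
    split_ifs <;> simp
  · apply Finset.sum_congr rfl
    intro S hS
    rw [wt_insert' he]
    by_cases h : insert e S ∈ A
    · have h' : S ∈ addE e A := h
      simp [h, h']
    · have h' : S ∉ addE e A := h
      simp [h, h']

theorem q_nonneg {p : ℝ} (h0 : 0 ≤ p) (h1 : p ≤ 1) (Λ : Finset α) (A : Set (Finset α)) :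
    0 ≤ q p Λ A := by
  unfold q
  apply Finset.sum_nonneg
  intro S _
  split_ifs
  · exact wt_nonneg h0 h1 _ _
  · exact le_refl _

theorem Up.addE {A : Set (Finset α)} (hA : Up A) (e : α) : Up (addE e A) := by
  intro S T hST hS
  exact hA _ _ (Finset.insert_subset_insert e hST) hS

theorem sub_addE {A : Set (Finset α)} (hA : Up A) (e : α) : A ⊆ addE e A := by
  intro S hS
  exact hA _ _ (Finset.subset_insert e S) hS

omit [DecidableEq α] in
theorem box_mono {A B A' B' : Set (Finset α)} (hA : A ⊆ A') (hB : B ⊆ B') :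
    box A B ⊆ box A' B' := by
  rintro S ⟨I, J, h1, h2, h3, h4, h5⟩
  exact ⟨I, J, h1, h2, h3, hA h4, hB h5⟩

theorem addE_box {A B : Set (Finset α)} {e : α} {S : Finset α}
    (h : S ∈ addE e (box A B)) : S ∈ box A B ∨ S ∈ box (addE e A) B ∨ S ∈ box A (addE e B) := by
  obtain ⟨I, J, h1, h2, h3, h4, h5⟩ := h
  have hsub : ∀ K : Finset α, K ⊆ insert e S → K.erase e ⊆ S := by
    intro K hK x hx
    rw [Finset.mem_erase] at hx
    rcases Finset.mem_insert.1 (hK hx.2) with h | h
    · exact absurd h hx.1
    · exact h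
  have hsub' : ∀ K : Finset α, K ⊆ insert e S → e ∉ K → K ⊆ S := by
    intro K hK he x hx
    rcases Finset.mem_insert.1 (hK hx) with h | h
    · exact absurd (h ▸ hx) he
    · exact h
  by_cases heI : e ∈ I
  · have heJ : e ∉ J := Finset.disjoint_left.1 h1 heI
    right; left
    refine ⟨I.erase e, J, Finset.disjoint_of_subset_left (Finset.erase_subset _ _) h1,
      hsub I h2, hsub' J h3 heJ, ?_, h5⟩
    simp only [addE, Set.mem_ofPred_eq, Finset.insert_erase heI]
    exact h4
  · by_cases heJ : e ∈ J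
    · right; right
      refine ⟨I, J.erase e, Finset.disjoint_of_subset_right (Finset.erase_subset _ _) h1,
        hsub' I h2 heI, hsub J h3, h4, ?_⟩
      simp only [addE, Set.mem_ofPred_eq, Finset.insert_erase heJ]
      exact h5
    · left
      exact ⟨I, J, h1, hsub' I h2 heI, hsub' J h3 heJ, h4, h5⟩

/-- The van den Berg–Kesten inequality for increasing families. -/
theorem bk {p : ℝ} (h0 : 0 ≤ p) (h1 : p ≤ 1) (Λ : Finset α) : ∀ A B : Set (Finset α),
    Up A → Up B → q p Λ (box A B) ≤ q p Λ A * q p Λ B := by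
  classical
  induction Λ using Finset.induction_on with
  | empty =>
    intro A B _ _
    simp only [q, Finset.powerset_empty, Finset.sum_singleton, wt, Finset.prod_empty]
    by_cases h : (∅ : Finset α) ∈ box A B
    · obtain ⟨I, J, -, h2, h3, h4, h5⟩ := h
      have hI : I = ∅ := Finset.subset_empty.1 h2
      have hJ : J = ∅ := Finset.subset_empty.1 h3
      subst hI; subst hJ
      simp only [h4, h5, if_true]
      split_ifs <;> norm_num
    · rw [if_neg h]
      split_ifs <;> norm_num
  | insert e Λ he ih =>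
    intro A B hA hB
    have key : q p (insert e Λ) (box A B) ≤ (1 - p) * (1 - p) * q p Λ (box A B) +
        p * (1 - p) * q p Λ (box (addE e A) B) + p * (1 - p) * q p Λ (box A (addE e B)) +
        p * p * q p Λ (box (addE e A) (addE e B)) := by
      rw [q_insert p he]
      unfold q
      simp only [Finset.mul_sum, ← Finset.sum_add_distrib]
      apply Finset.sum_le_sum
      intro S _
      have hw := wt_nonneg h0 h1 Λ S
      have m1 : S ∈ box A B → S ∈ box (addE e A) B := fun h => box_mono (sub_addE hA e) le_rfl h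
      have m2 : S ∈ box A B → S ∈ box A (addE e B) := fun h => box_mono le_rfl (sub_addE hB e) h
      have m3 : S ∈ box (addE e A) B → S ∈ box (addE e A) (addE e B) :=
        fun h => box_mono le_rfl (sub_addE hB e) h
      have m4 : S ∈ box A (addE e B) → S ∈ box (addE e A) (addE e B) :=
        fun h => box_mono (sub_addE hA e) le_rfl h
      have m5 : S ∈ addE e (box A B) → S ∈ box A B ∨ S ∈ box (addE e A) B ∨ S ∈ box A (addE e B) :=
        fun h => addE_box h
      have hq : 0 ≤ 1 - p := by linarith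
      have t1 : 0 ≤ p * (1 - p) * wt p Λ S := by positivity
      have t2 : 0 ≤ p * p * wt p Λ S := by positivity
      have t3 : 0 ≤ (1 - p) * (1 - p) * wt p Λ S := by positivity
      by_cases c1 : S ∈ box A B
      · have c2 := m1 c1
        have c3 := m2 c1
        have c4 := m3 c2
        simp only [c1, c2, c3, c4, if_true]
        split_ifs <;> nlinarith
      · by_cases c2 : S ∈ box (addE e A) B
        · have c4 := m3 c2
          by_cases c3 : S ∈ box A (addE e B)
          · simp only [c1, c2, c3, c4, if_true, if_false]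
            split_ifs <;> nlinarith
          · simp only [c1, c2, c3, c4, if_true, if_false]
            split_ifs <;> nlinarith
        · by_cases c3 : S ∈ box A (addE e B)
          · have c4 := m4 c3
            simp only [c1, c2, c3, c4, if_true, if_false]
            split_ifs <;> nlinarith
          · have c5 : S ∉ addE e (box A B) := by
              intro h
              rcases m5 h with h | h | h <;> contradiction
            simp only [c1, c2, c3, c5, if_false]
            split_ifs <;> nlinarith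
    refine key.trans ?_
    rw [q_insert p he, q_insert p he]
    have i1 := ih A B hA hB
    have i2 := ih (addE e A) B (hA.addE e) hB
    have i3 := ih A (addE e B) hA (hB.addE e)
    have i4 := ih (addE e A) (addE e B) (hA.addE e) (hB.addE e)
    have hq : 0 ≤ 1 - p := by linarith
    have j1 := mul_le_mul_of_nonneg_left i1 (mul_nonneg hq hq)
    have j2 := mul_le_mul_of_nonneg_left i2 (mul_nonneg h0 hq)
    have j3 := mul_le_mul_of_nonneg_left i3 (mul_nonneg h0 hq)
    have j4 := mul_le_mul_of_nonneg_left i4 (mul_nonneg h0 h0)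
    calc _ ≤ (1 - p) * (1 - p) * (q p Λ A * q p Λ B) + p * (1 - p) * (q p Λ (addE e A) * q p Λ B) +
          p * (1 - p) * (q p Λ A * q p Λ (addE e B)) +
          p * p * (q p Λ (addE e A) * q p Λ (addE e B)) := by linarith
      _ = _ := by ring

end BKsec

open Finset Classical Pool.Agent.Helper384.Bz

section Prsec0

theorem two_set' {α : Type} [Fintype α] [DecidableEq α] (p : ℝ) (U : Finset α) (f h : Finset α → ℝ) :
    ∑ A : Finset α, w p A * (f (A ∩ U) * h (A \ U)) =
      (∑ B ∈ U.powerset, p ^ B.card * (1 - p) ^ (U.card - B.card) * f B) *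
      (∑ C ∈ Uᶜ.powerset, p ^ C.card * (1 - p) ^ (Uᶜ.card - C.card) * h C) := by
  rw [Finset.sum_mul_sum, ← Finset.sum_product']
  refine Finset.sum_nbij' (fun A => (A ∩ U, A \ U)) (fun BC => BC.1 ∪ BC.2) ?_ ?_ ?_ ?_ ?_
  · intro A _
    simp only [Finset.mem_product, Finset.mem_powerset]
    refine ⟨Finset.inter_subset_right, ?_⟩
    intro x hx
    simp only [Finset.mem_sdiff] at hx
    simp [hx.2]
  · intro BC _
    simp
  · intro A _
    ext x
    simp only [Finset.mem_union, Finset.mem_inter, Finset.mem_sdiff]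
    tauto
  · rintro ⟨B, C⟩ hBC
    simp only [Finset.mem_product, Finset.mem_powerset] at hBC
    obtain ⟨hB, hC⟩ := hBC
    have hC' : ∀ x ∈ C, x ∉ U := fun x hx => by
      have := hC hx
      simpa using this
    ext x
    · simp only [Finset.mem_union, Finset.mem_inter]
      constructor
      · rintro ⟨h1 | h1, h2⟩
        · exact h1
        · exact absurd h2 (hC' x h1)
      · intro h1
        exact ⟨Or.inl h1, hB h1⟩
    · simp only [Finset.mem_union, Finset.mem_sdiff]
      constructor
      · rintro ⟨h1 | h1, h2⟩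
        · exact absurd (hB h1) h2
        · exact h1
      · intro h1
        exact ⟨Or.inr h1, hC' x h1⟩
  · intro A _
    have h1 : (A ∩ U).card + (A \ U).card = A.card := Finset.card_inter_add_card_sdiff A U
    have h2 : U.card + Uᶜ.card = Fintype.card α := Finset.card_add_card_compl U
    have h3 : (A ∩ U).card ≤ U.card := Finset.card_le_card Finset.inter_subset_right
    have h4 : (A \ U).card ≤ Uᶜ.card := by
      apply Finset.card_le_card
      intro x hx
      simp only [Finset.mem_sdiff] at hx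
      simp [hx.2]
    have h5 : Fintype.card α - A.card = (U.card - (A ∩ U).card) + (Uᶜ.card - (A \ U).card) := by omega
    simp only [w]
    rw [h5, pow_add, ← h1, pow_add]
    ring

theorem indep_two' {α : Type} [Fintype α] [DecidableEq α] (p : ℝ) (U : Finset α) (f h : Finset α → ℝ) :
    ∑ A : Finset α, w p A * (f (A ∩ U) * h (A \ U)) =
      (∑ A : Finset α, w p A * f (A ∩ U)) * (∑ A : Finset α, w p A * h (A \ U)) := by
  have h0 := two_set' p U (fun _ => 1) (fun _ => 1)
  have h1 := two_set' p U f (fun _ => 1)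
  have h2 := two_set' p U (fun _ => 1) h
  have h3 := two_set' p U f h
  simp only [mul_one, one_mul] at h0 h1 h2 h3
  rw [sum_w] at h0
  rw [h3, h1, h2]
  have : ∀ a b c d : ℝ, 1 = c * d → a * b = a * d * (c * b) := by
    intro a b c d h
    calc a * b = 1 * (a * b) := by ring
      _ = c * d * (a * b) := by rw [← h]
      _ = a * d * (c * b) := by ring
  exact this _ _ _ _ h0

theorem prob_avoid2 {α : Type} [Fintype α] [DecidableEq α] (p : ℝ) (D : Finset α) :
    ∑ A : Finset α, (if ¬ (A ∩ D).Nonempty then w p A else 0) = (1 - p) ^ D.card := by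
  have h1 := sum_w_superset (1 - p) D
  rw [← h1, Finset.sum_filter]
  refine Finset.sum_bij' (fun A _ => Aᶜ) (fun A _ => Aᶜ) (by simp) (by simp) (by simp) (by simp) ?_
  intro A _
  have h2 : (¬ (A ∩ D).Nonempty) ↔ D ⊆ Aᶜ := by
    rw [Finset.not_nonempty_iff_eq_empty, ← Finset.disjoint_iff_inter_eq_empty,
      Finset.subset_compl_iff_disjoint_right, disjoint_comm]
  have h3 : w p A = w (1 - p) Aᶜ := by
    unfold w
    have h4 : Aᶜ.card = Fintype.card α - A.card := Finset.card_compl A
    have h5 : A.card ≤ Fintype.card α := Finset.card_le_univ A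
    rw [h4, Nat.sub_sub_self h5]
    ring
  by_cases h : D ⊆ Aᶜ
  · rw [if_pos (h2.2 h), if_pos h, h3]
  · rw [if_neg (fun h' => h (h2.1 h')), if_neg h]

end Prsec0

section Prsec

variable {α : Type} [Fintype α] [DecidableEq α]

/-- probability of an event -/
noncomputable def Pr (p : ℝ) (E : Finset α → Prop) : ℝ := ∑ A : Finset α, if E A then w p A else 0

theorem Pr_eq (p : ℝ) (E : Finset α → Prop) [inst : ∀ A, Decidable (E A)] :
    Pr p E = ∑ A : Finset α, if E A then w p A else 0 := by
  unfold Pr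
  apply Finset.sum_congr rfl
  intro A _
  congr

/-- the event `E` only depends on the sites of `U` -/
def Dep (U : Finset α) (E : Finset α → Prop) : Prop := ∀ A B, A ∩ U = B ∩ U → (E A ↔ E B)

theorem Dep.mono {U V : Finset α} {E : Finset α → Prop} (h : Dep U E) (hUV : U ⊆ V) : Dep V E := by
  intro A B hAB
  apply h
  have h1 : A ∩ U = A ∩ V ∩ U := by rw [inter_assoc, inter_eq_right.2 hUV]
  have h2 : B ∩ U = B ∩ V ∩ U := by rw [inter_assoc, inter_eq_right.2 hUV]
  rw [h1, h2, hAB]

theorem Dep.and {U : Finset α} {E F : Finset α → Prop} (h : Dep U E) (h' : Dep U F) :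
    Dep U (fun A => E A ∧ F A) := by
  intro A B hAB
  show (E A ∧ F A) ↔ (E B ∧ F B)
  rw [h A B hAB, h' A B hAB]

theorem Pr_nonneg {p : ℝ} (h0 : 0 ≤ p) (h1 : p ≤ 1) (E : Finset α → Prop) : 0 ≤ Pr p E := by
  unfold Pr
  apply Finset.sum_nonneg
  intro A _
  split_ifs
  · exact w_nonneg p h0 h1 A
  · exact le_rfl

theorem Pr_mono {p : ℝ} (h0 : 0 ≤ p) (h1 : p ≤ 1) {E F : Finset α → Prop} (h : ∀ A, E A → F A) :
    Pr p E ≤ Pr p F := by
  unfold Pr
  apply Finset.sum_le_sum
  intro A _
  have := w_nonneg p h0 h1 A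
  by_cases hE : E A
  · rw [if_pos hE, if_pos (h A hE)]
  · rw [if_neg hE]
    split_ifs
    · exact this
    · exact le_rfl

theorem Pr_congr {p : ℝ} {E F : Finset α → Prop} (h : ∀ A, E A ↔ F A) : Pr p E = Pr p F := by
  have : E = F := by funext A; exact propext (h A)
  rw [this]

theorem Pr_true (p : ℝ) : Pr p (fun _ : Finset α => True) = 1 := by
  unfold Pr
  simp only [if_true]
  exact sum_w p

theorem Pr_le_one {p : ℝ} (h0 : 0 ≤ p) (h1 : p ≤ 1) (E : Finset α → Prop) : Pr p E ≤ 1 := by
  rw [← Pr_true (α := α) p]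
  exact Pr_mono h0 h1 (fun _ _ => trivial)

/-- union bound -/
theorem Pr_union {p : ℝ} (h0 : 0 ≤ p) (h1 : p ≤ 1) {ι : Type} (I : Finset ι)
    {E : Finset α → Prop} {F : ι → Finset α → Prop} (h : ∀ A, E A → ∃ i ∈ I, F i A) :
    Pr p E ≤ ∑ i ∈ I, Pr p (F i) := by
  unfold Pr
  rw [Finset.sum_comm]
  apply Finset.sum_le_sum
  intro A _
  have hw := w_nonneg p h0 h1 A
  have hnn : ∀ i ∈ I, 0 ≤ (if F i A then w p A else 0) := by
    intro i _
    split_ifs
    · exact hw
    · exact le_rfl
  by_cases hE : E A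
  · obtain ⟨i, hi, hF⟩ := h A hE
    rw [if_pos hE]
    have := Finset.single_le_sum hnn hi
    rw [if_pos hF] at this
    exact this
  · rw [if_neg hE]
    exact Finset.sum_nonneg hnn

theorem Pr_or {p : ℝ} (h0 : 0 ≤ p) (h1 : p ≤ 1) {E F G : Finset α → Prop}
    (h : ∀ A, E A → F A ∨ G A) : Pr p E ≤ Pr p F + Pr p G := by
  have := Pr_union h0 h1 (univ : Finset Bool) (E := E) (F := fun b => if b then F else G) (by
    intro A hA
    rcases h A hA with h | h
    · exact ⟨true, mem_univ _, by simpa using h⟩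
    · exact ⟨false, mem_univ _, by simpa using h⟩)
  simpa using this

/-- independence -/
theorem Pr_indep (p : ℝ) {U V : Finset α} (hUV : Disjoint U V) {E F : Finset α → Prop}
    (hE : Dep U E) (hF : Dep V F) : Pr p (fun A => E A ∧ F A) = Pr p E * Pr p F := by
  have h := indep_two' p U (fun A => if E A then (1:ℝ) else 0) (fun A => if F A then (1:ℝ) else 0)
  have h1 : ∀ A : Finset α, E (A ∩ U) ↔ E A := fun A => hE _ _ (by rw [inter_assoc, inter_self])
  have h2 : ∀ A : Finset α, F (A \ U) ↔ F A := fun A => hF _ _ (by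
    ext x
    simp only [mem_inter, mem_sdiff]
    constructor
    · rintro ⟨⟨a, _⟩, c⟩; exact ⟨a, c⟩
    · rintro ⟨a, c⟩; exact ⟨⟨a, fun b => Finset.disjoint_left.1 hUV b c⟩, c⟩)
  simp only [h1, h2] at h
  rw [Pr_eq p (fun A => E A ∧ F A)]
  unfold Pr
  calc (∑ A : Finset α, if E A ∧ F A then w p A else 0)
      = ∑ A : Finset α, w p A * ((if E A then (1:ℝ) else 0) * (if F A then (1:ℝ) else 0)) := by
        apply Finset.sum_congr rfl
        intro A _
        by_cases hE' : E A <;> by_cases hF' : F A <;> simp [hE', hF']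
    _ = _ := h
    _ = _ := by
        congr 1 <;>
        · apply Finset.sum_congr rfl
          intro A _
          simp

theorem Pr_avoid (p : ℝ) (Q : Finset α) :
    Pr p (fun A => ¬ (A ∩ Q).Nonempty) = (1 - p) ^ Q.card := by
  rw [← prob_avoid2 p Q]
  exact Pr_eq p _

theorem Pr_not {p : ℝ} (E : Finset α → Prop) : Pr p (fun A => ¬ E A) = 1 - Pr p E := by
  rw [← Pr_true (α := α) p]
  unfold Pr
  rw [← Finset.sum_sub_distrib]
  apply Finset.sum_congr rfl
  intro A _
  by_cases h : E A <;> simp [h]

theorem Pr_hit (p : ℝ) (Q : Finset α) :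
    Pr p (fun A => (A ∩ Q).Nonempty) = 1 - (1 - p) ^ Q.card := by
  have h := Pr_not (p := p) (fun A : Finset α => (A ∩ Q).Nonempty)
  rw [Pr_avoid] at h
  linarith

theorem Dep_hit (Q : Finset α) : Dep Q (fun A => (A ∩ Q).Nonempty) := by
  intro A B h
  show (A ∩ Q).Nonempty ↔ (B ∩ Q).Nonempty
  rw [h]

theorem Dep_avoid (Q : Finset α) : Dep Q (fun A => ¬ (A ∩ Q).Nonempty) := by
  intro A B h
  show ¬ (A ∩ Q).Nonempty ↔ ¬ (B ∩ Q).Nonempty
  rw [h]

/-- splitting according to the configuration in `C` -/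
theorem Pr_split {p : ℝ} (E : Finset α → Prop) (C : Finset α) :
    Pr p E = ∑ T ∈ C.powerset, Pr p (fun A => E A ∧ A ∩ C = T) := by
  unfold Pr
  rw [Finset.sum_comm]
  apply Finset.sum_congr rfl
  intro A _
  have : A ∩ C ∈ C.powerset := mem_powerset.2 inter_subset_right
  rw [← Finset.add_sum_erase _ _ this]
  rw [Finset.sum_eq_zero, add_zero]
  · simp
  · intro x hx
    rw [if_neg]
    rintro ⟨_, h⟩
    exact (Finset.ne_of_mem_erase hx) h.symm

theorem Pr_trace (p : ℝ) {C T : Finset α} (hT : T ⊆ C) :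
    Pr p (fun A => A ∩ C = T) = p ^ T.card * (1 - p) ^ (C.card - T.card) := by
  have h := two_set' p C (fun B => if B = T then (1:ℝ) else 0) (fun _ => 1)
  have h1 : ∑ B ∈ C.powerset, p ^ B.card * (1 - p) ^ (C.card - B.card) = 1 := by
    rw [Finset.sum_pow_mul_eq_add_pow]; simp
  have h2 : ∑ B ∈ Cᶜ.powerset, p ^ B.card * (1 - p) ^ (Cᶜ.card - B.card) = 1 := by
    rw [Finset.sum_pow_mul_eq_add_pow]; simp
  simp only [mul_one, h2, mul_ite, mul_zero] at h
  rw [Finset.sum_ite_eq' C.powerset T, if_pos (mem_powerset.2 hT)] at h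
  rw [← h]
  exact Pr_eq p _

/-- increasing events -/
def Inc (E : Finset α → Prop) : Prop := ∀ A B, A ⊆ B → E A → E B

theorem wt_univ (p : ℝ) (S : Finset α) : wt p univ S = w p S := by
  unfold wt w
  rw [Finset.prod_ite, Finset.prod_const, Finset.prod_const]
  congr 2
  · simp
  · have : (univ.filter (fun x => x ∉ S)) = Sᶜ := by ext x; simp
    rw [this, card_compl]

theorem q_univ (p : ℝ) (E : Finset α → Prop) : q p univ {A | E A} = Pr p E := by
  unfold q Pr
  rw [Finset.powerset_univ]
  apply Finset.sum_congr rfl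
  intro A _
  rw [wt_univ]
  by_cases h : E A
  · rw [if_pos h, if_pos (show A ∈ {A | E A} from h)]
  · rw [if_neg h, if_neg (show A ∉ {A | E A} from h)]

/-- the van den Berg-Kesten inequality -/
theorem Pr_bk {p : ℝ} (h0 : 0 ≤ p) (h1 : p ≤ 1) {E F : Finset α → Prop} (hE : Inc E) (hF : Inc F) :
    Pr p (fun A => ∃ I J, Disjoint I J ∧ I ⊆ A ∧ J ⊆ A ∧ E I ∧ F J) ≤ Pr p E * Pr p F := by
  have h := bk h0 h1 (univ : Finset α) {A | E A} {A | F A} hE hF
  rw [q_univ, q_univ] at h
  refine le_trans (le_of_eq ?_) h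
  rw [← q_univ]
  rfl

/-- existence of a subset of given size -/
theorem Pr_subset {p : ℝ} (h0 : 0 ≤ p) (h1 : p ≤ 1) (R : Finset α) (m : ℕ) :
    Pr p (fun A => ∃ B, B ⊆ A ∧ B ⊆ R ∧ B.card = m) ≤ (R.card.choose m : ℝ) * p ^ m := by
  have h := Pr_union h0 h1 (R.powersetCard m) (E := fun A => ∃ B, B ⊆ A ∧ B ⊆ R ∧ B.card = m)
    (F := fun B A => B ⊆ A) (by
      rintro A ⟨B, hB1, hB2, hB3⟩
      exact ⟨B, mem_powersetCard.2 ⟨hB2, hB3⟩, hB1⟩)
  refine h.trans (le_of_eq ?_)
  have h2 : ∀ B ∈ R.powersetCard m, Pr p (fun A : Finset α => B ⊆ A) = p ^ m := by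
    intro B hB
    have h3 := sum_w_superset p B
    rw [Finset.sum_filter] at h3
    rw [(mem_powersetCard.1 hB).2] at h3
    rw [← h3, Pr]
    apply Finset.sum_congr rfl
    intro A _
    congr
  rw [Finset.sum_congr rfl h2, Finset.sum_const, card_powersetCard, nsmul_eq_mul]

end Prsec

end Pool.Agent.V5helper97.BootPr
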