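import Mathlib
import Pool.Agent.V5helper97.BootPr

/-!
Runs of plates without two consecutive empty plates.
-/

set_option autoImplicit false
set_option maxHeartbeats 1000000
set_option linter.unusedSectionVars false
set_option linter.unusedVariables false

namespace Pool.Agent.V5helper97.BootRun

open Finset Classical Pool.Agent.Helper384.Bz Pool.Agent.V5helper97.BootPr

variable {α : Type} [Fintype α] [DecidableEq α]

/-- no two consecutive plates among `Q 0, ..., Q (h-1)` are empty and not free -/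
def NR (Q : ℕ → Finset α) (F : Finset ℕ) (h : ℕ) (A : Finset α) : Prop :=
  ∀ k, k + 1 < h → (k ∈ F ∨ k + 1 ∈ F ∨ (A ∩ Q k).Nonempty ∨ (A ∩ Q (k + 1)).Nonempty)

theorem NR.mono {Q : ℕ → Finset α} {F : Finset ℕ} {h h' : ℕ} (hh : h ≤ h') {A : Finset α}
    (H : NR Q F h' A) : NR Q F h A := fun k hk => H k (by omega)

theorem NR_dep (Q : ℕ → Finset α) (F : Finset ℕ) (h : ℕ) :
    Dep ((range h).biUnion Q) (NR Q F h) := by
  intro A B hAB
  have key : ∀ k, k < h → A ∩ Q k = B ∩ Q k := by
    intro k hk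
    have hs : Q k ⊆ (range h).biUnion Q := subset_biUnion_of_mem Q (mem_range.2 hk)
    have e1 : A ∩ Q k = A ∩ (range h).biUnion Q ∩ Q k := by rw [inter_assoc, inter_eq_right.2 hs]
    have e2 : B ∩ Q k = B ∩ (range h).biUnion Q ∩ Q k := by rw [inter_assoc, inter_eq_right.2 hs]
    rw [e1, e2, hAB]
  unfold NR
  constructor
  · intro H k hk
    rw [← key k (by omega), ← key (k + 1) hk]
    exact H k hk
  · intro H k hk
    rw [key k (by omega), key (k + 1) hk]
    exact H k hk

/-- conditions on a run -/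
structure RunOK (p : ℝ) (Q : ℕ → Finset α) (h : ℕ) (u b : ℝ) : Prop where
  dis : ∀ k < h, ∀ k' < h, k ≠ k' → Disjoint (Q k) (Q k')
  hit : ∀ k < h, Pr p (fun A => (A ∩ Q k).Nonempty) = u
  b0 : 0 < b
  b1 : b ≤ 1
  q : u * b + (1 - u) * u ≤ b ^ 2

theorem run {p : ℝ} (h0 : 0 ≤ p) (h1 : p ≤ 1) (X : Finset α) (D : Finset α → Prop) (hD : Dep X D)
    (Q : ℕ → Finset α) (F : Finset ℕ) (u b : ℝ) :
    ∀ h : ℕ, RunOK p Q h u b → (∀ k < h, Disjoint X (Q k)) →
      Pr p (fun A => D A ∧ NR Q F h A) * b ^ (1 + 2 * (F ∩ range h).card) ≤ b ^ h * Pr p D := by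
  intro h
  induction h using Nat.strong_induction_on with
  | _ h ih =>
  intro hok hX
  have hb0 := hok.b0
  have hb1 := hok.b1
  have hPD := Pr_nonneg h0 h1 D
  have hle : ∀ h' : ℕ, Pr p (fun A => D A ∧ NR Q F h' A) ≤ Pr p D := fun h' =>
    Pr_mono h0 h1 (fun A hA => hA.1)
  have hok' : ∀ h', h' ≤ h → RunOK p Q h' u b := fun h' hh' =>
    ⟨fun k hk k' hk' => hok.dis k (by omega) k' (by omega), fun k hk => hok.hit k (by omega),
      hb0, hb1, hok.q⟩
  rcases h with _ | _ | h
  · -- h = 0
    have h2 : b ^ (1 + 2 * (F ∩ range 0).card) ≤ 1 := pow_le_one₀ hb0.le hb1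
    calc _ ≤ Pr p D * 1 := mul_le_mul (hle _) h2 (by positivity) hPD
      _ = _ := by simp
  · -- h = 1
    have h2 : b ^ (1 + 2 * (F ∩ range (0 + 1)).card) ≤ b ^ 1 :=
      pow_le_pow_of_le_one hb0.le hb1 (by omega)
    calc _ ≤ Pr p D * b ^ 1 := mul_le_mul (hle _) h2 (by positivity) hPD
      _ = _ := by ring
  · have ih1 := ih (h + 1) (by omega) (hok' _ (by omega)) (fun k hk => hX k (by omega))
    have ih0 := ih h (by omega) (hok' _ (by omega)) (fun k hk => hX k (by omega))
    have hr2 : range (h + 1 + 1) = insert (h + 1) (range (h + 1)) := range_add_one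
    have hr1 : range (h + 1) = insert h (range h) := range_add_one
    have hn1 : h + 1 ∉ F ∩ range (h + 1) := by simp
    have hn0 : h ∉ F ∩ range h := by simp
    by_cases c1 : h + 1 ∈ F
    · have hc : (F ∩ range (h + 1 + 1)).card = (F ∩ range (h + 1)).card + 1 := by
        rw [hr2, inter_insert_of_mem c1, card_insert_of_notMem hn1]
      rw [hc]
      have hm : Pr p (fun A => D A ∧ NR Q F (h + 1 + 1) A) ≤ Pr p (fun A => D A ∧ NR Q F (h + 1) A) :=
        Pr_mono h0 h1 (fun A hA => ⟨hA.1, hA.2.mono (by omega)⟩)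
      calc Pr p (fun A => D A ∧ NR Q F (h + 1 + 1) A) * b ^ (1 + 2 * ((F ∩ range (h + 1)).card + 1))
          ≤ Pr p (fun A => D A ∧ NR Q F (h + 1) A) * b ^ (1 + 2 * ((F ∩ range (h + 1)).card + 1)) := by
            gcongr
        _ = (Pr p (fun A => D A ∧ NR Q F (h + 1) A) * b ^ (1 + 2 * (F ∩ range (h + 1)).card)) * b ^ 2 := by
            ring
        _ ≤ (b ^ (h + 1) * Pr p D) * b ^ 2 := by gcongr
        _ ≤ (b ^ (h + 1) * Pr p D) * b ^ 1 := by
            apply mul_le_mul_of_nonneg_left (pow_le_pow_of_le_one hb0.le hb1 (by norm_num))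
            positivity
        _ = b ^ (h + 1 + 1) * Pr p D := by ring
    · have hc1 : F ∩ range (h + 1 + 1) = F ∩ range (h + 1) := by
        rw [hr2, inter_insert_of_notMem c1]
      rw [hc1]
      by_cases c0 : h ∈ F
      · have hc : (F ∩ range (h + 1)).card = (F ∩ range h).card + 1 := by
          rw [hr1, inter_insert_of_mem c0, card_insert_of_notMem hn0]
        rw [hc]
        have hm : Pr p (fun A => D A ∧ NR Q F (h + 1 + 1) A) ≤ Pr p (fun A => D A ∧ NR Q F h A) :=
          Pr_mono h0 h1 (fun A hA => ⟨hA.1, hA.2.mono (by omega)⟩)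
        calc Pr p (fun A => D A ∧ NR Q F (h + 1 + 1) A) * b ^ (1 + 2 * ((F ∩ range h).card + 1))
            ≤ Pr p (fun A => D A ∧ NR Q F h A) * b ^ (1 + 2 * ((F ∩ range h).card + 1)) := by
              gcongr
          _ = (Pr p (fun A => D A ∧ NR Q F h A) * b ^ (1 + 2 * (F ∩ range h).card)) * b ^ 2 := by
              ring
          _ ≤ (b ^ h * Pr p D) * b ^ 2 := by gcongr
          _ = b ^ (h + 1 + 1) * Pr p D := by ring
      · have hc0 : F ∩ range (h + 1) = F ∩ range h := by
          rw [hr1, inter_insert_of_notMem c0]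
        rw [hc0] at ih1 ⊢
        -- the recursion
        have hQ1 : Pr p (fun A => (A ∩ Q (h + 1)).Nonempty) = u := hok.hit (h + 1) (by omega)
        have hQ0 : Pr p (fun A => (A ∩ Q h).Nonempty) = u := hok.hit h (by omega)
        have hu0 : 0 ≤ u := by rw [← hQ0]; exact Pr_nonneg h0 h1 _
        have hu1 : u ≤ 1 := by rw [← hQ0]; exact Pr_le_one h0 h1 _
        have dis1 : Disjoint (X ∪ (range (h + 1)).biUnion Q) (Q (h + 1)) := by
          rw [disjoint_union_left, disjoint_biUnion_left]
          refine ⟨hX _ (by omega), fun k hk => hok.dis k ?_ _ (by omega) ?_⟩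
          · have := mem_range.1 hk; omega
          · have := mem_range.1 hk; omega
        have dis0 : Disjoint (X ∪ (range h).biUnion Q) (Q h ∪ Q (h + 1)) := by
          rw [disjoint_union_right]
          constructor
          · rw [disjoint_union_left, disjoint_biUnion_left]
            refine ⟨hX _ (by omega), fun k hk => hok.dis k ?_ _ (by omega) ?_⟩
            · have := mem_range.1 hk; omega
            · have := mem_range.1 hk; omega
          · rw [disjoint_union_left, disjoint_biUnion_left]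
            refine ⟨hX _ (by omega), fun k hk => hok.dis k ?_ _ (by omega) ?_⟩
            · have := mem_range.1 hk; omega
            · have := mem_range.1 hk; omega
        have e1 : Pr p (fun A => (D A ∧ NR Q F (h + 1) A) ∧ (A ∩ Q (h + 1)).Nonempty) =
            Pr p (fun A => D A ∧ NR Q F (h + 1) A) * u := by
          rw [← hQ1]
          exact Pr_indep p dis1 ((hD.mono subset_union_left).and
            ((NR_dep Q F (h + 1)).mono subset_union_right)) (Dep_hit _)
        have e0 : Pr p (fun A => (D A ∧ NR Q F h A) ∧ ((A ∩ Q h).Nonempty ∧ ¬ (A ∩ Q (h + 1)).Nonempty)) =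
            Pr p (fun A => D A ∧ NR Q F h A) * (u * (1 - u)) := by
          have e2 : Pr p (fun A => (A ∩ Q h).Nonempty ∧ ¬ (A ∩ Q (h + 1)).Nonempty) = u * (1 - u) := by
            rw [Pr_indep p (hok.dis h (by omega) (h + 1) (by omega) (by omega)) (Dep_hit _)
              (Dep_avoid _), hQ0, Pr_not, hQ1]
          rw [← e2]
          exact Pr_indep p dis0 ((hD.mono subset_union_left).and
            ((NR_dep Q F h).mono subset_union_right))
            (((Dep_hit _).mono subset_union_left).and ((Dep_avoid _).mono subset_union_right))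
        have e3 : Pr p (fun A => D A ∧ NR Q F (h + 1 + 1) A) ≤
            Pr p (fun A => D A ∧ NR Q F (h + 1) A) * u +
              Pr p (fun A => D A ∧ NR Q F h A) * (u * (1 - u)) := by
          rw [← e1, ← e0]
          apply Pr_or h0 h1
          rintro A ⟨hDA, hNA⟩
          by_cases hh : (A ∩ Q (h + 1)).Nonempty
          · left
            exact ⟨⟨hDA, hNA.mono (by omega)⟩, hh⟩
          · right
            refine ⟨⟨hDA, hNA.mono (by omega)⟩, ?_, hh⟩
            rcases hNA h (by omega) with h3 | h3 | h3 | h3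
            · exact absurd h3 c0
            · exact absurd h3 c1
            · exact h3
            · exact absurd h3 hh
        have hpow : (0:ℝ) ≤ b ^ (1 + 2 * (F ∩ range h).card) := by positivity
        calc Pr p (fun A => D A ∧ NR Q F (h + 1 + 1) A) * b ^ (1 + 2 * (F ∩ range h).card)
            ≤ (Pr p (fun A => D A ∧ NR Q F (h + 1) A) * u +
              Pr p (fun A => D A ∧ NR Q F h A) * (u * (1 - u))) * b ^ (1 + 2 * (F ∩ range h).card) := by
              gcongr
          _ = (Pr p (fun A => D A ∧ NR Q F (h + 1) A) * b ^ (1 + 2 * (F ∩ range h).card)) * u +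
              (Pr p (fun A => D A ∧ NR Q F h A) * b ^ (1 + 2 * (F ∩ range h).card)) * (u * (1 - u)) := by
              ring
          _ ≤ (b ^ (h + 1) * Pr p D) * u + (b ^ h * Pr p D) * (u * (1 - u)) := by
              have : 0 ≤ 1 - u := by linarith
              gcongr
          _ = b ^ h * Pr p D * (u * b + (1 - u) * u) := by ring
          _ ≤ b ^ h * Pr p D * b ^ 2 := by
              apply mul_le_mul_of_nonneg_left hok.q
              positivity
          _ = b ^ (h + 1 + 1) * Pr p D := by ring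

/-- several runs -/
theorem runs {p : ℝ} (h0 : 0 ≤ p) (h1 : p ≤ 1) {ι : Type} (X : Finset α) (D : Finset α → Prop)
    (hD : Dep X D) (Q : ι → ℕ → Finset α) (F : ι → Finset ℕ) (h : ι → ℕ) (u b : ι → ℝ)
    (I : Finset ι) (hok : ∀ r ∈ I, RunOK p (Q r) (h r) (u r) (b r))
    (hX : ∀ r ∈ I, ∀ k < h r, Disjoint X (Q r k))
    (hdis : ∀ r ∈ I, ∀ r' ∈ I, r ≠ r' → ∀ k < h r, ∀ k' < h r', Disjoint (Q r k) (Q r' k')) :
    Pr p (fun A => D A ∧ ∀ r ∈ I, NR (Q r) (F r) (h r) A) *
      ∏ r ∈ I, b r ^ (1 + 2 * (F r ∩ range (h r)).card) ≤ (∏ r ∈ I, b r ^ h r) * Pr p D := by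
  induction I using Finset.induction_on with
  | empty => simp
  | insert r I hr ih =>
    have ih' := ih (fun r' hr' => hok r' (mem_insert_of_mem hr'))
      (fun r' hr' => hX r' (mem_insert_of_mem hr'))
      (fun r1 h1 r2 h2 => hdis r1 (mem_insert_of_mem h1) r2 (mem_insert_of_mem h2))
    obtain ⟨X', hX'⟩ : ∃ X', X' = X ∪ I.biUnion (fun r => (range (h r)).biUnion (Q r)) := ⟨_, rfl⟩
    have hD' : Dep X' (fun A => D A ∧ ∀ r ∈ I, NR (Q r) (F r) (h r) A) := by
      rw [hX']
      apply (hD.mono subset_union_left).and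
      apply Dep.mono _ subset_union_right
      intro A B hAB
      have key : ∀ r ∈ I, (NR (Q r) (F r) (h r) A ↔ NR (Q r) (F r) (h r) B) := by
        intro r' hr'
        have := ((NR_dep (Q r') (F r') (h r')).mono (subset_biUnion_of_mem
          (fun r => (range (h r)).biUnion (Q r)) hr'))
        exact this A B hAB
      constructor
      · intro H r' hr'
        exact (key r' hr').1 (H r' hr')
      · intro H r' hr'
        exact (key r' hr').2 (H r' hr')
    have hrX : ∀ k < h r, Disjoint X' (Q r k) := by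
      intro k hk
      rw [hX', disjoint_union_left, disjoint_biUnion_left]
      refine ⟨hX r (mem_insert_self r I) k hk, fun r' hr' => ?_⟩
      rw [disjoint_biUnion_left]
      intro k' hk'
      exact hdis r' (mem_insert_of_mem hr') r (mem_insert_self r I) (fun e => hr (e ▸ hr')) k'
        (mem_range.1 hk') k hk
    have hrun := run h0 h1 X' _ hD' (Q r) (F r) (u r) (b r) (h r) (hok r (mem_insert_self r I)) hrX
    have hb := (hok r (mem_insert_self r I)).b0
    have hpos : 0 ≤ ∏ r ∈ I, b r ^ (1 + 2 * (F r ∩ range (h r)).card) := by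
      apply prod_nonneg
      intro r' hr'
      have := (hok r' (mem_insert_of_mem hr')).b0
      positivity
    have heq : Pr p (fun A => D A ∧ ∀ r' ∈ insert r I, NR (Q r') (F r') (h r') A) =
        Pr p (fun A => (D A ∧ ∀ r ∈ I, NR (Q r) (F r) (h r) A) ∧ NR (Q r) (F r) (h r) A) := by
      apply Pr_congr
      intro A
      rw [Finset.forall_mem_insert]
      tauto
    rw [heq, prod_insert hr, prod_insert hr]
    calc _ = (Pr p (fun A => (D A ∧ ∀ r ∈ I, NR (Q r) (F r) (h r) A) ∧ NR (Q r) (F r) (h r) A) *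
            b r ^ (1 + 2 * (F r ∩ range (h r)).card)) *
            ∏ r ∈ I, b r ^ (1 + 2 * (F r ∩ range (h r)).card) := by ring
      _ ≤ (b r ^ h r * Pr p (fun A => D A ∧ ∀ r ∈ I, NR (Q r) (F r) (h r) A)) *
            ∏ r ∈ I, b r ^ (1 + 2 * (F r ∩ range (h r)).card) := by gcongr
      _ = b r ^ h r * (Pr p (fun A => D A ∧ ∀ r ∈ I, NR (Q r) (F r) (h r) A) *
            ∏ r ∈ I, b r ^ (1 + 2 * (F r ∩ range (h r)).card)) := by ring
      _ ≤ b r ^ h r * ((∏ r ∈ I, b r ^ h r) * Pr p D) := by gcongr
      _ = _ := by ring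

end Pool.Agent.V5helper97.BootRun
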