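import Mathlib

/-!
The function `β` and the cost function `g = - log β(1 - e^{-x})` of two-neighbour bootstrap
percolation.
-/

set_option autoImplicit false

namespace Pool.Agent.V5helper97.BootG

open Real

/-- the positive root `β` of `β² = u β + (1 - u) u` -/
noncomputable def bet (u : ℝ) : ℝ := (u + √(u * (4 - 3 * u))) / 2

theorem bet_sq {u : ℝ} (h0 : 0 ≤ u) (h1 : u ≤ 1) :
    bet u ^ 2 = u * bet u + (1 - u) * u := by
  have hs : √(u * (4 - 3 * u)) ^ 2 = u * (4 - 3 * u) := by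
    apply Real.sq_sqrt
    nlinarith
  unfold bet
  nlinarith [hs]

theorem le_bet {u : ℝ} (h0 : 0 ≤ u) (h1 : u ≤ 1) : u ≤ bet u := by
  have : u ≤ √(u * (4 - 3 * u)) := by
    apply Real.le_sqrt_of_sq_le
    nlinarith
  unfold bet
  linarith

theorem bet_le_one {u : ℝ} (h0 : 0 ≤ u) (h1 : u ≤ 1) : bet u ≤ 1 := by
  have : √(u * (4 - 3 * u)) ≤ 2 - u := by
    apply Real.sqrt_le_iff.2
    constructor
    · linarith
    · nlinarith [sq_nonneg (1 - u)]
  unfold bet
  linarith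

theorem bet_nonneg {u : ℝ} (h0 : 0 ≤ u) (h1 : u ≤ 1) : 0 ≤ bet u := h0.trans (le_bet h0 h1)

theorem bet_pos {u : ℝ} (h0 : 0 < u) (h1 : u ≤ 1) : 0 < bet u := h0.trans_le (le_bet h0.le h1)

theorem bet_le_of {u t : ℝ} (h0 : 0 ≤ u) (h1 : u ≤ 1) (ht : 0 < t)
    (h : u * t + (1 - u) * u ≤ t ^ 2) : bet u ≤ t := by
  by_contra hcon
  push Not at hcon
  have h2 := bet_sq h0 h1
  have h3 := le_bet h0 h1
  nlinarith [mul_pos (sub_pos.2 hcon) (show 0 < bet u + t - u by linarith)]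

theorem bet_mono {u v : ℝ} (h0 : 0 < u) (huv : u ≤ v) (h1 : v ≤ 1) : bet u ≤ bet v := by
  have hv0 : 0 < v := h0.trans_le huv
  apply bet_le_of h0.le (huv.trans h1) (bet_pos hv0 h1)
  have h2 := bet_sq hv0.le h1
  have h3 := le_bet hv0.le h1
  nlinarith [mul_nonneg (sub_nonneg.2 huv) (show 0 ≤ bet v + 1 - u - v by linarith)]

theorem bet_ratio {u v : ℝ} (h0 : 0 < u) (huv : u ≤ v) (h1 : v ≤ 1) :
    u * bet v ≤ v * bet u := by
  have hv0 : 0 < v := h0.trans_le huv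
  have hb := bet_pos h0 (huv.trans h1)
  have h2 := bet_sq h0.le (huv.trans h1)
  have key : bet v ≤ v / u * bet u := by
    apply bet_le_of hv0.le h1 (by positivity)
    have e1 : (v / u * bet u) ^ 2 = v ^ 2 / u ^ 2 * (u * bet u + (1 - u) * u) := by
      rw [mul_pow, h2, div_pow]
    have e2 : v ^ 2 / u ^ 2 * (u * bet u + (1 - u) * u) = v * (v / u * bet u) + v ^ 2 * (1 - u) / u := by
      field_simp
    rw [e1, e2]
    have : (1 - v) * v ≤ v ^ 2 * (1 - u) / u := by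
      rw [le_div_iff₀ h0]
      nlinarith [mul_pos h0 hv0]
    linarith
  calc u * bet v ≤ u * (v / u * bet u) := by gcongr
    _ = v * bet u := by field_simp

/-- the cost function -/
noncomputable def gf (x : ℝ) : ℝ := -Real.log (bet (1 - Real.exp (-x)))

/-- slope of the tangent of `gf` at `x` (with the opposite sign) -/
noncomputable def Bf (x : ℝ) : ℝ :=
  Real.exp (-x) * (2 * Real.exp (-x) + bet (1 - Real.exp (-x)) - 1) /
    (bet (1 - Real.exp (-x)) * (Real.exp (-x) + 2 * bet (1 - Real.exp (-x)) - 1))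

/-- intercept of the tangent of `gf` at `x` -/
noncomputable def Af (x : ℝ) : ℝ := gf x + x * Bf x

/-- basic relations between `w = e^{-x}` and `b = β(1 - e^{-x})` -/
theorem basic {x : ℝ} (hx : 0 < x) : ∃ w b : ℝ, w = Real.exp (-x) ∧ b = bet (1 - Real.exp (-x)) ∧
    0 < w ∧ w < 1 ∧ 0 < b ∧ b < 1 ∧ w ^ 2 + w * b + b ^ 2 = w + b ∧ 1 - w ≤ b ∧ 1 < w + b := by
  refine ⟨_, _, rfl, rfl, ?_⟩
  have hw0 : 0 < Real.exp (-x) := Real.exp_pos _
  have hw1 : Real.exp (-x) < 1 := by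
    rw [Real.exp_lt_one_iff]; linarith
  set w := Real.exp (-x) with hw
  have hu0 : 0 < 1 - w := by linarith
  have hu1 : 1 - w ≤ 1 := by linarith
  have h1 := bet_sq hu0.le hu1
  have h2 := le_bet hu0.le hu1
  have h3 := bet_le_one hu0.le hu1
  have h4 := bet_pos hu0 hu1
  set b := bet (1 - w) with hb
  have hrel : w ^ 2 + w * b + b ^ 2 = w + b := by nlinarith
  have h5 : w * (w + b - 1) = b * (1 - b) := by nlinarith
  have h6 : 1 ≤ w + b := by linarith
  have h7 : b < 1 := by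
    rcases h3.lt_or_eq with h | h
    · exact h
    · exfalso
      rw [h] at h5
      nlinarith
  have h8 : 1 < w + b := by
    have : 0 < w * (w + b - 1) := by
      rw [h5]; exact mul_pos h4 (by linarith)
    have := (mul_pos_iff_of_pos_left hw0).1 this
    linarith
  exact ⟨hw0, hw1, h4, h7, hrel, h2, h8⟩

theorem gf_pos {x : ℝ} (hx : 0 < x) : 0 < gf x := by
  obtain ⟨w, b, hw, hb, hw0, hw1, hb0, hb1, hrel, h2, h8⟩ := basic hx
  unfold gf
  rw [← hb]
  have := Real.log_neg hb0 hb1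
  linarith

theorem Bf_nonneg {x : ℝ} (hx : 0 < x) : 0 ≤ Bf x := by
  obtain ⟨w, b, hw, hb, hw0, hw1, hb0, hb1, hrel, h2, h8⟩ := basic hx
  unfold Bf
  rw [← hb, ← hw]
  apply div_nonneg
  · apply mul_nonneg hw0.le; linarith
  · apply mul_nonneg hb0.le; linarith

/-- the tangent inequality -/
theorem tangent {x y : ℝ} (hx : 0 < x) (hy : 0 < y) : gf x - Bf x * (y - x) ≤ gf y := by
  obtain ⟨w0, b0, hw, hb, hw0, hw1, hb0, hb1, hrel, h2, h8⟩ := basic hx
  obtain ⟨w, b, hw', hb', hw0', hw1', hb0', hb1', hrel', h2', h8'⟩ := basic hy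
  have hgx : gf x = -Real.log b0 := by rw [gf, hb]
  have hgy : gf y = -Real.log b := by rw [gf, hb']
  have hB : Bf x = w0 * (2 * w0 + b0 - 1) / (b0 * (w0 + 2 * b0 - 1)) := by rw [Bf, hw, hb]
  have hp : 0 < 2 * w0 + b0 - 1 := by linarith
  have hr : 0 < w0 + 2 * b0 - 1 := by linarith
  have hlin : (2 * w0 + b0 - 1) * (w - w0) + (w0 + 2 * b0 - 1) * (b - b0) ≤ 0 := by
    nlinarith [sq_nonneg (w - w0 + (b - b0)), sq_nonneg (w - w0), sq_nonneg (b - b0)]
  have hl1 : Real.log w - Real.log w0 ≤ w / w0 - 1 := by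
    rw [← Real.log_div hw0'.ne' hw0.ne']
    exact Real.log_le_sub_one_of_pos (by positivity)
  have hl2 : Real.log b - Real.log b0 ≤ b / b0 - 1 := by
    rw [← Real.log_div hb0'.ne' hb0.ne']
    exact Real.log_le_sub_one_of_pos (by positivity)
  have hlw : Real.log w = -y := by rw [hw', Real.log_exp]
  have hlw0 : Real.log w0 = -x := by rw [hw, Real.log_exp]
  rw [hlw, hlw0] at hl1
  have e1 : w0 * (w / w0 - 1) = w - w0 := by field_simp
  have e2 : b0 * (b / b0 - 1) = b - b0 := by field_simp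
  have k1 : (2 * w0 + b0 - 1) * (w0 * (-y - -x)) ≤ (2 * w0 + b0 - 1) * (w - w0) := by
    rw [← e1]; gcongr
  have k2 : (w0 + 2 * b0 - 1) * (b0 * (Real.log b - Real.log b0)) ≤ (w0 + 2 * b0 - 1) * (b - b0) := by
    rw [← e2]; gcongr
  have k3 : (2 * w0 + b0 - 1) * (w0 * (-y - -x)) +
      (w0 + 2 * b0 - 1) * (b0 * (Real.log b - Real.log b0)) ≤ 0 := by linarith
  rw [hgx, hgy, hB]
  have hd : 0 < b0 * (w0 + 2 * b0 - 1) := by positivity
  have : -Real.log b0 + Real.log b ≤ w0 * (2 * w0 + b0 - 1) / (b0 * (w0 + 2 * b0 - 1)) * (y - x) := by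
    rw [div_mul_eq_mul_div, le_div_iff₀ hd]
    nlinarith
  linarith

theorem tangent' {x y : ℝ} (hx : 0 < x) (hy : 0 < y) : Af x - Bf x * y ≤ gf y := by
  have := tangent hx hy
  unfold Af
  linarith

theorem gf_anti {x y : ℝ} (hx : 0 < x) (hxy : x ≤ y) : gf y ≤ gf x := by
  have h := tangent (hx.trans_le hxy) hx
  have h2 := Bf_nonneg (hx.trans_le hxy)
  nlinarith [mul_nonneg h2 (sub_nonneg.2 hxy)]

theorem Bf_anti {x y : ℝ} (hx : 0 < x) (hxy : x ≤ y) : Bf y ≤ Bf x := by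
  rcases hxy.eq_or_lt with rfl | hlt
  · exact le_rfl
  have h1 := tangent hx (hx.trans hlt)
  have h2 := tangent (hx.trans hlt) hx
  have h3 : (Bf y - Bf x) * (y - x) ≤ 0 := by nlinarith
  by_contra hcon
  push Not at hcon
  nlinarith [mul_pos (sub_pos.2 hcon) (sub_pos.2 hlt)]

theorem Af_anti {x y : ℝ} (hx : 0 < x) (hxy : x ≤ y) : Af y ≤ Af x := by
  have h1 := tangent' (hx.trans_le hxy) hx
  have h2 := Bf_anti hx hxy
  unfold Af at h1 ⊢
  nlinarith

theorem Af_pos {x : ℝ} (hx : 0 < x) : 0 < Af x := by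
  unfold Af
  have := gf_pos hx
  have := Bf_nonneg hx
  positivity

theorem gf_le_Af {x : ℝ} (hx : 0 < x) : gf x ≤ Af x := by
  unfold Af
  have := Bf_nonneg hx
  nlinarith [mul_nonneg hx.le this]

theorem gf_le_log {x : ℝ} (hx : 0 < x) : gf x ≤ -Real.log (1 - Real.exp (-x)) := by
  obtain ⟨w, b, hw, hb, hw0, hw1, hb0, hb1, hrel, h2, h8⟩ := basic hx
  unfold gf
  rw [← hb, ← hw]
  have := Real.log_le_log (by linarith) h2
  linarith

theorem one_sub_exp_ge {x : ℝ} (hx : 0 ≤ x) (hx1 : x ≤ 1) : x / 2 ≤ 1 - Real.exp (-x) := by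
  have h := Real.add_one_le_exp x
  have h3 : Real.exp (-x) ≤ 1 - x / 2 := by
    rw [Real.exp_neg, inv_le_comm₀ (Real.exp_pos _) (by linarith)]
    refine le_trans ?_ h
    rw [inv_le_iff_one_le_mul₀ (by linarith)]
    nlinarith
  linarith

theorem xBf_le {x : ℝ} (hx : 0 < x) (hx1 : x ≤ 1 / 2) : x * Bf x ≤ 8 := by
  have hw2 : x / 2 ≤ 1 - Real.exp (-x) := one_sub_exp_ge hx.le (by linarith)
  have hw3 : 1 / 2 ≤ Real.exp (-x) := by
    have := Real.add_one_le_exp (-x)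
    linarith
  obtain ⟨w, b, hw, hb, hw0, hw1, hb0, hb1, hrel, h2, h8⟩ := basic hx
  rw [← hw] at hw2 hw3
  unfold Bf
  rw [← hb, ← hw]
  have hr : b ≤ w + 2 * b - 1 := by linarith
  have hr0 : 0 < w + 2 * b - 1 := by linarith
  rw [← mul_div_assoc, div_le_iff₀ (by positivity)]
  have hb2 : x / 4 ≤ b ^ 2 := by nlinarith
  have h9 : b ^ 2 ≤ b * (w + 2 * b - 1) := by nlinarith
  have h10 : w * (2 * w + b - 1) ≤ 2 := by nlinarith
  have h11 : 0 ≤ w * (2 * w + b - 1) := by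
    apply mul_nonneg hw0.le; linarith
  nlinarith

/-- exponential decay of the cost -/
theorem gf_le_exp {x : ℝ} (hx : 1 ≤ x) : gf x ≤ 2 * Real.exp (-x) := by
  have hx0 : 0 < x := by linarith
  have hw3 : Real.exp (-x) ≤ 1 / 2 := by
    have h1 : Real.exp (-x) ≤ Real.exp (-1) := by
      apply Real.exp_le_exp.2; linarith
    have h2 : Real.exp (-1) ≤ 1 / 2 := by
      rw [Real.exp_neg]
      have := Real.add_one_le_exp (1 : ℝ)
      rw [inv_le_comm₀ (Real.exp_pos _) (by norm_num)]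
      linarith
    linarith
  refine (gf_le_log hx0).trans ?_
  have h4 : 0 < 1 - Real.exp (-x) := by linarith
  have h5 := Real.one_sub_inv_le_log_of_pos h4
  have h6 : (1 - Real.exp (-x))⁻¹ ≤ 1 + 2 * Real.exp (-x) := by
    rw [inv_le_comm₀ h4 (by positivity)]
    rw [inv_le_iff_one_le_mul₀ (by positivity)]
    nlinarith [Real.exp_pos (-x)]
  linarith

end Pool.Agent.V5helper97.BootG
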