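import Mathlib
import Pool.Agent.V5helper97.BootG

/-!
Integral facts for `f z = gf (z^2)`.
-/

set_option autoImplicit false

namespace Pool.Agent.V5helper97.BootInt

open Real MeasureTheory Set Pool.Agent.V5helper97.BootG

/-- cost at scaled side length `z` -/
noncomputable def ff (z : ℝ) : ℝ := gf (z ^ 2)

/-- the constant -/
noncomputable def Lam : ℝ := ∫ z in Ioi (0 : ℝ), ff z

theorem ff_pos {z : ℝ} (hz : 0 < z) : 0 < ff z := gf_pos (by positivity)

theorem ff_anti {x y : ℝ} (hx : 0 < x) (hxy : x ≤ y) : ff y ≤ ff x :=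
  gf_anti (by positivity) (by gcongr)

theorem ff_cont : ContinuousOn ff (Ioi 0) := by
  unfold ff gf
  apply ContinuousOn.neg
  apply ContinuousOn.log
  · unfold bet
    fun_prop
  · intro z hz
    have hz' : (0 : ℝ) < z ^ 2 := by
      have : (0 : ℝ) < z := hz
      positivity
    obtain ⟨w, b, hw, hb, hw0, hw1, hb0, hb1, hrel, h2, h8⟩ := basic hz'
    rw [← hb]
    exact hb0.ne'

theorem ff_int01 : IntegrableOn ff (Ioc 0 1) := by
  have h1 : IntegrableOn (fun z : ℝ => Real.log 2 - 2 * Real.log z) (Ioc 0 1) := by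
    have h2 : IntervalIntegrable (fun z : ℝ => Real.log 2 - 2 * Real.log z) volume 0 1 := by
      apply IntervalIntegrable.sub
      · exact intervalIntegrable_const
      · exact (intervalIntegral.intervalIntegrable_log').const_mul 2
    rw [intervalIntegrable_iff_integrableOn_Ioc_of_le zero_le_one] at h2
    exact h2
  refine Integrable.mono' h1 ?_ ?_
  · exact (ff_cont.mono Ioc_subset_Ioi_self).aestronglyMeasurable measurableSet_Ioc
  · refine (ae_restrict_iff' measurableSet_Ioc).2 (Filter.Eventually.of_forall ?_)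
    intro z hz
    have hz0 : 0 < z := hz.1
    have hz2 : (0 : ℝ) < z ^ 2 := by positivity
    have hz3 : z ^ 2 ≤ 1 := by
      have := hz.2
      nlinarith
    rw [Real.norm_of_nonneg (ff_pos hz0).le]
    have h3 := gf_le_log hz2
    have h4 := one_sub_exp_ge hz2.le hz3
    have h5 := Real.log_le_log (by positivity) h4
    rw [Real.log_div (by positivity) (by norm_num), Real.log_pow] at h5
    unfold ff
    push_cast at h5
    linarith

theorem ff_int1 : IntegrableOn ff (Ioi 1) := by
  have h1 : IntegrableOn (fun z : ℝ => 2 * Real.exp (-z)) (Ioi 1) :=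
    (integrableOn_exp_neg_Ioi 1).const_mul 2
  refine Integrable.mono' h1 ?_ ?_
  · exact (ff_cont.mono (Ioi_subset_Ioi zero_le_one)).aestronglyMeasurable measurableSet_Ioi
  · refine (ae_restrict_iff' measurableSet_Ioi).2 (Filter.Eventually.of_forall ?_)
    intro z hz
    have hz0 : (1 : ℝ) < z := hz
    rw [Real.norm_of_nonneg (ff_pos (by linarith)).le]
    have h3 : ff z ≤ 2 * Real.exp (-(z ^ 2)) := gf_le_exp (by nlinarith)
    have h4 : Real.exp (-(z ^ 2)) ≤ Real.exp (-z) := by
      apply Real.exp_le_exp.2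
      nlinarith
    linarith

theorem ff_int : IntegrableOn ff (Ioi 0) := by
  have : Ioi (0 : ℝ) = Ioc 0 1 ∪ Ioi 1 := by
    rw [Ioc_union_Ioi_eq_Ioi zero_le_one]
  rw [this]
  exact ff_int01.union ff_int1

theorem ff_int_sub {a b : ℝ} (ha : 0 ≤ a) : IntegrableOn ff (Ioc a b) :=
  ff_int.mono_set (Ioc_subset_Ioi_self.trans (Ioi_subset_Ioi ha))

theorem ff_ii {a b : ℝ} (ha : 0 ≤ a) (hab : a ≤ b) : IntervalIntegrable ff volume a b := by
  rw [intervalIntegrable_iff_integrableOn_Ioc_of_le hab]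
  exact ff_int_sub ha

theorem ff_ii' {a b : ℝ} (ha : 0 ≤ a) (hb : 0 ≤ b) : IntervalIntegrable ff volume a b := by
  rcases le_total a b with h | h
  · exact ff_ii ha h
  · exact (ff_ii hb h).symm

/-- upper bound on short integrals -/
theorem int_le {a b : ℝ} (ha : 0 < a) (hab : a ≤ b) : ∫ z in a..b, ff z ≤ ff a * (b - a) := by
  have h1 : ∫ z in a..b, ff z ≤ ∫ z in a..b, ff a := by
    apply intervalIntegral.integral_mono_on hab (ff_ii ha.le hab) intervalIntegrable_const
    intro x hx
    exact ff_anti ha hx.1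
  rw [intervalIntegral.integral_const, smul_eq_mul, mul_comm] at h1
  exact h1

theorem le_int {a b : ℝ} (ha : 0 ≤ a) (hab : a < b) : ff b * (b - a) ≤ ∫ z in a..b, ff z := by
  have h1 : ∫ z in a..b, ff b ≤ ∫ z in a..b, ff z := by
    rw [intervalIntegral.integral_of_le hab.le, intervalIntegral.integral_of_le hab.le]
    apply setIntegral_mono_on
    · exact integrableOn_const (by simp)
    · exact ff_int_sub ha
    · exact measurableSet_Ioc
    · intro x hx
      exact ff_anti (ha.trans_lt hx.1) hx.2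
  rw [intervalIntegral.integral_const, smul_eq_mul, mul_comm] at h1
  exact h1

theorem int_nonneg {a b : ℝ} (ha : 0 ≤ a) (hab : a ≤ b) : 0 ≤ ∫ z in a..b, ff z := by
  rw [intervalIntegral.integral_of_le hab]
  apply setIntegral_nonneg measurableSet_Ioc
  intro x hx
  exact (ff_pos (ha.trans_lt hx.1)).le

theorem int_le_Lam {b : ℝ} (hb : 0 ≤ b) : ∫ z in (0:ℝ)..b, ff z ≤ Lam := by
  rw [intervalIntegral.integral_of_le hb]
  apply setIntegral_mono_set ff_int
  · refine (ae_restrict_iff' measurableSet_Ioi).2 (Filter.Eventually.of_forall ?_)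
    intro z hz
    exact (ff_pos hz).le
  · exact Ioc_subset_Ioi_self.eventuallyLE

/-- Riemann sums are below the integral -/
theorem sum_le {q : ℝ} (hq : 0 < q) (N : ℕ) :
    ∑ j ∈ Finset.range N, ff (q * (j + 1)) ≤ Lam / q := by
  have key : ∀ N : ℕ, q * ∑ j ∈ Finset.range N, ff (q * (j + 1)) ≤ ∫ z in (0:ℝ)..(q * N), ff z := by
    intro N
    induction N with
    | zero => simp
    | succ N ih =>
      rw [Finset.sum_range_succ, mul_add]
      have h1 : (0 : ℝ) ≤ q * N := by positivity
      have h2 : q * (N : ℝ) < q * ((N : ℝ) + 1) := by nlinarith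
      have h3 := le_int h1 h2
      have h4 := intervalIntegral.integral_add_adjacent_intervals
        (ff_ii' le_rfl h1) (ff_ii h1 h2.le)
      push_cast
      rw [← h4]
      have e : q * ((N : ℝ) + 1) - q * N = q := by ring
      rw [e] at h3
      linarith
  have h1 := key N
  have h2 := int_le_Lam (b := q * N) (by positivity)
  rw [le_div_iff₀ hq]
  linarith

theorem Lam_pos : 0 < Lam := by
  have h1 := sum_le (q := 1) one_pos 1
  simp only [Finset.range_one, Finset.sum_singleton, Nat.cast_zero, zero_add, mul_one, div_one] at h1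
  exact (ff_pos one_pos).trans_le h1

/-- truncations of the integral -/
theorem trunc (ε : ℝ) (hε : 0 < ε) : ∃ a b : ℝ, 0 < a ∧ a < b ∧ ∀ z, 0 < z → z ≤ a →
    Lam - ε ≤ ∫ t in z..b, ff t := by
  have h1 : Filter.Tendsto (fun b : ℝ => ∫ t in (0:ℝ)..b, ff t) Filter.atTop (nhds Lam) :=
    intervalIntegral_tendsto_integral_Ioi 0 ff_int Filter.tendsto_id
  have h2 : ∀ᶠ b in Filter.atTop, Lam - ε / 2 < ∫ t in (0:ℝ)..b, ff t :=
    h1.eventually (lt_mem_nhds (by linarith))
  obtain ⟨b, hb1, hb2⟩ := (h2.and (Filter.eventually_gt_atTop 1)).exists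
  have h3 : ContinuousOn (fun z : ℝ => ∫ t in (0:ℝ)..z, ff t) (Icc 0 1) := by
    rw [← uIcc_of_le (zero_le_one (α := ℝ))]
    apply intervalIntegral.continuousOn_primitive_interval
    rw [uIcc_of_le zero_le_one, integrableOn_Icc_iff_integrableOn_Ioc]
    exact ff_int01
  have h4 : ∀ᶠ z in nhdsWithin 0 (Icc (0:ℝ) 1), (∫ t in (0:ℝ)..z, ff t) < ε / 2 := by
    have h5 := h3 0 ⟨le_rfl, zero_le_one⟩
    have h6 : (∫ t in (0:ℝ)..(0:ℝ), ff t) < ε / 2 := by
      rw [intervalIntegral.integral_same]; linarith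
    exact h5.eventually (gt_mem_nhds h6)
  rw [Filter.Eventually, mem_nhdsWithin_iff_exists_mem_nhds_inter] at h4
  obtain ⟨u, hu, hu2⟩ := h4
  obtain ⟨δ, hδ, hδ2⟩ := Metric.mem_nhds_iff.1 hu
  refine ⟨min (δ / 2) 1, b, by positivity, ?_, ?_⟩
  · exact (min_le_right _ _).trans_lt hb2
  · intro z hz0 hz
    have hz1 : z ≤ 1 := hz.trans (min_le_right _ _)
    have hz2 : z ≤ δ / 2 := hz.trans (min_le_left _ _)
    have h7 : z ∈ u ∩ Icc 0 1 := by
      refine ⟨hδ2 ?_, hz0.le, hz1⟩
      rw [Metric.mem_ball, Real.dist_eq, sub_zero, abs_of_pos hz0]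
      linarith
    have h8 : (∫ t in (0:ℝ)..z, ff t) < ε / 2 := hu2 h7
    have h9 := intervalIntegral.integral_add_adjacent_intervals
        (ff_ii (le_refl 0) hz0.le) (ff_ii hz0.le (hz1.trans hb2.le))
    linarith

end Pool.Agent.V5helper97.BootInt
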