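import Mathlib
import Pool.Agent.V5helper97.BootInt

/-!
Lattice paths of boxes and their minimal cost.
-/

set_option autoImplicit false
set_option maxHeartbeats 1000000

namespace Pool.Agent.V5helper97.BootPath

open Real MeasureTheory Set Pool.Agent.V5helper97.BootG Pool.Agent.V5helper97.BootInt

/-- area of the face orthogonal to direction `i` -/
noncomputable def ar (y : Fin 3 → ℕ) (i : Fin 3) : ℝ := ∏ j ∈ Finset.univ.erase i, (y j : ℝ)

/-- increase one side by one -/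
def up (y : Fin 3 → ℕ) (i : Fin 3) : Fin 3 → ℕ := Function.update y i (y i + 1)

/-- costs of lattice paths from `(1,1,1)` -/
inductive Reach (κ : ℝ) (γ : ℝ → ℝ) : (Fin 3 → ℕ) → ℝ → Prop
  | base : Reach κ γ (fun _ => 1) 0
  | step (y : Fin 3 → ℕ) (c : ℝ) (i : Fin 3) : Reach κ γ y c →
      Reach κ γ (up y i) (c + γ (κ * ar y i))

theorem up_self (y : Fin 3 → ℕ) (i : Fin 3) : up y i i = y i + 1 := by simp [up]

theorem up_ne (y : Fin 3 → ℕ) {i j : Fin 3} (h : j ≠ i) : up y i j = y j := by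
  simp [up, Function.update_of_ne h]

theorem up_le (y : Fin 3 → ℕ) (i j : Fin 3) : y j ≤ up y i j := by
  by_cases h : j = i
  · subst h; rw [up_self]; omega
  · rw [up_ne y h]

theorem Reach.one_le {κ : ℝ} {γ : ℝ → ℝ} {y : Fin 3 → ℕ} {c : ℝ} (h : Reach κ γ y c) (j : Fin 3) :
    1 ≤ y j := by
  induction h with
  | base => exact le_rfl
  | step y c i _ ih => exact ih.trans (up_le y i j)

theorem Reach.nonneg {κ : ℝ} {γ : ℝ → ℝ} (hγ : ∀ x, 0 ≤ γ x) {y : Fin 3 → ℕ} {c : ℝ}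
    (h : Reach κ γ y c) : 0 ≤ c := by
  induction h with
  | base => exact le_rfl
  | step y c i _ ih => have := hγ (κ * ar y i); linarith

/-- volume -/
noncomputable def vo (y : Fin 3 → ℕ) : ℝ := ∏ j, (y j : ℝ)

/-- sum of the sides -/
noncomputable def sm (y : Fin 3 → ℕ) : ℝ := ∑ j, (y j : ℝ)

theorem vo_up (y : Fin 3 → ℕ) (i : Fin 3) : vo (up y i) = vo y + ar y i := by
  unfold vo ar
  rw [← Finset.mul_prod_erase Finset.univ _ (Finset.mem_univ i),
    ← Finset.mul_prod_erase Finset.univ (fun j => (y j : ℝ)) (Finset.mem_univ i)]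
  have : ∏ x ∈ Finset.univ.erase i, ((up y i x : ℕ) : ℝ) = ∏ x ∈ Finset.univ.erase i, (y x : ℝ) := by
    apply Finset.prod_congr rfl
    intro x hx
    rw [up_ne y (Finset.ne_of_mem_erase hx)]
  rw [this, up_self]
  push_cast
  ring

theorem sm_up (y : Fin 3 → ℕ) (i : Fin 3) : sm (up y i) = sm y + 1 := by
  unfold sm
  rw [← Finset.add_sum_erase Finset.univ _ (Finset.mem_univ i),
    ← Finset.add_sum_erase Finset.univ (fun j => (y j : ℝ)) (Finset.mem_univ i)]
  have : ∑ x ∈ Finset.univ.erase i, ((up y i x : ℕ) : ℝ) = ∑ x ∈ Finset.univ.erase i, (y x : ℝ) := by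
    apply Finset.sum_congr rfl
    intro x hx
    rw [up_ne y (Finset.ne_of_mem_erase hx)]
  rw [this, up_self]
  push_cast
  ring

theorem ar_le (y : Fin 3 → ℕ) (i : Fin 3) (M : ℝ) (hM : ∀ j, (y j : ℝ) ≤ M) : ar y i ≤ M ^ 2 := by
  unfold ar
  calc ∏ j ∈ Finset.univ.erase i, (y j : ℝ) ≤ ∏ j ∈ Finset.univ.erase i, M :=
        Finset.prod_le_prod (fun _ _ => by positivity) (fun j _ => hM j)
    _ = M ^ 2 := by
      rw [Finset.prod_const, Finset.card_erase_of_mem (Finset.mem_univ i), Finset.card_univ,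
        Fintype.card_fin]

theorem ar_pos (y : Fin 3 → ℕ) (i : Fin 3) (h : ∀ j, 1 ≤ y j) : 1 ≤ ar y i := by
  unfold ar
  calc (1 : ℝ) = ∏ j ∈ Finset.univ.erase i, (1 : ℝ) := by simp
    _ ≤ _ := Finset.prod_le_prod (fun _ _ => zero_le_one) (fun j _ => by exact_mod_cast h j)

theorem ar_mono {y z : Fin 3 → ℕ} (i : Fin 3) (h : ∀ j, j ≠ i → y j ≤ z j) : ar y i ≤ ar z i := by
  unfold ar
  apply Finset.prod_le_prod
  · intro j _; positivity
  · intro j hj
    exact_mod_cast h j (Finset.ne_of_mem_erase hj)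

theorem vo_nonneg (y : Fin 3 → ℕ) : 0 ≤ vo y := by unfold vo; positivity

theorem vo_le (y : Fin 3 → ℕ) (M : ℝ) (hM : ∀ j, (y j : ℝ) ≤ M) : vo y ≤ M ^ 3 := by
  unfold vo
  calc ∏ j, (y j : ℝ) ≤ ∏ j : Fin 3, M :=
        Finset.prod_le_prod (fun _ _ => by positivity) (fun j _ => hM j)
    _ = M ^ 3 := by
      rw [Finset.prod_const, Finset.card_univ, Fintype.card_fin]

/-- cube root -/
noncomputable def cb (x : ℝ) : ℝ := x ^ ((1 : ℝ) / 3)

theorem cb_nonneg {x : ℝ} (hx : 0 ≤ x) : 0 ≤ cb x := Real.rpow_nonneg hx _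

theorem cb_pow {x : ℝ} (hx : 0 ≤ x) : cb x ^ 3 = x := by
  unfold cb
  rw [← Real.rpow_natCast, ← Real.rpow_mul hx]
  norm_num

theorem cb_mono {x y : ℝ} (hx : 0 ≤ x) (h : x ≤ y) : cb x ≤ cb y :=
  Real.rpow_le_rpow hx h (by norm_num)

theorem cb_le_of {x y : ℝ} (hx : 0 ≤ x) (hy : 0 ≤ y) (h : x ≤ y ^ 3) : cb x ≤ y := by
  have := cb_pow hx
  by_contra hcon
  push Not at hcon
  have := pow_lt_pow_left₀ hcon hy (n := 3) (by norm_num)
  linarith

theorem amgm (y : Fin 3 → ℕ) : 3 * cb (vo y) ≤ sm y := by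
  have h1 : cb (vo y) ≤ sm y / 3 := by
    apply cb_le_of (vo_nonneg y)
    · unfold sm; positivity
    · unfold vo sm
      rw [Fin.prod_univ_three, Fin.sum_univ_three]
      have a0 : (0:ℝ) ≤ y 0 := by positivity
      have a1 : (0:ℝ) ≤ y 1 := by positivity
      have a2 : (0:ℝ) ≤ y 2 := by positivity
      generalize (y 0 : ℝ) = a at *
      generalize (y 1 : ℝ) = b at *
      generalize (y 2 : ℝ) = c at *
      nlinarith [mul_nonneg a0 (sq_nonneg (b - c)), mul_nonneg a1 (sq_nonneg (a - c)),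
        mul_nonneg a2 (sq_nonneg (a - b)), mul_nonneg (add_nonneg (add_nonneg a0 a1) a2)
          (add_nonneg (add_nonneg (sq_nonneg (a - b)) (sq_nonneg (b - c))) (sq_nonneg (a - c)))]
  linarith

section low

variable (κ z0 : ℝ)

/-- truncated scaled size -/
noncomputable def vv (y : Fin 3 → ℕ) : ℝ := max z0 (√κ * cb (vo y))

/-- the potential -/
noncomputable def Psi (y : Fin 3 → ℕ) : ℝ :=
  Af (vv κ z0 y ^ 2) * (sm y - 3 / √κ * (vv κ z0 y - z0)) +
    3 / √κ * (∫ t in z0..vv κ z0 y, ff t) - Bf (z0 ^ 2) * min (κ * vo y) (z0 ^ 3 / √κ)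

theorem sig_nonneg (hκ : 0 < κ) (hz : 0 < z0) (y : Fin 3 → ℕ) :
    0 ≤ sm y - 3 / √κ * (vv κ z0 y - z0) := by
  have hs : 0 < √κ := Real.sqrt_pos.2 hκ
  unfold vv
  rcases le_total z0 (√κ * cb (vo y)) with h | h
  · rw [max_eq_right h]
    have h1 := amgm y
    have h2 : 3 / √κ * (√κ * cb (vo y) - z0) ≤ 3 * cb (vo y) := by
      have e : 3 / √κ * (√κ * cb (vo y) - z0) = 3 * cb (vo y) - 3 / √κ * z0 := by
        field_simp
      rw [e]
      have : 0 ≤ 3 / √κ * z0 := by positivity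
      linarith
    linarith
  · rw [max_eq_left h, sub_self, mul_zero, sub_zero]
    unfold sm; positivity

theorem kvo (hκ : 0 < κ) (y : Fin 3 → ℕ) : κ * vo y = (√κ * cb (vo y)) ^ 3 / √κ := by
  have hs : 0 < √κ := Real.sqrt_pos.2 hκ
  have h2 : √κ ^ 2 = κ := Real.sq_sqrt hκ.le
  rw [mul_pow, cb_pow (vo_nonneg y)]
  rw [eq_div_iff hs.ne']
  have : √κ ^ 3 = κ * √κ := by rw [pow_succ, h2]
  rw [this]; ring

theorem kvo_split (hκ : 0 < κ) (hz : 0 < z0) (y : Fin 3 → ℕ) :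
    κ * vo y = min (κ * vo y) (z0 ^ 3 / √κ) + (vv κ z0 y) ^ 3 / √κ - z0 ^ 3 / √κ := by
  have hs : 0 < √κ := Real.sqrt_pos.2 hκ
  have hk := kvo κ hκ y
  have hc : 0 ≤ √κ * cb (vo y) := mul_nonneg hs.le (cb_nonneg (vo_nonneg y))
  unfold vv
  rcases le_total z0 (√κ * cb (vo y)) with h | h
  · rw [max_eq_right h]
    have h1 : z0 ^ 3 / √κ ≤ κ * vo y := by
      rw [hk]; gcongr
    rw [min_eq_right h1, hk]; ring
  · rw [max_eq_left h]
    have h1 : κ * vo y ≤ z0 ^ 3 / √κ := by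
      rw [hk]; gcongr
    rw [min_eq_left h1]; ring

/-- one step of the potential -/
theorem Psi_step (hκ : 0 < κ) (hz : 0 < z0) (M : ℝ) (y : Fin 3 → ℕ)
    (hy : ∀ j, 1 ≤ y j) (i : Fin 3) (hM : ∀ j, ((up y i j : ℕ) : ℝ) ≤ M) (G : ℝ) (hG : Af (z0 ^ 2) ≤ G) :
    Psi κ z0 (up y i) - Psi κ z0 y ≤ min (gf (κ * ar y i)) G +
      3 * Bf (z0 ^ 2) * (κ ^ 2 * √κ * M ^ 4) * max z0 (√κ * M) / z0 ^ 4 := by
  have hs : 0 < √κ := Real.sqrt_pos.2 hκ
  have hs2 : √κ ^ 2 = κ := Real.sq_sqrt hκ.le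
  have hM0 : 0 ≤ M := le_trans (by positivity) (hM 0)
  have hMy : ∀ j, (y j : ℝ) ≤ M := fun j => le_trans (by exact_mod_cast up_le y i j) (hM j)
  have har : 1 ≤ ar y i := ar_pos y i hy
  have hx : 0 < κ * ar y i := by positivity
  obtain ⟨a, ha⟩ : ∃ a, a = vv κ z0 y := ⟨_, rfl⟩
  obtain ⟨b, hb⟩ : ∃ b, b = vv κ z0 (up y i) := ⟨_, rfl⟩
  have hvo : vo y ≤ vo (up y i) := by rw [vo_up]; linarith
  have hza : z0 ≤ a := by rw [ha]; exact le_max_left _ _
  have hab : a ≤ b := by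
    rw [ha, hb]
    exact max_le_max le_rfl (mul_le_mul_of_nonneg_left (cb_mono (vo_nonneg y) hvo) hs.le)
  have ha0 : 0 < a := hz.trans_le hza
  have hb0 : 0 < b := ha0.trans_le hab
  have hbM : b ≤ max z0 (√κ * M) := by
    rw [hb]
    apply max_le_max le_rfl
    apply mul_le_mul_of_nonneg_left _ hs.le
    exact cb_le_of (vo_nonneg _) hM0 (vo_le _ M hM)
  have hsig := sig_nonneg κ z0 hκ hz (up y i)
  rw [← hb] at hsig
  have hBn := Bf_nonneg (x := z0 ^ 2) (by positivity)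
  have hBa := Bf_nonneg (x := a ^ 2) (by positivity)
  have hBaz : Bf (a ^ 2) ≤ Bf (z0 ^ 2) := Bf_anti (by positivity) (by gcongr)
  have hAab : Af (b ^ 2) ≤ Af (a ^ 2) := Af_anti (by positivity) (by gcongr)
  have hAz : Af (a ^ 2) ≤ Af (z0 ^ 2) := Af_anti (by positivity) (by gcongr)
  obtain ⟨m1, hm1⟩ : ∃ m, m = min (κ * vo y) (z0 ^ 3 / √κ) := ⟨_, rfl⟩
  obtain ⟨m2, hm2⟩ : ∃ m, m = min (κ * vo (up y i)) (z0 ^ 3 / √κ) := ⟨_, rfl⟩
  have hm12 : m1 ≤ m2 := by
    rw [hm1, hm2]; exact min_le_min (by gcongr) le_rfl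
  -- volume increment
  have hinc : κ * ar y i = (m2 - m1) + (b ^ 3 - a ^ 3) / √κ := by
    have e1 := kvo_split κ z0 hκ hz y
    have e2 := kvo_split κ z0 hκ hz (up y i)
    rw [← ha, ← hm1] at e1
    rw [← hb, ← hm2, vo_up, mul_add] at e2
    rw [sub_div]
    linarith
  -- the slope
  have hBm : Bf (a ^ 2) * (m2 - m1) = Bf (z0 ^ 2) * (m2 - m1) := by
    rcases hza.eq_or_lt with h | h
    · rw [h]
    · have h3 : z0 < √κ * cb (vo y) := by
        rw [ha] at h
        unfold vv at h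
        rcases lt_max_iff.1 h with h | h
        · exact absurd h (lt_irrefl _)
        · exact h
      have h4 : z0 ^ 3 / √κ ≤ κ * vo y := by
        rw [kvo κ hκ y]; gcongr
      have h5 : z0 ^ 3 / √κ ≤ κ * vo (up y i) := h4.trans (by gcongr)
      rw [hm1, hm2, min_eq_right h4, min_eq_right h5, sub_self, mul_zero, mul_zero]
  -- integral
  have hint : (∫ t in z0..b, ff t) = (∫ t in z0..a, ff t) + ∫ t in a..b, ff t := by
    rw [intervalIntegral.integral_add_adjacent_intervals (ff_ii hz.le hza) (ff_ii ha0.le hab)]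
  have hint2 := int_le ha0 hab
  have hff : ff a = Af (a ^ 2) - a ^ 2 * Bf (a ^ 2) := by unfold ff Af; ring
  -- increments of `v`
  have hba : b - a ≤ κ * √κ * M ^ 2 / z0 ^ 2 := by
    rcases (le_max_left z0 (√κ * cb (vo (up y i)))).eq_or_lt with h | h
    · have : b = z0 := by rw [hb]; exact h.symm
      have : b - a ≤ 0 := by linarith
      exact this.trans (by positivity)
    · have h3 : z0 < √κ * cb (vo (up y i)) := by
        rcases lt_max_iff.1 h with h | h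
        · exact absurd h (lt_irrefl _)
        · exact h
      have hbe : b = √κ * cb (vo (up y i)) := by rw [hb]; exact max_eq_right h3.le
      have hae : √κ * cb (vo y) ≤ a := by rw [ha]; exact le_max_right _ _
      have hv0 : 0 ≤ √κ * cb (vo y) := mul_nonneg hs.le (cb_nonneg (vo_nonneg y))
      have e1 := kvo κ hκ y
      have e2 := kvo κ hκ (up y i)
      rw [← hbe, vo_up, mul_add] at e2
      obtain ⟨v, hv⟩ : ∃ v, v = √κ * cb (vo y) := ⟨_, rfl⟩
      rw [← hv] at e1 hae hv0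
      have e3 : b ^ 3 - v ^ 3 = √κ * (κ * ar y i) := by
        have : κ * ar y i = (b ^ 3 - v ^ 3) / √κ := by rw [sub_div]; linarith
        rw [this]; field_simp
      have hvb : v ≤ b := hae.trans hab
      have e4 : (b - v) * b ^ 2 ≤ √κ * (κ * M ^ 2) := by
        have h5 : (b - v) * b ^ 2 ≤ b ^ 3 - v ^ 3 := by
          nlinarith [mul_nonneg (sub_nonneg.2 hvb) (mul_nonneg hb0.le hv0),
            mul_nonneg (sub_nonneg.2 hvb) (mul_nonneg hv0 hv0)]
        rw [e3] at h5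
        refine h5.trans ?_
        gcongr
        exact ar_le y i M hMy
      have e5 : (b - a) * z0 ^ 2 ≤ κ * √κ * M ^ 2 := by
        have h6 : (b - a) * z0 ^ 2 ≤ (b - v) * b ^ 2 := by
          apply mul_le_mul (by linarith) _ (by positivity) (by linarith)
          exact pow_le_pow_left₀ hz.le (hza.trans hab) 2
        linarith
      rw [le_div_iff₀ (by positivity)]
      exact e5
  -- the error term
  have herr : Bf (a ^ 2) * ((b - a) ^ 2 * (b + 2 * a) / √κ) ≤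
      3 * Bf (z0 ^ 2) * (κ ^ 2 * √κ * M ^ 4) * max z0 (√κ * M) / z0 ^ 4 := by
    have h1 : (b - a) ^ 2 ≤ (κ * √κ * M ^ 2 / z0 ^ 2) ^ 2 :=
      pow_le_pow_left₀ (by linarith) hba 2
    have h2 : b + 2 * a ≤ 3 * max z0 (√κ * M) := by linarith
    have h3 : (b - a) ^ 2 * (b + 2 * a) / √κ ≤
        (κ * √κ * M ^ 2 / z0 ^ 2) ^ 2 * (3 * max z0 (√κ * M)) / √κ := by
      gcongr
    have h4 : (κ * √κ * M ^ 2 / z0 ^ 2) ^ 2 * (3 * max z0 (√κ * M)) / √κ =
        3 * (κ ^ 2 * √κ * M ^ 4) * max z0 (√κ * M) / z0 ^ 4 := by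
      field_simp
    rw [h4] at h3
    calc Bf (a ^ 2) * ((b - a) ^ 2 * (b + 2 * a) / √κ)
        ≤ Bf (z0 ^ 2) * (3 * (κ ^ 2 * √κ * M ^ 4) * max z0 (√κ * M) / z0 ^ 4) := by
          apply mul_le_mul hBaz h3 _ hBn
          have : 0 ≤ b - a := by linarith
          positivity
      _ = _ := by ring
  -- the lower bound for the cost
  have hcost : Af (a ^ 2) - Bf (a ^ 2) * (κ * ar y i) ≤ min (gf (κ * ar y i)) G := by
    apply le_min
    · exact tangent' (by positivity) hx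
    · have : 0 ≤ Bf (a ^ 2) * (κ * ar y i) := by positivity
      linarith
  -- the potential
  have hPsi : Psi κ z0 (up y i) - Psi κ z0 y ≤
      Af (a ^ 2) - 3 / √κ * (a ^ 2 * Bf (a ^ 2)) * (b - a) - Bf (z0 ^ 2) * (m2 - m1) := by
    unfold Psi
    rw [← ha, ← hb, ← hm1, ← hm2, hint, sm_up]
    have k1 : Af (b ^ 2) * (sm y + 1 - 3 / √κ * (b - z0)) ≤
        Af (a ^ 2) * (sm y + 1 - 3 / √κ * (b - z0)) := by
      apply mul_le_mul_of_nonneg_right hAab
      rw [sm_up] at hsig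
      exact hsig
    have k2 : 3 / √κ * (∫ t in a..b, ff t) ≤ 3 / √κ * ((Af (a ^ 2) - a ^ 2 * Bf (a ^ 2)) * (b - a)) := by
      rw [← hff]
      gcongr
    have k3 : Af (a ^ 2) * (sm y + 1 - 3 / √κ * (b - z0)) - Af (a ^ 2) * (sm y - 3 / √κ * (a - z0)) +
        3 / √κ * ((Af (a ^ 2) - a ^ 2 * Bf (a ^ 2)) * (b - a)) =
        Af (a ^ 2) - 3 / √κ * (a ^ 2 * Bf (a ^ 2)) * (b - a) := by ring
    have k4 : 3 / √κ * ((∫ t in z0..a, ff t) + ∫ t in a..b, ff t) =
        3 / √κ * (∫ t in z0..a, ff t) + 3 / √κ * ∫ t in a..b, ff t := mul_add _ _ _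
    have k5 : Bf (z0 ^ 2) * (m2 - m1) = Bf (z0 ^ 2) * m2 - Bf (z0 ^ 2) * m1 := mul_sub _ _ _
    rw [k4, k5]
    linarith
  have hfin : Bf (a ^ 2) * (κ * ar y i) = Bf (z0 ^ 2) * (m2 - m1) +
      3 / √κ * (a ^ 2 * Bf (a ^ 2)) * (b - a) + Bf (a ^ 2) * ((b - a) ^ 2 * (b + 2 * a) / √κ) := by
    rw [hinc, mul_add, hBm]
    field_simp
    ring
  linarith

theorem low (hκ : 0 < κ) (hz : 0 < z0) (M : ℝ) (γ : ℝ → ℝ) (G ε : ℝ) (hG : Af (z0 ^ 2) ≤ G)
    (hγ : ∀ x, 0 < x → min (gf x) G - ε ≤ γ x) {y : Fin 3 → ℕ} {c : ℝ}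
    (h : Reach κ γ y c) (hM : ∀ j, (y j : ℝ) ≤ M) :
    Psi κ z0 y - Psi κ z0 (fun _ => 1) - (sm y - 3) *
      (ε + 3 * Bf (z0 ^ 2) * (κ ^ 2 * √κ * M ^ 4) * max z0 (√κ * M) / z0 ^ 4) ≤ c := by
  induction h with
  | base =>
    have : sm (fun _ => 1) = 3 := by
      unfold sm; simp
    rw [this]; simp
  | step y c i hr ih =>
    have hMy : ∀ j, (y j : ℝ) ≤ M := fun j => le_trans (by exact_mod_cast up_le y i j) (hM j)
    have h1 := ih hMy
    have hy : ∀ j, 1 ≤ y j := fun j => hr.one_le j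
    have h2 := Psi_step κ z0 hκ hz M y hy i hM G hG
    have har : 1 ≤ ar y i := ar_pos y i hy
    have h3 := hγ (κ * ar y i) (by positivity)
    rw [sm_up]
    linarith

/-- value of the potential at large boxes -/
theorem Psi_large (hκ : 0 < κ) (hz : 0 < z0) (ε K : ℝ)
    (hK : z0 ≤ K) (hint : Lam - ε ≤ ∫ t in z0..K, ff t) (B : ℝ)
    (hB : 3 * Lam ≤ Af (K ^ 2) * (B - 3 * K)) (y : Fin 3 → ℕ)
    (hy : B / √κ ≤ sm y) :
    (3 * Lam - 3 * ε) / √κ - Bf (z0 ^ 2) * z0 ^ 3 / √κ ≤ Psi κ z0 y := by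
  have hs : 0 < √κ := Real.sqrt_pos.2 hκ
  have hsig := sig_nonneg κ z0 hκ hz y
  obtain ⟨a, ha⟩ : ∃ a, a = vv κ z0 y := ⟨_, rfl⟩
  have hza : z0 ≤ a := by rw [ha]; exact le_max_left _ _
  have ha0 : 0 < a := hz.trans_le hza
  have hBn := Bf_nonneg (x := z0 ^ 2) (by positivity)
  have hAa := Af_pos (x := a ^ 2) (by positivity)
  have hmin : Bf (z0 ^ 2) * min (κ * vo y) (z0 ^ 3 / √κ) ≤ Bf (z0 ^ 2) * z0 ^ 3 / √κ := by
    rw [mul_div_assoc]
    exact mul_le_mul_of_nonneg_left (min_le_right _ _) hBn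
  unfold Psi
  rw [← ha] at hsig ⊢
  have hI := int_nonneg hz.le hza
  rcases le_total K a with h | h
  · have h1 : (∫ t in z0..a, ff t) = (∫ t in z0..K, ff t) + ∫ t in K..a, ff t := by
      rw [intervalIntegral.integral_add_adjacent_intervals (ff_ii hz.le hK)
        (ff_ii (hz.le.trans hK) h)]
    have h2 := int_nonneg (hz.le.trans hK) h
    have h3 : (3 * Lam - 3 * ε) / √κ ≤ 3 / √κ * ∫ t in z0..a, ff t := by
      rw [div_mul_eq_mul_div]
      gcongr
      linarith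
    have h4 := mul_nonneg hAa.le hsig
    linarith
  · have h1 : Af (K ^ 2) ≤ Af (a ^ 2) := Af_anti (by positivity) (by gcongr)
    have h2 : (3 * Lam) / √κ ≤ Af (a ^ 2) * (sm y - 3 / √κ * (a - z0)) := by
      have h3 : (B - 3 * K) / √κ ≤ sm y - 3 / √κ * (a - z0) := by
        have h5 : 3 / √κ * (a - z0) ≤ 3 * K / √κ := by
          rw [div_mul_eq_mul_div]
          gcongr
          linarith
        rw [sub_div]
        linarith
      have h6 : 0 < Af (K ^ 2) := Af_pos (by have := hz.trans_le hK; positivity)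
      have h7 : 0 ≤ (B - 3 * K) / √κ := by
        apply div_nonneg _ hs.le
        have := Lam_pos
        by_contra hcon
        push Not at hcon
        nlinarith
      calc (3 * Lam) / √κ ≤ Af (K ^ 2) * (B - 3 * K) / √κ := by gcongr
        _ = Af (K ^ 2) * ((B - 3 * K) / √κ) := by ring
        _ ≤ _ := mul_le_mul h1 h3 h7 hAa.le
    have h8 : 0 ≤ 3 / √κ * ∫ t in z0..a, ff t := by positivity
    have h9 : (3 * Lam - 3 * ε) / √κ ≤ 3 * Lam / √κ ∨ ε < 0 := by
      by_cases hε : 0 ≤ ε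
      · left; gcongr; linarith
      · right; linarith
    rcases h9 with h9 | h9
    · linarith
    · exfalso
      have h10 : (∫ t in z0..K, ff t) ≤ Lam := by
        have h11 := int_le_Lam (b := K) (by linarith)
        have h12 := intervalIntegral.integral_add_adjacent_intervals
          (ff_ii (le_refl 0) hz.le) (ff_ii hz.le hK)
        have h13 := int_nonneg (le_refl 0) hz.le
        linarith
      linarith

end low

end Pool.Agent.V5helper97.BootPath
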