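import Mathlib
import Pool.Agent.V5helper97.BootPath

/-!
The minimal cost of a box.
-/

set_option autoImplicit false
set_option maxHeartbeats 1000000

namespace Pool.Agent.V5helper97.BootW

open Real Set Pool.Agent.V5helper97.BootPath

/-- minimal cost of a lattice path to `y` -/
noncomputable def WW (κ : ℝ) (γ : ℝ → ℝ) (y : Fin 3 → ℕ) : ℝ := sInf {c | Reach κ γ y c}

variable {κ : ℝ} {γ : ℝ → ℝ}

theorem reach_grow (hκ : 0 < κ) (hγa : ∀ x y, 0 < x → x ≤ y → γ y ≤ γ x) (r : Fin 3 → ℕ) :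
    ∀ (N : ℕ) (y : Fin 3 → ℕ) (c : ℝ), ∑ j, (r j - y j) = N → (∀ j, y j ≤ r j) → Reach κ γ y c →
      ∃ c', c' ≤ c + ∑ j, ((r j : ℝ) - y j) * γ (κ * ar y j) ∧ Reach κ γ r c' := by
  intro N
  induction N with
  | zero =>
    intro y c hN hle hr
    have he : y = r := by
      funext j
      have h1 := Finset.sum_eq_zero_iff.1 hN j (Finset.mem_univ j)
      have := hle j
      omega
    refine ⟨c, ?_, he ▸ hr⟩
    rw [he]
    simp
  | succ N ih =>
    intro y c hN hle hr
    obtain ⟨i, hi⟩ : ∃ i, y i < r i := by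
      by_contra hcon
      push Not at hcon
      have : ∑ j, (r j - y j) = 0 := by
        apply Finset.sum_eq_zero
        intro j _
        have := hcon j
        omega
      omega
    have hN' : ∑ j, (r j - up y i j) = N := by
      have h1 := Finset.add_sum_erase Finset.univ (fun j => r j - y j) (Finset.mem_univ i)
      have h2 := Finset.add_sum_erase Finset.univ (fun j => r j - up y i j) (Finset.mem_univ i)
      have h3 : ∑ x ∈ Finset.univ.erase i, (r x - up y i x) =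
          ∑ x ∈ Finset.univ.erase i, (r x - y x) := by
        apply Finset.sum_congr rfl
        intro x hx
        rw [up_ne y (Finset.ne_of_mem_erase hx)]
      simp only [up_self] at h2
      have h4 : r i - y i + ∑ x ∈ Finset.univ.erase i, (r x - y x) = ∑ j, (r j - y j) := h1
      omega
    have hle' : ∀ j, up y i j ≤ r j := by
      intro j
      by_cases h : j = i
      · subst h; rw [up_self]; omega
      · rw [up_ne y h]; exact hle j
    obtain ⟨c', hc', hr'⟩ := ih (up y i) (c + γ (κ * ar y i)) hN' hle' (Reach.step y c i hr)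
    refine ⟨c', hc'.trans ?_, hr'⟩
    have h1 := Finset.add_sum_erase Finset.univ (fun j => ((r j : ℝ) - y j) * γ (κ * ar y j))
      (Finset.mem_univ i)
    have h2 := Finset.add_sum_erase Finset.univ
      (fun j => ((r j : ℝ) - up y i j) * γ (κ * ar (up y i) j)) (Finset.mem_univ i)
    have hone : ∀ j, 1 ≤ y j := fun j => hr.one_le j
    have hmono : ∀ j, γ (κ * ar (up y i) j) ≤ γ (κ * ar y j) := by
      intro j
      have := ar_pos y j hone
      apply hγa _ _ (by positivity)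
      exact mul_le_mul_of_nonneg_left (ar_mono j (fun k _ => up_le y i k)) hκ.le
    have h3 : ∑ x ∈ Finset.univ.erase i, ((r x : ℝ) - up y i x) * γ (κ * ar (up y i) x) ≤
        ∑ x ∈ Finset.univ.erase i, ((r x : ℝ) - y x) * γ (κ * ar y x) := by
      apply Finset.sum_le_sum
      intro x hx
      rw [up_ne y (Finset.ne_of_mem_erase hx)]
      apply mul_le_mul_of_nonneg_left (hmono x)
      have : (y x : ℝ) ≤ r x := by exact_mod_cast hle x
      linarith
    have h4 : ((r i : ℝ) - up y i i) * γ (κ * ar (up y i) i) + γ (κ * ar y i) ≤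
        ((r i : ℝ) - y i) * γ (κ * ar y i) := by
      rw [up_self]
      have h5 : (y i : ℝ) + 1 ≤ r i := by exact_mod_cast hi
      have h6 := mul_le_mul_of_nonneg_left (hmono i) (show 0 ≤ (r i : ℝ) - (y i + 1) by linarith)
      push_cast
      linarith
    linarith

theorem reach_hull (hκ : 0 < κ) (hγ : ∀ x, 0 ≤ γ x) (hγa : ∀ x y, 0 < x → x ≤ y → γ y ≤ γ x)
    (r s : Fin 3 → ℕ) (c1 : ℝ) (hs : Reach κ γ s c1) (hsr : ∀ j, s j ≤ r j)
    (t : Fin 3 → ℕ) (c2 : ℝ) (ht : Reach κ γ t c2) (htr : ∀ j, t j ≤ r j) :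
    ∃ c, c ≤ c1 + c2 ∧ Reach κ γ (fun j => min (r j) (s j + t j - 1)) c := by
  induction ht with
  | base =>
    refine ⟨c1, by simp, ?_⟩
    have : (fun j => min (r j) (s j + 1 - 1)) = s := by
      funext j
      have := hsr j
      omega
    rw [this]
    exact hs
  | step t c2 i ht ih =>
    obtain ⟨c, hc, hr⟩ := ih (fun j => (up_le t i j).trans (htr j))
    have hs1 : ∀ j, 1 ≤ s j := fun j => hs.one_le j
    have ht1 : ∀ j, 1 ≤ t j := fun j => ht.one_le j
    have htr' : ∀ j, t j ≤ r j := fun j => (up_le t i j).trans (htr j)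
    have hgi := hγ (κ * ar t i)
    by_cases h : s i + t i ≤ r i
    · have he : (fun j => min (r j) (s j + up t i j - 1)) =
          up (fun j => min (r j) (s j + t j - 1)) i := by
        funext j
        by_cases hj : j = i
        · subst hj
          rw [up_self, up_self]
          have := hs1 j
          have := ht1 j
          omega
        · rw [up_ne _ hj, up_ne _ hj]
      rw [he]
      refine ⟨_, ?_, Reach.step _ c i hr⟩
      have hm : γ (κ * ar (fun j => min (r j) (s j + t j - 1)) i) ≤ γ (κ * ar t i) := by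
        have := ar_pos t i ht1
        apply hγa _ _ (by positivity)
        apply mul_le_mul_of_nonneg_left _ hκ.le
        apply ar_mono
        intro j _
        have := hs1 j
        have := htr' j
        show t j ≤ min (r j) (s j + t j - 1)
        omega
      linarith
    · have he : (fun j => min (r j) (s j + up t i j - 1)) =
          (fun j => min (r j) (s j + t j - 1)) := by
        funext j
        by_cases hj : j = i
        · subst hj
          rw [up_self]
          omega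
        · rw [up_ne _ hj]
      rw [he]
      exact ⟨c, by linarith, hr⟩

theorem reach_exists (hκ : 0 < κ) (hγa : ∀ x y, 0 < x → x ≤ y → γ y ≤ γ x) (G : ℝ)
    (hG : ∀ x, γ x ≤ G) (y : Fin 3 → ℕ) (hy : ∀ j, 1 ≤ y j) :
    ∃ c, c ≤ (sm y - 3) * G ∧ Reach κ γ y c := by
  obtain ⟨c, hc, hr⟩ := reach_grow hκ hγa y _ (fun _ => 1) 0 rfl hy Reach.base
  refine ⟨c, hc.trans ?_, hr⟩
  rw [zero_add]
  have h1 : ∑ j, ((y j : ℝ) - ((1 : ℕ) : ℝ)) * γ (κ * ar (fun _ => 1) j) ≤
      ∑ j, ((y j : ℝ) - ((1 : ℕ) : ℝ)) * G := by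
    apply Finset.sum_le_sum
    intro j _
    apply mul_le_mul_of_nonneg_left (hG _)
    have : ((1 : ℕ) : ℝ) ≤ y j := by exact_mod_cast hy j
    linarith
  refine h1.trans ?_
  rw [← Finset.sum_mul]
  apply le_of_eq
  congr 1
  unfold sm
  rw [Finset.sum_sub_distrib]
  simp

theorem bdd (hγ : ∀ x, 0 ≤ γ x) (y : Fin 3 → ℕ) : BddBelow {c | Reach κ γ y c} :=
  ⟨0, fun _ hc => Reach.nonneg hγ hc⟩

theorem WW_le (hγ : ∀ x, 0 ≤ γ x) {y : Fin 3 → ℕ} {c : ℝ} (h : Reach κ γ y c) : WW κ γ y ≤ c :=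
  csInf_le (bdd hγ y) h

theorem le_WW (hκ : 0 < κ) (hγa : ∀ x y, 0 < x → x ≤ y → γ y ≤ γ x) (G : ℝ)
    (hG : ∀ x, γ x ≤ G) {y : Fin 3 → ℕ} (hy : ∀ j, 1 ≤ y j) {m : ℝ}
    (h : ∀ c, Reach κ γ y c → m ≤ c) : m ≤ WW κ γ y := by
  obtain ⟨c, _, hr⟩ := reach_exists hκ hγa G hG y hy
  exact le_csInf ⟨c, hr⟩ h

theorem WW_up (hκ : 0 < κ) (hγ : ∀ x, 0 ≤ γ x) (hγa : ∀ x y, 0 < x → x ≤ y → γ y ≤ γ x) (G : ℝ)
    (hG : ∀ x, γ x ≤ G) (y : Fin 3 → ℕ) (hy : ∀ j, 1 ≤ y j) : WW κ γ y ≤ (sm y - 3) * G := by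
  obtain ⟨c, hc, hr⟩ := reach_exists hκ hγa G hG y hy
  exact (WW_le hγ hr).trans hc

theorem WW_grow (hκ : 0 < κ) (hγ : ∀ x, 0 ≤ γ x) (hγa : ∀ x y, 0 < x → x ≤ y → γ y ≤ γ x) (G : ℝ)
    (hG : ∀ x, γ x ≤ G) (y r : Fin 3 → ℕ) (hy : ∀ j, 1 ≤ y j) (hyr : ∀ j, y j ≤ r j) :
    WW κ γ r ≤ WW κ γ y + ∑ j, ((r j : ℝ) - y j) * γ (κ * ar y j) := by
  have : WW κ γ r - ∑ j, ((r j : ℝ) - y j) * γ (κ * ar y j) ≤ WW κ γ y := by
    apply le_WW hκ hγa G hG hy
    intro c hc
    obtain ⟨c', hc', hr⟩ := reach_grow hκ hγa r _ y c rfl hyr hc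
    have := WW_le hγ hr
    linarith
  linarith

theorem WW_hull (hκ : 0 < κ) (hγ : ∀ x, 0 ≤ γ x) (hγa : ∀ x y, 0 < x → x ≤ y → γ y ≤ γ x) (G : ℝ)
    (hG : ∀ x, γ x ≤ G) (r s t : Fin 3 → ℕ) (hs : ∀ j, 1 ≤ s j) (ht : ∀ j, 1 ≤ t j)
    (hsr : ∀ j, s j ≤ r j) (htr : ∀ j, t j ≤ r j) (hr : ∀ j, r j ≤ s j + t j + 1) :
    WW κ γ r ≤ WW κ γ s + WW κ γ t + 6 * G := by
  have h1 : WW κ γ r - WW κ γ t - 6 * G ≤ WW κ γ s := by
    apply le_WW hκ hγa G hG hs
    intro c1 hc1
    have h2 : WW κ γ r - 6 * G - c1 ≤ WW κ γ t := by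
      apply le_WW hκ hγa G hG ht
      intro c2 hc2
      obtain ⟨c, hc, hz⟩ := reach_hull hκ hγ hγa r s c1 hc1 hsr t c2 hc2 htr
      obtain ⟨c', hc', hr'⟩ := reach_grow hκ hγa r _ _ c rfl
        (fun j => (min_le_left (r j) (s j + t j - 1))) hz
      have h3 := WW_le hγ hr'
      have h4 : ∑ j, ((r j : ℝ) - ((min (r j) (s j + t j - 1) : ℕ) : ℝ)) *
          γ (κ * ar (fun j => min (r j) (s j + t j - 1)) j) ≤ ∑ j : Fin 3, 2 * G := by
        apply Finset.sum_le_sum
        intro j _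
        have h5 : (r j : ℝ) - ((min (r j) (s j + t j - 1) : ℕ) : ℝ) ≤ 2 := by
          have h6 : r j ≤ min (r j) (s j + t j - 1) + 2 := by
            have := hs j
            have := ht j
            have := hr j
            omega
          have : (r j : ℝ) ≤ ((min (r j) (s j + t j - 1) : ℕ) : ℝ) + 2 := by exact_mod_cast h6
          linarith
        exact mul_le_mul h5 (hG _) (hγ _) (by norm_num)
      simp only [Finset.sum_const, Finset.card_univ, Fintype.card_fin, nsmul_eq_mul] at h4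
      push_cast at h4 hc'
      linarith
    linarith
  linarith

end Pool.Agent.V5helper97.BootW
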