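import Mathlib
import Pool.Agent.V5helper97.BootRun
import Pool.Agent.V5helper97.BootW

/-!
Probability that there is no double gap between two nested boxes.
-/

set_option autoImplicit false
set_option maxHeartbeats 1000000

namespace Pool.Agent.V5helper97.BootNG

open Finset Classical Pool.Agent.Helper384.Bz Pool.Agent.V5helper97.BootPr
  Pool.Agent.V5helper97.BootRun Pool.Agent.V5helper97.BootG Pool.Agent.V5helper97.BootPath

variable {n : ℕ}

/-- side lengths of a box -/
def sides (c e : V n 3) : Fin 3 → ℕ := fun i => (e i : ℕ) - (c i : ℕ) + 1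

/-- no double gap in `[a,b]` outside `[c,e]` -/
def NG (a b c e : V n 3) (A : Finset (V n 3)) : Prop :=
  ∀ i, ∀ k : ℕ, (((a i : ℕ) ≤ k ∧ k + 1 < (c i : ℕ)) ∨ ((e i : ℕ) < k ∧ k + 1 ≤ (b i : ℕ))) →
    ∃ x ∈ A, x ∈ Icc a b ∧ ((x i : ℕ) = k ∨ (x i : ℕ) = k + 1)

/-- plates -/
noncomputable def Qs (c e : V n 3) (i : Fin 3) (k : ℕ) : Finset (V n 3) :=
  univ.filter (fun x => (x i : ℕ) = k ∧ ∀ j, j ≠ i → c j ≤ x j ∧ x j ≤ e j)

theorem mem_Qs {c e : V n 3} {i : Fin 3} {k : ℕ} {x : V n 3} :
    x ∈ Qs c e i k ↔ (x i : ℕ) = k ∧ ∀ j, j ≠ i → c j ≤ x j ∧ x j ≤ e j := by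
  simp [Qs]

theorem card_Qs (c e : V n 3) (hce : c ≤ e) (i : Fin 3) (k : ℕ) (hk : k < n) :
    (Qs c e i k).card = ∏ j ∈ univ.erase i, sides c e j := by
  have h1 : Qs c e i k = Icc (Function.update c i ⟨k, hk⟩) (Function.update e i ⟨k, hk⟩) := by
    ext x
    rw [mem_Qs, mem_Icc, Pi.le_def, Pi.le_def]
    constructor
    · rintro ⟨hx1, hx2⟩
      have hxi : x i = ⟨k, hk⟩ := Fin.ext hx1
      constructor
      · intro j
        by_cases hj : j = i
        · subst hj; rw [Function.update_self, hxi]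
        · rw [Function.update_of_ne hj]; exact (hx2 j hj).1
      · intro j
        by_cases hj : j = i
        · subst hj; rw [Function.update_self, hxi]
        · rw [Function.update_of_ne hj]; exact (hx2 j hj).2
    · rintro ⟨hx1, hx2⟩
      constructor
      · have e1 := hx1 i
        have e2 := hx2 i
        rw [Function.update_self] at e1 e2
        have : x i = ⟨k, hk⟩ := le_antisymm e2 e1
        rw [this]
      · intro j hj
        have e1 := hx1 j
        have e2 := hx2 j
        rw [Function.update_of_ne hj] at e1 e2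
        exact ⟨e1, e2⟩
  rw [h1, Pi.card_Icc, ← Finset.mul_prod_erase univ _ (mem_univ i)]
  simp only [Function.update_self, Fin.card_Icc]
  have h2 : k + 1 - k = 1 := by omega
  rw [h2, one_mul]
  apply prod_congr rfl
  intro j hj
  rw [Function.update_of_ne (ne_of_mem_erase hj), Function.update_of_ne (ne_of_mem_erase hj)]
  have : (c j : ℕ) ≤ (e j : ℕ) := hce j
  unfold sides
  omega

theorem hit_Qs {p : ℝ} (h1 : p < 1) (c e : V n 3) (hce : c ≤ e) (i : Fin 3) (k : ℕ)
    (hk : k < n) : Pr p (fun A => (A ∩ Qs c e i k).Nonempty) =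
      1 - Real.exp (-((-Real.log (1 - p)) * ar (sides c e) i)) := by
  rw [Pr_hit, card_Qs c e hce i k hk]
  congr 1
  have h2 : 0 < 1 - p := by linarith
  have h3 : (1 - p) = Real.exp (Real.log (1 - p)) := (Real.exp_log h2).symm
  conv_lhs => rw [h3]
  rw [← Real.exp_nat_mul]
  congr 1
  unfold ar
  push_cast
  ring

/-- the corner region -/
noncomputable def Co (a b c e : V n 3) : Finset (V n 3) :=
  (Icc a b).filter (fun x => ∀ i, ∃ j, j ≠ i ∧ ¬ (c j ≤ x j ∧ x j ≤ e j))

/-- number of levels outside `[c,e]` in direction `i` -/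
def hh (a b c e : V n 3) (i : Fin 3) : ℕ := ((c i : ℕ) - (a i : ℕ)) + ((b i : ℕ) - (e i : ℕ))

theorem card_Co (a b c e : V n 3) (hac : a ≤ c) (hce : c ≤ e) (heb : e ≤ b) (M : ℕ)
    (hM : ∀ i, sides a b i ≤ M) :
    (Co a b c e).card ≤ 3 * M * (∑ i, hh a b c e i) ^ 2 := by
  obtain ⟨P, hP⟩ : ∃ P : Fin 3 → Finset (V n 3), P = fun k => Fintype.piFinset (fun l =>
      if l = k then Icc (a l) (b l) else Icc (a l) (b l) \ Icc (c l) (e l)) := ⟨_, rfl⟩
  have hsub : Co a b c e ⊆ univ.biUnion P := by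
    intro x hx
    rw [Co, mem_filter, mem_Icc] at hx
    obtain ⟨⟨hx1, hx2⟩, hx3⟩ := hx
    obtain ⟨j, hj1, hj2⟩ := hx3 0
    obtain ⟨j', hj'1, hj'2⟩ := hx3 j
    obtain ⟨k, hk⟩ : ∃ k : Fin 3, ∀ l, l ≠ k → l = j ∨ l = j' := by
      revert j j'
      have : ∀ j j' : Fin 3, j' ≠ j → ∃ k : Fin 3, ∀ l, l ≠ k → l = j ∨ l = j' := by decide
      intro j _ _ j' h _
      exact this j j' h
    rw [mem_biUnion]
    refine ⟨k, mem_univ k, ?_⟩
    rw [hP, Fintype.mem_piFinset]
    intro l
    by_cases hl : l = k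
    · rw [if_pos hl, mem_Icc]
      exact ⟨hx1 l, hx2 l⟩
    · rw [if_neg hl, mem_sdiff, mem_Icc, mem_Icc]
      refine ⟨⟨hx1 l, hx2 l⟩, ?_⟩
      rcases hk l hl with h | h
      · rw [h]; exact hj2
      · rw [h]; exact hj'2
  have hcard : ∀ k, (P k).card ≤ M * (∑ i, hh a b c e i) ^ 2 := by
    intro k
    rw [hP]
    show (Fintype.piFinset _).card ≤ _
    rw [Fintype.card_piFinset, ← Finset.mul_prod_erase univ _ (mem_univ k), if_pos rfl]
    apply Nat.mul_le_mul
    · rw [Fin.card_Icc]
      have := hM k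
      unfold sides at this
      have h1 : (a k : ℕ) ≤ (b k : ℕ) := (hac.trans (hce.trans heb)) k
      omega
    · calc ∏ x ∈ univ.erase k, (if x = k then Icc (a x) (b x) else Icc (a x) (b x) \ Icc (c x) (e x)).card
          ≤ ∏ x ∈ univ.erase k, (∑ i, hh a b c e i) := by
            apply prod_le_prod' 
            intro x hx
            rw [if_neg (ne_of_mem_erase hx)]
            have h2 : (Icc (c x) (e x)) ⊆ Icc (a x) (b x) := Icc_subset_Icc (hac x) (heb x)
            rw [card_sdiff_of_subset h2, Fin.card_Icc, Fin.card_Icc]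
            have h3 : hh a b c e x ≤ ∑ i, hh a b c e i :=
              single_le_sum (fun _ _ => Nat.zero_le _) (mem_univ x)
            have h4 : (a x : ℕ) ≤ (c x : ℕ) := hac x
            have h5 : (c x : ℕ) ≤ (e x : ℕ) := hce x
            have h6 : (e x : ℕ) ≤ (b x : ℕ) := heb x
            unfold hh at h3 ⊢
            omega
        _ = (∑ i, hh a b c e i) ^ 2 := by
            rw [prod_const, card_erase_of_mem (mem_univ k), card_univ, Fintype.card_fin]
  calc (Co a b c e).card ≤ (univ.biUnion P).card := card_le_card hsub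
    _ ≤ ∑ k, (P k).card := card_biUnion_le
    _ ≤ ∑ k : Fin 3, M * (∑ i, hh a b c e i) ^ 2 := sum_le_sum (fun k _ => hcard k)
    _ = 3 * M * (∑ i, hh a b c e i) ^ 2 := by
      rw [sum_const, card_univ, Fintype.card_fin, smul_eq_mul, mul_assoc]

/-- first level of a run -/
def lv (a e : V n 3) (r : Fin 3 × Bool) : ℕ := if r.2 then (e r.1 : ℕ) + 1 else (a r.1 : ℕ)

/-- length of a run -/
def ln (a b c e : V n 3) (r : Fin 3 × Bool) : ℕ :=
  if r.2 then (b r.1 : ℕ) - (e r.1 : ℕ) else (c r.1 : ℕ) - (a r.1 : ℕ)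

/-- freed levels -/
noncomputable def fr (a c e : V n 3) (T : Finset (V n 3)) (r : Fin 3 × Bool) : Finset ℕ :=
  if r.2 then (T.filter (fun x => e r.1 < x r.1)).image (fun x => (x r.1 : ℕ) - ((e r.1 : ℕ) + 1))
  else (T.filter (fun x => x r.1 < c r.1)).image (fun x => (x r.1 : ℕ) - (a r.1 : ℕ))

theorem fr_card (a c e : V n 3) (hce : c ≤ e) (T : Finset (V n 3)) :
    ∑ r, (fr a c e T r).card ≤ 3 * T.card := by
  rw [Fintype.sum_prod_type]
  calc ∑ i : Fin 3, ∑ s : Bool, (fr a c e T (i, s)).card ≤ ∑ i : Fin 3, T.card := by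
        apply sum_le_sum
        intro i _
        rw [Fintype.sum_bool]
        have h1 : (fr a c e T (i, true)).card ≤ (T.filter (fun x => e i < x i)).card := by
          simp only [fr, if_true]
          exact card_image_le
        have h2 : (fr a c e T (i, false)).card ≤ (T.filter (fun x => x i < c i)).card := by
          simp only [fr, Bool.false_eq_true, if_false]
          exact card_image_le
        have h3 : (T.filter (fun x => e i < x i)).card + (T.filter (fun x => x i < c i)).card ≤ T.card := by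
          rw [← card_union_of_disjoint]
          · exact card_le_card (union_subset (filter_subset _ _) (filter_subset _ _))
          · rw [Finset.disjoint_left]
            intro x hx hx'
            have := (mem_filter.1 hx).2
            have := (mem_filter.1 hx').2
            exact absurd (hce i) (not_le.2 (by order))
        omega
    _ = 3 * T.card := by
      rw [sum_const, card_univ, Fintype.card_fin, smul_eq_mul]

theorem NG_NR (a b c e : V n 3) (hac : a ≤ c) (hce : c ≤ e) (heb : e ≤ b)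
    (A : Finset (V n 3)) (hA : NG a b c e A) (r : Fin 3 × Bool) :
    NR (fun k => Qs c e r.1 (lv a e r + k)) (fr a c e (A ∩ Co a b c e) r) (ln a b c e r) A := by
  obtain ⟨i, s⟩ := r
  intro k hk
  have hac' : (a i : ℕ) ≤ (c i : ℕ) := hac i
  have hce' : (c i : ℕ) ≤ (e i : ℕ) := hce i
  have heb' : (e i : ℕ) ≤ (b i : ℕ) := heb i
  have hlev : (((a i : ℕ) ≤ lv a e (i, s) + k ∧ lv a e (i, s) + k + 1 < (c i : ℕ)) ∨
      ((e i : ℕ) < lv a e (i, s) + k ∧ lv a e (i, s) + k + 1 ≤ (b i : ℕ))) := by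
    cases s
    · left
      simp only [lv, ln, Bool.false_eq_true, if_false] at hk ⊢
      omega
    · right
      simp only [lv, ln, if_true] at hk ⊢
      omega
  obtain ⟨x, hxA, hxab, hxi⟩ := hA i _ hlev
  by_cases hin : ∀ j, j ≠ i → c j ≤ x j ∧ x j ≤ e j
  · right; right
    rcases hxi with hxi | hxi
    · left
      exact ⟨x, mem_inter.2 ⟨hxA, mem_Qs.2 ⟨hxi, hin⟩⟩⟩
    · right
      exact ⟨x, mem_inter.2 ⟨hxA, mem_Qs.2 ⟨by rw [hxi]; show _ = lv a e (i, s) + (k + 1); omega, hin⟩⟩⟩
  · push Not at hin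
    obtain ⟨j, hji, hj⟩ := hin
    have hxC : x ∈ A ∩ Co a b c e := by
      rw [mem_inter, Co, mem_filter]
      refine ⟨hxA, hxab, ?_⟩
      intro i'
      by_cases hi' : i' = i
      · subst hi'
        refine ⟨j, hji, ?_⟩
        rintro ⟨h1, h2⟩
        exact absurd h2 (not_le.2 (hj h1))
      · refine ⟨i, fun h => hi' h.symm, ?_⟩
        rintro ⟨h1, h2⟩
        rw [Fin.le_def] at h1 h2
        omega
    have hmem : (x i : ℕ) - lv a e (i, s) ∈ fr a c e (A ∩ Co a b c e) (i, s) := by
      cases s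
      · simp only [fr, lv, Bool.false_eq_true, if_false]
        apply mem_image_of_mem
        rw [mem_filter]
        refine ⟨hxC, ?_⟩
        rw [Fin.lt_def]
        simp only [lv, ln, Bool.false_eq_true, if_false] at hk hxi
        omega
      · simp only [fr, lv, if_true]
        apply mem_image_of_mem (fun x : V n 3 => (x i : ℕ) - ((e i : ℕ) + 1))
        rw [mem_filter]
        refine ⟨hxC, ?_⟩
        rw [Fin.lt_def]
        simp only [lv, ln, if_true] at hk hxi
        omega
    rcases hxi with hxi | hxi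
    · left
      have : (x i : ℕ) - lv a e (i, s) = k := by omega
      rw [← this]; exact hmem
    · right; left
      have : (x i : ℕ) - lv a e (i, s) = k + 1 := by omega
      rw [← this]; exact hmem

theorem lev_out (a b c e : V n 3) (hac : a ≤ c) (hce : c ≤ e) (heb : e ≤ b) (r : Fin 3 × Bool)
    (k : ℕ) (hk : k < ln a b c e r) :
    (lv a e r + k < (c r.1 : ℕ) ∨ (e r.1 : ℕ) < lv a e r + k) ∧ lv a e r + k < n := by
  obtain ⟨i, s⟩ := r
  have hac' : (a i : ℕ) ≤ (c i : ℕ) := hac i
  have hce' : (c i : ℕ) ≤ (e i : ℕ) := hce i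
  have heb' : (e i : ℕ) ≤ (b i : ℕ) := heb i
  have hn := (b i).isLt
  cases s
  · simp only [lv, ln, Bool.false_eq_true, if_false] at hk ⊢
    omega
  · simp only [lv, ln, if_true] at hk ⊢
    omega

theorem Qs_disj (c e : V n 3) (i i' : Fin 3) (k k' : ℕ) (hk : k < (c i : ℕ) ∨ (e i : ℕ) < k)
    (h : i ≠ i' ∨ k ≠ k') : Disjoint (Qs c e i k) (Qs c e i' k') := by
  rw [Finset.disjoint_left]
  intro x hx hx'
  rw [mem_Qs] at hx hx'
  by_cases hi : i = i'
  · subst hi
    rcases h with h | h
    · exact h rfl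
    · exact h (hx.1.symm.trans hx'.1)
  · have h1 := hx'.2 i hi
    rw [Fin.le_def, Fin.le_def] at h1
    omega

/-- **the bound for the probability of `NG`** -/
theorem NG_prob {p : ℝ} (h0 : 0 ≤ p) (h1 : p < 1) (hp : 0 < p) (a b c e : V n 3) (hac : a ≤ c)
    (hce : c ≤ e) (heb : e ≤ b) (G : ℝ) (hG : 0 ≤ G) :
    Pr p (NG a b c e) ≤ Real.exp (6 * G -
      ∑ i, (hh a b c e i : ℝ) * min (gf ((-Real.log (1 - p)) * ar (sides c e) i)) G +
        Real.exp (6 * G) * p * (Co a b c e).card) := by
  obtain ⟨κ, hκ⟩ : ∃ κ, κ = -Real.log (1 - p) := ⟨_, rfl⟩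
  have hκ0 : 0 < κ := by
    rw [hκ]
    have := Real.log_neg (show 0 < 1 - p by linarith) (by linarith)
    linarith
  rw [← hκ]
  obtain ⟨gg, hgg⟩ : ∃ gg : Fin 3 → ℝ, gg = fun i => min (gf (κ * ar (sides c e) i)) G := ⟨_, rfl⟩
  have hx : ∀ i, 0 < κ * ar (sides c e) i := by
    intro i
    have := ar_pos (sides c e) i (fun j => by unfold sides; omega)
    positivity
  have hg0 : ∀ i, 0 ≤ gg i := by
    intro i
    rw [hgg]
    exact le_min (gf_pos (hx i)).le hG
  have hgG : ∀ i, gg i ≤ G := by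
    intro i
    rw [hgg]
    exact min_le_right _ _
  obtain ⟨u, hu⟩ : ∃ u : Fin 3 → ℝ, u = fun i => 1 - Real.exp (-(κ * ar (sides c e) i)) := ⟨_, rfl⟩
  -- conditions on the runs
  have hok : ∀ r ∈ (univ : Finset (Fin 3 × Bool)), RunOK p (fun k => Qs c e r.1 (lv a e r + k))
      (ln a b c e r) (u r.1) (Real.exp (-(gg r.1))) := by
    intro r _
    refine ⟨?_, ?_, Real.exp_pos _, ?_, ?_⟩
    · intro k hk k' hk' hne
      exact Qs_disj c e _ _ _ _ (lev_out a b c e hac hce heb r k hk).1 (Or.inr (by omega))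
    · intro k hk
      show Pr p (fun A => (A ∩ Qs c e r.1 (lv a e r + k)).Nonempty) = _
      rw [hit_Qs h1 c e hce r.1 _ (lev_out a b c e hac hce heb r k hk).2, hu, hκ]
    · rw [Real.exp_le_one_iff]
      have := hg0 r.1
      linarith
    · obtain ⟨w, b', hw, hb', hw0, hw1, hb0, hb1, hrel, h2, h8⟩ := basic (hx r.1)
      have hb'' : b' ≤ Real.exp (-(gg r.1)) := by
        have h3 : gg r.1 ≤ gf (κ * ar (sides c e) r.1) := by
          rw [hgg]; exact min_le_left _ _
        have h4 : b' = Real.exp (-(gf (κ * ar (sides c e) r.1))) := by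
          unfold gf
          rw [neg_neg, ← hb', Real.exp_log hb0]
        rw [h4]
        exact Real.exp_le_exp.2 (by linarith)
      have hu' : u r.1 = 1 - w := by rw [hu, hw]
      rw [hu']
      nlinarith [mul_nonneg (sub_nonneg.2 hb'') (show 0 ≤ Real.exp (-(gg r.1)) + b' - (1 - w) by linarith)]
  have hXd : ∀ r ∈ (univ : Finset (Fin 3 × Bool)), ∀ k < ln a b c e r,
      Disjoint (Co a b c e) (Qs c e r.1 (lv a e r + k)) := by
    intro r _ k _
    rw [Finset.disjoint_left]
    intro x hxC hxQ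
    rw [Co, mem_filter] at hxC
    obtain ⟨j, hj, hj2⟩ := hxC.2 r.1
    exact hj2 ((mem_Qs.1 hxQ).2 j hj)
  have hdis : ∀ r ∈ (univ : Finset (Fin 3 × Bool)), ∀ r' ∈ (univ : Finset (Fin 3 × Bool)), r ≠ r' →
      ∀ k < ln a b c e r, ∀ k' < ln a b c e r',
        Disjoint (Qs c e r.1 (lv a e r + k)) (Qs c e r'.1 (lv a e r' + k')) := by
    intro r _ r' _ hne k hk k' hk'
    apply Qs_disj c e _ _ _ _ (lev_out a b c e hac hce heb r k hk).1
    by_cases hi : r.1 = r'.1
    · right
      obtain ⟨i, s⟩ := r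
      obtain ⟨i', s'⟩ := r'
      simp only at hi
      subst hi
      have hac' : (a i : ℕ) ≤ (c i : ℕ) := hac i
      have hce' : (c i : ℕ) ≤ (e i : ℕ) := hce i
      have heb' : (e i : ℕ) ≤ (b i : ℕ) := heb i
      cases s <;> cases s'
      · exact absurd rfl hne
      · simp only [lv, ln, Bool.false_eq_true, if_false, if_true] at hk hk' ⊢
        omega
      · simp only [lv, ln, Bool.false_eq_true, if_false, if_true] at hk hk' ⊢
        omega
      · exact absurd rfl hne
    · left; exact hi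
  -- product of the `b`
  have hprod : ∏ r : Fin 3 × Bool, Real.exp (-(gg r.1)) ^ ln a b c e r =
      Real.exp (-∑ i, (hh a b c e i : ℝ) * gg i) := by
    rw [Fintype.prod_prod_type, ← sum_neg_distrib, Real.exp_sum]
    apply prod_congr rfl
    intro i _
    rw [Fintype.prod_bool, ← Real.exp_nat_mul, ← Real.exp_nat_mul, ← Real.exp_add]
    congr 1
    simp only [ln, hh, Bool.false_eq_true, if_false, if_true]
    push_cast
    ring
  -- the bound for a fixed corner configuration
  have hT : ∀ T ∈ (Co a b c e).powerset, Pr p (fun A => NG a b c e A ∧ A ∩ Co a b c e = T) ≤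
      Real.exp (6 * G - ∑ i, (hh a b c e i : ℝ) * gg i) *
        ((Real.exp (6 * G) * p) ^ T.card * (1 - p) ^ ((Co a b c e).card - T.card)) := by
    intro T hTC
    rw [mem_powerset] at hTC
    have hruns := runs h0 h1.le (Co a b c e) (fun A => A ∩ Co a b c e = T)
      (by intro A B hAB; show (A ∩ Co a b c e = T) ↔ (B ∩ Co a b c e = T); rw [hAB])
      (fun r k => Qs c e r.1 (lv a e r + k)) (fun r => fr a c e T r) (ln a b c e)
      (fun r => u r.1) (fun r => Real.exp (-(gg r.1))) univ hok hXd hdis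
    rw [hprod, Pr_trace p hTC] at hruns
    have hlow : Real.exp (-(G * (6 + 6 * T.card))) ≤ ∏ r : Fin 3 × Bool,
        Real.exp (-(gg r.1)) ^ (1 + 2 * (fr a c e T r ∩ range (ln a b c e r)).card) := by
      have e1 : ∏ r : Fin 3 × Bool,
          Real.exp (-(gg r.1)) ^ (1 + 2 * (fr a c e T r ∩ range (ln a b c e r)).card) =
          Real.exp (∑ r : Fin 3 × Bool, -(gg r.1) *
            (1 + 2 * ((fr a c e T r ∩ range (ln a b c e r)).card : ℝ))) := by
        rw [Real.exp_sum]
        apply prod_congr rfl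
        intro r _
        rw [← Real.exp_nat_mul]
        congr 1
        push_cast
        ring
      rw [e1, Real.exp_le_exp]
      have e2 : ∑ r : Fin 3 × Bool, -G * (1 + 2 * ((fr a c e T r).card : ℝ)) ≤
          ∑ r : Fin 3 × Bool, -(gg r.1) *
            (1 + 2 * ((fr a c e T r ∩ range (ln a b c e r)).card : ℝ)) := by
        apply sum_le_sum
        intro r _
        have h2 : ((fr a c e T r ∩ range (ln a b c e r)).card : ℝ) ≤ (fr a c e T r).card := by
          exact_mod_cast card_le_card inter_subset_left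
        have h3 := hgG r.1
        have h4 := hg0 r.1
        have h5 : (0:ℝ) ≤ ((fr a c e T r ∩ range (ln a b c e r)).card : ℝ) := by positivity
        nlinarith [mul_le_mul h3 (show 1 + 2 * ((fr a c e T r ∩ range (ln a b c e r)).card : ℝ) ≤
          1 + 2 * ((fr a c e T r).card : ℝ) by linarith) (by linarith) hG]
      refine le_trans ?_ e2
      rw [← mul_sum, sum_add_distrib, ← mul_sum]
      have h6 : (∑ r, ((fr a c e T r).card : ℝ)) ≤ 3 * T.card := by
        exact_mod_cast fr_card a c e hce T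
      have h7 : ∑ _r : Fin 3 × Bool, (1:ℝ) = 6 := by norm_num
      rw [h7]
      nlinarith
    have hmono : Pr p (fun A => NG a b c e A ∧ A ∩ Co a b c e = T) ≤
        Pr p (fun A => A ∩ Co a b c e = T ∧ ∀ r ∈ (univ : Finset (Fin 3 × Bool)),
          NR (fun k => Qs c e r.1 (lv a e r + k)) (fr a c e T r) (ln a b c e r) A) := by
      apply Pr_mono h0 h1.le
      rintro A ⟨hA1, hA2⟩
      refine ⟨hA2, fun r _ => ?_⟩
      have := NG_NR a b c e hac hce heb A hA1 r
      rw [hA2] at this
      exact this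
    have hPnn := Pr_nonneg h0 h1.le (fun A => A ∩ Co a b c e = T ∧
      ∀ r ∈ (univ : Finset (Fin 3 × Bool)),
          NR (fun k => Qs c e r.1 (lv a e r + k)) (fr a c e T r) (ln a b c e r) A)
    have hq : 0 ≤ 1 - p := by linarith
    have k1 : Pr p (fun A => NG a b c e A ∧ A ∩ Co a b c e = T) *
        Real.exp (-(G * (6 + 6 * T.card))) ≤ Real.exp (-∑ i, (hh a b c e i : ℝ) * gg i) *
          (p ^ T.card * (1 - p) ^ ((Co a b c e).card - T.card)) := by
      refine le_trans ?_ hruns
      exact mul_le_mul hmono hlow (Real.exp_pos _).le hPnn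
    have k2 : Real.exp (-(G * (6 + 6 * T.card))) * Real.exp (G * (6 + 6 * T.card)) = 1 := by
      rw [← Real.exp_add]; simp
    calc Pr p (fun A => NG a b c e A ∧ A ∩ Co a b c e = T)
        = Pr p (fun A => NG a b c e A ∧ A ∩ Co a b c e = T) *
          Real.exp (-(G * (6 + 6 * T.card))) * Real.exp (G * (6 + 6 * T.card)) := by
          rw [mul_assoc, k2, mul_one]
      _ ≤ (Real.exp (-∑ i, (hh a b c e i : ℝ) * gg i) *
          (p ^ T.card * (1 - p) ^ ((Co a b c e).card - T.card))) *
          Real.exp (G * (6 + 6 * T.card)) := by gcongr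
      _ = _ := by
        have e3 : Real.exp (G * (6 + 6 * T.card)) = Real.exp (6 * G) * Real.exp (6 * G) ^ T.card := by
          rw [← Real.exp_nat_mul, ← Real.exp_add]; congr 1; ring
        have e4 : Real.exp (6 * G - ∑ i, (hh a b c e i : ℝ) * gg i) =
            Real.exp (6 * G) * Real.exp (-∑ i, (hh a b c e i : ℝ) * gg i) := by
          rw [← Real.exp_add]; congr 1
        rw [e3, e4, mul_pow]
        ring
  rw [Pr_split (NG a b c e) (Co a b c e)]
  refine (sum_le_sum hT).trans ?_
  rw [← mul_sum, Finset.sum_pow_mul_eq_add_pow]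
  have hbin : (Real.exp (6 * G) * p + (1 - p)) ^ (Co a b c e).card ≤
      Real.exp (Real.exp (6 * G) * p * (Co a b c e).card) := by
    have h2 : Real.exp (6 * G) * p + (1 - p) ≤ Real.exp (Real.exp (6 * G) * p) := by
      have := Real.add_one_le_exp (Real.exp (6 * G) * p)
      linarith
    calc _ ≤ Real.exp (Real.exp (6 * G) * p) ^ (Co a b c e).card := by
          apply pow_le_pow_left₀ _ h2
          have : 0 ≤ 1 - p := by linarith
          positivity
      _ = _ := by rw [← Real.exp_nat_mul]; congr 1; ring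
  have hfin : Real.exp (6 * G - ∑ i, (hh a b c e i : ℝ) * min (gf (κ * ar (sides c e) i)) G +
        Real.exp (6 * G) * p * (Co a b c e).card) =
      Real.exp (6 * G - ∑ i, (hh a b c e i : ℝ) * gg i) *
        Real.exp (Real.exp (6 * G) * p * (Co a b c e).card) := by
    rw [← Real.exp_add, hgg]
  rw [hfin]
  gcongr

/-- `NG` only depends on the sites of `[a,b]` outside `[c,e]` -/
theorem NG_dep (a b c e : V n 3) : Dep (Icc a b \ Icc c e) (NG a b c e) := by
  have key : ∀ A B : Finset (V n 3), A ∩ (Icc a b \ Icc c e) = B ∩ (Icc a b \ Icc c e) →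
      NG a b c e A → NG a b c e B := by
    intro A B hAB H i k hk
    obtain ⟨x, hxA, hxab, hxi⟩ := H i k hk
    refine ⟨x, ?_, hxab, hxi⟩
    have hx : x ∈ A ∩ (Icc a b \ Icc c e) := by
      rw [mem_inter, mem_sdiff, mem_Icc (a := c)]
      refine ⟨hxA, hxab, ?_⟩
      rintro ⟨h1, h2⟩
      have e1 : (c i : ℕ) ≤ (x i : ℕ) := h1 i
      have e2 : (x i : ℕ) ≤ (e i : ℕ) := h2 i
      omega
    rw [hAB] at hx
    exact (mem_inter.1 hx).1
  intro A B hAB
  exact ⟨key A B hAB, key B A hAB.symm⟩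

end Pool.Agent.V5helper97.BootNG
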