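import Mathlib
import Pool.Agent.Helper384.BzJ5
import Pool.Agent.Helper384.BzJ6
import Pool.Agent.V5helper97.BootNG

/-!
Deterministic facts about spanning trees of boxes.
-/

set_option autoImplicit false
set_option maxHeartbeats 1000000
set_option linter.unusedVariables false

namespace Pool.Agent.V5helper97.BootTree

open Finset Classical Pool.Agent.Helper384.Bz Pool.Agent.V5helper97.BootPr
  Pool.Agent.V5helper97.BootNG

variable {n : ℕ}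

theorem sub_Icc {A : Finset (V n 3)} {a b : V n 3} (h : Tree A a b) : A ⊆ Icc a b := by
  induction h with
  | single v => intro x hx; rw [mem_singleton] at hx; rw [hx, mem_Icc]; exact ⟨le_rfl, le_rfl⟩
  | merge A1 A2 a1 b1 a2 b2 h1 h2 hd hg hle hlt ih1 ih2 =>
    intro x hx
    rw [mem_Icc]
    rcases mem_union.1 hx with hx | hx
    · have := mem_Icc.1 (ih1 hx)
      exact ⟨inf_le_left.trans this.1, this.2.trans le_sup_left⟩
    · have := mem_Icc.1 (ih2 hx)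
      exact ⟨inf_le_right.trans this.1, this.2.trans le_sup_right⟩

theorem gap_i {a b a' b' : V n 3} (h : gap a b a' b' ≤ 2) (i : Fin 3) :
    ((a' i : ℕ) - (b i : ℕ)) + ((a i : ℕ) - (b' i : ℕ)) ≤ 2 := by
  unfold gap at h
  have := single_le_sum (f := fun i => ((a' i : ℕ) - (b i : ℕ)) + ((a i : ℕ) - (b' i : ℕ)))
    (fun _ _ => Nat.zero_le _) (mem_univ i)
  exact this.trans h

theorem inf_val (a b : V n 3) (i : Fin 3) : (((a ⊓ b) i : Fin n) : ℕ) = min (a i : ℕ) (b i : ℕ) := by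
  rw [Pi.inf_apply]
  rcases le_total (a i) (b i) with h | h
  · rw [inf_eq_left.2 h, min_eq_left]; exact h
  · rw [inf_eq_right.2 h, min_eq_right]; exact h

theorem sup_val (a b : V n 3) (i : Fin 3) : (((a ⊔ b) i : Fin n) : ℕ) = max (a i : ℕ) (b i : ℕ) := by
  rw [Pi.sup_apply]
  rcases le_total (a i) (b i) with h | h
  · rw [sup_eq_right.2 h, max_eq_right]; exact h
  · rw [sup_eq_left.2 h, max_eq_left]; exact h

/-- extreme plates are nonempty and there are no double gaps -/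
theorem plates {A : Finset (V n 3)} {a b : V n 3} (h : Tree A a b) (i : Fin 3) :
    (∃ x ∈ A, (x i : ℕ) = a i) ∧ (∃ x ∈ A, (x i : ℕ) = b i) ∧
      ∀ k : ℕ, (a i : ℕ) ≤ k → k + 1 ≤ (b i : ℕ) → ∃ x ∈ A, (x i : ℕ) = k ∨ (x i : ℕ) = k + 1 := by
  induction h with
  | single v =>
    refine ⟨⟨v, mem_singleton_self v, rfl⟩, ⟨v, mem_singleton_self v, rfl⟩, ?_⟩
    intro k h1 h2
    omega
  | merge A1 A2 a1 b1 a2 b2 h1 h2 hd hg hle hlt ih1 ih2 =>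
    obtain ⟨⟨x1, hx1, hx1'⟩, ⟨y1, hy1, hy1'⟩, H1⟩ := ih1
    obtain ⟨⟨x2, hx2, hx2'⟩, ⟨y2, hy2, hy2'⟩, H2⟩ := ih2
    have hg' := gap_i hg i
    have hab1 : (a1 i : ℕ) ≤ (b1 i : ℕ) := (Tree.le' h1) i
    have hab2 : (a2 i : ℕ) ≤ (b2 i : ℕ) := (Tree.le' h2) i
    have e1 := inf_val a1 a2 i
    have e2 := sup_val b1 b2 i
    have m1 : ∀ x ∈ A1, x ∈ A1 ∪ A2 := fun x hx => mem_union_left _ hx
    have m2 : ∀ x ∈ A2, x ∈ A1 ∪ A2 := fun x hx => mem_union_right _ hx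
    refine ⟨?_, ?_, ?_⟩
    · rw [e1]
      rcases le_total (a1 i : ℕ) (a2 i : ℕ) with h | h
      · exact ⟨x1, m1 _ hx1, by rw [hx1', min_eq_left h]⟩
      · exact ⟨x2, m2 _ hx2, by rw [hx2', min_eq_right h]⟩
    · rw [e2]
      rcases le_total (b1 i : ℕ) (b2 i : ℕ) with h | h
      · exact ⟨y2, m2 _ hy2, by rw [hy2', max_eq_right h]⟩
      · exact ⟨y1, m1 _ hy1, by rw [hy1', max_eq_left h]⟩
    · intro k hk1 hk2
      rw [e1] at hk1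
      rw [e2] at hk2
      by_cases c1 : k = a1 i ∨ k + 1 = a1 i
      · exact ⟨x1, m1 _ hx1, by omega⟩
      by_cases c2 : k = b1 i ∨ k + 1 = b1 i
      · exact ⟨y1, m1 _ hy1, by omega⟩
      by_cases c3 : k = a2 i ∨ k + 1 = a2 i
      · exact ⟨x2, m2 _ hx2, by omega⟩
      by_cases c4 : k = b2 i ∨ k + 1 = b2 i
      · exact ⟨y2, m2 _ hy2, by omega⟩
      by_cases c5 : (a1 i : ℕ) ≤ k ∧ k + 1 ≤ (b1 i : ℕ)
      · obtain ⟨x, hx, hx'⟩ := H1 k c5.1 c5.2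
        exact ⟨x, m1 _ hx, hx'⟩
      by_cases c6 : (a2 i : ℕ) ≤ k ∧ k + 1 ≤ (b2 i : ℕ)
      · obtain ⟨x, hx, hx'⟩ := H2 k c6.1 c6.2
        exact ⟨x, m2 _ hx, hx'⟩
      exfalso
      omega

theorem card_ge {A : Finset (V n 3)} {a b : V n 3} (h : Tree A a b) : sz a b + 2 ≤ 2 * A.card := by
  induction h with
  | single v => simp [sz]
  | merge A1 A2 a1 b1 a2 b2 h1 h2 hd hg hle hlt ih1 ih2 =>
    have := sz_hull' a1 b1 a2 b2 (Tree.le' h1) (Tree.le' h2)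
    rw [card_union_of_disjoint hd]
    omega

/-- following the larger child until the size has dropped by more than `D` -/
theorem chain (D N : ℕ) {A : Finset (V n 3)} {a b : V n 3} (h : Tree A a b) (h1 : sz a b ≤ N)
    (h2 : N ≤ sz a b + D) (h3 : D < N) :
    (∃ (A1 : Finset (V n 3)) (a1 b1 : V n 3), A1 ⊆ A ∧ Tree A1 a1 b1 ∧ a ≤ a1 ∧ b1 ≤ b ∧
      D + sz a1 b1 < N ∧ N ≤ sz a1 b1 + 2 * D + 2) ∨
    (∃ (A1 A2 : Finset (V n 3)) (a1 b1 a2 b2 : V n 3), A1 ⊆ A ∧ A2 ⊆ A ∧ Disjoint A1 A2 ∧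
      Tree A1 a1 b1 ∧ Tree A2 a2 b2 ∧ gap a1 b1 a2 b2 ≤ 2 ∧ D < sz a1 b1 ∧ D < sz a2 b2 ∧
      sz a1 b1 < N ∧ sz a2 b2 < N ∧ a ≤ a1 ⊓ a2 ∧ b1 ⊔ b2 ≤ b ∧
      N ≤ sz (a1 ⊓ a2) (b1 ⊔ b2) + D) := by
  induction h with
  | single v =>
    exfalso
    have : sz v v = 0 := by simp [sz]
    omega
  | merge A1 A2 a1 b1 a2 b2 t1 t2 hd hg hle hlt ih1 ih2 =>
    have hh := sz_hull' a1 b1 a2 b2 (Tree.le' t1) (Tree.le' t2)
    by_cases c1 : N ≤ sz a1 b1 + D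
    · rcases ih1 (by omega) c1 with ⟨B1, c, e, k1, k2, k3, k4, k5, k6⟩ |
        ⟨B1, B2, c1', e1, c2, e2, k1, k2, k3, k4, k5, k6, k7, k8, k9, k10, k11, k12, k13⟩
      · left
        exact ⟨B1, c, e, k1.trans subset_union_left, k2, inf_le_left.trans k3,
          k4.trans le_sup_left, k5, k6⟩
      · right
        exact ⟨B1, B2, c1', e1, c2, e2, k1.trans subset_union_left, k2.trans subset_union_left, k3,
          k4, k5, k6, k7, k8, k9, k10, inf_le_left.trans k11, k12.trans le_sup_left, k13⟩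
    · by_cases c2 : sz a2 b2 ≤ D
      · left
        exact ⟨A1, a1, b1, subset_union_left, t1, inf_le_left, le_sup_left, by omega, by omega⟩
      · right
        exact ⟨A1, A2, a1, b1, a2, b2, subset_union_left, subset_union_right, hd, t1, t2, hg,
          by omega, by omega, by omega, by omega, le_rfl, le_rfl, h2⟩

/-- a box is internally spanned -/
def Sp (a b : V n 3) (A : Finset (V n 3)) : Prop := ∃ A' : Finset (V n 3), A' ⊆ A ∧ Tree A' a b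

theorem Sp_inc (a b : V n 3) : Inc (Sp a b) := by
  rintro A B hAB ⟨A', h1, h2⟩
  exact ⟨A', h1.trans hAB, h2⟩

theorem Sp_dep (a b : V n 3) : Dep (Icc a b) (Sp a b) := by
  have key : ∀ A B : Finset (V n 3), A ∩ Icc a b = B ∩ Icc a b → Sp a b A → Sp a b B := by
    rintro A B hAB ⟨A', h1, h2⟩
    refine ⟨A', ?_, h2⟩
    have : A' ⊆ A ∩ Icc a b := subset_inter h1 (sub_Icc h2)
    rw [hAB] at this
    exact this.trans inter_subset_left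
  intro A B hAB
  exact ⟨key A B hAB, key B A hAB.symm⟩

/-- disjoint occurrence of two spanning events -/
def Sp2 (a1 b1 a2 b2 : V n 3) (A : Finset (V n 3)) : Prop :=
  ∃ I J, Disjoint I J ∧ I ⊆ A ∧ J ⊆ A ∧ Sp a1 b1 I ∧ Sp a2 b2 J

theorem Sp2_dep (a1 b1 a2 b2 : V n 3) : Dep (Icc (a1 ⊓ a2) (b1 ⊔ b2)) (Sp2 a1 b1 a2 b2) := by
  have key : ∀ A B : Finset (V n 3), A ∩ Icc (a1 ⊓ a2) (b1 ⊔ b2) = B ∩ Icc (a1 ⊓ a2) (b1 ⊔ b2) →
      Sp2 a1 b1 a2 b2 A → Sp2 a1 b1 a2 b2 B := by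
    rintro A B hAB ⟨I, J, hIJ, hI, hJ, ⟨I', hI1, hI2⟩, ⟨J', hJ1, hJ2⟩⟩
    have s1 : I' ⊆ A ∩ Icc (a1 ⊓ a2) (b1 ⊔ b2) := by
      apply subset_inter (hI1.trans hI)
      exact (sub_Icc hI2).trans (Icc_subset_Icc inf_le_left le_sup_left)
    have s2 : J' ⊆ A ∩ Icc (a1 ⊓ a2) (b1 ⊔ b2) := by
      apply subset_inter (hJ1.trans hJ)
      exact (sub_Icc hJ2).trans (Icc_subset_Icc inf_le_right le_sup_right)
    rw [hAB] at s1 s2
    exact ⟨I', J', disjoint_of_subset_left hI1 (disjoint_of_subset_right hJ1 hIJ),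
      s1.trans inter_subset_left, s2.trans inter_subset_left, ⟨I', Subset.refl _, hI2⟩,
      ⟨J', Subset.refl _, hJ2⟩⟩
  intro A B hAB
  exact ⟨key A B hAB, key B A hAB.symm⟩

theorem tree_NG {A A' : Finset (V n 3)} {a b : V n 3} (h : Tree A' a b) (hA : A' ⊆ A)
    (c e : V n 3) (hce : c ≤ e) (hac : a ≤ c) (heb : e ≤ b) : NG a b c e A := by
  intro i k hk
  have h1 : (c i : ℕ) ≤ (e i : ℕ) := hce i
  have h2 : (a i : ℕ) ≤ (c i : ℕ) := hac i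
  have h3 : (e i : ℕ) ≤ (b i : ℕ) := heb i
  obtain ⟨x, hx, hx'⟩ := (plates h i).2.2 k (by omega) (by omega)
  exact ⟨x, hA hx, sub_Icc h hx, hx'⟩

/-- the two cases for a spanned box -/
theorem cases (D : ℕ) (a b : V n 3) (hD : D < sz a b) (A : Finset (V n 3)) (h : Sp a b A) :
    (∃ q : V n 3 × V n 3, (a ≤ q.1 ∧ q.1 ≤ q.2 ∧ q.2 ≤ b ∧ D + sz q.1 q.2 < sz a b ∧
      sz a b ≤ sz q.1 q.2 + 2 * D + 2) ∧ (Sp q.1 q.2 A ∧ NG a b q.1 q.2 A)) ∨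
    (∃ q : (V n 3 × V n 3) × (V n 3 × V n 3), (q.1.1 ≤ q.1.2 ∧ q.2.1 ≤ q.2.2 ∧
      gap q.1.1 q.1.2 q.2.1 q.2.2 ≤ 2 ∧ D < sz q.1.1 q.1.2 ∧ D < sz q.2.1 q.2.2 ∧
      sz q.1.1 q.1.2 < sz a b ∧ sz q.2.1 q.2.2 < sz a b ∧ a ≤ q.1.1 ⊓ q.2.1 ∧
      q.1.2 ⊔ q.2.2 ≤ b ∧ sz a b ≤ sz (q.1.1 ⊓ q.2.1) (q.1.2 ⊔ q.2.2) + D) ∧
      (Sp2 q.1.1 q.1.2 q.2.1 q.2.2 A ∧ NG a b (q.1.1 ⊓ q.2.1) (q.1.2 ⊔ q.2.2) A)) := by
  obtain ⟨A', hA', hT⟩ := h
  rcases chain D (sz a b) hT le_rfl (by omega) hD with ⟨B1, c, e, k1, k2, k3, k4, k5, k6⟩ |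
        ⟨B1, B2, c1, e1, c2, e2, k1, k2, k3, k4, k5, k6, k7, k8, k9, k10, k11, k12, k13⟩
  · left
    refine ⟨(c, e), ⟨k3, Tree.le' k2, k4, k5, k6⟩, ⟨B1, k1.trans hA', k2⟩, ?_⟩
    exact tree_NG hT hA' c e (Tree.le' k2) k3 k4
  · right
    refine ⟨((c1, e1), (c2, e2)), ⟨Tree.le' k4, Tree.le' k5, k6, k7, k8, k9, k10, k11, k12, k13⟩,
      ⟨B1, B2, k3, k1.trans hA', k2.trans hA', ⟨B1, Subset.refl _, k4⟩, ⟨B2, Subset.refl _, k5⟩⟩, ?_⟩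
    exact tree_NG hT hA' _ _ (inf_le_left.trans ((Tree.le' k4).trans le_sup_left)) k11 k12

/-- percolation gives a spanned box in every size window -/
theorem perc_box {s0 : ℕ} (hn : 0 < n) (hs0 : s0 ≤ 3 * (n - 1)) (hs : 1 ≤ s0)
    (A : Finset (V n 3)) (hA : Percolates 2 A) :
    ∃ a b : V n 3, a ≤ b ∧ s0 ≤ sz a b ∧ sz a b ≤ 2 * s0 ∧ Sp a b A := by
  obtain ⟨A1, A2, a1, b1, a2, b2, t1, t2, hd, hA', h1, h2, h3, h4⟩ := family hn hs0 hs A hA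
  have hh := sz_hull' a1 b1 a2 b2 (Tree.le' t1) (Tree.le' t2)
  refine ⟨a1 ⊓ a2, b1 ⊔ b2, inf_le_left.trans ((Tree.le' t1).trans le_sup_left), h4, by omega, ?_⟩
  exact ⟨A1 ∪ A2, hA', Tree.merge A1 A2 a1 b1 a2 b2 t1 t2 hd h3 h2 (by omega)⟩

end Pool.Agent.V5helper97.BootTree
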