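import Mathlib
import Pool.Agent.V5helper97.BootTree

/-!
The main induction: upper bound for the probability that a box is internally spanned.
-/

set_option autoImplicit false
set_option maxHeartbeats 1000000
set_option linter.unusedVariables false

namespace Pool.Agent.V5helper97.BootInd

open Finset Classical Pool.Agent.Helper384.Bz Pool.Agent.V5helper97.BootPr
  Pool.Agent.V5helper97.BootNG Pool.Agent.V5helper97.BootG Pool.Agent.V5helper97.BootPath
  Pool.Agent.V5helper97.BootW Pool.Agent.V5helper97.BootTree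

/-- truncated and slackened cost -/
noncomputable def ga (G ε x : ℝ) : ℝ := max (min (gf x) G - ε) 0

theorem ga_nonneg (G ε x : ℝ) : 0 ≤ ga G ε x := le_max_right _ _

theorem ga_le {G ε : ℝ} (hG : 0 ≤ G) (hε : 0 ≤ ε) (x : ℝ) : ga G ε x ≤ G := by
  unfold ga
  apply max_le _ hG
  have := min_le_right (gf x) G
  linarith

theorem ga_anti (G ε : ℝ) (x y : ℝ) (hx : 0 < x) (hxy : x ≤ y) : ga G ε y ≤ ga G ε x := by
  unfold ga
  apply max_le_max _ le_rfl
  have := min_le_min (gf_anti hx hxy) (le_refl G)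
  linarith

variable {n : ℕ}

/-- the conditions on the parameters -/
structure Par (n : ℕ) (p κ G ε K : ℝ) (D S0 S1 M : ℕ) : Prop where
  p0 : 0 < p
  p1 : p < 1
  hκ : κ = -Real.log (1 - p)
  G0 : 0 ≤ G
  e0 : 0 < ε
  hM : S1 + 1 ≤ M
  rng : ∀ x, 0 < x → x ≤ κ * (M : ℝ) ^ 2 → ε ≤ min (gf x) G
  cor : Real.exp (6 * G) * p * (3 * M * (2 * D + 2)) ≤ ε / 2
  base : ∀ a b : V n 3, a ≤ b → D < sz a b → sz a b ≤ S0 →
    Pr p (Sp a b) ≤ Real.exp (-(G * sz a b) - K)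
  gro : (M : ℝ) ^ 6 * Real.exp (6 * G - ε / 2 * (D + 1)) ≤ 1 / 2
  spl : (M : ℝ) ^ 12 * Real.exp (12 * G - K) ≤ 1 / 2
  S0D : 3 * D + 2 ≤ S0

theorem sm_sides (a b : V n 3) : sm (sides a b) = (sz a b : ℝ) + 3 := by
  unfold sm sides sz
  push_cast
  rw [sum_add_distrib]
  simp

theorem side_le (a b : V n 3) (i : Fin 3) : sides a b i ≤ sz a b + 1 := by
  unfold sides sz
  have : (b i : ℕ) - (a i : ℕ) ≤ ∑ i, ((b i : ℕ) - (a i : ℕ)) :=
    single_le_sum (f := fun i => ((b i : ℕ) - (a i : ℕ))) (fun _ _ => Nat.zero_le _) (mem_univ i)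
  omega

theorem sides_one (a b : V n 3) (i : Fin 3) : 1 ≤ sides a b i := by unfold sides; omega

theorem sum_hh (a b c e : V n 3) (hac : a ≤ c) (hce : c ≤ e) (heb : e ≤ b) :
    ∑ i, hh a b c e i + sz c e = sz a b := by
  unfold hh sz
  rw [← sum_add_distrib]
  apply sum_congr rfl
  intro i _
  have h1 : (c i : ℕ) ≤ (e i : ℕ) := hce i
  have h2 : (a i : ℕ) ≤ (c i : ℕ) := hac i
  have h3 : (e i : ℕ) ≤ (b i : ℕ) := heb i
  omega

theorem card_Icc_le3 (a b : V n 3) (hab : a ≤ b) (M : ℕ) (hM : ∀ i, sides a b i ≤ M) :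
    (Icc a b).card ≤ M ^ 3 := by
  rw [Pi.card_Icc]
  calc ∏ i, (Icc (a i) (b i)).card ≤ ∏ i : Fin 3, M := by
        apply prod_le_prod'
        intro i _
        rw [Fin.card_Icc]
        have := hM i
        unfold sides at this
        have h1 : (a i : ℕ) ≤ (b i : ℕ) := hab i
        omega
    _ = M ^ 3 := by rw [prod_const, card_univ, Fintype.card_fin]

section

variable {p κ G ε K : ℝ} {D S0 S1 M : ℕ}

theorem kpos (P : Par n p κ G ε K D S0 S1 M) : 0 < κ := by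
  rw [P.hκ]
  have := Real.log_neg (show 0 < 1 - p by linarith [P.p1]) (by linarith [P.p0])
  linarith

theorem NG_par (P : Par n p κ G ε K D S0 S1 M) (a b c e : V n 3) (hac : a ≤ c) (hce : c ≤ e)
    (heb : e ≤ b) (hS : sz a b ≤ S1) (hh2 : sz a b ≤ sz c e + (2 * D + 2)) :
    Pr p (NG a b c e) ≤ Real.exp (6 * G -
      ∑ i, ((sides a b i : ℝ) - sides c e i) * ga G ε (κ * ar (sides c e) i) -
        ε / 2 * ((sz a b : ℝ) - sz c e)) := by
  have hκ := kpos P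
  have hP := NG_prob P.p0.le P.p1 P.p0 a b c e hac hce heb G P.G0
  rw [← P.hκ] at hP
  refine hP.trans (Real.exp_le_exp.2 ?_)
  have hsum := sum_hh a b c e hac hce heb
  have hsides : ∀ i, (hh a b c e i : ℝ) = (sides a b i : ℝ) - sides c e i := by
    intro i
    have h1 : (c i : ℕ) ≤ (e i : ℕ) := hce i
    have h2 : (a i : ℕ) ≤ (c i : ℕ) := hac i
    have h3 : (e i : ℕ) ≤ (b i : ℕ) := heb i
    have h4 : hh a b c e i + sides c e i = sides a b i := by
      unfold hh sides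
      omega
    rw [← h4]; push_cast; ring
  have hH : (∑ i, (hh a b c e i : ℝ)) = (sz a b : ℝ) - sz c e := by
    rw [← hsum]; push_cast; ring
  have hMb : ∀ i, sides a b i ≤ M := fun i => (side_le a b i).trans (by have := P.hM; omega)
  have hMc : ∀ i, (sides c e i : ℝ) ≤ M := by
    intro i
    have h1 : sides c e i ≤ sides a b i := by
      have h1 : (c i : ℕ) ≤ (e i : ℕ) := hce i
      have h2 : (a i : ℕ) ≤ (c i : ℕ) := hac i
      have h3 : (e i : ℕ) ≤ (b i : ℕ) := heb i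
      unfold sides
      omega
    exact_mod_cast h1.trans (hMb i)
  -- cost
  have hcost : ∑ i, (hh a b c e i : ℝ) * min (gf (κ * ar (sides c e) i)) G =
      ∑ i, ((sides a b i : ℝ) - sides c e i) * ga G ε (κ * ar (sides c e) i) +
        ε * ((sz a b : ℝ) - sz c e) := by
    rw [← hH, mul_sum, ← sum_add_distrib]
    apply sum_congr rfl
    intro i _
    have hx : 0 < κ * ar (sides c e) i := by
      have := ar_pos (sides c e) i (sides_one c e)
      positivity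
    have hx2 : κ * ar (sides c e) i ≤ κ * (M : ℝ) ^ 2 := by
      apply mul_le_mul_of_nonneg_left _ hκ.le
      exact ar_le _ i _ hMc
    have h5 := P.rng _ hx hx2
    have h6 : ga G ε (κ * ar (sides c e) i) = min (gf (κ * ar (sides c e) i)) G - ε := by
      unfold ga
      exact max_eq_left (by linarith)
    rw [h6, ← hsides]
    ring
  rw [hcost]
  -- corner
  have hcor : Real.exp (6 * G) * p * (Co a b c e).card ≤ ε / 2 * ((sz a b : ℝ) - sz c e) := by
    have h1 := card_Co a b c e hac hce heb M hMb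
    have h2 : ((Co a b c e).card : ℝ) ≤ 3 * M * (∑ i, (hh a b c e i : ℝ)) ^ 2 := by
      exact_mod_cast h1
    rw [hH] at h2
    have h3 : (sz a b : ℝ) - sz c e ≤ 2 * D + 2 := by
      have : (sz a b : ℝ) ≤ sz c e + (2 * D + 2) := by exact_mod_cast hh2
      linarith
    have h4 : 0 ≤ (sz a b : ℝ) - sz c e := by
      rw [← hH]; positivity
    have hp := P.p0
    calc Real.exp (6 * G) * p * (Co a b c e).card
        ≤ Real.exp (6 * G) * p * (3 * M * ((sz a b : ℝ) - sz c e) ^ 2) := by gcongr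
      _ = (Real.exp (6 * G) * p * (3 * M * ((sz a b : ℝ) - sz c e))) * ((sz a b : ℝ) - sz c e) := by
        ring
      _ ≤ (Real.exp (6 * G) * p * (3 * M * (2 * D + 2))) * ((sz a b : ℝ) - sz c e) := by gcongr
      _ ≤ ε / 2 * ((sz a b : ℝ) - sz c e) := mul_le_mul_of_nonneg_right P.cor h4
  linarith

theorem WW_par (P : Par n p κ G ε K D S0 S1 M) (a b c e : V n 3) (hac : a ≤ c) (hce : c ≤ e)
    (heb : e ≤ b) : WW κ (ga G ε) (sides a b) ≤ WW κ (ga G ε) (sides c e) +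
      ∑ i, ((sides a b i : ℝ) - sides c e i) * ga G ε (κ * ar (sides c e) i) := by
  apply WW_grow (kpos P) (ga_nonneg G ε) (ga_anti G ε) G (ga_le P.G0 P.e0.le)
  · exact sides_one c e
  · intro i
    have h1 : (c i : ℕ) ≤ (e i : ℕ) := hce i
    have h2 : (a i : ℕ) ≤ (c i : ℕ) := hac i
    have h3 : (e i : ℕ) ≤ (b i : ℕ) := heb i
    unfold sides
    omega

theorem term_grow (P : Par n p κ G ε K D S0 S1 M) (a b c e : V n 3) (hac : a ≤ c) (hce : c ≤ e)
    (heb : e ≤ b) (hS : sz a b ≤ S1) (h1 : D + sz c e < sz a b) (h2 : sz a b ≤ sz c e + 2 * D + 2)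
    (ih : Pr p (Sp c e) ≤ Real.exp (-(WW κ (ga G ε) (sides c e)) - K)) :
    Pr p (fun A => Sp c e A ∧ NG a b c e A) ≤
      Real.exp (6 * G - ε / 2 * (D + 1)) * Real.exp (-(WW κ (ga G ε) (sides a b)) - K) := by
  have hd : Disjoint (Icc c e) (Icc a b \ Icc c e) := disjoint_sdiff
  rw [Pr_indep p hd (Sp_dep c e) (NG_dep a b c e)]
  have hNG := NG_par P a b c e hac hce heb hS (by omega)
  have hWW := WW_par P a b c e hac hce heb
  have h3 : (D : ℝ) + 1 ≤ (sz a b : ℝ) - sz c e := by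
    have : (D : ℝ) + sz c e + 1 ≤ sz a b := by exact_mod_cast h1
    linarith
  calc Pr p (Sp c e) * Pr p (NG a b c e) ≤ Real.exp (-(WW κ (ga G ε) (sides c e)) - K) *
      Real.exp (6 * G -
      ∑ i, ((sides a b i : ℝ) - sides c e i) * ga G ε (κ * ar (sides c e) i) -
        ε / 2 * ((sz a b : ℝ) - sz c e)) := by
        apply mul_le_mul ih hNG (Pr_nonneg P.p0.le P.p1.le _) (Real.exp_pos _).le
    _ ≤ _ := by
      rw [← Real.exp_add, ← Real.exp_add, Real.exp_le_exp]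
      have := mul_le_mul_of_nonneg_left h3 (show 0 ≤ ε / 2 by have := P.e0; positivity)
      linarith

theorem term_split (P : Par n p κ G ε K D S0 S1 M) (a b a1 b1 a2 b2 : V n 3) (hab1 : a1 ≤ b1)
    (hab2 : a2 ≤ b2) (hg : gap a1 b1 a2 b2 ≤ 2) (ha : a ≤ a1 ⊓ a2) (hb : b1 ⊔ b2 ≤ b)
    (hS : sz a b ≤ S1) (h2 : sz a b ≤ sz (a1 ⊓ a2) (b1 ⊔ b2) + D)
    (ih1 : Pr p (Sp a1 b1) ≤ Real.exp (-(WW κ (ga G ε) (sides a1 b1)) - K))
    (ih2 : Pr p (Sp a2 b2) ≤ Real.exp (-(WW κ (ga G ε) (sides a2 b2)) - K)) :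
    Pr p (fun A => Sp2 a1 b1 a2 b2 A ∧ NG a b (a1 ⊓ a2) (b1 ⊔ b2) A) ≤
      Real.exp (12 * G - K) * Real.exp (-(WW κ (ga G ε) (sides a b)) - K) := by
  obtain ⟨c, hc⟩ : ∃ c, c = a1 ⊓ a2 := ⟨_, rfl⟩
  obtain ⟨e, he⟩ : ∃ e, e = b1 ⊔ b2 := ⟨_, rfl⟩
  have hce : c ≤ e := by
    rw [hc, he]; exact inf_le_left.trans (hab1.trans le_sup_left)
  have hdep := Sp2_dep a1 b1 a2 b2
  rw [← hc] at ha h2 hdep ⊢
  rw [← he] at hb h2 hdep ⊢
  have hd : Disjoint (Icc c e) (Icc a b \ Icc c e) := disjoint_sdiff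
  rw [Pr_indep p hd hdep (NG_dep a b c e)]
  have hNG := NG_par P a b c e ha hce hb hS (by omega)
  have hWW := WW_par P a b c e ha hce hb
  have hbk : Pr p (Sp2 a1 b1 a2 b2) ≤ Pr p (Sp a1 b1) * Pr p (Sp a2 b2) :=
    Pr_bk P.p0.le P.p1.le (Sp_inc a1 b1) (Sp_inc a2 b2)
  have hhull : WW κ (ga G ε) (sides c e) ≤ WW κ (ga G ε) (sides a1 b1) +
      WW κ (ga G ε) (sides a2 b2) + 6 * G := by
    have hval : ∀ i, (c i : ℕ) = min (a1 i : ℕ) (a2 i : ℕ) ∧ (e i : ℕ) = max (b1 i : ℕ) (b2 i : ℕ) := by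
      intro i
      rw [hc, he]
      exact ⟨inf_val a1 a2 i, sup_val b1 b2 i⟩
    apply WW_hull (kpos P) (ga_nonneg G ε) (ga_anti G ε) G (ga_le P.G0 P.e0.le)
    · exact sides_one _ _
    · exact sides_one _ _
    · intro i
      have := hval i
      unfold sides
      omega
    · intro i
      have := hval i
      unfold sides
      omega
    · intro i
      have h5 := hval i
      have h6 := gap_i hg i
      have h7 : (a1 i : ℕ) ≤ (b1 i : ℕ) := hab1 i
      have h8 : (a2 i : ℕ) ≤ (b2 i : ℕ) := hab2 i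
      unfold sides
      omega
  have h3 : 0 ≤ (sz a b : ℝ) - sz c e := by
    have := sum_hh a b c e ha hce hb
    have : (sz c e : ℝ) ≤ sz a b := by exact_mod_cast (by omega : sz c e ≤ sz a b)
    linarith
  calc Pr p (Sp2 a1 b1 a2 b2) * Pr p (NG a b c e)
      ≤ (Real.exp (-(WW κ (ga G ε) (sides a1 b1)) - K) *
          Real.exp (-(WW κ (ga G ε) (sides a2 b2)) - K)) * Real.exp (6 * G -
      ∑ i, ((sides a b i : ℝ) - sides c e i) * ga G ε (κ * ar (sides c e) i) -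
        ε / 2 * ((sz a b : ℝ) - sz c e)) := by
        apply mul_le_mul _ hNG (Pr_nonneg P.p0.le P.p1.le _) (by positivity)
        refine hbk.trans ?_
        exact mul_le_mul ih1 ih2 (Pr_nonneg P.p0.le P.p1.le _) (Real.exp_pos _).le
    _ ≤ _ := by
      rw [← Real.exp_add, ← Real.exp_add, ← Real.exp_add, Real.exp_le_exp]
      have := mul_nonneg (show 0 ≤ ε / 2 by have := P.e0; positivity) h3
      linarith

/-- **the main induction** -/
theorem main (P : Par n p κ G ε K D S0 S1 M) : ∀ (s : ℕ) (a b : V n 3), sz a b = s → a ≤ b →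
    D < sz a b → sz a b ≤ S1 →
      Pr p (Sp a b) ≤ Real.exp (-(WW κ (ga G ε) (sides a b)) - K) := by
  intro s
  induction s using Nat.strong_induction_on with
  | _ s ih =>
  intro a b hs hab hD hS
  by_cases hbase : sz a b ≤ S0
  · refine (P.base a b hab hD hbase).trans (Real.exp_le_exp.2 ?_)
    have := WW_up (kpos P) (ga_nonneg G ε) (ga_anti G ε) G (ga_le P.G0 P.e0.le) (sides a b)
      (sides_one a b)
    rw [sm_sides] at this
    linarith
  push Not at hbase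
  have hMb : ∀ i, sides a b i ≤ M := fun i => (side_le a b i).trans (by have := P.hM; omega)
  obtain ⟨E, hE⟩ : ∃ E, E = Real.exp (-(WW κ (ga G ε) (sides a b)) - K) := ⟨_, rfl⟩
  have hE0 : 0 < E := by rw [hE]; exact Real.exp_pos _
  -- the two index sets
  obtain ⟨GI, hGI⟩ : ∃ GI : Finset (V n 3 × V n 3), GI = univ.filter (fun q =>
    a ≤ q.1 ∧ q.1 ≤ q.2 ∧ q.2 ≤ b ∧ D + sz q.1 q.2 < sz a b ∧
      sz a b ≤ sz q.1 q.2 + 2 * D + 2) := ⟨_, rfl⟩
  obtain ⟨SI, hSI⟩ : ∃ SI : Finset ((V n 3 × V n 3) × (V n 3 × V n 3)), SI = univ.filter (fun q =>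
      q.1.1 ≤ q.1.2 ∧ q.2.1 ≤ q.2.2 ∧
      gap q.1.1 q.1.2 q.2.1 q.2.2 ≤ 2 ∧ D < sz q.1.1 q.1.2 ∧ D < sz q.2.1 q.2.2 ∧
      sz q.1.1 q.1.2 < sz a b ∧ sz q.2.1 q.2.2 < sz a b ∧ a ≤ q.1.1 ⊓ q.2.1 ∧
      q.1.2 ⊔ q.2.2 ≤ b ∧ sz a b ≤ sz (q.1.1 ⊓ q.2.1) (q.1.2 ⊔ q.2.2) + D) := ⟨_, rfl⟩
  have hcardI := card_Icc_le3 a b hab M hMb
  have hGIc : (GI.card : ℝ) ≤ (M : ℝ) ^ 6 := by
    have h1 : GI ⊆ Icc a b ×ˢ Icc a b := by
      intro q hq
      rw [hGI, mem_filter] at hq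
      obtain ⟨-, h1, h2, h3, -⟩ := hq
      rw [mem_product, mem_Icc, mem_Icc]
      exact ⟨⟨h1, h2.trans h3⟩, ⟨h1.trans h2, h3⟩⟩
    have h2 := card_le_card h1
    rw [card_product] at h2
    have h3 : GI.card ≤ M ^ 3 * M ^ 3 := h2.trans (Nat.mul_le_mul hcardI hcardI)
    calc (GI.card : ℝ) ≤ ((M ^ 3 * M ^ 3 : ℕ) : ℝ) := by exact_mod_cast h3
      _ = (M : ℝ) ^ 6 := by push_cast; ring
  have hSIc : (SI.card : ℝ) ≤ (M : ℝ) ^ 12 := by
    have h1 : SI ⊆ (Icc a b ×ˢ Icc a b) ×ˢ (Icc a b ×ˢ Icc a b) := by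
      intro q hq
      rw [hSI, mem_filter] at hq
      obtain ⟨-, h1, h2, -, -, -, -, -, h3, h4, -⟩ := hq
      have k1 := h3.trans inf_le_left
      have k2 := h3.trans inf_le_right
      have k3 := le_sup_left.trans h4
      have k4 := le_sup_right.trans h4
      simp only [mem_product, mem_Icc]
      exact ⟨⟨⟨k1, h1.trans k3⟩, ⟨k1.trans h1, k3⟩⟩, ⟨⟨k2, h2.trans k4⟩, ⟨k2.trans h2, k4⟩⟩⟩
    have h2 := card_le_card h1
    rw [card_product, card_product] at h2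
    have h3 : SI.card ≤ (M ^ 3 * M ^ 3) * (M ^ 3 * M ^ 3) := h2.trans
      (Nat.mul_le_mul (Nat.mul_le_mul hcardI hcardI) (Nat.mul_le_mul hcardI hcardI))
    calc (SI.card : ℝ) ≤ (((M ^ 3 * M ^ 3) * (M ^ 3 * M ^ 3) : ℕ) : ℝ) := by exact_mod_cast h3
      _ = (M : ℝ) ^ 12 := by push_cast; ring
  -- the terms
  have hG : Pr p (fun A => ∃ q ∈ GI, Sp q.1 q.2 A ∧ NG a b q.1 q.2 A) ≤ 1 / 2 * E := by
    have h1 := Pr_union P.p0.le P.p1.le GI
      (E := fun A => ∃ q ∈ GI, Sp q.1 q.2 A ∧ NG a b q.1 q.2 A)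
      (F := fun q A => Sp q.1 q.2 A ∧ NG a b q.1 q.2 A) (fun A h => h)
    refine h1.trans ?_
    calc ∑ q ∈ GI, Pr p (fun A => Sp q.1 q.2 A ∧ NG a b q.1 q.2 A)
        ≤ ∑ q ∈ GI, Real.exp (6 * G - ε / 2 * (D + 1)) * E := by
          apply sum_le_sum
          intro q hq
          rw [hGI, mem_filter] at hq
          obtain ⟨-, k1, k2, k3, k4, k5⟩ := hq
          rw [hE]
          apply term_grow P a b q.1 q.2 k1 k2 k3 hS k4 k5
          have h3D := P.S0D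
          exact ih (sz q.1 q.2) (by omega) q.1 q.2 rfl k2 (by omega) (by omega)
      _ = (GI.card : ℝ) * Real.exp (6 * G - ε / 2 * (D + 1)) * E := by
          rw [sum_const, nsmul_eq_mul]; ring
      _ ≤ (M : ℝ) ^ 6 * Real.exp (6 * G - ε / 2 * (D + 1)) * E := by gcongr
      _ ≤ 1 / 2 * E := by
          apply mul_le_mul_of_nonneg_right P.gro hE0.le
  have hSp : Pr p (fun A => ∃ q ∈ SI, Sp2 q.1.1 q.1.2 q.2.1 q.2.2 A ∧
      NG a b (q.1.1 ⊓ q.2.1) (q.1.2 ⊔ q.2.2) A) ≤ 1 / 2 * E := by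
    have h1 := Pr_union P.p0.le P.p1.le SI
      (E := fun A => ∃ q ∈ SI, Sp2 q.1.1 q.1.2 q.2.1 q.2.2 A ∧
        NG a b (q.1.1 ⊓ q.2.1) (q.1.2 ⊔ q.2.2) A)
      (F := fun q A => Sp2 q.1.1 q.1.2 q.2.1 q.2.2 A ∧
        NG a b (q.1.1 ⊓ q.2.1) (q.1.2 ⊔ q.2.2) A) (fun A h => h)
    refine h1.trans ?_
    calc ∑ q ∈ SI, Pr p (fun A => Sp2 q.1.1 q.1.2 q.2.1 q.2.2 A ∧
        NG a b (q.1.1 ⊓ q.2.1) (q.1.2 ⊔ q.2.2) A)
        ≤ ∑ q ∈ SI, Real.exp (12 * G - K) * E := by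
          apply sum_le_sum
          intro q hq
          rw [hSI, mem_filter] at hq
          obtain ⟨-, k1, k2, k3, k4, k5, k6, k7, k8, k9, k10⟩ := hq
          rw [hE]
          apply term_split P a b _ _ _ _ k1 k2 k3 k8 k9 hS k10
          · exact ih _ (by omega) _ _ rfl k1 k4 (by omega)
          · exact ih _ (by omega) _ _ rfl k2 k5 (by omega)
      _ = (SI.card : ℝ) * Real.exp (12 * G - K) * E := by
          rw [sum_const, nsmul_eq_mul]; ring
      _ ≤ (M : ℝ) ^ 12 * Real.exp (12 * G - K) * E := by gcongr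
      _ ≤ 1 / 2 * E := by
          apply mul_le_mul_of_nonneg_right P.spl hE0.le
  have hor := Pr_or P.p0.le P.p1.le (E := Sp a b)
    (F := fun A => ∃ q ∈ GI, Sp q.1 q.2 A ∧ NG a b q.1 q.2 A)
    (G := fun A => ∃ q ∈ SI, Sp2 q.1.1 q.1.2 q.2.1 q.2.2 A ∧
        NG a b (q.1.1 ⊓ q.2.1) (q.1.2 ⊔ q.2.2) A) (by
      intro A hA
      rcases cases D a b hD A hA with ⟨q, hq1, hq2⟩ | ⟨q, hq1, hq2⟩
      · left
        refine ⟨q, ?_, hq2⟩
        rw [hGI, mem_filter]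
        exact ⟨mem_univ _, hq1⟩
      · right
        refine ⟨q, ?_, hq2⟩
        rw [hSI, mem_filter]
        exact ⟨mem_univ _, hq1⟩)
  rw [← hE]
  linarith

end

end Pool.Agent.V5helper97.BootInd
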