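import Mathlib
import Pool.Agent.V5helper97.BootInd

/-!
Small boxes, the number of boxes, and the upper bound for the percolation probability in terms
of the parameters.
-/

set_option autoImplicit false
set_option maxHeartbeats 1000000
set_option linter.unusedVariables false

namespace Pool.Agent.V5helper97.BootA0

open Finset Classical Pool.Agent.Helper384.Bz Pool.Agent.V5helper97.BootPr
  Pool.Agent.V5helper97.BootNG Pool.Agent.V5helper97.BootG Pool.Agent.V5helper97.BootPath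
  Pool.Agent.V5helper97.BootW Pool.Agent.V5helper97.BootTree Pool.Agent.V5helper97.BootInd

variable {n : ℕ}

theorem base_bound {p G K : ℝ} (h0 : 0 < p) (h1 : p < 1) (hG : 0 ≤ G) (D S0 : ℕ)
    (hT : 2 * Real.exp 1 * ((S0 : ℝ) + 1) ^ 2 * p ≤ Real.exp (-(2 * (G + 1)))) (hK : K ≤ D)
    (a b : V n 3) (hab : a ≤ b) (hD : D < sz a b) (hS : sz a b ≤ S0) :
    Pr p (Sp a b) ≤ Real.exp (-(G * sz a b) - K) := by
  obtain ⟨s, hs⟩ : ∃ s, s = sz a b := ⟨_, rfl⟩
  obtain ⟨m, hm⟩ : ∃ m, m = s / 2 + 1 := ⟨_, rfl⟩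
  rw [← hs] at hD hS ⊢
  have hsub : Pr p (Sp a b) ≤ Pr p (fun A => ∃ B, B ⊆ A ∧ B ⊆ Icc a b ∧ B.card = m) := by
    apply Pr_mono h0.le h1.le
    rintro A ⟨A', hA', hT'⟩
    have h2 := card_ge hT'
    obtain ⟨B, hB1, hB2⟩ := Finset.exists_subset_card_eq (s := A') (n := m) (by omega)
    exact ⟨B, hB1.trans hA', hB1.trans (sub_Icc hT'), hB2⟩
  refine (hsub.trans (Pr_subset h0.le h1.le (Icc a b) m)).trans ?_
  have hN : ((Icc a b).card : ℝ) ≤ ((s : ℝ) + 1) ^ 3 := by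
    have h3 : (Icc a b).card ≤ (s + 1) ^ 3 :=
      card_Icc_le3 a b hab (s + 1) (fun i => by rw [hs]; exact side_le a b i)
    exact_mod_cast h3
  have hm0 : (0:ℝ) < m := by rw [hm]; positivity
  have hm2 : (s : ℝ) + 1 ≤ 2 * m := by
    have : s + 1 ≤ 2 * m := by omega
    exact_mod_cast this
  have hch : (((Icc a b).card.choose m : ℕ) : ℝ) ≤ ((Icc a b).card : ℝ) ^ m / (m.factorial : ℝ) :=
    Nat.choose_le_pow_div m _
  have hf : (m : ℝ) ^ m / (m.factorial : ℝ) ≤ Real.exp m := Real.pow_div_factorial_le_exp m hm0.le m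
  have hfac : (0:ℝ) < (m.factorial : ℝ) := by exact_mod_cast Nat.factorial_pos m
  have hinv : 1 / (m.factorial : ℝ) ≤ (Real.exp 1 / m) ^ m := by
    rw [div_pow, ← Real.exp_nat_mul, mul_one, div_le_div_iff₀ hfac (by positivity)]
    rw [div_le_iff₀ hfac] at hf
    linarith
  have key : (Icc a b).card * p * (Real.exp 1 / m) ≤ Real.exp (-(2 * (G + 1))) := by
    refine le_trans ?_ hT
    have hsS : (s : ℝ) ≤ S0 := by exact_mod_cast hS
    calc ((Icc a b).card : ℝ) * p * (Real.exp 1 / m)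
        ≤ ((s : ℝ) + 1) ^ 3 * p * (Real.exp 1 / (((s : ℝ) + 1) / 2)) := by
          gcongr
          linarith
      _ = 2 * Real.exp 1 * ((s : ℝ) + 1) ^ 2 * p := by field_simp
      _ ≤ _ := by gcongr
  calc (((Icc a b).card.choose m : ℕ) : ℝ) * p ^ m
      ≤ ((Icc a b).card : ℝ) ^ m / (m.factorial : ℝ) * p ^ m := by gcongr
    _ = ((Icc a b).card : ℝ) ^ m * p ^ m * (1 / (m.factorial : ℝ)) := by ring
    _ ≤ ((Icc a b).card : ℝ) ^ m * p ^ m * (Real.exp 1 / m) ^ m := by gcongr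
    _ = ((Icc a b).card * p * (Real.exp 1 / m)) ^ m := by rw [mul_pow, mul_pow]
    _ ≤ Real.exp (-(2 * (G + 1))) ^ m := by
        apply pow_le_pow_left₀ (by positivity) key
    _ = Real.exp (-((G + 1) * (2 * m))) := by
        rw [← Real.exp_nat_mul]; congr 1; ring
    _ ≤ Real.exp (-((G + 1) * (s + 1))) := by
        rw [Real.exp_le_exp]
        have := mul_le_mul_of_nonneg_left hm2 (show 0 ≤ G + 1 by linarith)
        linarith
    _ ≤ Real.exp (-(G * s) - K) := by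
        rw [Real.exp_le_exp]
        have : (D : ℝ) ≤ s := by exact_mod_cast hD.le
        nlinarith

theorem box_count (m0 : ℕ) :
    ((univ : Finset (V n 3 × V n 3)).filter (fun q => q.1 ≤ q.2 ∧ m0 ≤ sz q.1 q.2 ∧
      sz q.1 q.2 ≤ 2 * m0)).card ≤ n ^ 3 * (2 * m0 + 1) ^ 3 := by
  have h : ((univ : Finset (V n 3 × V n 3)).filter (fun q => q.1 ≤ q.2 ∧ m0 ≤ sz q.1 q.2 ∧
      sz q.1 q.2 ≤ 2 * m0)).card ≤ ((univ : Finset (V n 3)) ×ˢ
        Fintype.piFinset (fun _ : Fin 3 => range (2 * m0 + 1))).card := by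
    apply card_le_card_of_injOn (fun q => (q.1, fun i => (q.2 i : ℕ) - (q.1 i : ℕ)))
    · intro q hq
      have hq' := (mem_filter.1 (mem_coe.1 hq)).2
      rw [mem_coe, mem_product, Fintype.mem_piFinset]
      refine ⟨mem_univ _, fun i => ?_⟩
      rw [mem_range]
      have := side_le q.1 q.2 i
      unfold sides at this
      show (q.2 i : ℕ) - (q.1 i : ℕ) < 2 * m0 + 1
      omega
    · intro q hq q' hq' heq
      have h1 := (mem_filter.1 (mem_coe.1 hq)).2.1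
      have h2 := (mem_filter.1 (mem_coe.1 hq')).2.1
      simp only [Prod.mk.injEq] at heq
      obtain ⟨e1, e2⟩ := heq
      apply Prod.ext e1
      funext i
      have e3 := congrFun e2 i
      have h3 : (q.1 i : ℕ) ≤ (q.2 i : ℕ) := h1 i
      have h4 : (q'.1 i : ℕ) ≤ (q'.2 i : ℕ) := h2 i
      have e4 : (q.1 i : ℕ) = (q'.1 i : ℕ) := by rw [e1]
      apply Fin.ext
      omega
  refine h.trans (le_of_eq ?_)
  rw [card_product, card_univ, Fintype.card_piFinset]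
  simp

/-- upper bound for the probability of percolation -/
theorem perc_bound {p κ G ε K : ℝ} {D S0 S1 M m0 : ℕ} (P : Par n p κ G ε K D S0 S1 M)
    (hn : 0 < n) (hm0 : m0 ≤ 3 * (n - 1)) (hm1 : 1 ≤ m0) (hS1 : S1 = 2 * m0) (hM : M = 2 * m0 + 1)
    (hD : D < m0) (low : ℝ)
    (hlow : ∀ a b : V n 3, a ≤ b → m0 ≤ sz a b → sz a b ≤ 2 * m0 →
      low ≤ WW κ (ga G ε) (sides a b)) :
    percProb n 3 2 p ≤ 1 / 2 * ((n : ℝ) ^ 3 * Real.exp (-low)) := by
  have h1 : percProb n 3 2 p = Pr p (fun A : Finset (V n 3) => Percolates 2 A) := by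
    rw [Pr_eq]; rfl
  rw [h1]
  have h2 := Pr_union P.p0.le P.p1.le ((univ : Finset (V n 3 × V n 3)).filter (fun q =>
      q.1 ≤ q.2 ∧ m0 ≤ sz q.1 q.2 ∧ sz q.1 q.2 ≤ 2 * m0))
      (E := fun A : Finset (V n 3) => Percolates 2 A) (F := fun q A => Sp q.1 q.2 A) (by
        intro A hA
        obtain ⟨a, b, k1, k2, k3, k4⟩ := perc_box hn hm0 hm1 A hA
        exact ⟨(a, b), mem_filter.2 ⟨mem_univ _, k1, k2, k3⟩, k4⟩)
  refine h2.trans ?_
  calc ∑ q ∈ (univ : Finset (V n 3 × V n 3)).filter (fun q =>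
      q.1 ≤ q.2 ∧ m0 ≤ sz q.1 q.2 ∧ sz q.1 q.2 ≤ 2 * m0), Pr p (Sp q.1 q.2)
      ≤ ∑ q ∈ (univ : Finset (V n 3 × V n 3)).filter (fun q =>
      q.1 ≤ q.2 ∧ m0 ≤ sz q.1 q.2 ∧ sz q.1 q.2 ≤ 2 * m0), Real.exp (-low - K) := by
        apply sum_le_sum
        intro q hq
        obtain ⟨-, k1, k2, k3⟩ := mem_filter.1 hq
        have h3 := main P (sz q.1 q.2) q.1 q.2 rfl k1 (by omega) (by omega)
        refine h3.trans (Real.exp_le_exp.2 ?_)
        have := hlow q.1 q.2 k1 k2 k3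
        linarith
    _ = (((univ : Finset (V n 3 × V n 3)).filter (fun q =>
      q.1 ≤ q.2 ∧ m0 ≤ sz q.1 q.2 ∧ sz q.1 q.2 ≤ 2 * m0)).card : ℝ) * Real.exp (-low - K) := by
        rw [sum_const, nsmul_eq_mul]
    _ ≤ ((n : ℝ) ^ 3 * (M : ℝ) ^ 3) * Real.exp (-low - K) := by
        have := box_count (n := n) m0
        rw [← hM] at this
        have h4 : (((univ : Finset (V n 3 × V n 3)).filter (fun q =>
            q.1 ≤ q.2 ∧ m0 ≤ sz q.1 q.2 ∧ sz q.1 q.2 ≤ 2 * m0)).card : ℝ) ≤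
            (n : ℝ) ^ 3 * (M : ℝ) ^ 3 := by exact_mod_cast this
        gcongr
    _ = (n : ℝ) ^ 3 * Real.exp (-low) * ((M : ℝ) ^ 3 * Real.exp (-K)) := by
        rw [show -low - K = -low + -K by ring, Real.exp_add]; ring
    _ ≤ (n : ℝ) ^ 3 * Real.exp (-low) * (1 / 2) := by
        have h5 : (1:ℝ) ≤ M := by rw [hM]; push_cast; linarith [Nat.cast_nonneg (α := ℝ) m0]
        have h6 : (M : ℝ) ^ 3 * Real.exp (-K) ≤ 1 / 2 := by
          refine le_trans ?_ P.spl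
          have h7 : (M : ℝ) ^ 3 ≤ (M : ℝ) ^ 12 := pow_le_pow_right₀ h5 (by norm_num)
          have h8 : Real.exp (-K) ≤ Real.exp (12 * G - K) := by
            rw [Real.exp_le_exp]; linarith [P.G0]
          gcongr
        gcongr
    _ = _ := by ring

end Pool.Agent.V5helper97.BootA0
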