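import Mathlib
import Pool.Agent.V5helper97.BootA0

/-!
Part A: below the threshold there is no percolation.
-/

set_option autoImplicit false
set_option maxHeartbeats 1000000
set_option linter.unusedVariables false

namespace Pool.Agent.V5helper97.BootA

open Finset Classical Pool.Agent.Helper384.Bz Pool.Agent.V5helper97.BootPr
  Pool.Agent.V5helper97.BootNG Pool.Agent.V5helper97.BootG Pool.Agent.V5helper97.BootPath
  Pool.Agent.V5helper97.BootW Pool.Agent.V5helper97.BootTree Pool.Agent.V5helper97.BootInd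
  Pool.Agent.V5helper97.BootInt Pool.Agent.V5helper97.BootA0 Filter

/-- the two asymptotic conditions -/
theorem small_s (Mb G ε δ : ℝ) (hMb : 0 < Mb) (hε : 0 < ε) (hδ : 0 < δ) :
    ∃ s0 : ℝ, 0 < s0 ∧ ∀ s, 0 < s → s ≤ s0 →
      (Mb / s) ^ 6 * Real.exp (6 * G - ε / 2 * (δ / s)) ≤ 1 / 2 ∧
      12 * G + Real.log (2 * (Mb / s) ^ 12) ≤ δ / s - 1 := by
  have h1 : Tendsto (fun x : ℝ => (Mb * x) ^ 6 * Real.exp (6 * G - ε / 2 * (δ * x))) atTop (nhds 0) := by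
    have h2 := Real.tendsto_pow_mul_exp_neg_atTop_nhds_zero 6
    have h3 : Tendsto (fun x : ℝ => ε * δ / 2 * x) atTop atTop :=
      tendsto_id.const_mul_atTop (by positivity)
    have h4 := (h2.comp h3).const_mul (Mb ^ 6 / (ε * δ / 2) ^ 6 * Real.exp (6 * G))
    rw [mul_zero] at h4
    refine h4.congr (fun x => ?_)
    simp only [Function.comp]
    have e1 : Real.exp (6 * G - ε / 2 * (δ * x)) = Real.exp (6 * G) * Real.exp (-(ε * δ / 2 * x)) := by
      rw [← Real.exp_add]; congr 1; ring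
    rw [e1, mul_pow (ε * δ / 2) x, mul_pow Mb x]
    field_simp
  have h5 : Tendsto (fun x : ℝ => (12 * G + Real.log (2 * (Mb * x) ^ 12) + 1) / x) atTop (nhds 0) := by
    have h6 : Tendsto (fun x : ℝ => Real.log x / x) atTop (nhds 0) := by
      have := Real.isLittleO_log_id_atTop.tendsto_div_nhds_zero
      simpa using this
    have h7 : Tendsto (fun x : ℝ => (12 * G + Real.log (2 * Mb ^ 12) + 1) / x) atTop (nhds 0) :=
      tendsto_const_nhds.div_atTop tendsto_id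
    have h8 := h7.add (h6.const_mul 12)
    rw [mul_zero, add_zero] at h8
    refine h8.congr' ?_
    filter_upwards [eventually_gt_atTop 0] with x hx
    have e2 : Real.log (2 * (Mb * x) ^ 12) = Real.log (2 * Mb ^ 12) + 12 * Real.log x := by
      rw [mul_pow, ← mul_assoc, Real.log_mul (by positivity) (by positivity), Real.log_pow]
      push_cast; ring
    rw [e2]
    ring
  have h9 : ∀ᶠ x : ℝ in atTop, (Mb * x) ^ 6 * Real.exp (6 * G - ε / 2 * (δ * x)) < 1 / 2 :=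
    h1.eventually (gt_mem_nhds (by norm_num))
  have h10 : ∀ᶠ x : ℝ in atTop, (12 * G + Real.log (2 * (Mb * x) ^ 12) + 1) / x < δ :=
    h5.eventually (gt_mem_nhds hδ)
  obtain ⟨X, hX⟩ := (h9.and (h10.and (eventually_gt_atTop 0))).exists_forall_of_atTop
  obtain ⟨X', hX'1, hX'2⟩ : ∃ X' : ℝ, X ≤ X' ∧ 0 < X' := ⟨max X 1, le_max_left _ _, by positivity⟩
  refine ⟨1 / X', by positivity, ?_⟩
  intro s hs hs0
  have hx : X ≤ 1 / s := by
    refine hX'1.trans ?_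
    rw [le_div_iff₀ hs]
    rw [le_div_iff₀ hX'2] at hs0
    linarith
  obtain ⟨k1, k2, k3⟩ := hX (1 / s) hx
  have e1 : Mb * (1 / s) = Mb / s := by ring
  have e2 : δ * (1 / s) = δ / s := by ring
  rw [e1, e2] at k1
  rw [e1, div_lt_iff₀ k3, e2] at k2
  exact ⟨k1.le, by linarith⟩

theorem kappa_facts {q : ℝ} (hq : 0 < q) (hq1 : q ≤ 1 / 2) :
    0 < -Real.log (1 - q ^ 2) ∧ q ^ 2 ≤ -Real.log (1 - q ^ 2) ∧
      √(-Real.log (1 - q ^ 2)) * (1 - q ^ 2) ≤ q ∧ q ≤ √(-Real.log (1 - q ^ 2)) ∧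
      √(-Real.log (1 - q ^ 2)) ≤ 2 * q := by
  have hq2 : 0 < q ^ 2 := by positivity
  have hq3 : q ^ 2 ≤ 1 / 4 := by nlinarith
  have h1 : q ^ 2 ≤ -Real.log (1 - q ^ 2) := by
    have := Real.log_le_sub_one_of_pos (show 0 < 1 - q ^ 2 by linarith)
    linarith
  have h2 : -Real.log (1 - q ^ 2) * (1 - q ^ 2) ≤ q ^ 2 := by
    have h3 := Real.one_sub_inv_le_log_of_pos (show 0 < 1 - q ^ 2 by linarith)
    have h4 : 0 < 1 - q ^ 2 := by linarith
    have h5 : (1 - (1 - q ^ 2)⁻¹) * (1 - q ^ 2) ≤ Real.log (1 - q ^ 2) * (1 - q ^ 2) := by gcongr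
    rw [sub_mul, inv_mul_cancel₀ h4.ne'] at h5
    linarith
  have hκ : 0 < -Real.log (1 - q ^ 2) := by linarith
  obtain ⟨κ, hκe⟩ : ∃ κ, κ = -Real.log (1 - q ^ 2) := ⟨_, rfl⟩
  rw [← hκe] at h1 h2 hκ ⊢
  have hs := Real.sq_sqrt hκ.le
  have hs0 : 0 < √κ := Real.sqrt_pos.2 hκ
  have h6 : √κ * (1 - q ^ 2) ≤ q := by
    apply le_of_sq_le_sq _ hq.le
    calc (√κ * (1 - q ^ 2)) ^ 2 = κ * (1 - q ^ 2) * (1 - q ^ 2) := by rw [mul_pow, hs]; ring
      _ ≤ q ^ 2 * 1 := by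
        apply mul_le_mul h2 (by linarith) (by linarith) (by positivity)
      _ = q ^ 2 := by ring
  refine ⟨hκ, h1, h6, ?_, ?_⟩
  · apply Real.le_sqrt_of_sq_le h1
  · nlinarith
where
  le_of_sq_le_sq {a b : ℝ} (h : a ^ 2 ≤ b ^ 2) (hb : 0 ≤ b) : a ≤ b := abs_le_of_sq_le_sq' h hb |>.2

theorem fin_ineq {q L G ε0 : ℝ} (hq : 0 < q) (hq2 : q ≤ 1 / 2) (hL : 0 < L) (hε0 : 0 < ε0)
    (h7 : q * (3 * L + 3 * G) ≤ ε0 / 2) :
    3 * L - ε0 < (3 * L - 7 / 20 * ε0) * (1 - q ^ 2) - 3 * G * q := by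
  have e1 : (3 * L - 7 / 20 * ε0) * q ^ 2 ≤ 3 * L * q := by
    have h1 : q ^ 2 ≤ q := by nlinarith
    have h2 : 3 * L * q ^ 2 ≤ 3 * L * q := by gcongr
    have h3 : 0 ≤ ε0 * q ^ 2 := by positivity
    linarith
  have e2 : (3 * L - 7 / 20 * ε0) * (1 - q ^ 2) =
      (3 * L - 7 / 20 * ε0) - (3 * L - 7 / 20 * ε0) * q ^ 2 := by ring
  rw [e2]
  linarith

/-- **Part A** -/
theorem partA (ε0 : ℝ) (hε0 : 0 < ε0) : ∃ q0 C : ℝ, 0 < q0 ∧ 0 < C ∧ ∀ q, 0 < q → q ≤ q0 →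
    ∀ n : ℕ, C / q ≤ n → 3 * Real.log n ≤ (3 * Lam - ε0) / q → percProb n 3 2 (q ^ 2) < 1 / 2 := by
  obtain ⟨za, K, hza, hzaK, htr⟩ := trunc (ε0 / 30) (by positivity)
  obtain ⟨z0, hz0, hz1, hz2, hz3⟩ : ∃ z0 : ℝ, 0 < z0 ∧ z0 ≤ za ∧ z0 ≤ 1 / 2 ∧ 8 * z0 ≤ ε0 / 10 := by
    refine ⟨min za (min (1 / 2) (ε0 / 80)), by positivity, min_le_left _ _,
      (min_le_right _ _).trans (min_le_left _ _), ?_⟩
    have := (min_le_right za (min (1 / 2) (ε0 / 80))).trans (min_le_right _ _)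
    linarith
  have hint := htr z0 hz0 hz1
  have hK0 : 0 < K := hza.trans hzaK
  have hLam := Lam_pos
  obtain ⟨G, hG⟩ : ∃ G, G = Af (z0 ^ 2) := ⟨_, rfl⟩
  have hG0 : 0 < G := by rw [hG]; exact Af_pos (by positivity)
  obtain ⟨B0, hB0⟩ : ∃ B0, B0 = Bf (z0 ^ 2) := ⟨_, rfl⟩
  have hB0n : 0 ≤ B0 := by rw [hB0]; exact Bf_nonneg (by positivity)
  have hB0z : B0 * z0 ^ 3 ≤ ε0 / 10 := by
    have h1 := xBf_le (x := z0 ^ 2) (by positivity) (by nlinarith)
    rw [← hB0] at h1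
    have : B0 * z0 ^ 3 = z0 * (z0 ^ 2 * B0) := by ring
    rw [this]
    nlinarith
  have hAK : 0 < Af (K ^ 2) := Af_pos (by positivity)
  obtain ⟨B, hB⟩ : ∃ B, B = 3 * K + 3 * Lam / Af (K ^ 2) + 1 := ⟨_, rfl⟩
  have hB1 : 1 ≤ B := by
    have : 0 < 3 * Lam / Af (K ^ 2) := by positivity
    rw [hB]; linarith
  have hBK : 3 * Lam ≤ Af (K ^ 2) * (B - 3 * K) := by
    have : Af (K ^ 2) * (B - 3 * K) = 3 * Lam + Af (K ^ 2) := by
      rw [hB]; field_simp; ring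
    linarith
  obtain ⟨Mb, hMb⟩ : ∃ Mb, Mb = 2 * B + 3 := ⟨_, rfl⟩
  have hMb0 : 0 < Mb := by rw [hMb]; linarith
  obtain ⟨ε, hε, hε1, hε2, hε3⟩ : ∃ ε : ℝ, 0 < ε ∧ ε ≤ gf (Mb ^ 2) ∧ ε ≤ G ∧ Mb * ε ≤ ε0 / 10 := by
    have h1 := gf_pos (x := Mb ^ 2) (by positivity)
    refine ⟨min (gf (Mb ^ 2)) (min G (ε0 / (10 * Mb))), by positivity, min_le_left _ _,
      (min_le_right _ _).trans (min_le_left _ _), ?_⟩
    have h2 := (min_le_right (gf (Mb ^ 2)) (min G (ε0 / (10 * Mb)))).trans (min_le_right _ _)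
    calc Mb * min (gf (Mb ^ 2)) (min G (ε0 / (10 * Mb))) ≤ Mb * (ε0 / (10 * Mb)) := by gcongr
      _ = ε0 / 10 := by field_simp
  obtain ⟨T, hT⟩ : ∃ T, T = Real.exp (-(G + 1)) / 5 := ⟨_, rfl⟩
  have hT0 : 0 < T := by rw [hT]; positivity
  have hT1 : T ≤ 1 := by
    have : Real.exp (-(G + 1)) ≤ 1 := by rw [Real.exp_le_one_iff]; linarith
    rw [hT]; linarith
  have hT2 : 2 * Real.exp 1 * (2 * T) ^ 2 ≤ Real.exp (-(2 * (G + 1))) := by
    have h1 : T ^ 2 = Real.exp (-(2 * (G + 1))) / 25 := by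
      rw [hT, div_pow, ← Real.exp_nat_mul]
      congr 1
      · congr 1; ring
      · norm_num
    have h2 := Real.exp_one_lt_d9
    have h3 := Real.exp_pos (-(2 * (G + 1)))
    rw [mul_pow, h1]
    nlinarith
  obtain ⟨δ, hδ, hδ1, hδ2⟩ : ∃ δ : ℝ, 0 < δ ∧ 6 * δ ≤ T ∧ Real.exp (6 * G) * (3 * Mb * (4 * δ)) ≤ ε / 2 := by
    refine ⟨min (T / 6) (ε * Real.exp (-(6 * G)) / (24 * Mb)), by positivity, ?_, ?_⟩
    · have := min_le_left (T / 6) (ε * Real.exp (-(6 * G)) / (24 * Mb))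
      linarith
    · have h1 := min_le_right (T / 6) (ε * Real.exp (-(6 * G)) / (24 * Mb))
      calc _ ≤ Real.exp (6 * G) * (3 * Mb * (4 * (ε * Real.exp (-(6 * G)) / (24 * Mb)))) := by gcongr
        _ = (Real.exp (6 * G) * Real.exp (-(6 * G))) * (ε / 2) := by field_simp; ring
        _ = ε / 2 := by rw [← Real.exp_add]; simp
  obtain ⟨E1, hE1⟩ : ∃ E1, E1 = 3 * B0 * Mb ^ 4 * max z0 Mb / z0 ^ 4 := ⟨_, rfl⟩
  have hE10 : 0 ≤ E1 := by rw [hE1]; positivity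
  obtain ⟨s1, hs1, hs1'⟩ := small_s Mb G ε δ hMb0 hε hδ
  obtain ⟨s0, hs0, h01, h0δ, h0z, h0s1, h0E⟩ : ∃ s0 : ℝ, 0 < s0 ∧ s0 ≤ 1 ∧ s0 ≤ δ ∧ s0 ≤ z0 ∧
      s0 ≤ s1 ∧ Mb * E1 * s0 ≤ ε0 / 20 := by
    refine ⟨min (min 1 δ) (min z0 (min s1 (ε0 / (20 * (Mb * E1 + 1))))), by positivity,
      (min_le_left _ _).trans (min_le_left _ _), (min_le_left _ _).trans (min_le_right _ _),
      (min_le_right _ _).trans (min_le_left _ _),
      (min_le_right _ _).trans ((min_le_right _ _).trans (min_le_left _ _)), ?_⟩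
    have h1 : min (min 1 δ) (min z0 (min s1 (ε0 / (20 * (Mb * E1 + 1))))) ≤
        ε0 / (20 * (Mb * E1 + 1)) :=
      (min_le_right _ _).trans ((min_le_right _ _).trans (min_le_right _ _))
    have h2 : 0 ≤ Mb * E1 := by positivity
    calc Mb * E1 * _ ≤ Mb * E1 * (ε0 / (20 * (Mb * E1 + 1))) := by gcongr
      _ = ε0 / 20 * (Mb * E1 / (Mb * E1 + 1)) := by field_simp
      _ ≤ ε0 / 20 * 1 := by
        gcongr
        rw [div_le_one (by positivity)]
        linarith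
      _ = _ := by ring
  obtain ⟨q0, hq0, hq01, hq02, hq03⟩ : ∃ q0 : ℝ, 0 < q0 ∧ q0 ≤ 1 / 2 ∧ 2 * q0 ≤ s0 ∧
      q0 * (3 * Lam + 3 * G) ≤ ε0 / 2 := by
    refine ⟨min (min (1 / 2) (s0 / 2)) (ε0 / 2 / (3 * Lam + 3 * G)), by positivity,
      (min_le_left _ _).trans (min_le_left _ _), ?_, ?_⟩
    · have : min (min (1 / 2) (s0 / 2)) (ε0 / 2 / (3 * Lam + 3 * G)) ≤ s0 / 2 :=
        (min_le_left _ _).trans (min_le_right _ _)
      linarith
    · calc _ ≤ (ε0 / 2 / (3 * Lam + 3 * G)) * (3 * Lam + 3 * G) := by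
            apply mul_le_mul_of_nonneg_right (min_le_right _ _) (by positivity)
        _ = ε0 / 2 := by field_simp
  refine ⟨q0, B + 4, hq0, by linarith, ?_⟩
  intro q hq hqq0 n hn hlog
  have hq2 : q ≤ 1 / 2 := hqq0.trans hq01
  obtain ⟨hκ, hκ1, hκ2, hκ3, hκ4⟩ := kappa_facts hq hq2
  obtain ⟨κ, hκe⟩ : ∃ κ, κ = -Real.log (1 - q ^ 2) := ⟨_, rfl⟩
  rw [← hκe] at hκ hκ1 hκ2 hκ3 hκ4
  obtain ⟨s, hs⟩ : ∃ s, s = √κ := ⟨_, rfl⟩
  have hss : s ^ 2 = κ := by rw [hs]; exact Real.sq_sqrt hκ.le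
  rw [← hs] at hκ2 hκ3 hκ4
  have hs0' : 0 < s := hq.trans_le hκ3
  have hsle : s ≤ s0 := by linarith
  obtain ⟨hg1, hg2⟩ := hs1' s hs0' (hsle.trans h0s1)
  have hn1 : (B + 4) / q ≤ n := hn
  have hnR : B / q + 4 ≤ n := by
    have : B / q + 4 ≤ (B + 4) / q := by
      rw [add_div]
      have : (4:ℝ) ≤ 4 / q := by rw [le_div_iff₀ hq]; linarith
      linarith
    linarith
  have hBq : 0 < B / q := by positivity
  have hn4 : 4 ≤ n := by
    have : (4:ℝ) ≤ n := by linarith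
    exact_mod_cast this
  -- the natural number parameters
  obtain ⟨m0, hm0⟩ : ∃ m0, m0 = ⌈B / s⌉₊ := ⟨_, rfl⟩
  have hBs : 0 < B / s := by positivity
  have hm0l : B / s ≤ m0 := by rw [hm0]; exact Nat.le_ceil _
  have hm0u : (m0 : ℝ) < B / s + 1 := by rw [hm0]; exact Nat.ceil_lt_add_one hBs.le
  have hm01 : 1 ≤ m0 := by rw [hm0]; exact Nat.one_le_ceil_iff.2 hBs
  have hBsq : B / s ≤ B / q := by gcongr
  have hm03 : m0 ≤ 3 * (n - 1) := by
    have h1 : (m0 : ℝ) < (n : ℝ) - 3 := by linarith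
    have h2 : (m0 : ℝ) + 3 < n := by linarith
    have h3 : m0 + 3 < n := by exact_mod_cast h2
    omega
  have h1s : 1 ≤ 1 / s := by rw [le_div_iff₀ hs0']; linarith
  have hMs : ((2 * m0 + 1 : ℕ) : ℝ) ≤ Mb / s := by
    push_cast
    have : Mb / s = 2 * (B / s) + 3 * (1 / s) := by rw [hMb]; ring
    rw [this]; linarith
  obtain ⟨M, hM⟩ : ∃ M, M = 2 * m0 + 1 := ⟨_, rfl⟩
  rw [← hM] at hMs
  have hM0 : (0:ℝ) < M := by rw [hM]; positivity
  have hsM : s * M ≤ Mb := by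
    rw [le_div_iff₀ hs0'] at hMs
    linarith
  obtain ⟨D, hD⟩ : ∃ D, D = ⌊δ / s⌋₊ := ⟨_, rfl⟩
  have hδs : 0 < δ / s := by positivity
  have hDu : (D : ℝ) ≤ δ / s := by rw [hD]; exact Nat.floor_le hδs.le
  have hDl : δ / s < (D : ℝ) + 1 := by rw [hD]; exact Nat.lt_floor_add_one _
  obtain ⟨S0, hS0⟩ : ∃ S0, S0 = ⌊T / s⌋₊ := ⟨_, rfl⟩
  have hTs : 0 < T / s := by positivity
  have hS0u : (S0 : ℝ) ≤ T / s := by rw [hS0]; exact Nat.floor_le hTs.le
  have h1δ : 1 ≤ δ / s := by rw [le_div_iff₀ hs0']; linarith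
  have h6δ : 6 * (δ / s) ≤ T / s := by rw [← mul_div_assoc]; gcongr
  have hp0 : 0 < q ^ 2 := by positivity
  have hp1 : q ^ 2 < 1 := by nlinarith
  have hpκ : q ^ 2 ≤ s ^ 2 := by rw [hss]; exact hκ1
  obtain ⟨Kc, hKc⟩ : ∃ Kc, Kc = 12 * G + Real.log (2 * (M : ℝ) ^ 12) := ⟨_, rfl⟩
  have hKD : Kc ≤ D := by
    have : Real.log (2 * (M : ℝ) ^ 12) ≤ Real.log (2 * (Mb / s) ^ 12) := by
      apply Real.log_le_log (by positivity)
      gcongr
    rw [hKc]
    linarith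
  have hPar : Par n (q ^ 2) κ G ε Kc D S0 (2 * m0) M := by
    refine ⟨hp0, hp1, hκe, hG0.le, hε, by rw [hM], ?_, ?_, ?_, ?_, ?_, ?_⟩
    · intro x hx hx2
      refine le_min ?_ hε2
      refine hε1.trans ?_
      apply gf_anti hx
      refine hx2.trans ?_
      rw [← hss, ← mul_pow]
      gcongr
    · calc Real.exp (6 * G) * q ^ 2 * (3 * M * (2 * D + 2))
          ≤ Real.exp (6 * G) * s ^ 2 * (3 * (Mb / s) * (4 * (δ / s))) := by
            gcongr
            linarith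
        _ = Real.exp (6 * G) * (3 * Mb * (4 * δ)) := by field_simp
        _ ≤ ε / 2 := hδ2
    · intro a b hab hDs hsS
      apply base_bound hp0 hp1 hG0.le D S0 _ hKD a b hab hDs hsS
      calc 2 * Real.exp 1 * ((S0 : ℝ) + 1) ^ 2 * q ^ 2
          ≤ 2 * Real.exp 1 * (2 * (T / s)) ^ 2 * s ^ 2 := by
            gcongr
            linarith
        _ = 2 * Real.exp 1 * (2 * T) ^ 2 := by field_simp
        _ ≤ _ := hT2
    · refine le_trans ?_ hg1
      gcongr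
    · have : Real.exp (12 * G - Kc) = 1 / (2 * (M : ℝ) ^ 12) := by
        rw [hKc, sub_add_cancel_left, Real.exp_neg, Real.exp_log (by positivity)]
        ring
      rw [this]
      apply le_of_eq
      field_simp
    · rw [hS0]
      apply Nat.le_floor
      push_cast
      linarith
  have hDm : D < m0 := by
    have : (D : ℝ) < m0 := by
      have h1 : δ / s < B / s := by
        gcongr
        linarith
      linarith
    exact_mod_cast this
  -- the lower bound for the cost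
  obtain ⟨low, hlow⟩ : ∃ low, low = (3 * Lam - 7 / 20 * ε0) / s - 3 * G := ⟨_, rfl⟩
  have hW : ∀ a b : V n 3, a ≤ b → m0 ≤ sz a b → sz a b ≤ 2 * m0 →
      low ≤ WW κ (ga G ε) (sides a b) := by
    intro a b hab h1 h2
    apply le_WW hκ (ga_anti G ε) G (ga_le hG0.le hε.le) (sides_one a b)
    intro c hc
    have hside : ∀ j, (sides a b j : ℝ) ≤ M := by
      intro j
      have : sides a b j ≤ M := (side_le a b j).trans (by rw [hM]; omega)
      exact_mod_cast this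
    have h3 := BootPath.low κ z0 hκ hz0 M (ga G ε) G ε (by rw [hG])
      (fun x _ => le_max_left _ _) hc hside
    have hsm := sm_sides a b
    have hszR : (m0 : ℝ) ≤ sz a b := by exact_mod_cast h1
    have hszR2 : (sz a b : ℝ) ≤ Mb / s := by
      have : (sz a b : ℝ) ≤ M := by
        have : sz a b ≤ M := by rw [hM]; omega
        exact_mod_cast this
      linarith
    have h4 := Psi_large κ z0 hκ hz0 (ε0 / 30) K (hz1.trans hzaK.le) hint B hBK (sides a b)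
      (by rw [hsm, ← hs]; linarith)
    rw [← hB0, ← hs] at h4
    have h5 : Psi κ z0 (fun _ => 1) ≤ 3 * G := by
      have hvo : vo (fun _ => 1) = 1 := by unfold vo; simp
      have hsm1 : sm (fun _ => 1) = 3 := by unfold sm; simp
      have hvv : vv κ z0 (fun _ => 1) = z0 := by
        unfold vv cb
        rw [hvo, Real.one_rpow, mul_one, ← hs]
        exact max_eq_left (by linarith)
      unfold Psi
      rw [hvv, hsm1, hvo, intervalIntegral.integral_same, sub_self, mul_zero, sub_zero,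
        ← hG, ← hB0]
      have : 0 ≤ B0 * min (κ * 1) (z0 ^ 3 / √κ) := by positivity
      linarith
    have h6 : 3 * Bf (z0 ^ 2) * (κ ^ 2 * √κ * (M : ℝ) ^ 4) * max z0 (√κ * M) / z0 ^ 4 ≤ E1 * s := by
      rw [← hB0, ← hs, ← hss, hE1]
      calc 3 * B0 * ((s ^ 2) ^ 2 * s * (M : ℝ) ^ 4) * max z0 (s * M) / z0 ^ 4
          = 3 * B0 * ((s * M) ^ 4) * max z0 (s * M) / z0 ^ 4 * s := by ring
        _ ≤ 3 * B0 * Mb ^ 4 * max z0 Mb / z0 ^ 4 * s := by gcongr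
    have h7 : (sm (sides a b) - 3) * (ε + 3 * Bf (z0 ^ 2) * (κ ^ 2 * √κ * (M : ℝ) ^ 4) *
        max z0 (√κ * M) / z0 ^ 4) ≤ Mb / s * (ε + E1 * s) := by
      rw [hsm]
      have h8 : (sz a b : ℝ) + 3 - 3 = sz a b := by ring
      rw [h8]
      apply mul_le_mul hszR2 (by linarith) _ (by positivity)
      have := Bf_nonneg (x := z0 ^ 2) (by positivity)
      positivity
    have h9 : Mb / s * (ε + E1 * s) ≤ (ε0 / 10 + ε0 / 20) / s := by
      rw [div_mul_eq_mul_div]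
      apply div_le_div_of_nonneg_right _ hs0'.le
      have : Mb * (E1 * s) ≤ ε0 / 20 := by
        calc Mb * (E1 * s) = Mb * E1 * s := by ring
          _ ≤ Mb * E1 * s0 := by gcongr
          _ ≤ _ := h0E
      linarith
    have h10 : B0 * z0 ^ 3 / s ≤ ε0 / 10 / s := by gcongr
    have h11 : (3 * Lam - 3 * (ε0 / 30)) / s - ε0 / 10 / s - (ε0 / 10 + ε0 / 20) / s =
        (3 * Lam - 7 / 20 * ε0) / s := by ring
    rw [hlow]
    linarith
  have hfin := perc_bound hPar (by omega) hm03 hm01 rfl hM hDm low hW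
  refine hfin.trans_lt ?_
  have hn0 : (0:ℝ) < n := by
    have : 0 < n := by omega
    exact_mod_cast this
  have hlogn : 0 ≤ Real.log n := Real.log_natCast_nonneg n
  have hbig : 3 * Real.log n < low := by
    refine hlog.trans_lt ?_
    have h1 : 0 ≤ 3 * Lam - ε0 := by
      by_contra hcon
      push Not at hcon
      have : (3 * Lam - ε0) / q < 0 := div_neg_of_neg_of_pos hcon hq
      linarith
    have h2 : (1 - q ^ 2) / q ≤ 1 / s := by
      rw [div_le_div_iff₀ hq hs0']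
      linarith
    have h3 : (3 * Lam - 7 / 20 * ε0) * ((1 - q ^ 2) / q) ≤ (3 * Lam - 7 / 20 * ε0) * (1 / s) := by
      apply mul_le_mul_of_nonneg_left h2
      linarith
    have h4 : (3 * Lam - 7 / 20 * ε0) * (1 / s) = (3 * Lam - 7 / 20 * ε0) / s := by ring
    rw [hlow]
    have h5 : (3 * Lam - ε0) / q < (3 * Lam - 7 / 20 * ε0) * ((1 - q ^ 2) / q) - 3 * G := by
      have h6 : (3 * Lam - 7 / 20 * ε0) * ((1 - q ^ 2) / q) - 3 * G =
          ((3 * Lam - 7 / 20 * ε0) * (1 - q ^ 2) - 3 * G * q) / q := by field_simp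
      rw [h6]
      apply div_lt_div_of_pos_right _ hq
      have h7 : q * (3 * Lam + 3 * G) ≤ ε0 / 2 := by
        refine le_trans ?_ hq03
        gcongr
      exact fin_ineq hq hq2 hLam hε0 h7
    linarith
  have h8 : (n : ℝ) ^ 3 = Real.exp (3 * Real.log n) := by
    have := Real.exp_log hn0
    conv_lhs => rw [← this]
    rw [← Real.exp_nat_mul]; norm_num
  rw [h8, ← Real.exp_add]
  have : Real.exp (3 * Real.log n + -low) < 1 := by
    rw [Real.exp_lt_one_iff]; linarith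
  linarith

end Pool.Agent.V5helper97.BootA
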