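import Mathlib
import Pool.Agent.V5helper97.BootPr
import Pool.Agent.V5helper97.BootG

/-!
Lower bound for the probability that a chain of plates has its double gaps exactly at a
prescribed sparse set of positions.
-/

set_option autoImplicit false
set_option maxHeartbeats 1000000
set_option linter.unusedVariables false
set_option linter.unusedSectionVars false

namespace Pool.Agent.V5helper97.BootChain

open Finset Classical Pool.Agent.Helper384.Bz Pool.Agent.V5helper97.BootPr
  Pool.Agent.V5helper97.BootG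

variable {α : Type} [Fintype α] [DecidableEq α]

/-- the double gaps among the levels `s, ..., m-1` are exactly at `G` -/
def Pat (Q : ℕ → Finset α) (G : Finset ℕ) (s m : ℕ) (A : Finset α) : Prop :=
  ∀ k, s ≤ k → k + 1 < m → ((¬ (A ∩ Q k).Nonempty ∧ ¬ (A ∩ Q (k + 1)).Nonempty) ↔ k ∈ G)

theorem Pat_dep (Q : ℕ → Finset α) (G : Finset ℕ) (s m : ℕ) :
    Dep ((Ico s m).biUnion Q) (Pat Q G s m) := by
  have key : ∀ A B : Finset α, A ∩ (Ico s m).biUnion Q = B ∩ (Ico s m).biUnion Q →
      Pat Q G s m A → Pat Q G s m B := by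
    intro A B hAB H
    have key : ∀ k, s ≤ k → k < m → A ∩ Q k = B ∩ Q k := by
      intro k hk1 hk2
      have hs : Q k ⊆ (Ico s m).biUnion Q := subset_biUnion_of_mem Q (mem_Ico.2 ⟨hk1, hk2⟩)
      have e1 : A ∩ Q k = A ∩ (Ico s m).biUnion Q ∩ Q k := by rw [inter_assoc, inter_eq_right.2 hs]
      have e2 : B ∩ Q k = B ∩ (Ico s m).biUnion Q ∩ Q k := by rw [inter_assoc, inter_eq_right.2 hs]
      rw [e1, e2, hAB]
    intro k hk1 hk2
    rw [← key k hk1 (by omega), ← key (k + 1) (by omega) hk2]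
    exact H k hk1 hk2
  intro A B hAB
  exact ⟨key A B hAB, key B A hAB.symm⟩

theorem Pr_add_le {p : ℝ} (h0 : 0 ≤ p) (h1 : p ≤ 1) {E F G : Finset α → Prop}
    (hF : ∀ A, F A → E A) (hG : ∀ A, G A → E A) (hd : ∀ A, F A → ¬ G A) :
    Pr p F + Pr p G ≤ Pr p E := by
  unfold Pr
  rw [← sum_add_distrib]
  apply sum_le_sum
  intro A _
  have hw := w_nonneg p h0 h1 A
  by_cases h : F A
  · rw [if_pos h, if_neg (hd A h), if_pos (hF A h)]; linarith
  · rw [if_neg h]
    by_cases h' : G A
    · rw [if_pos h', if_pos (hG A h')]; linarith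
    · rw [if_neg h']
      split_ifs <;> linarith

theorem bet_step {u v : ℝ} (h0 : 0 < u) (huv : u ≤ v) (h1 : v ≤ 1) :
    bet u * bet v ≤ u * bet v + (1 - u) * v := by
  have hb := bet_pos h0 (huv.trans h1)
  have h2 := bet_sq h0.le (huv.trans h1)
  have h3 := bet_ratio h0 huv h1
  have h4 : 0 ≤ 1 - u := by linarith
  have h5 : (1 - u) * (u * bet v) ≤ (1 - u) * (v * bet u) := mul_le_mul_of_nonneg_left h3 h4
  have h6 : bet u * (bet u * bet v) ≤ bet u * (u * bet v + (1 - u) * v) := by
    have : bet u * (bet u * bet v) = bet u ^ 2 * bet v := by ring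
    rw [this, h2]
    nlinarith
  exact le_of_mul_le_mul_left h6 hb

theorem chain_low {p : ℝ} (h0 : 0 ≤ p) (h1 : p ≤ 1) (Q : ℕ → Finset α) (G : Finset ℕ)
    (u : ℕ → ℝ) (c : ℝ) (m s0 : ℕ)
    (hu : ∀ k, s0 ≤ k → k < m → Pr p (fun A => (A ∩ Q k).Nonempty) = u k)
    (hdis : ∀ k k', s0 ≤ k → k < m → s0 ≤ k' → k' < m → k ≠ k' → Disjoint (Q k) (Q k'))
    (hmono : ∀ k, s0 ≤ k → k + 1 < m → u k ≤ u (k + 1))
    (hpos : ∀ k, s0 ≤ k → k < m → 0 < u k)
    (hc0 : 0 ≤ c) (hc1 : c ≤ 1)
    (hG : ∀ k ∈ G, s0 < k ∧ k + 2 < m ∧ k + 1 ∉ G ∧ k + 2 ∉ G ∧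
      c ≤ u (k - 1) * ((1 - u k) * (1 - u (k + 1)) * u (k + 2))) :
    ∀ N s : ℕ, m - s = N → s0 ≤ s →
      c ^ (G.filter (fun k => s ≤ k)).card * ∏ k ∈ Ico s m, bet (u k) ≤ Pr p (Pat Q G s m) ∧
      (s ∈ G → c ^ (G.filter (fun k => s ≤ k)).card * ∏ k ∈ Ico s m, bet (u k) ≤
        Pr p (Pat Q G s m) * u (s - 1)) := by
  have hu1 : ∀ k, s0 ≤ k → k < m → u k ≤ 1 := by
    intro k hk1 hk2
    rw [← hu k hk1 hk2]
    exact Pr_le_one h0 h1 _
  have hb0 : ∀ k, s0 ≤ k → k < m → 0 ≤ bet (u k) := fun k hk1 hk2 =>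
    bet_nonneg (hpos k hk1 hk2).le (hu1 k hk1 hk2)
  have hb1 : ∀ k, s0 ≤ k → k < m → bet (u k) ≤ 1 := fun k hk1 hk2 =>
    bet_le_one (hpos k hk1 hk2).le (hu1 k hk1 hk2)
  have hpr0 : ∀ s, s0 ≤ s → 0 ≤ ∏ k ∈ Ico s m, bet (u k) := by
    intro s hs
    apply prod_nonneg
    intro k hk
    rw [mem_Ico] at hk
    exact hb0 k (by omega) hk.2
  have hprstep : ∀ s, s0 ≤ s → s < m → ∏ k ∈ Ico s m, bet (u k) ≤ ∏ k ∈ Ico (s + 1) m, bet (u k) := by
    intro s hs hsm
    rw [prod_eq_prod_Ico_succ_bot hsm]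
    have := hpr0 (s + 1) (by omega)
    have := hb1 s hs hsm
    nlinarith
  have hdisU : ∀ k s, s0 ≤ k → k < s → Disjoint (Q k) ((Ico s m).biUnion Q) := by
    intro k s hk hks
    rw [disjoint_biUnion_right]
    intro k' hk'
    rw [mem_Ico] at hk'
    exact hdis k k' hk (by omega) (by omega) hk'.2 (by omega)
  intro N
  induction N using Nat.strong_induction_on with
  | _ N ih =>
  intro s hN hs
  by_cases hsm : m ≤ s + 1
  · have hf : G.filter (fun k => s ≤ k) = ∅ := by
      apply filter_eq_empty_iff.2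
      intro k hk hsk
      have := hG k hk
      omega
    have hPat : Pr p (Pat Q G s m) = 1 := by
      rw [← Pr_true (α := α) p]
      apply Pr_congr
      intro A
      constructor
      · intro _; trivial
      · intro _ k hk1 hk2; omega
    rw [hf, hPat, card_empty, pow_zero, one_mul]
    constructor
    · apply prod_le_one
      · intro k hk
        rw [mem_Ico] at hk
        exact hb0 k (by omega) hk.2
      · intro k hk
        rw [mem_Ico] at hk
        exact hb1 k (by omega) hk.2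
    · intro hsG
      have := hG s hsG
      omega
  push Not at hsm
  by_cases hsG : s ∈ G
  · -- a double gap at `s`
    obtain ⟨g1, g2, g3, g4, g5⟩ := hG s hsG
    have hfil : (G.filter (fun k => s ≤ k)) = insert s (G.filter (fun k => s + 3 ≤ k)) := by
      ext k
      rw [mem_insert, mem_filter, mem_filter]
      constructor
      · rintro ⟨k1, k2⟩
        by_cases h : k = s
        · exact Or.inl h
        · right
          refine ⟨k1, ?_⟩
          by_contra hcon
          have : k = s + 1 ∨ k = s + 2 := by omega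
          rcases this with h | h
          · rw [h] at k1; exact g3 k1
          · rw [h] at k1; exact g4 k1
      · rintro (h | ⟨k1, k2⟩)
        · exact ⟨h ▸ hsG, by omega⟩
        · exact ⟨k1, by omega⟩
    have hcard : (G.filter (fun k => s ≤ k)).card = (G.filter (fun k => s + 3 ≤ k)).card + 1 := by
      rw [hfil, card_insert_of_notMem]
      rw [mem_filter]
      omega
    have ih3 := (ih (m - (s + 3)) (by omega) (s + 3) rfl (by omega)).1
    have hPr : (1 - u s) * (1 - u (s + 1)) * u (s + 2) * Pr p (Pat Q G (s + 3) m) ≤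
        Pr p (Pat Q G s m) := by
      have d1 : Disjoint (Q (s + 2)) ((Ico (s + 3) m).biUnion Q) := hdisU _ _ (by omega) (by omega)
      have e1 := Pr_indep p d1 (Dep_hit (Q (s + 2))) (Pat_dep Q G (s + 3) m)
      have d2 : Disjoint (Q (s + 1)) (Q (s + 2) ∪ (Ico (s + 3) m).biUnion Q) := by
        rw [disjoint_union_right]
        exact ⟨hdis _ _ (by omega) (by omega) (by omega) (by omega) (by omega),
          hdisU _ _ (by omega) (by omega)⟩
      have e2 := Pr_indep p d2 (Dep_avoid (Q (s + 1)))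
        (((Dep_hit (Q (s + 2))).mono subset_union_left).and
          ((Pat_dep Q G (s + 3) m).mono subset_union_right))
      have d3 : Disjoint (Q s) (Q (s + 1) ∪ (Q (s + 2) ∪ (Ico (s + 3) m).biUnion Q)) := by
        rw [disjoint_union_right, disjoint_union_right]
        exact ⟨hdis _ _ (by omega) (by omega) (by omega) (by omega) (by omega),
          hdis _ _ (by omega) (by omega) (by omega) (by omega) (by omega),
          hdisU _ _ (by omega) (by omega)⟩
      have e3 := Pr_indep p d3 (Dep_avoid (Q s))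
        (((Dep_avoid (Q (s + 1))).mono subset_union_left).and
          (Dep.mono (((Dep_hit (Q (s + 2))).mono subset_union_left).and
          ((Pat_dep Q G (s + 3) m).mono subset_union_right)) subset_union_right))
      rw [e2, e1, Pr_not, Pr_not, hu s hs (by omega), hu (s + 1) (by omega) (by omega),
        hu (s + 2) (by omega) (by omega)] at e3
      have e4 : (1 - u s) * (1 - u (s + 1)) * u (s + 2) * Pr p (Pat Q G (s + 3) m) =
          (1 - u s) * ((1 - u (s + 1)) * (u (s + 2) * Pr p (Pat Q G (s + 3) m))) := by ring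
      rw [e4, ← e3]
      apply Pr_mono h0 h1
      rintro A ⟨a1, a2, a3, a4⟩ k hk1 hk2
      by_cases hk : k = s
      · subst hk; exact ⟨fun _ => hsG, fun _ => ⟨a1, a2⟩⟩
      by_cases hk' : k = s + 1
      · subst hk'
        exact ⟨fun h => absurd a3 h.2, fun h => absurd h g3⟩
      by_cases hk'' : k = s + 2
      · subst hk''
        exact ⟨fun h => absurd a3 h.1, fun h => absurd h g4⟩
      exact a4 k (by omega) hk2
    have hu0 : 0 ≤ u (s - 1) := (hpos (s - 1) (by omega) (by omega)).le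
    have hu0' : u (s - 1) ≤ 1 := hu1 (s - 1) (by omega) (by omega)
    have hP3 : 0 ≤ Pr p (Pat Q G (s + 3) m) := Pr_nonneg h0 h1 _
    have hP0 : 0 ≤ Pr p (Pat Q G s m) := Pr_nonneg h0 h1 _
    have hprod : ∏ k ∈ Ico s m, bet (u k) ≤ ∏ k ∈ Ico (s + 3) m, bet (u k) := by
      have a1 := hprstep s hs (by omega)
      have a2 := hprstep (s + 1) (by omega) (by omega)
      have a3 := hprstep (s + 2) (by omega) (by omega)
      linarith
    have hmain : c ^ (G.filter (fun k => s ≤ k)).card * ∏ k ∈ Ico s m, bet (u k) ≤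
        Pr p (Pat Q G s m) * u (s - 1) := by
      rw [hcard, pow_succ]
      calc c ^ (G.filter (fun k => s + 3 ≤ k)).card * c * ∏ k ∈ Ico s m, bet (u k)
          ≤ c ^ (G.filter (fun k => s + 3 ≤ k)).card * c * ∏ k ∈ Ico (s + 3) m, bet (u k) := by
            gcongr
        _ = c * (c ^ (G.filter (fun k => s + 3 ≤ k)).card * ∏ k ∈ Ico (s + 3) m, bet (u k)) := by ring
        _ ≤ c * Pr p (Pat Q G (s + 3) m) := by gcongr
        _ ≤ (u (s - 1) * ((1 - u s) * (1 - u (s + 1)) * u (s + 2))) * Pr p (Pat Q G (s + 3) m) := by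
            gcongr
        _ = ((1 - u s) * (1 - u (s + 1)) * u (s + 2) * Pr p (Pat Q G (s + 3) m)) * u (s - 1) := by ring
        _ ≤ Pr p (Pat Q G s m) * u (s - 1) := by gcongr
    exact ⟨hmain.trans (by nlinarith), fun _ => hmain⟩
  · refine ⟨?_, fun h => absurd h hsG⟩
    have hfil : (G.filter (fun k => s ≤ k)) = (G.filter (fun k => s + 1 ≤ k)) := by
      ext k
      rw [mem_filter, mem_filter]
      constructor
      · rintro ⟨k1, k2⟩
        refine ⟨k1, ?_⟩
        have : k ≠ s := fun h => hsG (h ▸ k1)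
        omega
      · rintro ⟨k1, k2⟩
        exact ⟨k1, by omega⟩
    have ih1 := ih (m - (s + 1)) (by omega) (s + 1) rfl (by omega)
    have us0 := hpos s hs (by omega)
    have us1 := hu1 s hs (by omega)
    have e1 : Pr p (fun A => (A ∩ Q s).Nonempty ∧ Pat Q G (s + 1) m A) =
        u s * Pr p (Pat Q G (s + 1) m) := by
      rw [← hu s hs (by omega)]
      exact Pr_indep p (hdisU _ _ hs (by omega)) (Dep_hit (Q s)) (Pat_dep Q G (s + 1) m)
    have sub1 : ∀ A, ((A ∩ Q s).Nonempty ∧ Pat Q G (s + 1) m A) → Pat Q G s m A := by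
      rintro A ⟨a1, a2⟩ k hk1 hk2
      by_cases hk : k = s
      · subst hk; exact ⟨fun h => absurd a1 h.1, fun h => absurd h hsG⟩
      · exact a2 k (by omega) hk2
    by_cases hsG1 : s + 1 ∈ G
    · have ih1' := ih1.2 hsG1
      have e2 : s + 1 - 1 = s := by omega
      rw [e2, ← hfil] at ih1'
      have hprod := hprstep s hs (by omega)
      calc c ^ (G.filter (fun k => s ≤ k)).card * ∏ k ∈ Ico s m, bet (u k)
          ≤ c ^ (G.filter (fun k => s ≤ k)).card * ∏ k ∈ Ico (s + 1) m, bet (u k) := by gcongr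
        _ ≤ Pr p (Pat Q G (s + 1) m) * u s := ih1'
        _ = Pr p (fun A => (A ∩ Q s).Nonempty ∧ Pat Q G (s + 1) m A) := by rw [e1]; ring
        _ ≤ _ := Pr_mono h0 h1 sub1
    · have hfil2 : (G.filter (fun k => s ≤ k)) = (G.filter (fun k => s + 2 ≤ k)) := by
        ext k
        rw [mem_filter, mem_filter]
        constructor
        · rintro ⟨k1, k2⟩
          refine ⟨k1, ?_⟩
          have : k ≠ s := fun h => hsG (h ▸ k1)
          have : k ≠ s + 1 := fun h => hsG1 (h ▸ k1)
          omega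
        · rintro ⟨k1, k2⟩
          exact ⟨k1, by omega⟩
      have ih2 := (ih (m - (s + 2)) (by omega) (s + 2) rfl (by omega)).1
      have ih1' := ih1.1
      rw [← hfil] at ih1'
      rw [← hfil2] at ih2
      have d2 : Disjoint (Q (s + 1)) ((Ico (s + 2) m).biUnion Q) := hdisU _ _ (by omega) (by omega)
      have e3 := Pr_indep p d2 (Dep_hit (Q (s + 1))) (Pat_dep Q G (s + 2) m)
      have d3 : Disjoint (Q s) (Q (s + 1) ∪ (Ico (s + 2) m).biUnion Q) := by
        rw [disjoint_union_right]
        exact ⟨hdis _ _ (by omega) (by omega) (by omega) (by omega) (by omega),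
          hdisU _ _ (by omega) (by omega)⟩
      have e4 := Pr_indep p d3 (Dep_avoid (Q s))
        (((Dep_hit (Q (s + 1))).mono subset_union_left).and
          ((Pat_dep Q G (s + 2) m).mono subset_union_right))
      rw [e3, Pr_not, hu s hs (by omega), hu (s + 1) (by omega) (by omega)] at e4
      have hadd := Pr_add_le h0 h1 (E := Pat Q G s m)
        (F := fun A => (A ∩ Q s).Nonempty ∧ Pat Q G (s + 1) m A)
        (G := fun A => ¬ (A ∩ Q s).Nonempty ∧ ((A ∩ Q (s + 1)).Nonempty ∧ Pat Q G (s + 2) m A))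
        sub1 (by
          rintro A ⟨a1, a2, a3⟩ k hk1 hk2
          by_cases hk : k = s
          · subst hk; exact ⟨fun h => absurd a2 h.2, fun h => absurd h hsG⟩
          by_cases hk' : k = s + 1
          · subst hk'; exact ⟨fun h => absurd a2 h.1, fun h => absurd h hsG1⟩
          · exact a3 k (by omega) hk2) (fun A h h' => h'.1 h.1)
      rw [e1, e4] at hadd
      refine le_trans ?_ hadd
      have hst := bet_step us0 (hmono s hs (by omega)) (hu1 (s + 1) (by omega) (by omega))
      have us1' := (hpos (s + 1) (by omega) (by omega)).le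
      have hpp := hpr0 (s + 2) (by omega)
      rw [prod_eq_prod_Ico_succ_bot (by omega : s < m), prod_eq_prod_Ico_succ_bot (by omega : s + 1 < m)]
      rw [prod_eq_prod_Ico_succ_bot (by omega : s + 1 < m)] at ih1'
      obtain ⟨C, hC⟩ : ∃ C, C = c ^ (G.filter (fun k => s ≤ k)).card := ⟨_, rfl⟩
      have hC0 : 0 ≤ C := by rw [hC]; positivity
      obtain ⟨R, hR⟩ : ∃ R, R = ∏ k ∈ Ico (s + 1 + 1) m, bet (u k) := ⟨_, rfl⟩
      have hR0 : 0 ≤ R := by rw [hR]; exact hpp
      rw [← hC, ← hR] at ih1' ⊢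
      have ih2' : C * R ≤ Pr p (Pat Q G (s + 2) m) := by rw [hC, hR]; exact ih2
      have h1u : 0 ≤ 1 - u s := by linarith
      calc C * (bet (u s) * (bet (u (s + 1)) * R)) = (bet (u s) * bet (u (s + 1))) * (C * R) := by ring
        _ ≤ (u s * bet (u (s + 1)) + (1 - u s) * u (s + 1)) * (C * R) := by gcongr
        _ = u s * (C * (bet (u (s + 1)) * R)) + (1 - u s) * (u (s + 1) * (C * R)) := by ring
        _ ≤ u s * Pr p (Pat Q G (s + 1) m) + (1 - u s) * (u (s + 1) * Pr p (Pat Q G (s + 2) m)) := by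
            gcongr

end Pool.Agent.V5helper97.BootChain
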