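import Mathlib
import Pool.Agent.Helper384.BzK3

/-!
Deterministic growth of a cube from a sequence of plates in which the plates in direction zero
are allowed to have double gaps at the levels `k ∈ G`, compensated by the extra sets `X`.
-/

set_option autoImplicit false
set_option maxHeartbeats 1000000
set_option linter.unusedVariables false

namespace Pool.Agent.V5helper97.BootDet

open Finset Classical Pool.Agent.Helper384.Bz

variable {n : ℕ}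

/-- plates in direction zero -/
noncomputable def P0 (a : Fin 3 → ℕ) (j : ℕ) : Finset (V n 3) :=
  bx (fun i => a i + (![j, 0, 0] : Fin 3 → ℕ) i) ![1, j - 1, j - 1]

/-- plates in direction one -/
noncomputable def P1 (a : Fin 3 → ℕ) (r : ℕ → ℕ) (j : ℕ) : Finset (V n 3) :=
  bx (fun i => a i + (![0, j, 0] : Fin 3 → ℕ) i) ![r j, 1, j - 1]

/-- plates in direction two -/
noncomputable def P2 (a : Fin 3 → ℕ) (r : ℕ → ℕ) (j : ℕ) : Finset (V n 3) :=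
  bx (fun i => a i + (![0, 0, j] : Fin 3 → ℕ) i) ![r j, j - 1, 1]

/-- extra sets -/
noncomputable def XX (a : Fin 3 → ℕ) (k e : ℕ) : Finset (V n 3) :=
  bx (fun i => a i + (![k, k - 1, 0] : Fin 3 → ℕ) i) ![1, e + 2 - k, k - 1]

theorem mem_bx3 (a s : Fin 3 → ℕ) (x : V n 3) : x ∈ (bx a s : Finset (V n 3)) ↔
    (a 0 ≤ (x 0 : ℕ) ∧ (x 0 : ℕ) < a 0 + s 0) ∧ (a 1 ≤ (x 1 : ℕ) ∧ (x 1 : ℕ) < a 1 + s 1) ∧
    (a 2 ≤ (x 2 : ℕ) ∧ (x 2 : ℕ) < a 2 + s 2) := by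
  simp only [bx, mem_filter, mem_univ, true_and, Fin.forall_fin_succ]
  constructor
  · rintro ⟨h0, h1, h2, -⟩
    exact ⟨h0, h1, h2⟩
  · rintro ⟨h0, h1, h2⟩
    exact ⟨h0, h1, h2, fun i => i.elim0⟩

theorem mem_P0 (a : Fin 3 → ℕ) (j : ℕ) (x : V n 3) : x ∈ (P0 a j : Finset (V n 3)) ↔
    (x 0 : ℕ) = a 0 + j ∧ (a 1 ≤ (x 1 : ℕ) ∧ (x 1 : ℕ) < a 1 + (j - 1)) ∧
    (a 2 ≤ (x 2 : ℕ) ∧ (x 2 : ℕ) < a 2 + (j - 1)) := by
  unfold P0
  rw [mem_bx3]
  simp only [Matrix.cons_val_zero, Matrix.cons_val_one, Matrix.cons_val]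
  omega

theorem mem_P1 (a : Fin 3 → ℕ) (r : ℕ → ℕ) (j : ℕ) (x : V n 3) : x ∈ (P1 a r j : Finset (V n 3)) ↔
    (a 0 ≤ (x 0 : ℕ) ∧ (x 0 : ℕ) < a 0 + r j) ∧ (x 1 : ℕ) = a 1 + j ∧
    (a 2 ≤ (x 2 : ℕ) ∧ (x 2 : ℕ) < a 2 + (j - 1)) := by
  unfold P1
  rw [mem_bx3]
  simp only [Matrix.cons_val_zero, Matrix.cons_val_one, Matrix.cons_val]
  omega

theorem mem_P2 (a : Fin 3 → ℕ) (r : ℕ → ℕ) (j : ℕ) (x : V n 3) : x ∈ (P2 a r j : Finset (V n 3)) ↔
    (a 0 ≤ (x 0 : ℕ) ∧ (x 0 : ℕ) < a 0 + r j) ∧ (a 1 ≤ (x 1 : ℕ) ∧ (x 1 : ℕ) < a 1 + (j - 1)) ∧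
    (x 2 : ℕ) = a 2 + j := by
  unfold P2
  rw [mem_bx3]
  simp only [Matrix.cons_val_zero, Matrix.cons_val_one, Matrix.cons_val]
  omega

theorem mem_XX (a : Fin 3 → ℕ) (k e : ℕ) (hk : 1 ≤ k) (x : V n 3) :
    x ∈ (XX a k e : Finset (V n 3)) ↔
    (x 0 : ℕ) = a 0 + k ∧ (a 1 + k ≤ (x 1 : ℕ) + 1 ∧ (x 1 : ℕ) ≤ a 1 + e) ∧
    (a 2 ≤ (x 2 : ℕ) ∧ (x 2 : ℕ) < a 2 + (k - 1)) := by
  unfold XX
  rw [mem_bx3]
  simp only [Matrix.cons_val_zero, Matrix.cons_val_one, Matrix.cons_val]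
  omega

/-- growth by a site at distance one or two -/
theorem grow_near {d : ℕ} (S : Finset (V n d)) (hS : Closed S) (a c : Fin d → ℕ) (i : Fin d)
    (hc : 1 ≤ c i) (hbox : bx a c ⊆ S) (v : V n d) (hv : v ∈ S)
    (hvi : (v i : ℕ) = a i + c i ∨ (v i : ℕ) = a i + (c i + 1))
    (hvj : ∀ j, j ≠ i → a j ≤ (v j : ℕ) ∧ (v j : ℕ) < a j + c j) :
    bx a (Function.update c i (c i + 1)) ⊆ S := by
  rcases hvi with hvi | hvi
  · exact grow_up S hS a c i hc hbox v hv hvi hvj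
  · have hlt := (v i).isLt
    set v1 : V n d := Function.update v i ⟨a i + c i, by omega⟩ with hv1
    set v2 : V n d := Function.update v i ⟨a i + c i - 1, by omega⟩ with hv2
    have h1 : (v1 i : ℕ) = a i + c i := by rw [hv1, Function.update_self]
    have h2 : (v2 i : ℕ) = a i + c i - 1 := by rw [hv2, Function.update_self]
    have h1' : ∀ j, j ≠ i → v1 j = v j := fun j hj => by rw [hv1, Function.update_of_ne hj]
    have h2' : ∀ j, j ≠ i → v2 j = v j := fun j hj => by rw [hv2, Function.update_of_ne hj]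
    have hv2S : v2 ∈ S := by
      apply hbox
      unfold bx
      rw [mem_filter]
      refine ⟨mem_univ _, fun j => ?_⟩
      by_cases hj : j = i
      · subst hj
        rw [h2]
        omega
      · rw [h2' j hj]
        exact hvj j hj
    have hv1S : v1 ∈ S := by
      refine grow_two S hS v1 v v2 hv hv2S ⟨i, h1', ?_⟩ ⟨i, ?_, ?_⟩ ?_
      · left; rw [h1, hvi]; ring
      · intro j hj; rw [h1' j hj, h2' j hj]
      · right; rw [h1, h2]; omega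
      · intro h
        rw [h, h2] at hvi
        omega
    refine grow_up S hS a c i hc hbox v1 hv1S h1 ?_
    intro j hj
    rw [h1' j hj]
    exact hvj j hj

theorem grow0 (S : Finset (V n 3)) (hS : Closed S) (a : Fin 3 → ℕ) (c0 c1 c2 : ℕ)
    (hc : 1 ≤ c0) (hbox : bx a ![c0, c1, c2] ⊆ S) (v : V n 3) (hv : v ∈ S)
    (hv0 : (v 0 : ℕ) = a 0 + c0 ∨ (v 0 : ℕ) = a 0 + (c0 + 1))
    (hv1 : a 1 ≤ (v 1 : ℕ) ∧ (v 1 : ℕ) < a 1 + c1)
    (hv2 : a 2 ≤ (v 2 : ℕ) ∧ (v 2 : ℕ) < a 2 + c2) :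
    bx a ![c0 + 1, c1, c2] ⊆ S := by
  have h := grow_near S hS a ![c0, c1, c2] 0 hc hbox v hv hv0 (by
    intro j hj
    fin_cases j
    · exact absurd rfl hj
    · exact hv1
    · exact hv2)
  have e : Function.update (![c0, c1, c2] : Fin 3 → ℕ) 0 ((![c0, c1, c2] : Fin 3 → ℕ) 0 + 1) =
      ![c0 + 1, c1, c2] := by
    funext j
    fin_cases j <;> simp
  rw [e] at h
  exact h

theorem grow1 (S : Finset (V n 3)) (hS : Closed S) (a : Fin 3 → ℕ) (c0 c1 c2 : ℕ)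
    (hc : 1 ≤ c1) (hbox : bx a ![c0, c1, c2] ⊆ S) (v : V n 3) (hv : v ∈ S)
    (hv1 : (v 1 : ℕ) = a 1 + c1 ∨ (v 1 : ℕ) = a 1 + (c1 + 1))
    (hv0 : a 0 ≤ (v 0 : ℕ) ∧ (v 0 : ℕ) < a 0 + c0)
    (hv2 : a 2 ≤ (v 2 : ℕ) ∧ (v 2 : ℕ) < a 2 + c2) :
    bx a ![c0, c1 + 1, c2] ⊆ S := by
  have h := grow_near S hS a ![c0, c1, c2] 1 hc hbox v hv hv1 (by
    intro j hj
    fin_cases j
    · exact hv0
    · exact absurd rfl hj
    · exact hv2)
  have e : Function.update (![c0, c1, c2] : Fin 3 → ℕ) 1 ((![c0, c1, c2] : Fin 3 → ℕ) 1 + 1) =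
      ![c0, c1 + 1, c2] := by
    funext j
    fin_cases j <;> simp
  rw [e] at h
  exact h

theorem grow2 (S : Finset (V n 3)) (hS : Closed S) (a : Fin 3 → ℕ) (c0 c1 c2 : ℕ)
    (hc : 1 ≤ c2) (hbox : bx a ![c0, c1, c2] ⊆ S) (v : V n 3) (hv : v ∈ S)
    (hv2 : (v 2 : ℕ) = a 2 + c2 ∨ (v 2 : ℕ) = a 2 + (c2 + 1))
    (hv0 : a 0 ≤ (v 0 : ℕ) ∧ (v 0 : ℕ) < a 0 + c0)
    (hv1 : a 1 ≤ (v 1 : ℕ) ∧ (v 1 : ℕ) < a 1 + c1) :
    bx a ![c0, c1, c2 + 1] ⊆ S := by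
  have h := grow_near S hS a ![c0, c1, c2] 2 hc hbox v hv hv2 (by
    intro j hj
    fin_cases j
    · exact hv0
    · exact hv1
    · exact absurd rfl hj)
  have e : Function.update (![c0, c1, c2] : Fin 3 → ℕ) 2 ((![c0, c1, c2] : Fin 3 → ℕ) 2 + 1) =
      ![c0, c1, c2 + 1] := by
    funext j
    fin_cases j <;> simp
  rw [e] at h
  exact h

/-- a set meets `A` -/
def Hit (A Q : Finset (V n 3)) : Prop := (A ∩ Q).Nonempty

theorem det_step (A S : Finset (V n 3)) (hAS : A ⊆ S) (hS : Closed S) (a : Fin 3 → ℕ) (m : ℕ)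
    {ι : Type} (T : Set ι) (k e : ι → ℕ) (r : ℕ → ℕ)
    (H0 : ∀ j, 3 ≤ j → j + 1 < m → Hit A (P0 a j) ∨ Hit A (P0 a (j + 1)) ∨ ∃ w ∈ T, j = k w)
    (H1 : ∀ j, 3 ≤ j → j + 1 < m → Hit A (P1 a r j) ∨ Hit A (P1 a r (j + 1)))
    (H2 : ∀ j, 3 ≤ j → j + 1 < m → Hit A (P2 a r j) ∨ Hit A (P2 a r (j + 1)))
    (HX : ∀ w ∈ T, Hit A (XX a (k w) (e w)))
    (Hr : ∀ j, r j ≤ j - 1) (Hr2 : ∀ w ∈ T, ∀ j, k w ≤ j → j ≤ e w + 1 → r j ≤ k w)
    (He : ∀ w ∈ T, e w + 1 < m)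
    (c0 c1 c2 : ℕ) (h0 : 3 ≤ c0) (h1 : 3 ≤ c1) (h2 : 3 ≤ c2)
    (h0' : c0 ≤ m - 1) (h1' : c1 ≤ m - 1) (h2' : c2 ≤ m - 1) (hbox : bx a ![c0, c1, c2] ⊆ S) :
    (c0 = m - 1 ∧ c1 = m - 1 ∧ c2 = m - 1) ∨ (c0 + 1 ≤ m - 1 ∧ bx a ![c0 + 1, c1, c2] ⊆ S) ∨
    (c1 + 1 ≤ m - 1 ∧ bx a ![c0, c1 + 1, c2] ⊆ S) ∨
    (c2 + 1 ≤ m - 1 ∧ bx a ![c0, c1, c2 + 1] ⊆ S) := by
  by_cases hA : c0 ≤ c1 ∧ c0 ≤ c2
  · by_cases hm : c0 = m - 1
    · left; omega
    have hm' : c0 + 1 < m := by omega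
    rcases H0 c0 h0 hm' with ⟨v, hv⟩ | ⟨v, hv⟩ | ⟨w, hwT, hw⟩
    · rw [mem_inter, mem_P0] at hv
      obtain ⟨hvA, e0, e1, e2⟩ := hv
      right; left
      refine ⟨by omega, grow0 S hS a c0 c1 c2 (by omega) hbox v (hAS hvA) (Or.inl e0) ?_ ?_⟩
      · omega
      · omega
    · rw [mem_inter, mem_P0] at hv
      obtain ⟨hvA, e0, e1, e2⟩ := hv
      right; left
      refine ⟨by omega, grow0 S hS a c0 c1 c2 (by omega) hbox v (hAS hvA) (Or.inr e0) ?_ ?_⟩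
      · omega
      · omega
    · have hr := Hr2 w hwT
      have he := He w hwT
      by_cases hc1 : c1 ≤ e w
      · by_cases h12 : c1 ≤ c2
        · have r1 := hr c1 (by omega) (by omega)
          have r2 := hr (c1 + 1) (by omega) (by omega)
          rcases H1 c1 h1 (by omega) with ⟨v, hv⟩ | ⟨v, hv⟩
          · rw [mem_inter, mem_P1] at hv
            obtain ⟨hvA, e0, e1, e2⟩ := hv
            right; right; left
            refine ⟨by omega, grow1 S hS a c0 c1 c2 (by omega) hbox v (hAS hvA) (Or.inl e1) ?_ ?_⟩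
            · omega
            · omega
          · rw [mem_inter, mem_P1] at hv
            obtain ⟨hvA, e0, e1, e2⟩ := hv
            right; right; left
            refine ⟨by omega, grow1 S hS a c0 c1 c2 (by omega) hbox v (hAS hvA) (Or.inr e1) ?_ ?_⟩
            · omega
            · omega
        · have r1 := hr c2 (by omega) (by omega)
          have r2 := hr (c2 + 1) (by omega) (by omega)
          rcases H2 c2 h2 (by omega) with ⟨v, hv⟩ | ⟨v, hv⟩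
          · rw [mem_inter, mem_P2] at hv
            obtain ⟨hvA, e0, e1, e2⟩ := hv
            right; right; right
            refine ⟨by omega, grow2 S hS a c0 c1 c2 (by omega) hbox v (hAS hvA) (Or.inl e2) ?_ ?_⟩
            · omega
            · omega
          · rw [mem_inter, mem_P2] at hv
            obtain ⟨hvA, e0, e1, e2⟩ := hv
            right; right; right
            refine ⟨by omega, grow2 S hS a c0 c1 c2 (by omega) hbox v (hAS hvA) (Or.inr e2) ?_ ?_⟩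
            · omega
            · omega
      · obtain ⟨v, hv⟩ := HX w hwT
        rw [mem_inter, mem_XX _ _ _ (by omega)] at hv
        obtain ⟨hvA, e0, e1, e2⟩ := hv
        right; left
        refine ⟨by omega, grow0 S hS a c0 c1 c2 (by omega) hbox v (hAS hvA) (Or.inl ?_) ?_ ?_⟩
        · omega
        · omega
        · omega
  · by_cases h12 : c1 ≤ c2
    · have r1 := Hr c1
      have r2 := Hr (c1 + 1)
      rcases H1 c1 h1 (by omega) with ⟨v, hv⟩ | ⟨v, hv⟩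
      · rw [mem_inter, mem_P1] at hv
        obtain ⟨hvA, e0, e1, e2⟩ := hv
        right; right; left
        refine ⟨by omega, grow1 S hS a c0 c1 c2 (by omega) hbox v (hAS hvA) (Or.inl e1) ?_ ?_⟩
        · omega
        · omega
      · rw [mem_inter, mem_P1] at hv
        obtain ⟨hvA, e0, e1, e2⟩ := hv
        right; right; left
        refine ⟨by omega, grow1 S hS a c0 c1 c2 (by omega) hbox v (hAS hvA) (Or.inr e1) ?_ ?_⟩
        · omega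
        · omega
    · have r1 := Hr c2
      have r2 := Hr (c2 + 1)
      rcases H2 c2 h2 (by omega) with ⟨v, hv⟩ | ⟨v, hv⟩
      · rw [mem_inter, mem_P2] at hv
        obtain ⟨hvA, e0, e1, e2⟩ := hv
        right; right; right
        refine ⟨by omega, grow2 S hS a c0 c1 c2 (by omega) hbox v (hAS hvA) (Or.inl e2) ?_ ?_⟩
        · omega
        · omega
      · rw [mem_inter, mem_P2] at hv
        obtain ⟨hvA, e0, e1, e2⟩ := hv
        right; right; right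
        refine ⟨by omega, grow2 S hS a c0 c1 c2 (by omega) hbox v (hAS hvA) (Or.inr e2) ?_ ?_⟩
        · omega
        · omega

theorem det (A S : Finset (V n 3)) (hAS : A ⊆ S) (hS : Closed S) (a : Fin 3 → ℕ) (m : ℕ)
    (hm : 4 ≤ m)
    {ι : Type} (T : Set ι) (k e : ι → ℕ) (r : ℕ → ℕ)
    (H0 : ∀ j, 3 ≤ j → j + 1 < m → Hit A (P0 a j) ∨ Hit A (P0 a (j + 1)) ∨ ∃ w ∈ T, j = k w)
    (H1 : ∀ j, 3 ≤ j → j + 1 < m → Hit A (P1 a r j) ∨ Hit A (P1 a r (j + 1)))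
    (H2 : ∀ j, 3 ≤ j → j + 1 < m → Hit A (P2 a r j) ∨ Hit A (P2 a r (j + 1)))
    (HX : ∀ w ∈ T, Hit A (XX a (k w) (e w)))
    (Hr : ∀ j, r j ≤ j - 1) (Hr2 : ∀ w ∈ T, ∀ j, k w ≤ j → j ≤ e w + 1 → r j ≤ k w)
    (He : ∀ w ∈ T, e w + 1 < m) (hbox : bx a (fun _ => 3) ⊆ A) :
    bx a (fun _ => m - 1) ⊆ S := by
  have main : ∀ N c0 c1 c2 : ℕ, (m - 1 - c0) + (m - 1 - c1) + (m - 1 - c2) = N → 3 ≤ c0 → 3 ≤ c1 →
      3 ≤ c2 → c0 ≤ m - 1 → c1 ≤ m - 1 → c2 ≤ m - 1 → bx a ![c0, c1, c2] ⊆ S →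
      bx a ![m - 1, m - 1, m - 1] ⊆ S := by
    intro N
    induction N using Nat.strong_induction_on with
    | _ N ih =>
    intro c0 c1 c2 hN h0 h1 h2 h0' h1' h2' hb
    rcases det_step A S hAS hS a m T k e r H0 H1 H2 HX Hr Hr2 He c0 c1 c2 h0 h1 h2 h0' h1' h2' hb
      with ⟨e0, e1, e2⟩ | ⟨h, hb'⟩ | ⟨h, hb'⟩ | ⟨h, hb'⟩
    · rw [e0, e1, e2] at hb
      exact hb
    · exact ih _ (by omega) (c0 + 1) c1 c2 rfl (by omega) h1 h2 h h1' h2' hb'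
    · exact ih _ (by omega) c0 (c1 + 1) c2 rfl h0 (by omega) h2 h0' h h2' hb'
    · exact ih _ (by omega) c0 c1 (c2 + 1) rfl h0 h1 (by omega) h0' h1' h hb'
  have e3 : (fun _ => 3 : Fin 3 → ℕ) = ![3, 3, 3] := by
    funext j
    fin_cases j <;> rfl
  have em : (fun _ => m - 1 : Fin 3 → ℕ) = ![m - 1, m - 1, m - 1] := by
    funext j
    fin_cases j <;> rfl
  rw [em]
  rw [e3] at hbox
  exact main _ 3 3 3 rfl (by omega) (by omega) (by omega) (by omega) (by omega) (by omega)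
    (hbox.trans hAS)

end Pool.Agent.V5helper97.BootDet
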