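import Mathlib
import Pool.Agent.V5helper97.BootPr
import Pool.Agent.V5helper97.BootChain

/-!
Generic facts on product measures: unions of exclusive events, families of independent events.
-/

set_option autoImplicit false
set_option maxHeartbeats 1000000
set_option linter.unusedVariables false
set_option linter.unusedSectionVars false

namespace Pool.Agent.V5helper97.BootGen

open Finset Classical Pool.Agent.Helper384.Bz Pool.Agent.V5helper97.BootPr
  Pool.Agent.V5helper97.BootChain

variable {α : Type} [Fintype α] [DecidableEq α]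

theorem Dep_incl (C : Finset α) : Dep C (fun A => C ⊆ A) := by
  intro A B h
  show C ⊆ A ↔ C ⊆ B
  have h1 : ∀ D : Finset α, C ⊆ D ↔ D ∩ C = C := fun D => inter_eq_right.symm
  rw [h1, h1, h]

theorem Pr_incl (p : ℝ) (C : Finset α) : Pr p (fun A => C ⊆ A) = p ^ C.card := by
  rw [← sum_w_superset p C, Finset.sum_filter]
  unfold Pr
  apply Finset.sum_congr rfl
  intro A _
  by_cases h : C ⊆ A
  · rw [if_pos h, if_pos h]
  · rw [if_neg h, if_neg h]

theorem Dep_hits {ι : Type} (T : Finset ι) (D : ι → Finset α) :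
    Dep (T.biUnion D) (fun A => ∀ k ∈ T, (A ∩ D k).Nonempty) := by
  intro A B h
  show (∀ k ∈ T, (A ∩ D k).Nonempty) ↔ (∀ k ∈ T, (B ∩ D k).Nonempty)
  have key : ∀ k ∈ T, A ∩ D k = B ∩ D k := by
    intro k hk
    have hs : D k ⊆ T.biUnion D := subset_biUnion_of_mem D hk
    have e1 : A ∩ D k = A ∩ T.biUnion D ∩ D k := by rw [inter_assoc, inter_eq_right.2 hs]
    have e2 : B ∩ D k = B ∩ T.biUnion D ∩ D k := by rw [inter_assoc, inter_eq_right.2 hs]
    rw [e1, e2, h]
  constructor
  · intro H k hk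
    rw [← key k hk]
    exact H k hk
  · intro H k hk
    rw [key k hk]
    exact H k hk

theorem Pr_hits (p : ℝ) {ι : Type} (T : Finset ι) (D : ι → Finset α)
    (hD : ∀ z ∈ T, ∀ z' ∈ T, z ≠ z' → Disjoint (D z) (D z')) :
    Pr p (fun A => ∀ k ∈ T, (A ∩ D k).Nonempty) = ∏ k ∈ T, (1 - (1 - p) ^ (D k).card) := by
  induction T using Finset.induction_on with
  | empty =>
    rw [prod_empty, ← Pr_true (α := α) p]
    apply Pr_congr
    intro A
    simp
  | insert a T ha ih =>
    rw [prod_insert ha, ← ih (fun z hz z' hz' h => hD z (mem_insert_of_mem hz) z'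
      (mem_insert_of_mem hz') h), ← Pr_hit p (D a)]
    rw [← Pr_indep p (U := D a) (V := T.biUnion D) _ (Dep_hit (D a)) (Dep_hits T D)]
    · apply Pr_congr
      intro A
      simp only [mem_insert, forall_eq_or_imp]
    · rw [disjoint_biUnion_right]
      intro k hk
      exact hD a (mem_insert_self a T) k (mem_insert_of_mem hk) (fun h => ha (h ▸ hk))

/-- exclusive events -/
theorem Pr_disj_sum {p : ℝ} (h0 : 0 ≤ p) (h1 : p ≤ 1) {ι : Type} (I : Finset ι)
    (F : ι → Finset α → Prop) (h : ∀ A, ∀ i ∈ I, ∀ j ∈ I, F i A → F j A → i = j) :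
    ∑ i ∈ I, Pr p (F i) ≤ Pr p (fun A => ∃ i ∈ I, F i A) := by
  induction I using Finset.induction_on with
  | empty =>
    rw [sum_empty]
    exact Pr_nonneg h0 h1 _
  | insert a I ha ih =>
    rw [sum_insert ha]
    have h2 := ih (fun A i hi j hj => h A i (mem_insert_of_mem hi) j (mem_insert_of_mem hj))
    refine le_trans (add_le_add le_rfl h2) ?_
    apply Pr_add_le h0 h1
    · intro A hA
      exact ⟨a, mem_insert_self a I, hA⟩
    · rintro A ⟨i, hi, hA⟩
      exact ⟨i, mem_insert_of_mem hi, hA⟩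
    · rintro A hA ⟨i, hi, hA'⟩
      have := h A a (mem_insert_self a I) i (mem_insert_of_mem hi) hA hA'
      exact ha (this ▸ hi)

theorem Dep_not {U : Finset α} {E : Finset α → Prop} (h : Dep U E) :
    Dep U (fun A => ¬ E A) := by
  intro A B hAB
  show ¬ E A ↔ ¬ E B
  rw [h A B hAB]

theorem Dep_all {ι : Type} (Z : Finset ι) (U : ι → Finset α) (E : ι → Finset α → Prop)
    (h : ∀ z ∈ Z, Dep (U z) (E z)) : Dep (Z.biUnion U) (fun A => ∀ z ∈ Z, E z A) := by
  intro A B hAB
  have key : ∀ z ∈ Z, (E z A ↔ E z B) := fun z hz =>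
    (h z hz).mono (subset_biUnion_of_mem U hz) A B hAB
  constructor
  · intro H z hz
    exact (key z hz).1 (H z hz)
  · intro H z hz
    exact (key z hz).2 (H z hz)

theorem Dep_ex {ι : Type} (Z : Finset ι) (U : Finset α) (E : ι → Finset α → Prop)
    (h : ∀ z ∈ Z, Dep U (E z)) : Dep U (fun A => ∃ z ∈ Z, E z A) := by
  intro A B hAB
  constructor
  · rintro ⟨z, hz, H⟩
    exact ⟨z, hz, (h z hz A B hAB).1 H⟩
  · rintro ⟨z, hz, H⟩
    exact ⟨z, hz, (h z hz A B hAB).2 H⟩

/-- no success in a family of independent trials -/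
theorem Pr_none {p : ℝ} (h0 : 0 ≤ p) (h1 : p ≤ 1) {ι : Type} (Z : Finset ι) (U : ι → Finset α)
    (hU : ∀ z ∈ Z, ∀ z' ∈ Z, z ≠ z' → Disjoint (U z) (U z')) (E : ι → Finset α → Prop)
    (hE : ∀ z ∈ Z, Dep (U z) (E z)) (Q : ℝ) (hQ : ∀ z ∈ Z, Q ≤ Pr p (E z)) :
    Pr p (fun A => ∀ z ∈ Z, ¬ E z A) ≤ Real.exp (-(Q * Z.card)) := by
  induction Z using Finset.induction_on with
  | empty =>
    rw [card_empty]
    simp only [Nat.cast_zero, mul_zero, neg_zero, Real.exp_zero]
    exact Pr_le_one h0 h1 _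
  | insert a Z ha ih =>
    have h2 := ih (fun z hz z' hz' h => hU z (mem_insert_of_mem hz) z'
      (mem_insert_of_mem hz') h) (fun z hz => hE z (mem_insert_of_mem hz))
      (fun z hz => hQ z (mem_insert_of_mem hz))
    have h3 := Pr_indep p (U := U a) (V := Z.biUnion U) (by
        rw [disjoint_biUnion_right]
        intro k hk
        exact hU a (mem_insert_self a Z) k (mem_insert_of_mem hk) (fun h => ha (h ▸ hk)))
      (Dep_not (hE a (mem_insert_self a Z)))
      (Dep_all Z U (fun z A => ¬ E z A) (fun z hz => Dep_not (hE z (mem_insert_of_mem hz))))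
    have h4 : Pr p (fun A => ∀ z ∈ insert a Z, ¬ E z A) =
        Pr p (fun A => ¬ E a A ∧ ∀ z ∈ Z, ¬ E z A) := by
      apply Pr_congr
      intro A
      simp only [mem_insert, forall_eq_or_imp]
    have h5 : Pr p (fun A => ¬ E a A) ≤ Real.exp (-Q) := by
      rw [Pr_not]
      have := hQ a (mem_insert_self a Z)
      have := Real.add_one_le_exp (-Q)
      linarith
    rw [h4, h3, card_insert_of_notMem ha]
    have e : Real.exp (-(Q * ((Z.card + 1 : ℕ) : ℝ))) = Real.exp (-Q) * Real.exp (-(Q * Z.card)) := by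
      rw [← Real.exp_add]
      congr 1
      push_cast
      ring
    rw [e]
    exact mul_le_mul h5 h2 (Pr_nonneg h0 h1 _) (Real.exp_nonneg _)

end Pool.Agent.V5helper97.BootGen
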