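import Mathlib

/-!
Combinatorics of the windows of levels.
-/

set_option autoImplicit false
set_option maxHeartbeats 1000000
set_option linter.unusedVariables false

namespace Pool.Agent.V5helper97.BootWin

open Finset Classical

/-- start of a window -/
def Kw (K0 l w : ℕ) : ℕ := K0 + w * (2 * l + 6)

/-- position of the double gap -/
def kk (K0 l : ℕ) (g : ℕ → ℕ) (w : ℕ) : ℕ := Kw K0 l w + g w

/-- end of the extra set -/
def ee (K0 l w : ℕ) : ℕ := Kw K0 l w + 2 * l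

/-- active windows -/
def TT (Nw : ℕ) (g : ℕ → ℕ) : Finset ℕ := (range Nw).filter (fun w => 1 ≤ g w)

/-- positions of the double gaps -/
def GG (K0 l Nw : ℕ) (g : ℕ → ℕ) : Finset ℕ := (TT Nw g).image (kk K0 l g)

/-- index of a window -/
def ix (K0 l j : ℕ) : ℕ := (j - K0) / (2 * l + 6)

/-- reduced side -/
def rr (K0 l Nw : ℕ) (g : ℕ → ℕ) (j : ℕ) : ℕ :=
  if ix K0 l j ∈ TT Nw g ∧ kk K0 l g (ix K0 l j) ≤ j ∧ j ≤ ee K0 l (ix K0 l j) + 1 then
    min (j - 1) (kk K0 l g (ix K0 l j)) else j - 1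

variable {K0 l Nw : ℕ} {g : ℕ → ℕ}

theorem mem_TT {w : ℕ} : w ∈ TT Nw g ↔ w < Nw ∧ 1 ≤ g w := by
  unfold TT
  rw [mem_filter, mem_range]

theorem Kw_succ (w : ℕ) : Kw K0 l (w + 1) = Kw K0 l w + (2 * l + 6) := by
  unfold Kw; ring

theorem Kw_mono {w w' : ℕ} (h : w < w') : Kw K0 l w + (2 * l + 6) ≤ Kw K0 l w' := by
  rw [← Kw_succ]
  unfold Kw
  have : (w + 1) * (2 * l + 6) ≤ w' * (2 * l + 6) := Nat.mul_le_mul_right _ h
  omega

theorem Kw_ge (w : ℕ) : K0 ≤ Kw K0 l w := by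
  unfold Kw; omega

theorem ix_eq {w j : ℕ} (h1 : Kw K0 l w ≤ j) (h2 : j < Kw K0 l w + (2 * l + 6)) :
    ix K0 l j = w := by
  unfold ix
  unfold Kw at h1 h2
  have e : w * (2 * l + 6) + (2 * l + 6) = (w + 1) * (2 * l + 6) := by ring
  apply Nat.div_eq_of_lt_le
  · omega
  · have : w.succ * (2 * l + 6) = (w + 1) * (2 * l + 6) := rfl
    omega

theorem rr_le (j : ℕ) : rr K0 l Nw g j ≤ j - 1 := by
  unfold rr
  split_ifs
  · exact min_le_left _ _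
  · exact le_rfl

theorem rr_le' (hg : ∀ w, g w ≤ l) {w : ℕ} (hw : w ∈ TT Nw g) {j : ℕ} (h1 : kk K0 l g w ≤ j)
    (h2 : j ≤ ee K0 l w + 1) : rr K0 l Nw g j ≤ kk K0 l g w := by
  have hi : ix K0 l j = w := by
    apply ix_eq
    · unfold kk at h1; omega
    · unfold ee at h2; omega
  unfold rr
  rw [hi, if_pos ⟨hw, h1, h2⟩]
  exact min_le_right _ _

theorem rr_mono (hg : ∀ w, g w ≤ l) (j : ℕ) : rr K0 l Nw g j ≤ rr K0 l Nw g (j + 1) := by
  have h0 := rr_le (K0 := K0) (l := l) (Nw := Nw) (g := g) j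
  by_cases h : ix K0 l (j + 1) ∈ TT Nw g ∧ kk K0 l g (ix K0 l (j + 1)) ≤ j + 1 ∧
      j + 1 ≤ ee K0 l (ix K0 l (j + 1)) + 1
  · have e : rr K0 l Nw g (j + 1) = min (j + 1 - 1) (kk K0 l g (ix K0 l (j + 1))) := by
      unfold rr
      rw [if_pos h]
    rw [e]
    obtain ⟨h1, h2, h3⟩ := h
    apply le_min
    · omega
    · by_cases h4 : kk K0 l g (ix K0 l (j + 1)) ≤ j
      · exact rr_le' hg h1 h4 (by omega)
      · omega
  · have e : rr K0 l Nw g (j + 1) = j + 1 - 1 := by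
      unfold rr
      rw [if_neg h]
    rw [e]
    omega

/-- exceptional levels -/
def EX (K0 l Nw : ℕ) (g : ℕ → ℕ) : Finset ℕ :=
  (TT Nw g).biUnion (fun w => Icc (kk K0 l g w) (ee K0 l w + 1))

theorem rr_eq {j : ℕ} (hj : j ∉ EX K0 l Nw g) : rr K0 l Nw g j = j - 1 := by
  unfold rr
  rw [if_neg]
  rintro ⟨h1, h2, h3⟩
  apply hj
  unfold EX
  rw [mem_biUnion]
  exact ⟨_, h1, mem_Icc.2 ⟨h2, h3⟩⟩

theorem card_EX : (EX K0 l Nw g).card ≤ (TT Nw g).card * (2 * l + 2) := by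
  unfold EX
  apply card_biUnion_le_card_mul
  intro w hw
  rw [Nat.card_Icc]
  unfold ee kk
  have := (mem_TT.1 hw).2
  omega

theorem rr_low (j : ℕ) (hj : 1 ≤ j) :
    j - 1 ≤ rr K0 l Nw g j + 2 * l ∧ (rr K0 l Nw g j ≠ j - 1 → K0 ≤ rr K0 l Nw g j) := by
  by_cases h : ix K0 l j ∈ TT Nw g ∧ kk K0 l g (ix K0 l j) ≤ j ∧ j ≤ ee K0 l (ix K0 l j) + 1
  · have e : rr K0 l Nw g j = min (j - 1) (kk K0 l g (ix K0 l j)) := by
      unfold rr
      rw [if_pos h]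
    rw [e]
    obtain ⟨h1, h2, h3⟩ := h
    have hge : K0 ≤ kk K0 l g (ix K0 l j) := le_trans (Kw_ge _) (Nat.le_add_right _ _)
    unfold ee at h3
    unfold kk at *
    constructor
    · rcases min_choice (j - 1) (Kw K0 l (ix K0 l j) + g (ix K0 l j)) with h | h <;> rw [h] <;> omega
    · intro h4
      rcases min_choice (j - 1) (Kw K0 l (ix K0 l j) + g (ix K0 l j)) with h | h
      · exact absurd h h4
      · rw [h]; exact hge
  · have e : rr K0 l Nw g j = j - 1 := by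
      unfold rr
      rw [if_neg h]
    rw [e]
    exact ⟨by omega, fun h => absurd rfl h⟩

theorem mem_GG {k : ℕ} : k ∈ GG K0 l Nw g ↔ ∃ w ∈ TT Nw g, kk K0 l g w = k := by
  unfold GG
  rw [mem_image]

theorem GG_range (hg : ∀ w, g w ≤ l) {k : ℕ} (hk : k ∈ GG K0 l Nw g) :
    K0 + 1 ≤ k ∧ k + l + 6 ≤ K0 + Nw * (2 * l + 6) := by
  obtain ⟨w, hw, rfl⟩ := mem_GG.1 hk
  rw [mem_TT] at hw
  have h1 := hg w
  have h2 : (w + 1) * (2 * l + 6) ≤ Nw * (2 * l + 6) := Nat.mul_le_mul_right _ hw.1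
  unfold kk Kw
  have e : (w + 1) * (2 * l + 6) = w * (2 * l + 6) + (2 * l + 6) := by ring
  omega

theorem GG_sep (hg : ∀ w, g w ≤ l) {k k' : ℕ} (hk : k ∈ GG K0 l Nw g) (hk' : k' ∈ GG K0 l Nw g)
    (h : k < k') : k + 3 ≤ k' := by
  obtain ⟨w, hw, rfl⟩ := mem_GG.1 hk
  obtain ⟨w', hw', rfl⟩ := mem_GG.1 hk'
  have h1 := hg w
  have h2 := hg w'
  unfold kk at *
  rcases lt_trichotomy w w' with h3 | h3 | h3
  · have := Kw_mono (K0 := K0) (l := l) h3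
    omega
  · subst h3; omega
  · have := Kw_mono (K0 := K0) (l := l) h3
    omega

theorem GG_card (hg : ∀ w, g w ≤ l) : (GG K0 l Nw g).card = (TT Nw g).card := by
  unfold GG
  apply card_image_of_injOn
  intro w hw w' hw' h
  have h1 := hg w
  have h2 := hg w'
  have h' : Kw K0 l w + g w = Kw K0 l w' + g w' := h
  rcases lt_trichotomy w w' with h3 | h3 | h3
  · have := Kw_mono (K0 := K0) (l := l) h3
    omega
  · exact h3
  · have := Kw_mono (K0 := K0) (l := l) h3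
    omega

theorem GG_inj_aux {g' : ℕ → ℕ} (hg : ∀ w, g w ≤ l) (hg' : ∀ w, g' w ≤ l)
    (h : GG K0 l Nw g = GG K0 l Nw g') (w : ℕ) (hw : w ∈ TT Nw g) : g w = g' w := by
  have h0 : kk K0 l g w ∈ GG K0 l Nw g' := by
    rw [← h]
    exact mem_GG.2 ⟨w, hw, rfl⟩
  obtain ⟨w', hw', he⟩ := mem_GG.1 h0
  have h1 := hg w
  have h2 := hg' w'
  unfold kk at he
  rcases lt_trichotomy w w' with h3 | h3 | h3
  · have := Kw_mono (K0 := K0) (l := l) h3
    omega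
  · subst h3; omega
  · have := Kw_mono (K0 := K0) (l := l) h3
    omega

theorem GG_inj {g' : ℕ → ℕ} (hg : ∀ w, g w ≤ l) (hg' : ∀ w, g' w ≤ l)
    (h : GG K0 l Nw g = GG K0 l Nw g') (w : ℕ) (hw : w < Nw) : g w = g' w := by
  by_cases h1 : 1 ≤ g w
  · exact GG_inj_aux hg hg' h w (mem_TT.2 ⟨hw, h1⟩)
  · by_cases h2 : 1 ≤ g' w
    · exact (GG_inj_aux hg' hg h.symm w (mem_TT.2 ⟨hw, h2⟩)).symm
    · omega

theorem ee_lt {w : ℕ} (hw : w ∈ TT Nw g) : ee K0 l w + 6 ≤ K0 + Nw * (2 * l + 6) := by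
  rw [mem_TT] at hw
  have h2 : (w + 1) * (2 * l + 6) ≤ Nw * (2 * l + 6) := Nat.mul_le_mul_right _ hw.1
  unfold ee Kw
  have e : (w + 1) * (2 * l + 6) = w * (2 * l + 6) + (2 * l + 6) := by ring
  omega

end Pool.Agent.V5helper97.BootWin
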