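import Mathlib
import Pool.Agent.V5helper97.BootPr
import Pool.Agent.V5helper97.BootChain
import Pool.Agent.V5helper97.BootGen
import Pool.Agent.V5helper97.BootWin
import Pool.Agent.V5helper97.BootDet
import Pool.Agent.V5helper97.BootG
import Pool.Agent.Helper384.BzK5

/-!
The probability of a configuration of plates with prescribed positions of the double gaps.
-/

set_option autoImplicit false
set_option maxHeartbeats 1000000
set_option linter.unusedVariables false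

namespace Pool.Agent.V5helper97.BootCfg

open Finset Classical Pool.Agent.Helper384.Bz Pool.Agent.V5helper97.BootPr
  Pool.Agent.V5helper97.BootChain Pool.Agent.V5helper97.BootGen Pool.Agent.V5helper97.BootWin
  Pool.Agent.V5helper97.BootDet Pool.Agent.V5helper97.BootG

section generic

theorem pow_aux (x : ℝ) (h0 : 0 ≤ x) (h1 : x ≤ 1) (b : ℕ) : ∀ a : ℕ, a ≤ b + 1 →
    (a : ℝ) * (x ^ b * (1 - x)) ≤ 1 - x ^ a := by
  intro a
  induction a with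
  | zero => intro _; simp
  | succ a ih =>
    intro h
    have h2 := ih (by omega)
    have h3 : x ^ b ≤ x ^ a := pow_le_pow_of_le_one h0 h1 (by omega)
    have h4 : x ^ b * (1 - x) ≤ x ^ a * (1 - x) := mul_le_mul_of_nonneg_right h3 (by linarith)
    push_cast
    have : x ^ (a + 1) = x ^ a * x := pow_succ x a
    rw [this]
    nlinarith

theorem conc (x : ℝ) (h0 : 0 ≤ x) (h1 : x ≤ 1) (a b : ℕ) (hab : a ≤ b) :
    (a : ℝ) * (1 - x ^ b) ≤ b * (1 - x ^ a) := by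
  induction b, hab using Nat.le_induction with
  | base => exact le_rfl
  | succ b hb ih =>
    have h2 := pow_aux x h0 h1 b a (by omega)
    push_cast
    have : x ^ (b + 1) = x ^ b * x := pow_succ x b
    rw [this]
    nlinarith

theorem Dep_and2 {α : Type} [Fintype α] [DecidableEq α] {U V : Finset α}
    {E F : Finset α → Prop} (hE : Dep U E) (hF : Dep V F) : Dep (U ∪ V) (fun A => E A ∧ F A) :=
  (hE.mono subset_union_left).and (hF.mono subset_union_right)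

end generic

variable {n : ℕ}

/-- hitting probability of a square plate -/
noncomputable def uu (p : ℝ) (k : ℕ) : ℝ := 1 - (1 - p) ^ ((k - 1) * (k - 1))

/-- product over the levels -/
noncomputable def PP (p : ℝ) (m : ℕ) : ℝ := ∏ k ∈ Ico 3 m, bet (uu p k)

theorem card_P0 (a : Fin 3 → ℕ) (m : ℕ) (ha : ∀ i, a i + m ≤ n) (j : ℕ) (h3 : 3 ≤ j) (hj : j < m) :
    (P0 a j : Finset (V n 3)).card = (j - 1) * (j - 1) := by
  unfold P0
  rw [card_bx]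
  · rw [Fin.prod_univ_three]
    simp
  · intro i
    have := ha i
    fin_cases i <;> simp at this ⊢ <;> omega

theorem card_P1 (a : Fin 3 → ℕ) (m : ℕ) (ha : ∀ i, a i + m ≤ n) (r : ℕ → ℕ)
    (hr : ∀ j, r j ≤ j - 1) (j : ℕ) (h3 : 3 ≤ j) (hj : j < m) :
    (P1 a r j : Finset (V n 3)).card = r j * (j - 1) := by
  unfold P1
  rw [card_bx]
  · rw [Fin.prod_univ_three]
    simp
  · intro i
    have := ha i
    have := hr j
    fin_cases i <;> simp at * <;> omega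

theorem card_P2 (a : Fin 3 → ℕ) (m : ℕ) (ha : ∀ i, a i + m ≤ n) (r : ℕ → ℕ)
    (hr : ∀ j, r j ≤ j - 1) (j : ℕ) (h3 : 3 ≤ j) (hj : j < m) :
    (P2 a r j : Finset (V n 3)).card = r j * (j - 1) := by
  unfold P2
  rw [card_bx]
  · rw [Fin.prod_univ_three]
    simp
  · intro i
    have := ha i
    have := hr j
    fin_cases i <;> simp at * <;> omega

theorem card_XX (a : Fin 3 → ℕ) (m : ℕ) (ha : ∀ i, a i + m ≤ n) (k e : ℕ) (hk : 1 ≤ k)
    (hke : k ≤ e) (he : e + 1 < m) :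
    (XX a k e : Finset (V n 3)).card = (e + 2 - k) * (k - 1) := by
  unfold XX
  rw [card_bx]
  · rw [Fin.prod_univ_three]
    simp
  · intro i
    have := ha i
    fin_cases i <;> simp at * <;> omega

theorem uu_pos {p : ℝ} (h0 : 0 < p) (h1 : p < 1) {k : ℕ} (hk : 2 ≤ k) : 0 < uu p k := by
  unfold uu
  have : (1 - p) ^ ((k - 1) * (k - 1)) < 1 := by
    apply pow_lt_one₀ (by linarith) (by linarith)
    have : 1 ≤ k - 1 := by omega
    have : 0 < (k - 1) * (k - 1) := by positivity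
    omega
  linarith

theorem uu_le {p : ℝ} (h0 : 0 < p) (h1 : p < 1) (k : ℕ) : uu p k ≤ 1 := by
  unfold uu
  have : 0 ≤ (1 - p) ^ ((k - 1) * (k - 1)) := pow_nonneg (by linarith) _
  linarith

theorem uu_mono {p : ℝ} (h0 : 0 < p) (h1 : p < 1) {k k' : ℕ} (h : k ≤ k') : uu p k ≤ uu p k' := by
  unfold uu
  have : (1 - p) ^ ((k' - 1) * (k' - 1)) ≤ (1 - p) ^ ((k - 1) * (k - 1)) := by
    apply pow_le_pow_of_le_one (by linarith) (by linarith)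
    exact Nat.mul_le_mul (by omega) (by omega)
  linarith

theorem PP_nonneg {p : ℝ} (h0 : 0 < p) (h1 : p < 1) (m : ℕ) : 0 ≤ PP p m := by
  unfold PP
  apply prod_nonneg
  intro k hk
  rw [mem_Ico] at hk
  exact bet_nonneg (uu_pos h0 h1 (by omega)).le (uu_le h0 h1 k)

/-- the event with pattern `g` -/
def Ev (a : Fin 3 → ℕ) (K0 l Nw m : ℕ) (g : ℕ → ℕ) (A : Finset (V n 3)) : Prop :=
  bx a (fun _ => 3) ⊆ A ∧ (Pat (P0 a) (GG K0 l Nw g) 3 m A ∧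
  ((∀ w ∈ TT Nw g, (A ∩ XX a (kk K0 l g w) (ee K0 l w)).Nonempty) ∧
  (Pat (P1 a (rr K0 l Nw g)) ∅ 3 m A ∧ Pat (P2 a (rr K0 l Nw g)) ∅ 3 m A)))

theorem Ev_det {a : Fin 3 → ℕ} {K0 l Nw m : ℕ} {g : ℕ → ℕ} (hg : ∀ w, g w ≤ l)
    (hm : K0 + Nw * (2 * l + 6) + 10 ≤ m) {A : Finset (V n 3)} (hA : Ev a K0 l Nw m g A)
    (S : Finset (V n 3)) (hAS : A ⊆ S) (hS : Closed S) : bx a (fun _ => m - 1) ⊆ S := by
  obtain ⟨h1, h2, h3, h4, h5⟩ := hA
  refine det A S hAS hS a m (by omega) ({w | w ∈ TT Nw g} : Set ℕ) (kk K0 l g) (ee K0 l)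
    (rr K0 l Nw g) ?_ ?_ ?_ ?_ ?_ ?_ ?_ h1
  · intro j hj hjm
    have := h2 j hj hjm
    unfold Hit
    by_cases e1 : (A ∩ P0 a j).Nonempty
    · exact Or.inl e1
    · by_cases e2 : (A ∩ P0 a (j + 1)).Nonempty
      · exact Or.inr (Or.inl e2)
      · right; right
        obtain ⟨w, hw, he⟩ := mem_GG.1 (this.1 ⟨e1, e2⟩)
        exact ⟨w, hw, he.symm⟩
  · intro j hj hjm
    have := h4 j hj hjm
    unfold Hit
    by_cases e1 : (A ∩ P1 a (rr K0 l Nw g) j).Nonempty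
    · exact Or.inl e1
    · by_cases e2 : (A ∩ P1 a (rr K0 l Nw g) (j + 1)).Nonempty
      · exact Or.inr e2
      · exact absurd (this.1 ⟨e1, e2⟩) (notMem_empty _)
  · intro j hj hjm
    have := h5 j hj hjm
    unfold Hit
    by_cases e1 : (A ∩ P2 a (rr K0 l Nw g) j).Nonempty
    · exact Or.inl e1
    · by_cases e2 : (A ∩ P2 a (rr K0 l Nw g) (j + 1)).Nonempty
      · exact Or.inr e2
      · exact absurd (this.1 ⟨e1, e2⟩) (notMem_empty _)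
  · intro w hw
    exact h3 w hw
  · intro j
    exact rr_le j
  · intro w hw j hj1 hj2
    exact rr_le' hg hw hj1 hj2
  · intro w hw
    have := ee_lt (K0 := K0) (l := l) hw
    omega

theorem Ev_excl {a : Fin 3 → ℕ} {K0 l Nw m : ℕ} {g g' : ℕ → ℕ} (hg : ∀ w, g w ≤ l)
    (hg' : ∀ w, g' w ≤ l) (hK : 3 ≤ K0)
    (hm : K0 + Nw * (2 * l + 6) + 10 ≤ m) {A : Finset (V n 3)} (hA : Ev a K0 l Nw m g A)
    (hA' : Ev a K0 l Nw m g' A) (w : ℕ) (hw : w < Nw) : g w = g' w := by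
  apply GG_inj (K0 := K0) (Nw := Nw) hg hg' _ w hw
  ext k
  constructor
  · intro hk
    have hr := GG_range hg hk
    have e1 := hA.2.1 k (by omega) (by omega)
    have e2 := hA'.2.1 k (by omega) (by omega)
    exact e2.1 (e1.2 hk)
  · intro hk
    have hr := GG_range hg' hk
    have e1 := hA.2.1 k (by omega) (by omega)
    have e2 := hA'.2.1 k (by omega) (by omega)
    exact e1.1 (e2.2 hk)

/-- the support of the plates in direction zero -/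
noncomputable def U0 (a : Fin 3 → ℕ) (m : ℕ) : Finset (V n 3) := (Ico 3 m).biUnion (P0 a)
/-- the support of the plates in direction one -/
noncomputable def U1 (a : Fin 3 → ℕ) (r : ℕ → ℕ) (m : ℕ) : Finset (V n 3) :=
  (Ico 3 m).biUnion (P1 a r)
/-- the support of the plates in direction two -/
noncomputable def U2 (a : Fin 3 → ℕ) (r : ℕ → ℕ) (m : ℕ) : Finset (V n 3) :=
  (Ico 3 m).biUnion (P2 a r)
/-- the support of the extra sets -/
noncomputable def UX (a : Fin 3 → ℕ) (K0 l Nw : ℕ) (g : ℕ → ℕ) : Finset (V n 3) :=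
  (TT Nw g).biUnion (fun w => XX a (kk K0 l g w) (ee K0 l w))

theorem mem_U0 {a : Fin 3 → ℕ} {m : ℕ} {x : V n 3} : x ∈ (U0 a m : Finset (V n 3)) ↔
    ∃ j, (3 ≤ j ∧ j < m) ∧ (x 0 : ℕ) = a 0 + j ∧ (a 1 ≤ (x 1 : ℕ) ∧ (x 1 : ℕ) < a 1 + (j - 1)) ∧
    (a 2 ≤ (x 2 : ℕ) ∧ (x 2 : ℕ) < a 2 + (j - 1)) := by
  unfold U0
  simp only [mem_biUnion, mem_Ico, mem_P0]

theorem mem_U1 {a : Fin 3 → ℕ} {r : ℕ → ℕ} {m : ℕ} {x : V n 3} :
    x ∈ (U1 a r m : Finset (V n 3)) ↔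
    ∃ j, (3 ≤ j ∧ j < m) ∧ (a 0 ≤ (x 0 : ℕ) ∧ (x 0 : ℕ) < a 0 + r j) ∧ (x 1 : ℕ) = a 1 + j ∧
    (a 2 ≤ (x 2 : ℕ) ∧ (x 2 : ℕ) < a 2 + (j - 1)) := by
  unfold U1
  simp only [mem_biUnion, mem_Ico, mem_P1]

theorem mem_U2 {a : Fin 3 → ℕ} {r : ℕ → ℕ} {m : ℕ} {x : V n 3} :
    x ∈ (U2 a r m : Finset (V n 3)) ↔
    ∃ j, (3 ≤ j ∧ j < m) ∧ (a 0 ≤ (x 0 : ℕ) ∧ (x 0 : ℕ) < a 0 + r j) ∧
    (a 1 ≤ (x 1 : ℕ) ∧ (x 1 : ℕ) < a 1 + (j - 1)) ∧ (x 2 : ℕ) = a 2 + j := by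
  unfold U2
  simp only [mem_biUnion, mem_Ico, mem_P2]

theorem mem_UX {a : Fin 3 → ℕ} {K0 l Nw : ℕ} {g : ℕ → ℕ} (hK : 3 ≤ K0) {x : V n 3} :
    x ∈ (UX a K0 l Nw g : Finset (V n 3)) ↔
    ∃ w ∈ TT Nw g, (x 0 : ℕ) = a 0 + kk K0 l g w ∧
      (a 1 + kk K0 l g w ≤ (x 1 : ℕ) + 1 ∧ (x 1 : ℕ) ≤ a 1 + ee K0 l w) ∧
    (a 2 ≤ (x 2 : ℕ) ∧ (x 2 : ℕ) < a 2 + (kk K0 l g w - 1)) := by
  unfold UX
  simp only [mem_biUnion]
  constructor
  · rintro ⟨w, hw, h⟩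
    have : K0 ≤ kk K0 l g w := le_trans (Kw_ge _) (Nat.le_add_right _ _)
    rw [mem_XX _ _ _ (by omega)] at h
    exact ⟨w, hw, h⟩
  · rintro ⟨w, hw, h⟩
    have : K0 ≤ kk K0 l g w := le_trans (Kw_ge _) (Nat.le_add_right _ _)
    refine ⟨w, hw, ?_⟩
    rw [mem_XX _ _ _ (by omega)]
    exact h

theorem dis_12 (a : Fin 3 → ℕ) (r : ℕ → ℕ) (m : ℕ) :
    Disjoint (U1 a r m : Finset (V n 3)) (U2 a r m) := by
  rw [Finset.disjoint_left]
  intro x h1 h2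
  rw [mem_U1] at h1
  rw [mem_U2] at h2
  obtain ⟨j, hj, e0, e1, e2⟩ := h1
  obtain ⟨j', hj', f0, f1, f2⟩ := h2
  omega

theorem dis_01 (a : Fin 3 → ℕ) (r : ℕ → ℕ) (hr : ∀ j, r j ≤ j - 1) (m : ℕ) :
    Disjoint (U0 a m : Finset (V n 3)) (U1 a r m) := by
  rw [Finset.disjoint_left]
  intro x h1 h2
  rw [mem_U0] at h1
  rw [mem_U1] at h2
  obtain ⟨j, hj, e0, e1, e2⟩ := h1
  obtain ⟨j', hj', f0, f1, f2⟩ := h2
  have := hr j'
  omega

theorem dis_02 (a : Fin 3 → ℕ) (r : ℕ → ℕ) (hr : ∀ j, r j ≤ j - 1) (m : ℕ) :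
    Disjoint (U0 a m : Finset (V n 3)) (U2 a r m) := by
  rw [Finset.disjoint_left]
  intro x h1 h2
  rw [mem_U0] at h1
  rw [mem_U2] at h2
  obtain ⟨j, hj, e0, e1, e2⟩ := h1
  obtain ⟨j', hj', f0, f1, f2⟩ := h2
  have := hr j'
  omega

theorem dis_0X (a : Fin 3 → ℕ) (K0 l Nw m : ℕ) (g : ℕ → ℕ) (hK : 3 ≤ K0) :
    Disjoint (U0 a m : Finset (V n 3)) (UX a K0 l Nw g) := by
  rw [Finset.disjoint_left]
  intro x h1 h2
  rw [mem_U0] at h1
  rw [mem_UX hK] at h2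
  obtain ⟨j, hj, e0, e1, e2⟩ := h1
  obtain ⟨w, hw, f0, f1, f2⟩ := h2
  omega

theorem dis_X1 (a : Fin 3 → ℕ) (K0 l Nw m : ℕ) (g : ℕ → ℕ) (hg : ∀ w, g w ≤ l) (hK : 3 ≤ K0) :
    Disjoint (UX a K0 l Nw g : Finset (V n 3)) (U1 a (rr K0 l Nw g) m) := by
  rw [Finset.disjoint_left]
  intro x h2 h1
  rw [mem_U1] at h1
  rw [mem_UX hK] at h2
  obtain ⟨j, hj, e0, e1, e2⟩ := h1
  obtain ⟨w, hw, f0, f1, f2⟩ := h2
  have h3 := rr_le (K0 := K0) (l := l) (Nw := Nw) (g := g) j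
  by_cases h : kk K0 l g w ≤ j
  · have := rr_le' hg hw h (by omega)
    omega
  · omega

theorem dis_X2 (a : Fin 3 → ℕ) (K0 l Nw m : ℕ) (g : ℕ → ℕ) (hg : ∀ w, g w ≤ l) (hK : 3 ≤ K0) :
    Disjoint (UX a K0 l Nw g : Finset (V n 3)) (U2 a (rr K0 l Nw g) m) := by
  rw [Finset.disjoint_left]
  intro x h2 h1
  rw [mem_U2] at h1
  rw [mem_UX hK] at h2
  obtain ⟨j, hj, e0, e1, e2⟩ := h1
  obtain ⟨w, hw, f0, f1, f2⟩ := h2
  have h3 := rr_le (K0 := K0) (l := l) (Nw := Nw) (g := g) j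
  omega

theorem mem_C {a : Fin 3 → ℕ} {x : V n 3} (h : x ∈ (bx a (fun _ => 3) : Finset (V n 3))) :
    (x 0 : ℕ) < a 0 + 3 ∧ (x 1 : ℕ) < a 1 + 3 ∧ (x 2 : ℕ) < a 2 + 3 := by
  rw [mem_bx3] at h
  exact ⟨h.1.2, h.2.1.2, h.2.2.2⟩

theorem dis_C (a : Fin 3 → ℕ) (K0 l Nw m : ℕ) (g : ℕ → ℕ) (hK : 3 ≤ K0) (r : ℕ → ℕ) :
    Disjoint (bx a (fun _ => 3) : Finset (V n 3))
      (U0 a m ∪ (UX a K0 l Nw g ∪ (U1 a r m ∪ U2 a r m))) := by
  rw [Finset.disjoint_left]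
  intro x h1 h2
  have h1 := mem_C h1
  rw [mem_union, mem_union, mem_union] at h2
  rcases h2 with h2 | h2 | h2 | h2
  · rw [mem_U0] at h2
    obtain ⟨j, hj, f0, f1, f2⟩ := h2
    omega
  · rw [mem_UX hK] at h2
    obtain ⟨w, hw, f0, f1, f2⟩ := h2
    have : K0 ≤ kk K0 l g w := le_trans (Kw_ge _) (Nat.le_add_right _ _)
    omega
  · rw [mem_U1] at h2
    obtain ⟨j, hj, f0, f1, f2⟩ := h2
    omega
  · rw [mem_U2] at h2
    obtain ⟨j, hj, f0, f1, f2⟩ := h2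
    omega

/-- the whole support lies in the cube -/
theorem sup_sub (a : Fin 3 → ℕ) (K0 l Nw m : ℕ) (g : ℕ → ℕ) (hg : ∀ w, g w ≤ l) (hK : 3 ≤ K0)
    (hm : K0 + Nw * (2 * l + 6) + 10 ≤ m) :
    (bx a (fun _ => 3) : Finset (V n 3)) ∪
      (U0 a m ∪ (UX a K0 l Nw g ∪ (U1 a (rr K0 l Nw g) m ∪ U2 a (rr K0 l Nw g) m))) ⊆
      bx a (fun _ => m) := by
  intro x h2
  rw [mem_bx3]
  rw [mem_union, mem_union, mem_union, mem_union] at h2
  rcases h2 with h2 | h2 | h2 | h2 | h2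
  · rw [mem_bx3] at h2
    omega
  · rw [mem_U0] at h2
    obtain ⟨j, hj, f0, f1, f2⟩ := h2
    omega
  · rw [mem_UX hK] at h2
    obtain ⟨w, hw, f0, f1, f2⟩ := h2
    have h3 := ee_lt (K0 := K0) (l := l) hw
    have h4 : kk K0 l g w ≤ ee K0 l w := by
      unfold kk ee
      have := hg w
      omega
    have : K0 ≤ kk K0 l g w := le_trans (Kw_ge _) (Nat.le_add_right _ _)
    omega
  · rw [mem_U1] at h2
    obtain ⟨j, hj, f0, f1, f2⟩ := h2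
    have h3 := rr_le (K0 := K0) (l := l) (Nw := Nw) (g := g) j
    omega
  · rw [mem_U2] at h2
    obtain ⟨j, hj, f0, f1, f2⟩ := h2
    have h3 := rr_le (K0 := K0) (l := l) (Nw := Nw) (g := g) j
    omega

end Pool.Agent.V5helper97.BootCfg
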