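import Mathlib
import Pool.Agent.V5helper97.BootCfg

/-!
Lower bound for the probability of one configuration and of the union of all configurations.
-/

set_option autoImplicit false
set_option maxHeartbeats 1000000
set_option linter.unusedVariables false

namespace Pool.Agent.V5helper97.BootCfg2

open Finset Classical Pool.Agent.Helper384.Bz Pool.Agent.V5helper97.BootPr
  Pool.Agent.V5helper97.BootChain Pool.Agent.V5helper97.BootGen Pool.Agent.V5helper97.BootWin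
  Pool.Agent.V5helper97.BootDet Pool.Agent.V5helper97.BootG Pool.Agent.V5helper97.BootCfg

variable {n : ℕ}

theorem pat0 {p : ℝ} (h0 : 0 < p) (h1 : p < 1) (a : Fin 3 → ℕ) (K0 l Nw m : ℕ) (g : ℕ → ℕ)
    (ha : ∀ i, a i + m ≤ n) (hg : ∀ w, g w ≤ l) (hK : 3 ≤ K0)
    (hm : K0 + Nw * (2 * l + 6) + 10 ≤ m) (c : ℝ) (hc0 : 0 ≤ c) (hc1 : c ≤ 1)
    (hc : ∀ k, K0 ≤ k → k ≤ K0 + Nw * (2 * l + 6) →
      c ≤ uu p (k - 1) * ((1 - uu p k) * (1 - uu p (k + 1)) * uu p (k + 2))) :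
    c ^ (TT Nw g).card * PP p m ≤ Pr p (Pat (P0 a : ℕ → Finset (V n 3)) (GG K0 l Nw g) 3 m) := by
  have h := (chain_low h0.le h1.le (P0 a : ℕ → Finset (V n 3)) (GG K0 l Nw g) (uu p) c m 3
    (by
      intro k hk1 hk2
      rw [Pr_hit, card_P0 a m ha k hk1 hk2]
      rfl)
    (by
      intro k k' _ _ _ _ hne
      rw [Finset.disjoint_left]
      intro x hx hx'
      rw [mem_P0] at hx hx'
      omega)
    (fun k _ _ => uu_mono h0 h1 (Nat.le_succ k))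
    (fun k hk _ => uu_pos h0 h1 (by omega)) hc0 hc1
    (by
      intro k hk
      have hr := GG_range hg hk
      refine ⟨by omega, by omega, ?_, ?_, hc k (by omega) (by omega)⟩
      · intro hk'
        have := GG_sep hg hk hk' (by omega)
        omega
      · intro hk'
        have := GG_sep hg hk hk' (by omega)
        omega) (m - 3) 3 rfl le_rfl).1
  have hf : (GG K0 l Nw g).filter (fun k => 3 ≤ k) = GG K0 l Nw g := by
    apply filter_true_of_mem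
    intro k hk
    have hr := GG_range hg hk
    omega
  rw [hf, GG_card hg] at h
  exact h

theorem r_ratio {p : ℝ} (h0 : 0 < p) (h1 : p < 1) (K0 l Nw : ℕ) (g : ℕ → ℕ) (η : ℝ)
    (hη : 2 * (l : ℝ) ≤ η * K0) (hη0 : 0 ≤ η) (hη1 : η ≤ 1) (hK : 3 ≤ K0)
    (k : ℕ) (hk : 3 ≤ k) :
    (1 - η) * bet (uu p k) ≤ bet (1 - (1 - p) ^ (rr K0 l Nw g k * (k - 1))) ∧
    0 < 1 - (1 - p) ^ (rr K0 l Nw g k * (k - 1)) := by
  obtain ⟨hl1, hl2⟩ := rr_low (K0 := K0) (l := l) (Nw := Nw) (g := g) k (by omega)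
  have hle := rr_le (K0 := K0) (l := l) (Nw := Nw) (g := g) k
  generalize rr K0 l Nw g k = r at *
  have hu := uu_pos h0 h1 (k := k) (by omega)
  have hu1 := uu_le h0 h1 k
  have hrpos : 1 ≤ r := by
    by_cases h : r = k - 1
    · omega
    · have := hl2 h; omega
  have hx0 : 0 ≤ (1 - p) ^ (k - 1) := pow_nonneg (by linarith) _
  have hx1 : (1 - p) ^ (k - 1) ≤ 1 := pow_le_one₀ (by linarith) (by linarith)
  have hconc := conc ((1 - p) ^ (k - 1)) hx0 hx1 r (k - 1) hle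
  rw [← pow_mul, ← pow_mul, mul_comm (k - 1) r] at hconc
  have hpos : 0 < 1 - (1 - p) ^ (r * (k - 1)) := by
    have : (1 - p) ^ (r * (k - 1)) < 1 := by
      apply pow_lt_one₀ (by linarith) (by linarith)
      have h2 : 1 ≤ k - 1 := by omega
      have : 0 < r * (k - 1) := Nat.mul_pos hrpos h2
      omega
    linarith
  refine ⟨?_, hpos⟩
  have hle1 : 1 - (1 - p) ^ (r * (k - 1)) ≤ uu p k := by
    unfold uu
    have : (1 - p) ^ ((k - 1) * (k - 1)) ≤ (1 - p) ^ (r * (k - 1)) := by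
      apply pow_le_pow_of_le_one (by linarith) (by linarith)
      exact Nat.mul_le_mul hle le_rfl
    linarith
  have hb := bet_ratio hpos hle1 hu1
  have hbu := bet_pos hu hu1
  have hconc' : (r : ℝ) * uu p k ≤ ((k - 1 : ℕ) : ℝ) * (1 - (1 - p) ^ (r * (k - 1))) := hconc
  have hkk : (0 : ℝ) < ((k - 1 : ℕ) : ℝ) := by
    have : 0 < k - 1 := by omega
    exact_mod_cast this
  have hratio : (1 - η) * ((k - 1 : ℕ) : ℝ) ≤ r := by
    by_cases h : r = k - 1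
    · rw [h]
      nlinarith
    · have h2 := hl2 h
      have h3 : (K0 : ℝ) ≤ ((k - 1 : ℕ) : ℝ) := by
        have : K0 ≤ k - 1 := by omega
        exact_mod_cast this
      have h4 : ((k - 1 : ℕ) : ℝ) ≤ r + 2 * l := by exact_mod_cast hl1
      nlinarith
  generalize ((k - 1 : ℕ) : ℝ) = y at *
  generalize 1 - (1 - p) ^ (r * (k - 1)) = u' at *
  generalize uu p k = u at *
  -- (1-η) u ≤ u'
  have h5 : (1 - η) * u ≤ u' := by
    have h6 : y * ((1 - η) * u) ≤ y * u' := by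
      have : y * ((1 - η) * u) = ((1 - η) * y) * u := by ring
      rw [this]
      exact le_trans (mul_le_mul_of_nonneg_right hratio hu.le) hconc'
    exact le_of_mul_le_mul_left h6 hkk
  -- u' * bet u ≤ u * bet u'
  have h7 : u * ((1 - η) * bet u) ≤ u * bet u' := by
    have : u * ((1 - η) * bet u) = ((1 - η) * u) * bet u := by ring
    rw [this]
    exact le_trans (mul_le_mul_of_nonneg_right h5 hbu.le) hb
  exact le_of_mul_le_mul_left h7 hu

theorem prod_low {p : ℝ} (h0 : 0 < p) (h1 : p < 1) (K0 l Nw m : ℕ) (g : ℕ → ℕ) (η : ℝ)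
    (hη : 2 * (l : ℝ) ≤ η * K0) (hη0 : 0 ≤ η) (hη1 : η ≤ 1) (hK : 3 ≤ K0) :
    (1 - η) ^ ((TT Nw g).card * (2 * l + 2)) * PP p m ≤
      ∏ k ∈ Ico 3 m, bet (1 - (1 - p) ^ (rr K0 l Nw g k * (k - 1))) := by
  have hη2 : 0 ≤ 1 - η := by linarith
  have hη3 : 1 - η ≤ 1 := by linarith
  have e1 : ∏ k ∈ Ico 3 m, ((if k ∈ EX K0 l Nw g then 1 - η else 1) * bet (uu p k)) ≤
      ∏ k ∈ Ico 3 m, bet (1 - (1 - p) ^ (rr K0 l Nw g k * (k - 1))) := by
    apply prod_le_prod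
    · intro k hk
      rw [mem_Ico] at hk
      have := bet_nonneg (uu_pos h0 h1 (k := k) (by omega)).le (uu_le h0 h1 k)
      split_ifs
      · exact mul_nonneg hη2 this
      · rw [one_mul]; exact this
    · intro k hk
      rw [mem_Ico] at hk
      by_cases hE : k ∈ EX K0 l Nw g
      · rw [if_pos hE]
        exact (r_ratio h0 h1 K0 l Nw g η hη hη0 hη1 hK k hk.1).1
      · rw [if_neg hE, one_mul, rr_eq hE]
        exact le_rfl
  rw [prod_mul_distrib] at e1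
  refine le_trans (mul_le_mul_of_nonneg_right ?_ (PP_nonneg h0 h1 m)) e1
  rw [prod_ite, prod_const_one, mul_one, prod_const]
  apply pow_le_pow_of_le_one hη2 hη3
  refine le_trans (card_le_card ?_) (card_EX (K0 := K0) (l := l) (Nw := Nw) (g := g))
  intro k hk
  exact (mem_filter.1 hk).2

theorem pat1 {p : ℝ} (h0 : 0 < p) (h1 : p < 1) (a : Fin 3 → ℕ) (K0 l Nw m : ℕ) (g : ℕ → ℕ)
    (ha : ∀ i, a i + m ≤ n) (hg : ∀ w, g w ≤ l) (hK : 3 ≤ K0) (η : ℝ)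
    (hη : 2 * (l : ℝ) ≤ η * K0) (hη0 : 0 ≤ η) (hη1 : η ≤ 1)
    (hm : K0 + Nw * (2 * l + 6) + 10 ≤ m) (Q : ℕ → Finset (V n 3))
    (hQ : ∀ k, 3 ≤ k → k < m → (Q k).card = rr K0 l Nw g k * (k - 1))
    (hQd : ∀ k k', k ≠ k' → Disjoint (Q k) (Q k')) :
    (1 - η) ^ ((TT Nw g).card * (2 * l + 2)) * PP p m ≤ Pr p (Pat Q ∅ 3 m) := by
  have h := (chain_low h0.le h1.le Q ∅ (fun k => 1 - (1 - p) ^ (rr K0 l Nw g k * (k - 1))) 1 m 3
    (by
      intro k hk1 hk2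
      rw [Pr_hit, hQ k hk1 hk2])
    (fun k k' _ _ _ _ hne => hQd k k' hne)
    (by
      intro k hk _
      show 1 - (1 - p) ^ (rr K0 l Nw g k * (k - 1)) ≤
        1 - (1 - p) ^ (rr K0 l Nw g (k + 1) * (k + 1 - 1))
      have : (1 - p) ^ (rr K0 l Nw g (k + 1) * (k + 1 - 1)) ≤
          (1 - p) ^ (rr K0 l Nw g k * (k - 1)) := by
        apply pow_le_pow_of_le_one (by linarith) (by linarith)
        exact Nat.mul_le_mul (rr_mono hg k) (by omega)
      linarith)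
    (fun k hk _ => (r_ratio h0 h1 K0 l Nw g η hη hη0 hη1 hK k hk).2) (by norm_num) le_rfl
    (by
      intro k hk
      exact absurd hk (notMem_empty _)) (m - 3) 3 rfl le_rfl).1
  rw [filter_empty, card_empty, pow_zero, one_mul] at h
  exact le_trans (prod_low h0 h1 K0 l Nw m g η hη hη0 hη1 hK) h

theorem hitX {p : ℝ} (h0 : 0 < p) (h1 : p < 1) (a : Fin 3 → ℕ) (K0 l Nw m : ℕ) (g : ℕ → ℕ)
    (ha : ∀ i, a i + m ≤ n) (hg : ∀ w, g w ≤ l) (hK : 3 ≤ K0)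
    (hm : K0 + Nw * (2 * l + 6) + 10 ≤ m) (x : ℝ) (hx0 : 0 ≤ x)
    (hx : x ≤ 1 - (1 - p) ^ ((l + 2) * K0)) :
    x ^ (TT Nw g).card ≤ Pr p (fun A : Finset (V n 3) =>
      ∀ w ∈ TT Nw g, (A ∩ XX a (kk K0 l g w) (ee K0 l w)).Nonempty) := by
  rw [Pr_hits]
  · rw [← prod_const]
    apply prod_le_prod
    · intro w _; exact hx0
    · intro w hw
      have hw' := mem_TT.1 hw
      have h2 := hg w
      have h3 := ee_lt (K0 := K0) (l := l) hw
      have h4 : K0 ≤ Kw K0 l w := Kw_ge _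
      rw [card_XX a m ha (kk K0 l g w) (ee K0 l w) (by unfold kk; omega)
        (by unfold kk ee; omega) (by omega)]
      refine le_trans hx ?_
      have : (1 - p) ^ ((ee K0 l w + 2 - kk K0 l g w) * (kk K0 l g w - 1)) ≤
          (1 - p) ^ ((l + 2) * K0) := by
        apply pow_le_pow_of_le_one (by linarith) (by linarith)
        unfold kk ee
        exact Nat.mul_le_mul (by omega) (by omega)
      linarith
  · intro w hw w' hw' hne
    rw [Finset.disjoint_left]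
    intro y hy hy'
    have hw1 := mem_TT.1 hw
    have hw1' := mem_TT.1 hw'
    have g1 : K0 ≤ Kw K0 l w := Kw_ge _
    have g2 : K0 ≤ Kw K0 l w' := Kw_ge _
    rw [mem_XX _ _ _ (by unfold kk; omega)] at hy hy'
    have h1 := hg w
    have h2 := hg w'
    unfold kk at hy hy'
    rcases lt_trichotomy w w' with h3 | h3 | h3
    · have := Kw_mono (K0 := K0) (l := l) h3
      omega
    · exact hne h3
    · have := Kw_mono (K0 := K0) (l := l) h3
      omega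

theorem pr_one {p : ℝ} (h0 : 0 < p) (h1 : p < 1) (a : Fin 3 → ℕ) (K0 l Nw m : ℕ) (g : ℕ → ℕ)
    (ha : ∀ i, a i + m ≤ n) (hg : ∀ w, g w ≤ l) (hK : 3 ≤ K0)
    (hm : K0 + Nw * (2 * l + 6) + 10 ≤ m) (c : ℝ) (hc0 : 0 ≤ c) (hc1 : c ≤ 1)
    (hc : ∀ k, K0 ≤ k → k ≤ K0 + Nw * (2 * l + 6) →
      c ≤ uu p (k - 1) * ((1 - uu p k) * (1 - uu p (k + 1)) * uu p (k + 2)))
    (x : ℝ) (hx0 : 0 ≤ x) (hx : x ≤ 1 - (1 - p) ^ ((l + 2) * K0)) (η : ℝ)
    (hη : 2 * (l : ℝ) ≤ η * K0) (hη0 : 0 ≤ η) (hη1 : η ≤ 1) :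
    p ^ 27 * PP p m ^ 3 * (c * x * (1 - η) ^ (4 * l + 4)) ^ (TT Nw g).card ≤
      Pr p (Ev a K0 l Nw m g : Finset (V n 3) → Prop) := by
  have hPP := PP_nonneg h0 h1 m
  have hη2 : 0 ≤ 1 - η := by linarith
  have r1 := rr_le (K0 := K0) (l := l) (Nw := Nw) (g := g)
  -- independence
  have D1 : Dep (bx a (fun _ => 3) : Finset (V n 3)) (fun A => bx a (fun _ => 3) ⊆ A) :=
    Dep_incl _
  have D2 : Dep (U0 a m) (Pat (P0 a : ℕ → Finset (V n 3)) (GG K0 l Nw g) 3 m) := Pat_dep _ _ _ _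
  have D3 : Dep (UX a K0 l Nw g) (fun A : Finset (V n 3) =>
      ∀ w ∈ TT Nw g, (A ∩ XX a (kk K0 l g w) (ee K0 l w)).Nonempty) := Dep_hits _ _
  have D4 : Dep (U1 a (rr K0 l Nw g) m)
      (Pat (P1 a (rr K0 l Nw g) : ℕ → Finset (V n 3)) ∅ 3 m) := Pat_dep _ _ _ _
  have D5 : Dep (U2 a (rr K0 l Nw g) m)
      (Pat (P2 a (rr K0 l Nw g) : ℕ → Finset (V n 3)) ∅ 3 m) := Pat_dep _ _ _ _
  have D45 := Dep_and2 D4 D5
  have D345 := Dep_and2 D3 D45
  have D2345 := Dep_and2 D2 D345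
  have I1 := Pr_indep p (dis_C a K0 l Nw m g hK (rr K0 l Nw g)) D1 D2345
  have I2 := Pr_indep p (U := U0 a m)
    (V := UX a K0 l Nw g ∪ (U1 a (rr K0 l Nw g) m ∪ U2 a (rr K0 l Nw g) m)) (by
      rw [disjoint_union_right, disjoint_union_right]
      exact ⟨dis_0X a K0 l Nw m g hK, dis_01 a _ r1 m, dis_02 a _ r1 m⟩) D2 D345
  have I3 := Pr_indep p (U := UX a K0 l Nw g)
    (V := (U1 a (rr K0 l Nw g) m ∪ U2 a (rr K0 l Nw g) m)) (by
      rw [disjoint_union_right]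
      exact ⟨dis_X1 a K0 l Nw m g hg hK, dis_X2 a K0 l Nw m g hg hK⟩) D3 D45
  have I4 := Pr_indep p (dis_12 a (rr K0 l Nw g) m) D4 D5
  have hEv : Pr p (Ev a K0 l Nw m g : Finset (V n 3) → Prop) =
      Pr p (fun A : Finset (V n 3) => bx a (fun _ => 3) ⊆ A) *
      (Pr p (Pat (P0 a : ℕ → Finset (V n 3)) (GG K0 l Nw g) 3 m) *
      (Pr p (fun A : Finset (V n 3) =>
        ∀ w ∈ TT Nw g, (A ∩ XX a (kk K0 l g w) (ee K0 l w)).Nonempty) *
      (Pr p (Pat (P1 a (rr K0 l Nw g) : ℕ → Finset (V n 3)) ∅ 3 m) *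
      Pr p (Pat (P2 a (rr K0 l Nw g) : ℕ → Finset (V n 3)) ∅ 3 m)))) := by
    rw [← I4, ← I3, ← I2, ← I1]
    rfl
  rw [hEv]
  have B1 : p ^ 27 ≤ Pr p (fun A : Finset (V n 3) => bx a (fun _ => 3) ⊆ A) := by
    rw [Pr_incl]
    apply le_of_eq
    congr 1
    rw [card_bx]
    · rw [Fin.prod_univ_three]
      norm_num
    · intro i
      have := ha i
      omega
  have B2 := pat0 h0 h1 a K0 l Nw m g ha hg hK hm c hc0 hc1 hc
  have B3 := hitX h0 h1 a K0 l Nw m g ha hg hK hm x hx0 hx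
  have B4 := pat1 h0 h1 a K0 l Nw m g ha hg hK η hη hη0 hη1 hm (P1 a (rr K0 l Nw g))
    (fun k hk1 hk2 => card_P1 a m ha _ r1 k hk1 hk2) (by
      intro k k' hne
      rw [Finset.disjoint_left]
      intro y hy hy'
      rw [mem_P1] at hy hy'
      omega)
  have B5 := pat1 h0 h1 a K0 l Nw m g ha hg hK η hη hη0 hη1 hm (P2 a (rr K0 l Nw g))
    (fun k hk1 hk2 => card_P2 a m ha _ r1 k hk1 hk2) (by
      intro k k' hne
      rw [Finset.disjoint_left]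
      intro y hy hy'
      rw [mem_P2] at hy hy'
      omega)
  have e : p ^ 27 * PP p m ^ 3 * (c * x * (1 - η) ^ (4 * l + 4)) ^ (TT Nw g).card =
      p ^ 27 * ((c ^ (TT Nw g).card * PP p m) * (x ^ (TT Nw g).card *
      (((1 - η) ^ ((TT Nw g).card * (2 * l + 2)) * PP p m) *
      ((1 - η) ^ ((TT Nw g).card * (2 * l + 2)) * PP p m)))) := by
    have e2 : (1 - η) ^ ((TT Nw g).card * (2 * l + 2)) = ((1 - η) ^ (2 * l + 2)) ^ (TT Nw g).card := by
      rw [mul_comm, pow_mul]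
    have e3 : (1 - η) ^ (4 * l + 4) = (1 - η) ^ (2 * l + 2) * (1 - η) ^ (2 * l + 2) := by
      rw [← pow_add]; congr 1; ring
    rw [e2, e3, mul_pow, mul_pow, mul_pow]
    ring
  rw [e]
  have n1 : 0 ≤ (1 - η) ^ ((TT Nw g).card * (2 * l + 2)) * PP p m :=
    mul_nonneg (pow_nonneg hη2 _) hPP
  have n2 : 0 ≤ x ^ (TT Nw g).card := pow_nonneg hx0 _
  have n3 : 0 ≤ c ^ (TT Nw g).card * PP p m := mul_nonneg (pow_nonneg hc0 _) hPP
  have M45 := mul_le_mul B4 B5 n1 (le_trans n1 B4)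
  have M345 := mul_le_mul B3 M45 (mul_nonneg n1 n1) (le_trans n2 B3)
  have M2345 := mul_le_mul B2 M345 (mul_nonneg n2 (mul_nonneg n1 n1)) (le_trans n3 B2)
  exact mul_le_mul B1 M2345 (mul_nonneg n3 (mul_nonneg n2 (mul_nonneg n1 n1)))
    (le_trans (pow_nonneg h0.le _) B1)

/-- extension of a function on windows -/
def ext (Nw : ℕ) (f : Fin Nw → ℕ) (w : ℕ) : ℕ := if h : w < Nw then f ⟨w, h⟩ else 0

/-- all configurations -/
def cfgs (Nw l : ℕ) : Finset (Fin Nw → ℕ) := Fintype.piFinset (fun _ => range (l + 1))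

theorem ext_le {Nw l : ℕ} {f : Fin Nw → ℕ} (hf : f ∈ cfgs Nw l) (w : ℕ) : ext Nw f w ≤ l := by
  unfold cfgs at hf
  rw [Fintype.mem_piFinset] at hf
  unfold ext
  split_ifs with h
  · have := mem_range.1 (hf ⟨w, h⟩)
    omega
  · exact Nat.zero_le _

theorem card_TT_ext {Nw : ℕ} (f : Fin Nw → ℕ) (θ : ℝ) :
    θ ^ (TT Nw (ext Nw f)).card = ∏ w : Fin Nw, (if f w = 0 then 1 else θ) := by
  have h1 : ∏ w : Fin Nw, (if f w = 0 then 1 else θ) =
      ∏ w ∈ range Nw, (if ext Nw f w = 0 then 1 else θ) := by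
    rw [Finset.prod_range]
    apply prod_congr rfl
    intro w _
    have : ext Nw f (w : ℕ) = f w := by
      unfold ext
      rw [dif_pos w.isLt]
    rw [this]
  rw [h1, prod_ite, prod_const_one, one_mul, prod_const]
  congr 1
  unfold TT
  congr 1
  ext w
  simp only [mem_filter]
  constructor
  · rintro ⟨a, b⟩; exact ⟨a, by omega⟩
  · rintro ⟨a, b⟩; exact ⟨a, by omega⟩

/-- the union of the configurations -/
def EE (a : Fin 3 → ℕ) (K0 l Nw m : ℕ) (A : Finset (V n 3)) : Prop :=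
  ∃ f ∈ cfgs Nw l, Ev a K0 l Nw m (ext Nw f) A

theorem EE_det {a : Fin 3 → ℕ} {K0 l Nw m : ℕ}
    (hm : K0 + Nw * (2 * l + 6) + 10 ≤ m) {A : Finset (V n 3)} (hA : EE a K0 l Nw m A)
    (S : Finset (V n 3)) (hAS : A ⊆ S) (hS : Closed S) : bx a (fun _ => m - 1) ⊆ S := by
  obtain ⟨f, hf, h⟩ := hA
  exact Ev_det (ext_le hf) hm h S hAS hS

theorem EE_dep {a : Fin 3 → ℕ} {K0 l Nw m : ℕ} (hK : 3 ≤ K0)
    (hm : K0 + Nw * (2 * l + 6) + 10 ≤ m) :
    Dep (bx a (fun _ => m)) (EE a K0 l Nw m : Finset (V n 3) → Prop) := by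
  apply Dep_ex
  intro f hf
  have D1 : Dep (bx a (fun _ => 3) : Finset (V n 3)) (fun A => bx a (fun _ => 3) ⊆ A) :=
    Dep_incl _
  have D2 : Dep (U0 a m) (Pat (P0 a : ℕ → Finset (V n 3)) (GG K0 l Nw (ext Nw f)) 3 m) :=
    Pat_dep _ _ _ _
  have D3 : Dep (UX a K0 l Nw (ext Nw f)) (fun A : Finset (V n 3) =>
      ∀ w ∈ TT Nw (ext Nw f), (A ∩ XX a (kk K0 l (ext Nw f) w) (ee K0 l w)).Nonempty) :=
    Dep_hits _ _
  have D4 : Dep (U1 a (rr K0 l Nw (ext Nw f)) m)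
      (Pat (P1 a (rr K0 l Nw (ext Nw f)) : ℕ → Finset (V n 3)) ∅ 3 m) := Pat_dep _ _ _ _
  have D5 : Dep (U2 a (rr K0 l Nw (ext Nw f)) m)
      (Pat (P2 a (rr K0 l Nw (ext Nw f)) : ℕ → Finset (V n 3)) ∅ 3 m) := Pat_dep _ _ _ _
  have D45 := Dep_and2 D4 D5
  have D345 := Dep_and2 D3 D45
  have D2345 := Dep_and2 D2 D345
  have D12345 := Dep_and2 D1 D2345
  exact D12345.mono (sup_sub a K0 l Nw m (ext Nw f) (ext_le hf) hK hm)

theorem EE_pr {p : ℝ} (h0 : 0 < p) (h1 : p < 1) (a : Fin 3 → ℕ) (K0 l Nw m : ℕ)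
    (ha : ∀ i, a i + m ≤ n) (hK : 3 ≤ K0)
    (hm : K0 + Nw * (2 * l + 6) + 10 ≤ m) (c : ℝ) (hc0 : 0 ≤ c) (hc1 : c ≤ 1)
    (hc : ∀ k, K0 ≤ k → k ≤ K0 + Nw * (2 * l + 6) →
      c ≤ uu p (k - 1) * ((1 - uu p k) * (1 - uu p (k + 1)) * uu p (k + 2)))
    (x : ℝ) (hx0 : 0 ≤ x) (hx : x ≤ 1 - (1 - p) ^ ((l + 2) * K0)) (η : ℝ)
    (hη : 2 * (l : ℝ) ≤ η * K0) (hη0 : 0 ≤ η) (hη1 : η ≤ 1) :
    p ^ 27 * PP p m ^ 3 * (1 + l * (c * x * (1 - η) ^ (4 * l + 4))) ^ Nw ≤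
      Pr p (EE a K0 l Nw m : Finset (V n 3) → Prop) := by
  have hsum : (1 + l * (c * x * (1 - η) ^ (4 * l + 4))) ^ Nw =
      ∑ f ∈ cfgs Nw l, (c * x * (1 - η) ^ (4 * l + 4)) ^ (TT Nw (ext Nw f)).card := by
    have e1 : ∀ f ∈ cfgs Nw l, (c * x * (1 - η) ^ (4 * l + 4)) ^ (TT Nw (ext Nw f)).card =
        ∏ w : Fin Nw, (if f w = 0 then 1 else (c * x * (1 - η) ^ (4 * l + 4))) := fun f _ =>
      card_TT_ext f _
    rw [sum_congr rfl e1]
    have e2 := Finset.prod_univ_sum (fun _ : Fin Nw => range (l + 1))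
      (fun (_ : Fin Nw) (j : ℕ) => (if j = 0 then (1 : ℝ) else (c * x * (1 - η) ^ (4 * l + 4))))
    unfold cfgs
    rw [← e2]
    rw [prod_const, card_univ, Fintype.card_fin]
    congr 1
    rw [sum_range_succ', if_pos rfl]
    have e3 : ∀ j ∈ range l, (if j + 1 = 0 then (1 : ℝ) else (c * x * (1 - η) ^ (4 * l + 4))) =
        (c * x * (1 - η) ^ (4 * l + 4)) := by
      intro j _
      rw [if_neg (Nat.succ_ne_zero j)]
    rw [sum_congr rfl e3, sum_const, card_range, nsmul_eq_mul]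
    ring
  rw [hsum, mul_sum]
  refine le_trans (sum_le_sum fun f hf => pr_one h0 h1 a K0 l Nw m (ext Nw f) ha (ext_le hf) hK hm
    c hc0 hc1 hc x hx0 hx η hη hη0 hη1) ?_
  refine Pr_disj_sum h0.le h1.le (cfgs Nw l) (fun f => Ev a K0 l Nw m (ext Nw f)) ?_
  intro A f hf f' hf' hA hA'
  funext w
  have h := Ev_excl (ext_le hf) (ext_le hf') hK hm hA hA' w w.isLt
  unfold ext at h
  rw [dif_pos w.isLt, dif_pos w.isLt] at h
  exact h

end Pool.Agent.V5helper97.BootCfg2
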