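import Mathlib
import Pool.Agent.V5helper97.BootCfg2
import Pool.Agent.V5helper97.BootInt
import Pool.Agent.V5helper97.BootG

/-!
Parameters for the configurations.
-/

set_option autoImplicit false
set_option maxHeartbeats 1000000
set_option linter.unusedVariables false

namespace Pool.Agent.V5helper97.BootB1

open Finset Classical Pool.Agent.Helper384.Bz Pool.Agent.V5helper97.BootPr
  Pool.Agent.V5helper97.BootG Pool.Agent.V5helper97.BootInt Pool.Agent.V5helper97.BootCfg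
  Pool.Agent.V5helper97.BootCfg2

theorem kap {q : ℝ} (hq : 0 < q) (hq1 : q ≤ 1 / 2) : ∃ s : ℝ, 0 < s ∧ q ≤ s ∧ s ≤ 2 * q ∧
    ∀ N : ℕ, (1 - q ^ 2) ^ N = Real.exp (-(s ^ 2 * N)) := by
  have hq2 : 0 < q ^ 2 := by positivity
  have hq3 : q ^ 2 ≤ 1 / 4 := by nlinarith
  have h4 : 0 < 1 - q ^ 2 := by linarith
  have h1 : q ^ 2 ≤ -Real.log (1 - q ^ 2) := by
    have := Real.log_le_sub_one_of_pos h4
    linarith
  have h2 : -Real.log (1 - q ^ 2) ≤ 4 * q ^ 2 := by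
    have h3 := Real.one_sub_inv_le_log_of_pos h4
    have h5 : (1 - q ^ 2)⁻¹ ≤ 1 + 4 * q ^ 2 := by
      rw [inv_le_comm₀ h4 (by positivity)]
      rw [inv_le_iff_one_le_mul₀ (by positivity)]
      nlinarith
    linarith
  have hκ : 0 < -Real.log (1 - q ^ 2) := by linarith
  refine ⟨√(-Real.log (1 - q ^ 2)), Real.sqrt_pos.2 hκ, Real.le_sqrt_of_sq_le h1, ?_, ?_⟩
  · rw [Real.sqrt_le_left (by positivity)]
    nlinarith
  · intro N
    rw [Real.sq_sqrt hκ.le]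
    have : Real.exp (-(-Real.log (1 - q ^ 2) * N)) = Real.exp (Real.log (1 - q ^ 2) * N) := by
      congr 1; ring
    rw [this, ← Real.rpow_def_of_pos h4, Real.rpow_natCast]

theorem PP_ge {q : ℝ} (hq : 0 < q) (hq1 : q ≤ 1 / 2) (m : ℕ) :
    Real.exp (-(Lam / q)) ≤ PP (q ^ 2) m := by
  obtain ⟨s, hs0, hs1, hs2, hs3⟩ := kap hq hq1
  have e1 : ∀ k ∈ Ico 3 m, bet (uu (q ^ 2) k) = Real.exp (-(ff (s * (((k - 2 : ℕ) : ℝ) + 1)))) := by
    intro k hk
    rw [mem_Ico] at hk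
    have hx : 0 < (s * (((k - 2 : ℕ) : ℝ) + 1)) ^ 2 := by positivity
    have e2 : uu (q ^ 2) k = 1 - Real.exp (-((s * (((k - 2 : ℕ) : ℝ) + 1)) ^ 2)) := by
      unfold uu
      rw [hs3]
      congr 3
      obtain ⟨j, rfl⟩ : ∃ j, k = j + 2 := ⟨k - 2, by omega⟩
      have e3 : j + 2 - 1 = j + 1 := by omega
      have e4 : j + 2 - 2 = j := by omega
      rw [e3, e4]
      push_cast
      ring
    unfold ff gf
    rw [neg_neg, e2, Real.exp_log]
    apply bet_pos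
    · have := Real.exp_lt_one_iff.2 (show -((s * (((k - 2 : ℕ) : ℝ) + 1)) ^ 2) < 0 by linarith)
      linarith
    · have := Real.exp_pos (-((s * (((k - 2 : ℕ) : ℝ) + 1)) ^ 2))
      linarith
  unfold PP
  rw [prod_congr rfl e1, ← Real.exp_sum]
  apply Real.exp_le_exp.2
  rw [sum_neg_distrib, neg_le_neg_iff]
  have h1 := sum_le hs0 m
  have h2 : Lam / s ≤ Lam / q := div_le_div_of_nonneg_left Lam_pos.le hq hs1
  refine le_trans ?_ (h1.trans h2)
  have h3 : ∑ k ∈ Ico 3 m, ff (s * (((k - 2 : ℕ) : ℝ) + 1)) =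
      ∑ j ∈ (Ico 3 m).image (fun k : ℕ => k - 2), ff (s * ((j : ℝ) + 1)) := by
    rw [sum_image]
    intro x hx y hy hxy
    rw [mem_coe, mem_Ico] at hx hy
    have : x - 2 = y - 2 := hxy
    omega
  rw [h3]
  apply sum_le_sum_of_subset_of_nonneg
  · intro j hj
    rw [mem_image] at hj
    obtain ⟨k, hk, rfl⟩ := hj
    rw [mem_Ico] at hk
    rw [mem_range]
    omega
  · intro j _ _
    exact (ff_pos (by positivity)).le

theorem exp_ge_aux {y : ℝ} (h0 : 0 ≤ y) (h1 : y ≤ 1 / 2) : Real.exp (-(2 * y)) ≤ 1 - y := by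
  have h2 := Real.add_one_le_exp (2 * y)
  have h3 : Real.exp (-(2 * y)) = (Real.exp (2 * y))⁻¹ := Real.exp_neg _
  rw [h3, inv_le_comm₀ (Real.exp_pos _) (by linarith)]
  refine le_trans ?_ h2
  rw [inv_le_iff_one_le_mul₀ (by linarith)]
  nlinarith

/-- the constant for the gap probabilities -/
noncomputable def cA : ℝ := (1 - Real.exp (-(1 / 4))) ^ 2 * Real.exp (-25) ^ 2

theorem cA_pos : 0 < cA := by
  unfold cA
  have : Real.exp (-(1 / 4) : ℝ) < 1 := Real.exp_lt_one_iff.2 (by norm_num)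
  have : 0 < 1 - Real.exp (-(1 / 4) : ℝ) := by linarith
  positivity

theorem cA_le : cA ≤ 1 := by
  unfold cA
  have h1 : Real.exp (-(1 / 4) : ℝ) < 1 := Real.exp_lt_one_iff.2 (by norm_num)
  have h2 : 0 < Real.exp (-(1 / 4) : ℝ) := Real.exp_pos _
  have h3 : Real.exp (-25 : ℝ) < 1 := Real.exp_lt_one_iff.2 (by norm_num)
  have h4 : 0 < Real.exp (-25 : ℝ) := Real.exp_pos _
  have h5 : (1 - Real.exp (-(1 / 4) : ℝ)) ^ 2 ≤ 1 := by nlinarith
  have h6 : Real.exp (-25 : ℝ) ^ 2 ≤ 1 := by nlinarith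
  have h7 : 0 ≤ Real.exp (-25 : ℝ) ^ 2 := by positivity
  nlinarith

theorem gap_low {s : ℝ} (hs : 16 ≤ s) (k : ℕ) (hk1 : s ^ 2 ≤ k) (hk2 : (k : ℝ) ≤ 2 * s ^ 2 + 1) :
    cA ≤ uu ((1 / s ^ 2) ^ 2) (k - 1) * ((1 - uu ((1 / s ^ 2) ^ 2) k) *
      (1 - uu ((1 / s ^ 2) ^ 2) (k + 1)) * uu ((1 / s ^ 2) ^ 2) (k + 2)) := by
  have hs0 : 0 < s := by linarith
  have hss : 256 ≤ s ^ 2 := by nlinarith
  have hq0 : 0 < 1 / s ^ 2 := by positivity
  have hq1 : 1 / s ^ 2 ≤ 1 / 2 := by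
    apply one_div_le_one_div_of_le (by norm_num); linarith
  obtain ⟨t, ht0, ht1, ht2, ht3⟩ := kap hq0 hq1
  have hk3 : 256 ≤ k := by
    have : (256 : ℝ) ≤ k := by linarith
    exact_mod_cast this
  obtain ⟨j, rfl⟩ : ∃ j, k = j + 2 := ⟨k - 2, by omega⟩
  have hlow : ∀ i : ℕ, j ≤ i → 1 - Real.exp (-(1 / 4)) ≤ 1 - (1 - (1 / s ^ 2) ^ 2) ^ (i * i) := by
    intro i hi
    rw [ht3]
    have h1 : (1 / 2 : ℝ) ≤ t * i := by
      have h2 : (j : ℝ) ≤ i := by exact_mod_cast hi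
      push_cast at hk1
      have h3 : s ^ 2 / 2 ≤ i := by linarith
      have h4 : 1 / s ^ 2 * (s ^ 2 / 2) ≤ t * i := mul_le_mul ht1 h3 (by positivity) ht0.le
      have h5 : 1 / s ^ 2 * (s ^ 2 / 2) = 1 / 2 := by field_simp
      linarith
    have h2 : (1 / 4 : ℝ) ≤ t ^ 2 * ((i * i : ℕ) : ℝ) := by
      push_cast
      have e1 : t ^ 2 * ((i : ℝ) * i) = (t * i) ^ 2 := by ring
      rw [e1]
      have e2 := pow_le_pow_left₀ (by norm_num) h1 2
      norm_num at e2 ⊢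
      exact e2
    have h3 : Real.exp (-(t ^ 2 * ((i * i : ℕ) : ℝ))) ≤ Real.exp (-(1 / 4)) :=
      Real.exp_le_exp.2 (by linarith)
    linarith
  have hup : ∀ i : ℕ, i ≤ j + 2 → Real.exp (-25) ≤ (1 - (1 / s ^ 2) ^ 2) ^ (i * i) := by
    intro i hi
    rw [ht3]
    apply Real.exp_le_exp.2
    have h2 : (i : ℝ) ≤ ((j + 2 : ℕ) : ℝ) := by exact_mod_cast hi
    have h3 : t * i ≤ 5 := by
      have h4 : t * i ≤ 2 * (1 / s ^ 2) * (2 * s ^ 2 + 1) :=
        mul_le_mul ht2 (h2.trans hk2) (by positivity) (by positivity)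
      have h5 : 2 * (1 / s ^ 2) * (2 * s ^ 2 + 1) = 4 + 2 / s ^ 2 := by field_simp; ring
      have h6 : 2 / s ^ 2 ≤ 1 := by rw [div_le_one (by positivity)]; linarith
      linarith
    push_cast
    have h7 : t ^ 2 * ((i : ℝ) * i) = (t * i) ^ 2 := by ring
    rw [h7]
    have h8 : 0 ≤ t * i := by positivity
    have h9 := pow_le_pow_left₀ h8 h3 2
    norm_num at h9
    linarith
  have a1 : 1 - Real.exp (-(1 / 4)) ≤ uu ((1 / s ^ 2) ^ 2) (j + 2 - 1) := by
    unfold uu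
    have e : j + 2 - 1 - 1 = j := by omega
    rw [e]
    exact hlow j le_rfl
  have a2 : Real.exp (-25) ≤ 1 - uu ((1 / s ^ 2) ^ 2) (j + 2) := by
    unfold uu
    have e : j + 2 - 1 = j + 1 := by omega
    rw [e]
    have := hup (j + 1) (by omega)
    linarith
  have a3 : Real.exp (-25) ≤ 1 - uu ((1 / s ^ 2) ^ 2) (j + 2 + 1) := by
    unfold uu
    have e : j + 2 + 1 - 1 = j + 2 := by omega
    rw [e]
    have := hup (j + 2) (by omega)
    linarith
  have a4 : 1 - Real.exp (-(1 / 4)) ≤ uu ((1 / s ^ 2) ^ 2) (j + 2 + 2) := by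
    unfold uu
    have e : j + 2 + 2 - 1 = j + 3 := by omega
    rw [e]
    exact hlow (j + 3) (by omega)
  have b1 : 0 < 1 - Real.exp (-(1 / 4) : ℝ) := by
    have : Real.exp (-(1 / 4) : ℝ) < 1 := Real.exp_lt_one_iff.2 (by norm_num)
    linarith
  have b2 := Real.exp_pos (-25)
  unfold cA
  have e : (1 - Real.exp (-(1 / 4))) ^ 2 * Real.exp (-25) ^ 2 = (1 - Real.exp (-(1 / 4))) *
      (Real.exp (-25) * Real.exp (-25) * (1 - Real.exp (-(1 / 4)))) := by ring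
  rw [e]
  have m1 := mul_le_mul a2 a3 b2.le (b2.le.trans a2)
  have m2 := mul_le_mul m1 a4 b1.le ((mul_nonneg b2.le b2.le).trans m1)
  exact mul_le_mul a1 m2 (mul_nonneg (mul_nonneg b2.le b2.le) b1.le) (b1.le.trans a1)

/-- the gain per window -/
noncomputable def cG : ℝ := cA * Real.exp (-32) / 4

theorem cG_pos : 0 < cG := by
  unfold cG
  have := cA_pos
  positivity

/-- the gain in the exponent -/
noncomputable def cH : ℝ := Real.log (1 + cG) / 16

theorem cH_pos : 0 < cH := by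
  unfold cH
  have := cG_pos
  have := Real.log_pos (show 1 < 1 + cG by linarith)
  positivity

theorem EE_low {s : ℝ} (hs : 16 ≤ s) : ∃ K0 l Nw : ℕ, 3 ≤ K0 ∧
    K0 + Nw * (2 * l + 6) + 10 ≤ ⌈s ^ 6⌉₊ ∧
    ∀ (n : ℕ) (a : Fin 3 → ℕ), (∀ i, a i + ⌈s ^ 6⌉₊ ≤ n) →
      ((1 / s ^ 2) ^ 2) ^ 27 * Real.exp (-(3 * Lam * s ^ 2)) * Real.exp (cH * s) ≤
        Pr ((1 / s ^ 2) ^ 2) (EE a K0 l Nw ⌈s ^ 6⌉₊ : Finset (V n 3) → Prop) := by
  have hs0 : 0 < s := by linarith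
  have hss : 256 ≤ s ^ 2 := by nlinarith
  have hq0 : 0 < 1 / s ^ 2 := by positivity
  have hq1 : 1 / s ^ 2 ≤ 1 / 2 := by
    apply one_div_le_one_div_of_le (by norm_num); linarith
  have hp0 : 0 < (1 / s ^ 2) ^ 2 := by positivity
  have hp1 : (1 / s ^ 2) ^ 2 < 1 := by nlinarith
  obtain ⟨K0, hK0⟩ : ∃ K0, K0 = ⌈s ^ 2⌉₊ := ⟨_, rfl⟩
  obtain ⟨l, hl⟩ : ∃ l, l = ⌊s⌋₊ := ⟨_, rfl⟩
  obtain ⟨Nw, hNw⟩ : ∃ Nw, Nw = ⌊s / 8⌋₊ := ⟨_, rfl⟩
  have K1 : s ^ 2 ≤ K0 := by rw [hK0]; exact Nat.le_ceil _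
  have K2 : (K0 : ℝ) < s ^ 2 + 1 := by rw [hK0]; exact Nat.ceil_lt_add_one (by positivity)
  have l1 : (l : ℝ) ≤ s := by rw [hl]; exact Nat.floor_le hs0.le
  have l2 : s < l + 1 := by rw [hl]; exact Nat.lt_floor_add_one s
  have w1 : (Nw : ℝ) ≤ s / 8 := by rw [hNw]; exact Nat.floor_le (by positivity)
  have w2 : s / 8 < Nw + 1 := by rw [hNw]; exact Nat.lt_floor_add_one _
  have hW : (Nw : ℝ) * (2 * l + 6) ≤ s ^ 2 := by
    have h1 : (2 * (l : ℝ) + 6) ≤ 8 * s := by linarith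
    have h2 : (Nw : ℝ) * (2 * l + 6) ≤ s / 8 * (8 * s) :=
      mul_le_mul w1 h1 (by positivity) (by positivity)
    have h3 : s / 8 * (8 * s) = s ^ 2 := by ring
    linarith
  have hK3 : 3 ≤ K0 := by
    have : (3 : ℝ) ≤ K0 := by linarith
    exact_mod_cast this
  have hmm : K0 + Nw * (2 * l + 6) + 10 ≤ ⌈s ^ 6⌉₊ := by
    have h1 : s ^ 6 ≤ (⌈s ^ 6⌉₊ : ℝ) := Nat.le_ceil _
    have h2 : ((K0 + Nw * (2 * l + 6) + 10 : ℕ) : ℝ) ≤ (⌈s ^ 6⌉₊ : ℝ) := by
      push_cast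
      have h3 : 2 * s ^ 2 + 11 ≤ s ^ 6 := by
        have h4 : s ^ 6 = s ^ 2 * (s ^ 2 * s ^ 2) := by ring
        have h5 : 256 * 256 ≤ s ^ 2 * s ^ 2 := mul_le_mul hss hss (by norm_num) (by positivity)
        rw [h4]
        nlinarith
      linarith
    exact_mod_cast h2
  refine ⟨K0, l, Nw, hK3, hmm, ?_⟩
  intro n a ha
  have hη1 : 2 / s ≤ 1 / 2 := by
    rw [div_le_div_iff₀ hs0 (by norm_num)]; linarith
  have main := EE_pr (n := n) hp0 hp1 a K0 l Nw ⌈s ^ 6⌉₊ ha hK3 hmm cA cA_pos.le cA_le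
    (by
      intro k hk1 hk2
      have h1 : (K0 : ℝ) ≤ k := by exact_mod_cast hk1
      have h2 : (k : ℝ) ≤ K0 + Nw * (2 * l + 6) := by exact_mod_cast hk2
      exact gap_low hs k (by linarith) (by linarith))
    (1 / (2 * s)) (by positivity)
    (by
      have h1 : (1 - (1 / s ^ 2) ^ 2) ^ ((l + 2) * K0) ≤ Real.exp (-(1 / s)) := by
        have h2 : 1 - (1 / s ^ 2) ^ 2 ≤ Real.exp (-((1 / s ^ 2) ^ 2)) := by
          have := Real.add_one_le_exp (-((1 / s ^ 2) ^ 2))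
          linarith
        calc (1 - (1 / s ^ 2) ^ 2) ^ ((l + 2) * K0)
            ≤ (Real.exp (-((1 / s ^ 2) ^ 2))) ^ ((l + 2) * K0) :=
              pow_le_pow_left₀ (by linarith) h2 _
          _ = Real.exp (-((1 / s ^ 2) ^ 2 * (((l + 2) * K0 : ℕ) : ℝ))) := by
              rw [← Real.exp_nat_mul]
              congr 1
              ring
          _ ≤ Real.exp (-(1 / s)) := by
              apply Real.exp_le_exp.2
              push_cast
              have h3 : s * s ^ 2 ≤ ((l : ℝ) + 2) * K0 :=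
                mul_le_mul (by linarith) K1 (by positivity) (by positivity)
              have h4 : (1 / s ^ 2) ^ 2 * (s * s ^ 2) ≤ (1 / s ^ 2) ^ 2 * (((l : ℝ) + 2) * K0) :=
                mul_le_mul_of_nonneg_left h3 hp0.le
              have h5 : (1 / s ^ 2) ^ 2 * (s * s ^ 2) = 1 / s := by field_simp
              linarith
      have h2 := one_sub_exp_ge (x := 1 / s) (by positivity) (by
        rw [div_le_one hs0]; linarith)
      have h3 : 1 / s / 2 = 1 / (2 * s) := by field_simp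
      linarith)
    (2 / s) (by
      have h1 : 2 / s * s ^ 2 ≤ 2 / s * K0 := mul_le_mul_of_nonneg_left K1 (by positivity)
      have h2 : 2 / s * s ^ 2 = 2 * s := by field_simp
      linarith) (by positivity) (by linarith)
  refine le_trans ?_ main
  have hPP := PP_ge hq0 hq1 ⌈s ^ 6⌉₊
  have hPP3 : Real.exp (-(3 * Lam * s ^ 2)) ≤ PP ((1 / s ^ 2) ^ 2) ⌈s ^ 6⌉₊ ^ 3 := by
    have e1 : Real.exp (-(3 * Lam * s ^ 2)) = Real.exp (-(Lam / (1 / s ^ 2))) ^ 3 := by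
      rw [← Real.exp_nat_mul]
      congr 1
      field_simp
      push_cast
      ring
    rw [e1]
    exact pow_le_pow_left₀ (Real.exp_nonneg _) hPP 3
  have hgain : Real.exp (cH * s) ≤
      (1 + l * (cA * (1 / (2 * s)) * (1 - 2 / s) ^ (4 * l + 4))) ^ Nw := by
    have h1 : Real.exp (-32) ≤ (1 - 2 / s) ^ (4 * l + 4) := by
      have h2 := exp_ge_aux (y := 2 / s) (by positivity) hη1
      calc Real.exp (-32) ≤ Real.exp (-(2 * (2 / s))) ^ (4 * l + 4) := by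
            rw [← Real.exp_nat_mul]
            apply Real.exp_le_exp.2
            push_cast
            have h3 : (4 * (l : ℝ) + 4) ≤ 8 * s := by linarith
            have h4 : (4 * (l : ℝ) + 4) * (2 * (2 / s)) ≤ 8 * s * (2 * (2 / s)) :=
              mul_le_mul_of_nonneg_right h3 (by positivity)
            have h5 : 8 * s * (2 * (2 / s)) = 32 := by field_simp; norm_num
            linarith
        _ ≤ _ := pow_le_pow_left₀ (Real.exp_nonneg _) h2 _
    have h2 : cG ≤ l * (cA * (1 / (2 * s)) * (1 - 2 / s) ^ (4 * l + 4)) := by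
      have h3 : s / 2 ≤ l := by linarith
      have h4 : cA * (1 / (2 * s)) * Real.exp (-32) ≤
          cA * (1 / (2 * s)) * (1 - 2 / s) ^ (4 * l + 4) :=
        mul_le_mul_of_nonneg_left h1 (mul_nonneg cA_pos.le (by positivity))
      have h5 : 0 ≤ cA * (1 / (2 * s)) * Real.exp (-32) :=
        mul_nonneg (mul_nonneg cA_pos.le (by positivity)) (Real.exp_nonneg _)
      have h6 : s / 2 * (cA * (1 / (2 * s)) * Real.exp (-32)) ≤
          l * (cA * (1 / (2 * s)) * (1 - 2 / s) ^ (4 * l + 4)) :=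
        mul_le_mul h3 h4 h5 (by positivity)
      have h7 : s / 2 * (cA * (1 / (2 * s)) * Real.exp (-32)) = cG := by
        unfold cG; field_simp; norm_num; ring
      linarith
    have h3 : Real.exp (cH * s) ≤ (1 + cG) ^ Nw := by
      have hc := cG_pos
      have h4 : (1 + cG) ^ Nw = Real.exp (Real.log (1 + cG) * Nw) := by
        rw [← Real.rpow_def_of_pos (by linarith), Real.rpow_natCast]
      rw [h4]
      apply Real.exp_le_exp.2
      have h5 : s / 16 ≤ Nw := by linarith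
      have h6 := Real.log_pos (show 1 < 1 + cG by linarith)
      have h7 : Real.log (1 + cG) * (s / 16) ≤ Real.log (1 + cG) * Nw :=
        mul_le_mul_of_nonneg_left h5 h6.le
      unfold cH
      linarith
    refine le_trans h3 ?_
    have hc := cG_pos
    exact pow_le_pow_left₀ (by linarith) (by linarith) _
  have hp27 : 0 ≤ ((1 / s ^ 2) ^ 2) ^ 27 := by positivity
  exact mul_le_mul (mul_le_mul_of_nonneg_left hPP3 hp27) hgain (Real.exp_nonneg _)
    (mul_nonneg hp27 (pow_nonneg (PP_nonneg hp0 hp1 _) _))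

end Pool.Agent.V5helper97.BootB1
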