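import Mathlib
import Pool.Agent.V5helper97.BootCfg2
import Pool.Agent.Helper384.BzK4
import Pool.Agent.Helper384.BzJ3

/-!
From good cubes to percolation.
-/

set_option autoImplicit false
set_option maxHeartbeats 1000000
set_option linter.unusedVariables false

namespace Pool.Agent.V5helper97.BootPerc

open Finset Classical Pool.Agent.Helper384.Bz Pool.Agent.V5helper97.BootPr
  Pool.Agent.V5helper97.BootChain Pool.Agent.V5helper97.BootGen Pool.Agent.V5helper97.BootWin
  Pool.Agent.V5helper97.BootDet Pool.Agent.V5helper97.BootG Pool.Agent.V5helper97.BootCfg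
  Pool.Agent.V5helper97.BootCfg2

variable {n : ℕ}

/-- a plate of side `s` -/
noncomputable def plate (s : ℕ) (z : Fin 3 × V n 3) : Finset (V n 3) :=
  bx (fun j => (z.2 j : ℕ)) (fun j => if j = z.1 then 1 else s)

theorem plate_card (s : ℕ) (z : Fin 3 × V n 3) (hz : ∀ j, j ≠ z.1 → (z.2 j : ℕ) + s ≤ n) :
    (plate s z).card = s ^ 2 := by
  unfold plate
  rw [card_bx]
  · obtain ⟨i, v⟩ := z
    fin_cases i
    · rw [Fin.prod_univ_three]; simp; ring
    · rw [Fin.prod_univ_three]; simp; ring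
    · rw [Fin.prod_univ_three]; simp; ring
  · intro j
    by_cases hj : j = z.1
    · rw [if_pos hj]
      exact (z.2 j).isLt
    · rw [if_neg hj]
      exact hz j hj

theorem fit (m n : ℕ) (z : Fin 3 → Fin (n / m)) (i : Fin 3) : m * (z i : ℕ) + m ≤ n := by
  have h1 : (z i : ℕ) + 1 ≤ n / m := (z i).isLt
  have h2 : m * (n / m) ≤ n := Nat.mul_div_le n m
  have h3 : m * ((z i : ℕ) + 1) ≤ m * (n / m) := Nat.mul_le_mul_left _ h1
  rw [mul_add, mul_one] at h3
  omega

theorem cube_dis (m n : ℕ) (z z' : Fin 3 → Fin (n / m)) (h : z ≠ z') :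
    Disjoint (bx (fun i => m * (z i : ℕ)) (fun _ => m) : Finset (V n 3))
      (bx (fun i => m * (z' i : ℕ)) (fun _ => m)) := by
  rw [Finset.disjoint_left]
  intro x h1 h2
  apply h
  simp only [bx, mem_filter, mem_univ, true_and] at h1 h2
  funext i
  apply Fin.ext
  have e1 := h1 i
  have e2 := h2 i
  have f1 : (x i : ℕ) / m = (z i : ℕ) := by
    apply Nat.div_eq_of_lt_le
    · rw [mul_comm]; exact e1.1
    · rw [Nat.succ_mul, mul_comm]; omega
  have f2 : (x i : ℕ) / m = (z' i : ℕ) := by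
    apply Nat.div_eq_of_lt_le
    · rw [mul_comm]; exact e2.1
    · rw [Nat.succ_mul, mul_comm]; omega
  rw [← f1, ← f2]

theorem perc_low {p : ℝ} (h0 : 0 < p) (h1 : p < 1) (K0 l Nw m : ℕ) (hK : 3 ≤ K0)
    (hm : K0 + Nw * (2 * l + 6) + 10 ≤ m) (Q : ℝ)
    (hQ : ∀ a : Fin 3 → ℕ, (∀ i, a i + m ≤ n) →
      Q ≤ Pr p (EE a K0 l Nw m : Finset (V n 3) → Prop)) :
    1 - Real.exp (-(Q * ((n / m : ℕ) : ℝ) ^ 3)) -
      3 * (n : ℝ) ^ 3 * Real.exp (-(p * ((m - 1 : ℕ) : ℝ) ^ 2)) ≤ percProb n 3 2 p := by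
  obtain ⟨aa, haa⟩ : ∃ aa : (Fin 3 → Fin (n / m)) → (Fin 3 → ℕ), aa = fun z i => m * (z i : ℕ) :=
    ⟨_, rfl⟩
  have hfit : ∀ z i, aa z i + m ≤ n := by
    intro z i
    rw [haa]
    exact fit m n z i
  have H1 := Pr_none h0.le h1.le (univ : Finset (Fin 3 → Fin (n / m)))
    (fun z => (bx (aa z) (fun _ => m) : Finset (V n 3)))
    (by
      intro z _ z' _ hne
      rw [haa]
      exact cube_dis m n z z' hne)
    (fun z => EE (aa z) K0 l Nw m) (fun z _ => EE_dep hK hm) Q (fun z _ => hQ (aa z) (hfit z))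
  have hcardZ : (((univ : Finset (Fin 3 → Fin (n / m))).card : ℕ) : ℝ) =
      ((n / m : ℕ) : ℝ) ^ 3 := by
    rw [Finset.card_univ, Fintype.card_fun, Fintype.card_fin, Fintype.card_fin]
    push_cast
    rfl
  rw [hcardZ] at H1
  -- plates
  set ZP : Finset (Fin 3 × V n 3) :=
    univ.filter (fun z : Fin 3 × V n 3 => ∀ j, j ≠ z.1 → (z.2 j : ℕ) + (m - 1) ≤ n) with hZP
  have H2 := Pr_union h0.le h1.le ZP (E := fun A => ∃ z ∈ ZP, ¬ (A ∩ plate (m - 1) z).Nonempty)
    (F := fun z A => ¬ (A ∩ plate (m - 1) z).Nonempty) (fun A hA => hA)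
  have H2' : Pr p (fun A : Finset (V n 3) => ∃ z ∈ ZP, ¬ (A ∩ plate (m - 1) z).Nonempty) ≤
      3 * (n : ℝ) ^ 3 * Real.exp (-(p * ((m - 1 : ℕ) : ℝ) ^ 2)) := by
    refine le_trans H2 ?_
    have e1 : ∀ z ∈ ZP, Pr p (fun A : Finset (V n 3) => ¬ (A ∩ plate (m - 1) z).Nonempty) ≤
        Real.exp (-(p * ((m - 1 : ℕ) : ℝ) ^ 2)) := by
      intro z hz
      rw [Pr_avoid, plate_card (m - 1) z (mem_filter.1 hz).2]
      have h2 : 1 - p ≤ Real.exp (-p) := by
        have := Real.add_one_le_exp (-p)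
        linarith
      calc (1 - p) ^ ((m - 1) ^ 2) ≤ (Real.exp (-p)) ^ ((m - 1) ^ 2) :=
            pow_le_pow_left₀ (by linarith) h2 _
        _ = Real.exp (-(p * ((m - 1 : ℕ) : ℝ) ^ 2)) := by
            rw [← Real.exp_nat_mul]
            congr 1
            push_cast
            ring
    refine le_trans (sum_le_sum e1) ?_
    rw [sum_const, nsmul_eq_mul]
    apply mul_le_mul_of_nonneg_right _ (Real.exp_nonneg _)
    have h2 : ZP.card ≤ 3 * n ^ 3 := by
      refine le_trans (Finset.card_filter_le _ _) ?_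
      rw [Finset.card_univ, Fintype.card_prod, Fintype.card_fin]
      apply le_of_eq
      congr 1
      show Fintype.card (Fin 3 → Fin n) = n ^ 3
      rw [Fintype.card_fun, Fintype.card_fin, Fintype.card_fin]
    exact_mod_cast h2
  -- deterministic part
  have key : ∀ A : Finset (V n 3), True → (Percolates 2 A ∨
      ((∀ z ∈ (univ : Finset (Fin 3 → Fin (n / m))), ¬ EE (aa z) K0 l Nw m A) ∨
      (∃ z ∈ ZP, ¬ (A ∩ plate (m - 1) z).Nonempty))) := by
    intro A _
    by_cases c1 : ∀ z ∈ (univ : Finset (Fin 3 → Fin (n / m))), ¬ EE (aa z) K0 l Nw m A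
    · exact Or.inr (Or.inl c1)
    by_cases c2 : ∃ z ∈ ZP, ¬ (A ∩ plate (m - 1) z).Nonempty
    · exact Or.inr (Or.inr c2)
    left
    push Not at c1
    obtain ⟨z, _, hz⟩ := c1
    obtain ⟨S, hAS, hScl, hSt⟩ := cl_exists A
    have hbox := EE_det hm hz S hAS hScl
    have hSu : S = univ := by
      apply grow_all S hScl (m - 1) (by omega) _ (aa z) (fun _ => m - 1) _ (fun _ => le_rfl) hbox
      · intro i c b hb
        by_contra hcon
        apply c2
        refine ⟨(i, fun j => if hj : j = i then c else ⟨b j, by have := hb j; omega⟩), ?_, ?_⟩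
        · rw [hZP, mem_filter]
          refine ⟨mem_univ _, ?_⟩
          intro j hj
          simp only at hj ⊢
          rw [dif_neg hj]
          exact hb j
        · rintro ⟨x, hx⟩
          rw [mem_inter] at hx
          obtain ⟨hxA, hxB⟩ := hx
          apply hcon
          unfold plate at hxB
          simp only [bx, mem_filter, mem_univ, true_and] at hxB
          refine ⟨x, hAS hxA, ?_, ?_⟩
          · have := hxB i
            simp only [dif_pos, if_true] at this
            apply Fin.ext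
            omega
          · intro j hj
            have := hxB j
            simp only [dif_neg hj, if_neg hj] at this
            exact this
      · intro i
        have := hfit z i
        show aa z i + (m - 1) ≤ n
        omega
    intro v
    exact hSt v (by rw [hSu]; exact mem_univ v)
  have hT := Pr_true (α := V n 3) p
  have hor := Pr_or h0.le h1.le (E := fun _ : Finset (V n 3) => True) key
  have hor2 := Pr_or h0.le h1.le
    (E := fun A : Finset (V n 3) =>
      (∀ z ∈ (univ : Finset (Fin 3 → Fin (n / m))), ¬ EE (aa z) K0 l Nw m A) ∨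
      (∃ z ∈ ZP, ¬ (A ∩ plate (m - 1) z).Nonempty)) (fun A hA => hA)
  have hpp : percProb n 3 2 p = Pr p (fun A : Finset (V n 3) => Percolates 2 A) := by
    unfold percProb
    exact (Pr_eq p _).symm
  rw [hpp]
  linarith

end Pool.Agent.V5helper97.BootPerc
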