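import Mathlib
import Pool.Agent.V5helper97.BootB1
import Pool.Agent.V5helper97.BootPerc

/-!
Part B: percolation is likely already at `log n = Lam / q - c / sqrt q`.
-/

set_option autoImplicit false
set_option maxHeartbeats 1000000
set_option linter.unusedVariables false

namespace Pool.Agent.V5helper97.BootB

open Finset Classical Filter Pool.Agent.Helper384.Bz Pool.Agent.V5helper97.BootPr
  Pool.Agent.V5helper97.BootG Pool.Agent.V5helper97.BootInt Pool.Agent.V5helper97.BootCfg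
  Pool.Agent.V5helper97.BootCfg2 Pool.Agent.V5helper97.BootB1 Pool.Agent.V5helper97.BootPerc

theorem ev_exp {c K : ℝ} (hc : 0 < c) (N : ℕ) : ∀ᶠ s : ℝ in atTop, K * s ^ N ≤ Real.exp (c * s) := by
  have h1 : Tendsto (fun s : ℝ => K * (s ^ N * Real.exp (-c * s))) atTop (nhds (K * 0)) := by
    apply Tendsto.const_mul
    have := Real.tendsto_pow_mul_exp_neg_atTop_nhds_zero N
    have h2 : Tendsto (fun s : ℝ => c * s) atTop atTop := tendsto_id.const_mul_atTop hc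
    have h3 := this.comp h2
    have h4 : Tendsto (fun s : ℝ => (1 / c ^ N) * ((c * s) ^ N * Real.exp (-(c * s)))) atTop
        (nhds ((1 / c ^ N) * 0)) := h3.const_mul _
    rw [mul_zero] at h4
    refine h4.congr ?_
    intro s
    rw [mul_pow]
    have : c ^ N ≠ 0 := by positivity
    field_simp
  rw [mul_zero] at h1
  have h2 := h1.eventually (gt_mem_nhds zero_lt_one)
  filter_upwards [h2] with s hs
  have h3 : K * (s ^ N * Real.exp (-c * s)) = K * s ^ N * (Real.exp (c * s))⁻¹ := by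
    rw [← Real.exp_neg]
    have : -c * s = -(c * s) := by ring
    rw [this]
    ring
  rw [h3] at hs
  have h4 := Real.exp_pos (c * s)
  rw [← div_eq_mul_inv, div_lt_one h4] at hs
  exact hs.le

theorem partB : ∃ c5 S1 : ℝ, 0 < c5 ∧ 16 ≤ S1 ∧ ∀ s : ℝ, S1 ≤ s → ∀ n : ℕ, 1 ≤ n →
    Lam * s ^ 2 - c5 * s ≤ Real.log n → Real.log n ≤ 2 * Lam * s ^ 2 →
    1 / 2 ≤ percProb n 3 2 ((1 / s ^ 2) ^ 2) := by
  have hL := Lam_pos
  have hH := cH_pos
  have E1 := ev_exp (c := cH / 2) (K := 128) (by positivity) 126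
  have E2 := ev_exp (c := Lam / 2) (K := 4) (by positivity) 6
  have E3 : ∀ᶠ s : ℝ in atTop, cH / 6 ≤ Lam / 2 * s := by
    have h2 : Tendsto (fun s : ℝ => Lam / 2 * s) atTop atTop :=
      tendsto_id.const_mul_atTop (by positivity)
    exact h2.eventually_ge_atTop _
  have E4 : ∀ᶠ s : ℝ in atTop, 24 * Lam + 16 ≤ s := eventually_ge_atTop _
  obtain ⟨S, hS⟩ := eventually_atTop.1 ((E1.and E2).and (E3.and E4))
  refine ⟨cH / 6, max S 16, by positivity, le_max_right _ _, ?_⟩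
  intro s hs n hn hn1 hn2
  have hs16 : 16 ≤ s := le_trans (le_max_right _ _) hs
  obtain ⟨⟨e1, e2⟩, e3, e4⟩ := hS s (le_trans (le_max_left _ _) hs)
  have hs0 : 0 < s := by linarith
  have hn0 : (0 : ℝ) < n := by exact_mod_cast hn
  have hss : 256 ≤ s ^ 2 := by nlinarith
  have hq1 : 1 / s ^ 2 ≤ 1 / 2 := by
    apply one_div_le_one_div_of_le (by norm_num); linarith
  have hq0 : 0 < 1 / s ^ 2 := by positivity
  have hp0 : 0 < (1 / s ^ 2) ^ 2 := by positivity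
  have hp1 : (1 / s ^ 2) ^ 2 < 1 := by nlinarith
  obtain ⟨K0, l, Nw, hK, hm, hEE⟩ := EE_low hs16
  have main := perc_low (n := n) hp0 hp1 K0 l Nw ⌈s ^ 6⌉₊ hK hm _ (fun a ha => hEE n a ha)
  refine le_trans ?_ main
  obtain ⟨m, hmdef⟩ : ∃ m, m = ⌈s ^ 6⌉₊ := ⟨_, rfl⟩
  rw [← hmdef]
  have hs6 : 1 ≤ s ^ 6 := one_le_pow₀ (by linarith)
  have m1 : s ^ 6 ≤ m := by rw [hmdef]; exact Nat.le_ceil _
  have m2 : (m : ℝ) ≤ 2 * s ^ 6 := by
    have : (m : ℝ) < s ^ 6 + 1 := by rw [hmdef]; exact Nat.ceil_lt_add_one (by positivity)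
    linarith
  have hm0 : 0 < m := by
    have : (0 : ℝ) < m := by linarith
    exact_mod_cast this
  have hm0' : (0 : ℝ) < m := by exact_mod_cast hm0
  -- size of n
  have hnexp : (n : ℝ) = Real.exp (Real.log n) := (Real.exp_log hn0).symm
  have hlogn : Lam / 2 * s ^ 2 ≤ Real.log n := by
    have : cH / 6 * s ≤ Lam / 2 * s * s := mul_le_mul_of_nonneg_right e3 hs0.le
    nlinarith
  have hn4 : 4 * s ^ 6 ≤ n := by
    rw [hnexp]
    refine le_trans e2 (Real.exp_le_exp.2 (le_trans ?_ hlogn))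
    apply mul_le_mul_of_nonneg_left _ (by positivity)
    nlinarith
  have hdiv : (n : ℝ) / (4 * s ^ 6) ≤ ((n / m : ℕ) : ℝ) := by
    have h1 : n < m * (n / m + 1) := Nat.lt_mul_div_succ n hm0
    have h2 : (n : ℝ) < m * (((n / m : ℕ) : ℝ) + 1) := by exact_mod_cast h1
    have h3 : (n : ℝ) / (2 * s ^ 6) < ((n / m : ℕ) : ℝ) + 1 := by
      rw [div_lt_iff₀ (by positivity)]
      have h4 : (m : ℝ) * (((n / m : ℕ) : ℝ) + 1) ≤ 2 * s ^ 6 * (((n / m : ℕ) : ℝ) + 1) :=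
        mul_le_mul_of_nonneg_right m2 (by positivity)
      linarith
    have h5 : (n : ℝ) / (2 * s ^ 6) = 2 * ((n : ℝ) / (4 * s ^ 6)) := by field_simp; norm_num
    have h6 : 1 ≤ (n : ℝ) / (4 * s ^ 6) := by
      rw [le_div_iff₀ (by positivity)]
      linarith
    linarith
  -- first error term
  have T1 : Real.exp (-(((1 / s ^ 2) ^ 2) ^ 27 * Real.exp (-(3 * Lam * s ^ 2)) *
      Real.exp (cH * s) * ((n / m : ℕ) : ℝ) ^ 3)) ≤ 1 / 4 := by
    have h1 : 2 ≤ ((1 / s ^ 2) ^ 2) ^ 27 * Real.exp (-(3 * Lam * s ^ 2)) *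
      Real.exp (cH * s) * ((n / m : ℕ) : ℝ) ^ 3 := by
      have h2 : ((n : ℝ) / (4 * s ^ 6)) ^ 3 ≤ ((n / m : ℕ) : ℝ) ^ 3 :=
        pow_le_pow_left₀ (by positivity) hdiv 3
      have h3 : ((1 / s ^ 2) ^ 2) ^ 27 * Real.exp (-(3 * Lam * s ^ 2)) *
          Real.exp (cH * s) * ((n : ℝ) / (4 * s ^ 6)) ^ 3 ≤ ((1 / s ^ 2) ^ 2) ^ 27 *
          Real.exp (-(3 * Lam * s ^ 2)) * Real.exp (cH * s) * ((n / m : ℕ) : ℝ) ^ 3 :=
        mul_le_mul_of_nonneg_left h2 (by positivity)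
      refine le_trans ?_ h3
      have h4 : (n : ℝ) ^ 3 = Real.exp (3 * Real.log n) := by
        conv_lhs => rw [hnexp]
        rw [← Real.exp_nat_mul]
        push_cast
        rfl
      have h5 : ((1 / s ^ 2) ^ 2) ^ 27 * Real.exp (-(3 * Lam * s ^ 2)) *
          Real.exp (cH * s) * ((n : ℝ) / (4 * s ^ 6)) ^ 3 =
          (Real.exp (-(3 * Lam * s ^ 2)) * Real.exp (cH * s) * Real.exp (3 * Real.log n)) /
            (64 * s ^ 126) := by
        rw [← h4]
        field_simp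
        norm_num
      rw [h5, ← Real.exp_add, ← Real.exp_add, le_div_iff₀ (by positivity)]
      have h6 : Real.exp (cH / 2 * s) ≤
          Real.exp (-(3 * Lam * s ^ 2) + cH * s + 3 * Real.log n) := by
        apply Real.exp_le_exp.2
        linarith
      linarith
    have h2 : Real.exp (-(((1 / s ^ 2) ^ 2) ^ 27 * Real.exp (-(3 * Lam * s ^ 2)) *
        Real.exp (cH * s) * ((n / m : ℕ) : ℝ) ^ 3)) ≤ Real.exp (-2) :=
      Real.exp_le_exp.2 (by linarith)
    have h3 : Real.exp (-2) ≤ 1 / 4 := by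
      have h4 : (4 : ℝ) ≤ Real.exp 2 := by
        have h5 := Real.add_one_le_exp (1 : ℝ)
        have h6 : Real.exp 2 = Real.exp 1 * Real.exp 1 := by
          rw [← Real.exp_add]; norm_num
        rw [h6]
        nlinarith
      rw [Real.exp_neg, inv_le_comm₀ (Real.exp_pos _) (by norm_num)]
      norm_num
      exact h4
    exact h2.trans h3
  -- second error term
  have T2 : 3 * (n : ℝ) ^ 3 * Real.exp (-((1 / s ^ 2) ^ 2 * ((m - 1 : ℕ) : ℝ) ^ 2)) ≤ 1 / 4 := by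
    have h1 : s ^ 6 / 2 ≤ ((m - 1 : ℕ) : ℝ) := by
      rw [Nat.cast_sub (by omega)]
      push_cast
      have h0 : s ^ 1 ≤ s ^ 6 := pow_le_pow_right₀ (by linarith) (by norm_num)
      rw [pow_one] at h0
      linarith
    have h2 : s ^ 8 / 4 ≤ (1 / s ^ 2) ^ 2 * ((m - 1 : ℕ) : ℝ) ^ 2 := by
      have h3 : (s ^ 6 / 2) ^ 2 ≤ ((m - 1 : ℕ) : ℝ) ^ 2 := pow_le_pow_left₀ (by positivity) h1 2
      have h4 : (1 / s ^ 2) ^ 2 * (s ^ 6 / 2) ^ 2 ≤ (1 / s ^ 2) ^ 2 * ((m - 1 : ℕ) : ℝ) ^ 2 :=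
        mul_le_mul_of_nonneg_left h3 hp0.le
      have h5 : (1 / s ^ 2) ^ 2 * (s ^ 6 / 2) ^ 2 = s ^ 8 / 4 := by field_simp; norm_num
      linarith
    have h3 : (n : ℝ) ^ 3 ≤ Real.exp (6 * Lam * s ^ 2) := by
      have h4 : (n : ℝ) ^ 3 = Real.exp (3 * Real.log n) := by
        conv_lhs => rw [hnexp]
        rw [← Real.exp_nat_mul]
        push_cast
        rfl
      rw [h4]
      apply Real.exp_le_exp.2
      linarith
    have h4 : 3 * (n : ℝ) ^ 3 * Real.exp (-((1 / s ^ 2) ^ 2 * ((m - 1 : ℕ) : ℝ) ^ 2)) ≤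
        3 * Real.exp (6 * Lam * s ^ 2) * Real.exp (-(s ^ 8 / 4)) := by
      apply mul_le_mul
      · linarith
      · exact Real.exp_le_exp.2 (by linarith)
      · exact Real.exp_nonneg _
      · positivity
    refine le_trans h4 ?_
    rw [mul_assoc, ← Real.exp_add]
    have h5 : 6 * Lam * s ^ 2 + -(s ^ 8 / 4) ≤ -4 := by
      have h6 : s ^ 8 = s ^ 2 * s ^ 6 := by ring
      have h7 : s ≤ s ^ 6 := by
        calc s = s ^ 1 := (pow_one s).symm
          _ ≤ s ^ 6 := pow_le_pow_right₀ (by linarith) (by norm_num)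
      have h8 : 24 * Lam + 16 ≤ s ^ 6 := e4.trans h7
      have h9 : s ^ 2 * (24 * Lam + 16) ≤ s ^ 2 * s ^ 6 := mul_le_mul_of_nonneg_left h8 (by positivity)
      rw [h6]
      nlinarith
    have h6 : Real.exp (6 * Lam * s ^ 2 + -(s ^ 8 / 4)) ≤ Real.exp (-4) := Real.exp_le_exp.2 h5
    have h7 : Real.exp (-4) ≤ 1 / 12 := by
      have h8 : (16 : ℝ) ≤ Real.exp 4 := by
        have h9 := Real.add_one_le_exp (1 : ℝ)
        have h10 : Real.exp 4 = Real.exp 1 ^ 4 := by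
          rw [← Real.exp_nat_mul]; norm_num
        rw [h10]
        have h11 : (1 + 1 : ℝ) ^ 4 ≤ Real.exp 1 ^ 4 := pow_le_pow_left₀ (by norm_num) h9 4
        have h12 : (1 + 1 : ℝ) ^ 4 = 16 := by norm_num
        linarith
      rw [Real.exp_neg, inv_le_comm₀ (Real.exp_pos _) (by norm_num)]
      norm_num
      linarith
    linarith
  linarith

end Pool.Agent.V5helper97.BootB
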