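import Mathlib
import Pool.Agent.V5helper97.BootPr
import Pool.Agent.Helper384.BzJ3

/-!
Monotonicity of the percolation probability and the bridge to the set form of percolation.
-/

set_option autoImplicit false
set_option maxHeartbeats 1000000
set_option linter.unusedVariables false

namespace Pool.Agent.V5helper97.BootMono

open Finset Classical Pool.Agent.Helper384.Bz Pool.Agent.V5helper97.BootPr

section gen

variable {α : Type} [Fintype α] [DecidableEq α]

theorem q_subset {p : ℝ} (h0 : 0 ≤ p) (h1 : p ≤ 1) (Λ : Finset α) {A B : Set (Finset α)}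
    (hAB : A ⊆ B) : q p Λ A ≤ q p Λ B := by
  unfold q
  apply Finset.sum_le_sum
  intro S _
  have hw := wt_nonneg h0 h1 Λ S
  by_cases hA : S ∈ A
  · rw [if_pos hA, if_pos (hAB hA)]
  · rw [if_neg hA]
    split_ifs
    · exact hw
    · exact le_rfl

theorem q_mono {p p' : ℝ} (h0 : 0 ≤ p) (hpp : p ≤ p') (h1 : p' ≤ 1) (Λ : Finset α) :
    ∀ A : Set (Finset α), Up A → q p Λ A ≤ q p' Λ A := by
  induction Λ using Finset.induction_on with
  | empty =>
    intro A _
    apply le_of_eq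
    unfold q wt
    simp
  | insert e Λ he ih =>
    intro A hA
    rw [q_insert p he, q_insert p' he]
    have e1 := ih A hA
    have e2 := ih (addE e A) (Up.addE hA e)
    have e3 := q_subset (h0.trans hpp) h1 Λ (sub_addE hA e)
    have e4 : (1 - p) * q p Λ A ≤ (1 - p) * q p' Λ A := mul_le_mul_of_nonneg_left e1 (by linarith)
    have e5 : p * q p Λ (addE e A) ≤ p * q p' Λ (addE e A) := mul_le_mul_of_nonneg_left e2 h0
    have e6 : 0 ≤ (p' - p) * (q p' Λ (addE e A) - q p' Λ A) :=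
      mul_nonneg (by linarith) (by linarith)
    nlinarith

theorem Pr_pmono {p p' : ℝ} (h0 : 0 ≤ p) (hpp : p ≤ p') (h1 : p' ≤ 1) {E : Finset α → Prop}
    (hE : Inc E) : Pr p E ≤ Pr p' E := by
  rw [← q_univ, ← q_univ]
  exact q_mono h0 hpp h1 univ _ hE

end gen

theorem perc_inc (n : ℕ) : Inc (fun A : Finset (V n 3) => Percolates 2 A) := by
  intro A B hAB hA
  obtain ⟨S, hBS, hScl, hSt⟩ := cl_exists B
  intro v
  apply hSt
  obtain ⟨t, ht⟩ := hA v
  exact iter_subset A S (hAB.trans hBS) hScl t ht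

theorem percProb_mono {n : ℕ} {p p' : ℝ} (h0 : 0 ≤ p) (hpp : p ≤ p') (h1 : p' ≤ 1) :
    percProb n 3 2 p ≤ percProb n 3 2 p' := by
  have e : ∀ x : ℝ, percProb n 3 2 x = Pr x (fun A : Finset (V n 3) => Percolates 2 A) := by
    intro x
    unfold percProb
    exact (Pr_eq x _).symm
  rw [e, e]
  exact Pr_pmono h0 hpp h1 (perc_inc n)

theorem adj_iff {n : ℕ} (v u : V n 3) :
    (∑ i : Fin 3, Int.natAbs (((u i : ℕ) : ℤ) - ((v i : ℕ) : ℤ))) = 1 ↔ Adj v u := by
  rw [Fin.sum_univ_three]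
  constructor
  · intro h
    have h3 : (((u 0 : ℕ) : ℤ) - ((v 0 : ℕ) : ℤ)).natAbs = 1 ∨
        (((u 1 : ℕ) : ℤ) - ((v 1 : ℕ) : ℤ)).natAbs = 1 ∨
        (((u 2 : ℕ) : ℤ) - ((v 2 : ℕ) : ℤ)).natAbs = 1 := by omega
    rcases h3 with h3 | h3 | h3
    · refine ⟨0, ?_, by omega⟩
      intro j hj
      fin_cases j
      · exact absurd rfl hj
      · apply Fin.ext; show (v 1 : ℕ) = (u 1 : ℕ); omega
      · apply Fin.ext; show (v 2 : ℕ) = (u 2 : ℕ); omega
    · refine ⟨1, ?_, by omega⟩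
      intro j hj
      fin_cases j
      · apply Fin.ext; show (v 0 : ℕ) = (u 0 : ℕ); omega
      · exact absurd rfl hj
      · apply Fin.ext; show (v 2 : ℕ) = (u 2 : ℕ); omega
    · refine ⟨2, ?_, by omega⟩
      intro j hj
      fin_cases j
      · apply Fin.ext; show (v 0 : ℕ) = (u 0 : ℕ); omega
      · apply Fin.ext; show (v 1 : ℕ) = (u 1 : ℕ); omega
      · exact absurd rfl hj
  · rintro ⟨i, h1, h2⟩
    fin_cases i
    · have a1 := h1 1 (by decide)
      have a2 := h1 2 (by decide)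
      rw [a1, a2]
      simp only [sub_self, Int.natAbs_zero, add_zero]
      have h2' : (v 0 : ℕ) + 1 = (u 0 : ℕ) ∨ (u 0 : ℕ) + 1 = (v 0 : ℕ) := h2
      omega
    · have a1 := h1 0 (by decide)
      have a2 := h1 2 (by decide)
      rw [a1, a2]
      simp only [sub_self, Int.natAbs_zero, add_zero, zero_add]
      have h2' : (v 1 : ℕ) + 1 = (u 1 : ℕ) ∨ (u 1 : ℕ) + 1 = (v 1 : ℕ) := h2
      omega
    · have a1 := h1 0 (by decide)
      have a2 := h1 1 (by decide)
      rw [a1, a2]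
      simp only [sub_self, Int.natAbs_zero, add_zero, zero_add]
      have h2' : (v 2 : ℕ) + 1 = (u 2 : ℕ) ∨ (u 2 : ℕ) + 1 = (v 2 : ℕ) := h2
      omega

theorem ncard_eq {n : ℕ} (S : Finset (V n 3)) (v : V n 3) :
    Set.ncard {u : V n 3 | u ∈ (S : Set (V n 3)) ∧
      (∑ i : Fin 3, Int.natAbs (((u i : ℕ) : ℤ) - ((v i : ℕ) : ℤ))) = 1} =
      (S.filter (fun u => Adj v u)).card := by
  rw [← Set.ncard_coe_finset]
  congr 1
  ext u
  simp only [Set.mem_setOf_eq, mem_coe, mem_filter, adj_iff]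

theorem bridge {n : ℕ} (A : Finset (V n 3)) :
    (∀ S : Set (V n 3), (↑A : Set (V n 3)) ⊆ S →
      (∀ v : V n 3, 2 ≤ Set.ncard {u : V n 3 | u ∈ S ∧
        (∑ i : Fin 3, Int.natAbs (((u i : ℕ) : ℤ) - ((v i : ℕ) : ℤ))) = 1} → v ∈ S) →
      S = Set.univ) ↔ Percolates 2 A := by
  constructor
  · intro H
    obtain ⟨S, hAS, hScl, hSt⟩ := cl_exists A
    have h := H (S : Set (V n 3)) (by exact_mod_cast hAS) (by
      intro v hv
      rw [ncard_eq] at hv
      exact hScl v hv)
    intro v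
    apply hSt
    have : v ∈ (S : Set (V n 3)) := by rw [h]; exact Set.mem_univ v
    exact_mod_cast this
  · intro hP S hAS hS
    obtain ⟨T, hT⟩ : ∃ T : Finset (V n 3), (T : Set (V n 3)) = S :=
      ⟨univ.filter (fun v => v ∈ S), by ext v; simp⟩
    rw [← hT] at hAS hS ⊢
    have hAT : A ⊆ T := by exact_mod_cast hAS
    have hTc : Closed T := by
      intro v hv
      have := hS v (by rw [ncard_eq]; exact hv)
      exact_mod_cast this
    ext v
    simp only [mem_coe, Set.mem_univ, iff_true]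
    obtain ⟨t, ht⟩ := hP v
    exact iter_subset A T hAT hTc t ht

end Pool.Agent.V5helper97.BootMono
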