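import Mathlib
import Pool.Agent.V5helper97.BootA
import Pool.Agent.V5helper97.BootB
import Pool.Agent.V5helper97.BootMono

/-!
Two sided bounds for the critical probability of the 2-neighbour process on `[n]^3`.
-/

set_option autoImplicit false
set_option maxHeartbeats 1000000
set_option linter.unusedVariables false

namespace Pool.Agent.V5helper97.BootFin

open Finset Classical Filter Pool.Agent.Helper384.Bz Pool.Agent.V5helper97.BootPr
  Pool.Agent.V5helper97.BootInt Pool.Agent.V5helper97.BootMono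

theorem perc_one (n : ℕ) : 1 / 2 ≤ percProb n 3 2 1 := by
  have h1 : (1 : ℝ) ≤ percProb n 3 2 1 := by
    unfold percProb
    have h2 := Finset.single_le_sum (f := fun A : Finset (V n 3) =>
      if Percolates 2 A then w (1 : ℝ) A else 0) (s := univ) (by
        intro A _
        split_ifs
        · exact w_nonneg 1 zero_le_one le_rfl A
        · exact le_rfl) (mem_univ (univ : Finset (V n 3)))
    have h3 : Percolates 2 (univ : Finset (V n 3)) := fun v => ⟨0, mem_univ v⟩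
    rw [if_pos h3] at h2
    have h4 : w (1 : ℝ) (univ : Finset (V n 3)) = 1 := by
      unfold w
      rw [card_univ]
      simp
    rw [h4] at h2
    exact h2
  linarith

theorem nonempty_set (n : ℕ) : {p : ℝ | 0 ≤ p ∧ p ≤ 1 ∧ 1 / 2 ≤ percProb n 3 2 p}.Nonempty :=
  ⟨1, zero_le_one, le_rfl, perc_one n⟩

theorem log_atTop : Tendsto (fun n : ℕ => Real.log (n : ℝ)) atTop atTop :=
  Real.tendsto_log_atTop.comp tendsto_natCast_atTop_atTop

theorem lower (ε : ℝ) (hε : 0 < ε) (hε1 : ε < Lam) :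
    ∀ᶠ n : ℕ in atTop, ((Lam - ε) / Real.log n) ^ 2 ≤ pc n 3 2 := by
  obtain ⟨q0, C, hq0, hC, H⟩ := BootA.partA (3 * ε) (by positivity)
  have hL : 0 < Lam - ε := by linarith
  have E1 : ∀ᶠ n : ℕ in atTop, (Lam - ε) / q0 ≤ Real.log n := log_atTop.eventually_ge_atTop _
  have E2 : ∀ᶠ n : ℕ in atTop, Lam - ε ≤ Real.log n := log_atTop.eventually_ge_atTop _
  have E3 : ∀ᶠ n : ℕ in atTop, C / (Lam - ε) * Real.log n ≤ n := by
    have h1 := Real.isLittleO_log_id_atTop.comp_tendsto tendsto_natCast_atTop_atTop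
    have h2 := h1.bound (c := (Lam - ε) / C) (by positivity)
    filter_upwards [h2, eventually_ge_atTop 1] with n hn hn1
    have hn0 : (0 : ℝ) < n := by exact_mod_cast hn1
    have hlog : 0 ≤ Real.log n := Real.log_nonneg (by exact_mod_cast hn1)
    simp only [Function.comp_apply, id_eq, Real.norm_eq_abs, abs_of_nonneg hlog,
      abs_of_pos hn0] at hn
    have h3 : C / (Lam - ε) * Real.log n ≤ C / (Lam - ε) * ((Lam - ε) / C * n) :=
      mul_le_mul_of_nonneg_left hn (by positivity)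
    have h4 : C / (Lam - ε) * ((Lam - ε) / C * n) = n := by field_simp
    linarith
  filter_upwards [E1, E2, E3, eventually_ge_atTop 2] with n e1 e2 e3 hn2
  have hlog : 0 < Real.log n := by linarith
  set q1 := (Lam - ε) / Real.log n with hq1
  have hq1pos : 0 < q1 := by positivity
  have hq1le : q1 ≤ q0 := by
    rw [hq1, div_le_iff₀ hlog]
    rw [div_le_iff₀ hq0] at e1
    linarith
  have hq11 : q1 ≤ 1 := by
    rw [hq1, div_le_one hlog]; exact e2
  have hmain := H q1 hq1pos hq1le n (by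
    rw [hq1]
    have : C / ((Lam - ε) / Real.log n) = C / (Lam - ε) * Real.log n := by field_simp
    rw [this]; exact e3) (by
    rw [hq1]
    have : (3 * Lam - 3 * ε) / ((Lam - ε) / Real.log n) = 3 * Real.log n := by field_simp
    rw [this])
  unfold pc
  apply le_csInf (nonempty_set n)
  rintro p ⟨hp0, hp1, hp2⟩
  by_contra hcon
  push Not at hcon
  have := percProb_mono (n := n) hp0 hcon.le (by nlinarith)
  linarith

theorem upper : ∃ c : ℝ, 0 < c ∧ ∀ᶠ n : ℕ in atTop,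
    pc n 3 2 ≤ (Lam / (Real.log n + c * √(Real.log n))) ^ 2 := by
  obtain ⟨c5, S1, hc5, hS1, H⟩ := BootB.partB
  have hL := Lam_pos
  have hsL : 0 < √Lam := Real.sqrt_pos.2 hL
  refine ⟨c5 / √Lam, by positivity, ?_⟩
  have hx : Tendsto (fun n : ℕ => √(Real.log (n : ℝ))) atTop atTop :=
    Real.tendsto_sqrt_atTop.comp log_atTop
  have E1 : ∀ᶠ n : ℕ in atTop, S1 * √Lam ≤ √(Real.log n) := hx.eventually_ge_atTop _
  filter_upwards [E1, eventually_ge_atTop 2] with n e1 hn2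
  have hlog : 0 < Real.log n := Real.log_pos (by exact_mod_cast hn2)
  obtain ⟨x, hxe⟩ : ∃ x, x = √(Real.log n) := ⟨_, rfl⟩
  rw [← hxe] at e1 ⊢
  have hx0 : 0 < x := by rw [hxe]; exact Real.sqrt_pos.2 hlog
  have hxx : x ^ 2 = Real.log n := by rw [hxe]; exact Real.sq_sqrt hlog.le
  obtain ⟨c, hc⟩ : ∃ c, c = c5 / √Lam := ⟨_, rfl⟩
  have hc0 : 0 < c := by rw [hc]; positivity
  rw [← hc]
  have hcs : c * √Lam = c5 := by rw [hc]; field_simp
  obtain ⟨s, hs⟩ : ∃ s, s = √((x ^ 2 + c * x) / Lam) := ⟨_, rfl⟩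
  have hss : s ^ 2 = (x ^ 2 + c * x) / Lam := by rw [hs]; exact Real.sq_sqrt (by positivity)
  have hs1 : x / √Lam ≤ s := by
    rw [hs]
    apply Real.le_sqrt_of_sq_le
    rw [div_pow, Real.sq_sqrt hL.le]
    gcongr
    have : 0 ≤ c * x := by positivity
    linarith
  have hs2 : S1 ≤ s := by
    refine le_trans ?_ hs1
    rw [le_div_iff₀ hsL]; exact e1
  have hLs : Lam * s ^ 2 = x ^ 2 + c * x := by rw [hss]; field_simp
  have hmain := H s hs2 n (by omega) (by
    rw [hLs, ← hxx]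
    have h1 : c5 * (x / √Lam) ≤ c5 * s := mul_le_mul_of_nonneg_left hs1 hc5.le
    have h2 : c5 * (x / √Lam) = c * x := by rw [← hcs]; field_simp
    linarith) (by
    have : 2 * Lam * s ^ 2 = 2 * (Lam * s ^ 2) := by ring
    rw [this, hLs, ← hxx]
    have : 0 ≤ c * x := by positivity
    nlinarith)
  have he : Lam / (Real.log n + c * x) = 1 / s ^ 2 := by
    rw [hss, ← hxx]; field_simp
  rw [he]
  unfold pc
  have hs0 : 1 ≤ s := by linarith
  have hs3 : 1 ≤ s ^ 2 := by nlinarith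
  have hb : 1 / s ^ 2 ≤ 1 := by rw [div_le_one (by positivity)]; exact hs3
  have hb0 : 0 ≤ 1 / s ^ 2 := by positivity
  apply csInf_le
  · exact ⟨0, fun p hp => hp.1⟩
  · refine ⟨by positivity, by nlinarith, hmain⟩

/-- the logical end of the argument -/
theorem contra (lam c C : ℝ) (hlam : 0 < lam) (hc : 0 < c) (hC : 0 < C)
    (H : ∀ᶠ n : ℕ in atTop, (lam / Real.log n - C / (Real.log n) ^ ((7 : ℝ) / 4)) ^ 2 ≤ pc n 3 2 ∧
      pc n 3 2 ≤ (lam / Real.log n - c / (Real.log n) ^ ((7 : ℝ) / 4)) ^ 2) : False := by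
  have hL := Lam_pos
  -- fourth roots
  have hy : Tendsto (fun n : ℕ => (Real.log (n : ℝ)) ^ ((1 : ℝ) / 4)) atTop atTop :=
    (tendsto_rpow_atTop (by norm_num)).comp log_atTop
  have key : ∀ n : ℕ, 0 < Real.log (n : ℝ) → ∃ y : ℝ, 0 < y ∧
      y = (Real.log (n : ℝ)) ^ ((1 : ℝ) / 4) ∧ Real.log n = y ^ 4 ∧
      (Real.log n) ^ ((7 : ℝ) / 4) = y ^ 7 ∧ √(Real.log n) = y ^ 2 := by
    intro n hn
    refine ⟨_, Real.rpow_pos_of_pos hn _, rfl, ?_, ?_, ?_⟩
    · rw [← Real.rpow_natCast, ← Real.rpow_mul hn.le]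
      norm_num
    · rw [← Real.rpow_natCast, ← Real.rpow_mul hn.le]
      norm_num
    · rw [← Real.rpow_natCast, ← Real.rpow_mul hn.le, Real.sqrt_eq_rpow]
      norm_num
  have hpos : ∀ᶠ n : ℕ in atTop, 0 < Real.log (n : ℝ) := log_atTop.eventually_gt_atTop 0
  -- first step
  have S1 : ∀ ε : ℝ, 0 < ε → ε < Lam → Lam - ε ≤ lam := by
    intro ε hε hε1
    have E1 : ∀ᶠ n : ℕ in atTop, (c / lam + 1) ≤ (Real.log (n : ℝ)) ^ ((1 : ℝ) / 4) :=
      hy.eventually_ge_atTop _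
    obtain ⟨n, ⟨h1, h2⟩, h3, h4, h5⟩ := ((H.and (lower ε hε hε1)).and (hpos.and
      (E1.and (hy.eventually_ge_atTop 1)))).exists
    obtain ⟨y, hy0, hye, hy4, hy7, hy2⟩ := key n h3
    rw [← hye] at h4 h5
    rw [hy7, hy4] at h1
    rw [hy4] at h2
    have g1 : c / y ^ 7 ≤ lam / y ^ 4 := by
      rw [div_le_div_iff₀ (by positivity) (by positivity)]
      have g2 : c ≤ lam * y := by
        have : c / lam ≤ y := by linarith
        rw [div_le_iff₀ hlam] at this
        linarith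
      have g3 : y ≤ y ^ 3 := by
        calc y = y ^ 1 := (pow_one y).symm
          _ ≤ y ^ 3 := pow_le_pow_right₀ h5 (by norm_num)
      have g4 : c ≤ lam * y ^ 3 := g2.trans (mul_le_mul_of_nonneg_left g3 hlam.le)
      calc c * y ^ 4 ≤ (lam * y ^ 3) * y ^ 4 := mul_le_mul_of_nonneg_right g4 (by positivity)
        _ = lam * y ^ 7 := by ring
    have g5 : ((Lam - ε) / y ^ 4) ^ 2 ≤ (lam / y ^ 4 - c / y ^ 7) ^ 2 := h2.trans h1.2
    have g6 : (Lam - ε) / y ^ 4 ≤ lam / y ^ 4 - c / y ^ 7 :=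
      (abs_le_of_sq_le_sq' g5 (by linarith)).2
    have g7 : 0 ≤ c / y ^ 7 := by positivity
    have g8 : (Lam - ε) / y ^ 4 ≤ lam / y ^ 4 := by linarith
    rw [div_le_div_iff_of_pos_right (by positivity)] at g8
    exact g8
  have S2 : Lam ≤ lam := by
    by_contra hcon
    push Not at hcon
    have := S1 ((Lam - lam) / 2) (by linarith) (by linarith)
    linarith
  -- second step
  obtain ⟨c', hc', hU⟩ := upper
  have E1 : ∀ᶠ n : ℕ in atTop, (C / lam + 1) ≤ (Real.log (n : ℝ)) ^ ((1 : ℝ) / 4) :=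
    hy.eventually_ge_atTop _
  have E2 : ∀ᶠ n : ℕ in atTop, (C * (1 + c') / (lam * c') + 1) ≤
      (Real.log (n : ℝ)) ^ ((1 : ℝ) / 4) := hy.eventually_ge_atTop _
  obtain ⟨n, ⟨h1, h2⟩, h3, h4, h5, h6⟩ := ((H.and hU).and (hpos.and
    (E1.and (E2.and (hy.eventually_ge_atTop 1))))).exists
  obtain ⟨y, hy0, hye, hy4, hy7, hy2⟩ := key n h3
  rw [← hye] at h4 h5 h6
  rw [hy7, hy4] at h1
  rw [hy2, hy4] at h2
  have hD : 0 < y ^ 4 + c' * y ^ 2 := by positivity
  have g5 : (lam / y ^ 4 - C / y ^ 7) ^ 2 ≤ (Lam / (y ^ 4 + c' * y ^ 2)) ^ 2 := h1.1.trans h2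
  have g6 : lam / y ^ 4 - C / y ^ 7 ≤ Lam / (y ^ 4 + c' * y ^ 2) :=
    (abs_le_of_sq_le_sq' g5 (by positivity)).2
  have g7 : Lam / (y ^ 4 + c' * y ^ 2) ≤ lam / (y ^ 4 + c' * y ^ 2) := by gcongr
  have g8 : lam / y ^ 4 - lam / (y ^ 4 + c' * y ^ 2) ≤ C / y ^ 7 := by linarith
  have g9 : lam / y ^ 4 - lam / (y ^ 4 + c' * y ^ 2) = lam * c' / (y ^ 4 * (y ^ 2 + c')) := by
    field_simp
    ring
  rw [g9, div_le_div_iff₀ (by positivity) (by positivity)] at g8
  have g10 : lam * c' * y ^ 3 ≤ C * (y ^ 2 + c') := by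
    have e1 : y ^ 4 * (lam * c' * y ^ 3) ≤ y ^ 4 * (C * (y ^ 2 + c')) := by
      calc y ^ 4 * (lam * c' * y ^ 3) = lam * c' * y ^ 7 := by ring
        _ ≤ C * (y ^ 4 * (y ^ 2 + c')) := g8
        _ = _ := by ring
    exact le_of_mul_le_mul_left e1 (by positivity)
  have g11 : C * (y ^ 2 + c') ≤ C * (1 + c') * y ^ 2 := by
    have e1 : 1 ≤ y ^ 2 := one_le_pow₀ h6
    have e2 : y ^ 2 + c' ≤ (1 + c') * y ^ 2 := by nlinarith
    calc C * (y ^ 2 + c') ≤ C * ((1 + c') * y ^ 2) := mul_le_mul_of_nonneg_left e2 hC.le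
      _ = _ := by ring
  have g12 : lam * c' * y ≤ C * (1 + c') := by
    have e1 : y ^ 2 * (lam * c' * y) ≤ y ^ 2 * (C * (1 + c')) := by
      calc y ^ 2 * (lam * c' * y) = lam * c' * y ^ 3 := by ring
        _ ≤ C * (1 + c') * y ^ 2 := g10.trans g11
        _ = _ := by ring
    exact le_of_mul_le_mul_left e1 (by positivity)
  have g13 : y ≤ C * (1 + c') / (lam * c') := by
    rw [le_div_iff₀ (by positivity)]
    linarith
  linarith

end Pool.Agent.V5helper97.BootFin
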