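import Mathlib

/-!
# Matrix preliminaries for the multivariate trace inequality
-/

open Matrix Finset MeasureTheory Set
open scoped MatrixOrder ComplexOrder

namespace Pool.Agent.V5helper97.TraceIneqA

variable {d : ℕ}

/-- unitary diagonalisation with real eigenvalues -/
structure Diag (A : Matrix (Fin d) (Fin d) ℂ) where
  U : Matrix (Fin d) (Fin d) ℂ
  a : Fin d → ℝ
  hU : star U * U = 1
  hU' : U * star U = 1
  hA : A = U * diagonal (fun x => (a x : ℂ)) * star U

theorem exists_diag (A : Matrix (Fin d) (Fin d) ℂ) (hA : A.IsHermitian) :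
    ∃ D : Diag A, D.a = hA.eigenvalues := by
  refine ⟨⟨(hA.eigenvectorUnitary : Matrix (Fin d) (Fin d) ℂ), hA.eigenvalues, ?_, ?_, ?_⟩, rfl⟩
  · exact Unitary.coe_star_mul_self _
  · exact Unitary.coe_mul_star_self _
  · have h := hA.spectral_theorem
    rw [Unitary.conjStarAlgAut_apply] at h
    exact h

theorem exists_diag_psd (A : Matrix (Fin d) (Fin d) ℂ) (hA : A.PosSemidef) :
    ∃ D : Diag A, ∀ x, 0 ≤ D.a x := by
  obtain ⟨D, hD⟩ := exists_diag A hA.1
  exact ⟨D, fun x => by rw [hD]; exact hA.eigenvalues_nonneg x⟩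

/-- functions of a diagonalised matrix -/
noncomputable def fn {A : Matrix (Fin d) (Fin d) ℂ} (D : Diag A) (f : ℝ → ℝ) :
    Matrix (Fin d) (Fin d) ℂ :=
  D.U * diagonal (fun x => (f (D.a x) : ℂ)) * star D.U

theorem fn_id {A : Matrix (Fin d) (Fin d) ℂ} (D : Diag A) : fn D (fun x => x) = A := D.hA.symm

theorem fn_mul {A : Matrix (Fin d) (Fin d) ℂ} (D : Diag A) (f g : ℝ → ℝ) :
    fn D f * fn D g = fn D (fun x => f x * g x) := by
  unfold fn
  calc D.U * diagonal (fun x => (f (D.a x) : ℂ)) * star D.U *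
      (D.U * diagonal (fun x => (g (D.a x) : ℂ)) * star D.U)
      = D.U * diagonal (fun x => (f (D.a x) : ℂ)) * (star D.U * D.U) *
        diagonal (fun x => (g (D.a x) : ℂ)) * star D.U := by simp only [Matrix.mul_assoc]
    _ = D.U * (diagonal (fun x => (f (D.a x) : ℂ)) *
        diagonal (fun x => (g (D.a x) : ℂ))) * star D.U := by
        rw [D.hU, Matrix.mul_one]; simp only [Matrix.mul_assoc]
    _ = _ := by
        rw [diagonal_mul_diagonal]
        simp only [Complex.ofReal_mul]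

theorem fn_congr {A : Matrix (Fin d) (Fin d) ℂ} (D : Diag A) {f g : ℝ → ℝ}
    (h : ∀ x, f (D.a x) = g (D.a x)) : fn D f = fn D g := by
  unfold fn
  congr 2
  ext i j
  simp [diagonal_apply, h]

theorem fn_one {A : Matrix (Fin d) (Fin d) ℂ} (D : Diag A) : fn D (fun _ => 1) = 1 := by
  unfold fn
  have : diagonal (fun _ : Fin d => ((1 : ℝ) : ℂ)) = 1 := by simp
  rw [this, Matrix.mul_one, D.hU']

theorem fn_add {A : Matrix (Fin d) (Fin d) ℂ} (D : Diag A) (f g : ℝ → ℝ) :
    fn D f + fn D g = fn D (fun x => f x + g x) := by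
  unfold fn
  rw [← Matrix.add_mul, ← Matrix.mul_add, diagonal_add]
  simp only [Complex.ofReal_add]

theorem fn_sub {A : Matrix (Fin d) (Fin d) ℂ} (D : Diag A) (f g : ℝ → ℝ) :
    fn D f - fn D g = fn D (fun x => f x - g x) := by
  unfold fn
  rw [← Matrix.sub_mul, ← Matrix.mul_sub, diagonal_sub]
  simp only [Complex.ofReal_sub]

theorem fn_smul {A : Matrix (Fin d) (Fin d) ℂ} (D : Diag A) (c : ℝ) (f : ℝ → ℝ) :
    (c : ℂ) • fn D f = fn D (fun x => c * f x) := by
  unfold fn
  rw [← Matrix.smul_mul, ← Matrix.mul_smul]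
  congr 2
  ext i j
  by_cases h : i = j
  · subst h; simp
  · simp [diagonal_apply, h]

theorem fn_herm {A : Matrix (Fin d) (Fin d) ℂ} (D : Diag A) (f : ℝ → ℝ) :
    star (fn D f) = fn D f := by
  unfold fn
  rw [star_mul, star_mul, star_star, star_eq_conjTranspose, star_eq_conjTranspose,
    diagonal_conjTranspose, ← Matrix.mul_assoc]
  congr 2
  ext i j
  simp [diagonal_apply]

theorem trace_fn {A : Matrix (Fin d) (Fin d) ℂ} (D : Diag A) (f : ℝ → ℝ) :
    (fn D f).trace = ((∑ x, f (D.a x) : ℝ) : ℂ) := by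
  unfold fn
  rw [trace_mul_comm, ← Matrix.mul_assoc, D.hU, Matrix.one_mul, trace_diagonal]
  simp

theorem fn_psd {A : Matrix (Fin d) (Fin d) ℂ} (D : Diag A) (f : ℝ → ℝ)
    (hf : ∀ x, 0 ≤ f (D.a x)) : (fn D f).PosSemidef := by
  have h : fn D f = star (fn D (fun x => Real.sqrt (f x))) * fn D (fun x => Real.sqrt (f x)) := by
    rw [fn_herm, fn_mul]
    exact fn_congr D (fun x => (Real.mul_self_sqrt (hf x)).symm)
  rw [h]
  exact posSemidef_conjTranspose_mul_self _

/-- the trace of a product of functions of two matrices -/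
theorem trace_fn_mul {A B : Matrix (Fin d) (Fin d) ℂ} (D : Diag A) (E : Diag B) (f g : ℝ → ℝ) :
    (fn D f * fn E g).trace =
      ((∑ x, ∑ y, f (D.a x) * g (E.a y) * ‖(star D.U * E.U) x y‖ ^ 2 : ℝ) : ℂ) := by
  set V := star D.U * E.U with hV
  have h1 : (fn D f * fn E g).trace =
      (diagonal (fun x => (f (D.a x) : ℂ)) * V * diagonal (fun x => (g (E.a x) : ℂ)) *
        star V).trace := by
    unfold fn
    rw [hV, star_mul, star_star]
    rw [Matrix.mul_assoc D.U, Matrix.mul_assoc D.U, trace_mul_comm D.U]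
    simp only [Matrix.mul_assoc]
  rw [h1]
  simp only [Matrix.trace, Matrix.diag_apply, Matrix.mul_apply, diagonal_apply]
  push_cast
  refine Finset.sum_congr rfl fun x _ => ?_
  refine Finset.sum_congr rfl fun y _ => ?_
  simp only [mul_ite, mul_zero, ite_mul, zero_mul, Finset.sum_ite_eq', Finset.sum_ite_eq,
    Finset.mem_univ, if_true, star_apply]
  have : V x y * star (V x y) = ((‖V x y‖ ^ 2 : ℝ) : ℂ) := by
    rw [RCLike.star_def, Complex.mul_conj, Complex.normSq_eq_norm_sq]
  push_cast at this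
  rw [← this]
  ring

end Pool.Agent.V5helper97.TraceIneqA
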