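import Mathlib

/-!
# Scalar integrals for the multivariate trace inequality
-/

open MeasureTheory Set Filter Topology

namespace Pool.Agent.V5helper97.TraceIneqB

/-- the kernel `a² / (a² + t²)` -/
noncomputable def ker (a t : ℝ) : ℝ := a ^ 2 / (a ^ 2 + t ^ 2)

theorem ker_nonneg (a t : ℝ) : 0 ≤ ker a t := by
  unfold ker; positivity

theorem ker_zero (t : ℝ) : ker 0 t = 0 := by simp [ker]

theorem ker_le_one (a t : ℝ) : ker a t ≤ 1 := by
  unfold ker
  apply div_le_one_of_le₀
  · nlinarith [sq_nonneg t]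
  · positivity

theorem hasDerivAt_arctan_div {a : ℝ} (ha : 0 < a) (t : ℝ) :
    HasDerivAt (fun t => a * Real.arctan (t / a)) (ker a t) t := by
  have h1 : HasDerivAt (fun t : ℝ => t / a) (1 / a) t := (hasDerivAt_id t).div_const a
  have h2 := (h1.arctan).const_mul a
  refine h2.congr_deriv ?_
  unfold ker
  have : a ^ 2 + t ^ 2 ≠ 0 := by positivity
  have h3 : 1 + (t / a) ^ 2 ≠ 0 := by positivity
  field_simp

theorem tendsto_arctan_div {a : ℝ} (ha : 0 < a) :
    Tendsto (fun t => Real.arctan (t / a)) atTop (𝓝 (Real.pi / 2)) := by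
  have h1 : Tendsto (fun t : ℝ => t / a) atTop atTop := tendsto_id.atTop_div_const ha
  have h2 := Real.tendsto_arctan_atTop.comp h1
  exact (tendsto_nhdsWithin_iff.1 h2).1

theorem integrableOn_ker (a : ℝ) (ha : 0 ≤ a) : IntegrableOn (ker a) (Ioi 0) := by
  rcases ha.eq_or_lt with h | h
  · subst h
    have : ker 0 = fun _ => 0 := by ext t; exact ker_zero t
    rw [this]; exact integrableOn_zero
  · refine integrableOn_Ioi_deriv_of_nonneg' (fun t _ => hasDerivAt_arctan_div h t)
      (fun t _ => ker_nonneg a t) ((tendsto_arctan_div h).const_mul a)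

theorem integral_ker (a : ℝ) (ha : 0 ≤ a) : ∫ t in Ioi 0, ker a t = Real.pi / 2 * a := by
  rcases ha.eq_or_lt with h | h
  · subst h
    simp [ker_zero]
  · rw [integral_Ioi_of_hasDerivAt_of_tendsto' (fun t _ => hasDerivAt_arctan_div h t)
      (integrableOn_ker a ha) ((tendsto_arctan_div h).const_mul a)]
    simp; ring

theorem integrableOn_ker_mul (a b : ℝ) (ha : 0 ≤ a) :
    IntegrableOn (fun t => ker a t * ker b t) (Ioi 0) := by
  refine Integrable.mono' (integrableOn_ker a ha) ?_ ?_
  · have hm : Measurable (fun t => ker a t * ker b t) := by unfold ker; fun_prop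
    exact hm.aestronglyMeasurable
  · refine Eventually.of_forall fun t => ?_
    rw [Real.norm_eq_abs, abs_of_nonneg (mul_nonneg (ker_nonneg a t) (ker_nonneg b t))]
    exact mul_le_of_le_one_right (ker_nonneg a t) (ker_le_one b t)

theorem hasDerivAt_sq {a : ℝ} (ha : 0 < a) (t : ℝ) :
    HasDerivAt (fun t => (1 / 2) * (a ^ 2 * t / (a ^ 2 + t ^ 2) + a * Real.arctan (t / a)))
      (ker a t * ker a t) t := by
  have hne : a ^ 2 + t ^ 2 ≠ 0 := by positivity
  have h1 : HasDerivAt (fun t : ℝ => a ^ 2 * t) (a ^ 2) t := by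
    simpa using (hasDerivAt_id t).const_mul (a ^ 2)
  have h2 : HasDerivAt (fun t : ℝ => a ^ 2 + t ^ 2) (2 * t) t := by
    simpa using (hasDerivAt_pow 2 t).const_add (a ^ 2)
  have h3 := ((h1.div h2 hne).add (hasDerivAt_arctan_div ha t)).const_mul (1 / 2)
  refine h3.congr_deriv ?_
  unfold ker
  field_simp
  ring

theorem integral_ker_sq (a : ℝ) (ha : 0 < a) :
    ∫ t in Ioi 0, ker a t * ker a t = Real.pi / 2 * (a / 2) := by
  have hlim : Tendsto (fun t => (1 / 2) * (a ^ 2 * t / (a ^ 2 + t ^ 2) + a * Real.arctan (t / a)))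
      atTop (𝓝 ((1 / 2) * (0 + a * (Real.pi / 2)))) := by
    refine Tendsto.const_mul _ (Tendsto.add ?_ ((tendsto_arctan_div ha).const_mul a))
    have hb : ∀ t : ℝ, 0 < t → a ^ 2 * t / (a ^ 2 + t ^ 2) ≤ a ^ 2 / t := by
      intro t ht
      rw [div_le_div_iff₀ (by positivity) ht]
      nlinarith [sq_nonneg a, sq_nonneg t, mul_nonneg (sq_nonneg a) (sq_nonneg a)]
    refine tendsto_of_tendsto_of_tendsto_of_le_of_le' tendsto_const_nhds
      (tendsto_const_nhds.div_atTop tendsto_id : Tendsto (fun t : ℝ => a ^ 2 / t) atTop (𝓝 0)) ?_ ?_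
    · filter_upwards [eventually_gt_atTop 0] with t ht
      positivity
    · filter_upwards [eventually_gt_atTop 0] with t ht
      exact hb t ht
  rw [integral_Ioi_of_hasDerivAt_of_tendsto' (fun t _ => hasDerivAt_sq ha t)
      (integrableOn_ker_mul a a ha.le) hlim]
  simp; ring

theorem integral_ker_mul (a b : ℝ) (ha : 0 ≤ a) (hb : 0 ≤ b) :
    ∫ t in Ioi 0, ker a t * ker b t = Real.pi / 2 * (a * b / (a + b)) := by
  rcases ha.eq_or_lt with h | h
  · subst h; simp [ker_zero]
  rcases hb.eq_or_lt with h' | h'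
  · subst h'; simp [ker_zero]
  rcases eq_or_ne a b with hab | hab
  · subst hab
    rw [integral_ker_sq a h]
    congr 1
    field_simp
    ring
  · have hne : b ^ 2 - a ^ 2 ≠ 0 := by
      have : b ^ 2 - a ^ 2 = (b - a) * (b + a) := by ring
      rw [this]
      exact mul_ne_zero (sub_ne_zero.2 hab.symm) (by positivity)
    have key : ∀ t : ℝ, ker a t * ker b t =
        (b ^ 2 / (b ^ 2 - a ^ 2)) * ker a t - (a ^ 2 / (b ^ 2 - a ^ 2)) * ker b t := by
      intro t
      unfold ker
      have h1 : a ^ 2 + t ^ 2 ≠ 0 := by positivity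
      have h2 : b ^ 2 + t ^ 2 ≠ 0 := by positivity
      field_simp
      ring
    simp_rw [key]
    rw [integral_sub ((integrableOn_ker a ha).const_mul _) ((integrableOn_ker b hb).const_mul _),
      integral_const_mul, integral_const_mul, integral_ker a ha, integral_ker b hb]
    have h3 : a + b ≠ 0 := by positivity
    field_simp
    ring

end Pool.Agent.V5helper97.TraceIneqB
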