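import Pool.Agent.V5helper97.TraceIneqA
import Pool.Agent.V5helper97.TraceIneqB

/-!
# The multivariate trace inequality
-/

open Matrix Finset MeasureTheory Set
open scoped MatrixOrder ComplexOrder
open Pool.Agent.V5helper97.TraceIneqA Pool.Agent.V5helper97.TraceIneqB

namespace Pool.Agent.V5helper97.TraceIneqC

variable {d n : ℕ}

/-- the operator inequality for a fixed `t` -/
theorem pointwise_psd {A : Fin n → Matrix (Fin d) (Fin d) ℂ} (D : ∀ j, Diag (A j))
    {Q : Matrix (Fin d) (Fin d) ℂ} (E : Diag Q) (hQ : Q * Q = ∑ j, A j * A j) (t : ℝ) (ht : 0 < t) :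
    ((1 - ∑ j, fn (D j) (fun a => ker a t)) * (1 - ∑ j, fn (D j) (fun a => ker a t)) +
      ∑ j, (fn (D j) (fun a => ker a t) - fn (D j) (fun a => ker a t) * fn (D j) (fun a => ker a t))
      - fn E (fun r => t ^ 2 / (r ^ 2 + t ^ 2))).PosSemidef := by
  set φ : Fin n → Matrix (Fin d) (Fin d) ℂ := fun j => fn (D j) (fun a => ker a t) with hφ
  set Y : Fin n → Matrix (Fin d) (Fin d) ℂ := fun j => fn (D j) (fun a => t * a / (a ^ 2 + t ^ 2))
    with hY
  set K := fn E (fun r => t ^ 2 / (r ^ 2 + t ^ 2)) with hK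
  set N := fn E (fun r => t / (r ^ 2 + t ^ 2)) with hN
  set Φ := ∑ j, φ j with hΦ
  have hpos : ∀ a : ℝ, a ^ 2 + t ^ 2 ≠ 0 := fun a => by positivity
  have h1 : ∀ j, Y j * A j = (t : ℂ) • φ j := by
    intro j
    conv_lhs => rw [← fn_id (D j)]
    rw [hY, hφ]
    simp only
    rw [fn_mul, fn_smul]
    refine fn_congr _ fun x => ?_
    unfold ker
    ring
  have h2 : ∀ j, A j * Y j = (t : ℂ) • φ j := by
    intro j
    conv_lhs => rw [← fn_id (D j)]
    rw [hY, hφ]
    simp only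
    rw [fn_mul, fn_smul]
    refine fn_congr _ fun x => ?_
    unfold ker
    ring
  have h3 : ∀ j, Y j * Y j = φ j - φ j * φ j := by
    intro j
    rw [hY, hφ]
    simp only
    rw [fn_mul, fn_mul, fn_sub]
    refine fn_congr _ fun x => ?_
    unfold ker
    have := hpos ((D j).a x)
    field_simp
    ring
  have h4 : (t : ℂ) • N = K := by
    rw [hN, hK, fn_smul]
    refine fn_congr _ fun x => ?_
    ring
  have h5 : K * K + N * (Q * Q) * N = K := by
    conv_lhs => rw [← fn_id E]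
    rw [hK, hN, fn_mul, fn_mul, fn_mul, fn_mul, fn_add]
    refine fn_congr _ fun x => ?_
    have := hpos (E.a x)
    field_simp
    ring
  have hYs : ∀ j, star (Y j) = Y j := fun j => fn_herm _ _
  have hAs : ∀ j, star (A j) = A j := by
    intro j
    conv_lhs => rw [← fn_id (D j)]
    rw [fn_herm, fn_id]
  have hNs : star N = N := fn_herm _ _
  have hKs : star K = K := fn_herm _ _
  have hφs : ∀ j, star (φ j) = φ j := fun j => fn_herm _ _
  have hΦs : star Φ = Φ := by rw [hΦ, star_sum]; simp [hφs]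
  have hmain : (1 - Φ) * (1 - Φ) + ∑ j, (φ j - φ j * φ j) - K =
      star (1 - Φ - K) * (1 - Φ - K) + ∑ j, star (Y j - A j * N) * (Y j - A j * N) := by
    have e1 : ∀ j, star (Y j - A j * N) * (Y j - A j * N) =
        (φ j - φ j * φ j) - φ j * K - K * φ j + N * (A j * A j) * N := by
      intro j
      rw [star_sub, star_mul, hYs, hAs, hNs, sub_mul, mul_sub, mul_sub, h3,
        ← mul_assoc (Y j), h1, mul_assoc N (A j) (Y j), h2]
      have e2 : ((t : ℂ) • φ j) * N = φ j * K := by rw [← h4, smul_mul_assoc, mul_smul_comm]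
      have e3 : N * ((t : ℂ) • φ j) = K * φ j := by rw [← h4, smul_mul_assoc, mul_smul_comm]
      rw [e2, e3]
      noncomm_ring
    have e5 : ∑ j, ((φ j - φ j * φ j) - φ j * K - K * φ j + N * (A j * A j) * N) =
        ∑ j, (φ j - φ j * φ j) - Φ * K - K * Φ + N * (Q * Q) * N := by
      rw [hΦ, hQ, Finset.sum_mul, Finset.mul_sum, Finset.mul_sum, Finset.sum_mul,
        Finset.sum_add_distrib, Finset.sum_sub_distrib, Finset.sum_sub_distrib]
    rw [Finset.sum_congr rfl (fun j _ => e1 j), e5]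
    rw [star_sub, star_sub, star_one, hΦs, hKs]
    have : N * (Q * Q) * N = K - K * K := by rw [eq_sub_iff_add_eq, add_comm]; exact h5
    rw [this]
    noncomm_ring
  rw [hmain]
  refine (posSemidef_conjTranspose_mul_self _).add ?_
  exact Matrix.posSemidef_sum _ fun j _ => posSemidef_conjTranspose_mul_self _

theorem pointwise_trace {A : Fin n → Matrix (Fin d) (Fin d) ℂ} (D : ∀ j, Diag (A j))
    {Q : Matrix (Fin d) (Fin d) ℂ} (E : Diag Q) (hQ : Q * Q = ∑ j, A j * A j) (t : ℝ) (ht : 0 < t) :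
    ∑ j, ∑ x, ker ((D j).a x) t - ∑ x, ker (E.a x) t ≤
      ∑ p ∈ Finset.univ.filter (fun p : Fin n × Fin n => p.1 ≠ p.2),
        ∑ x, ∑ y, ker ((D p.1).a x) t * ker ((D p.2).a y) t *
          ‖(star (D p.1).U * (D p.2).U) x y‖ ^ 2 := by
  have h := (pointwise_psd D E hQ t ht).trace_nonneg
  set φ : Fin n → Matrix (Fin d) (Fin d) ℂ := fun j => fn (D j) (fun a => ker a t) with hφ
  set Φ := ∑ j, φ j with hΦ
  have e1 : (1 - Φ) * (1 - Φ) = 1 - Φ - Φ + ∑ i, ∑ j, φ i * φ j := by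
    rw [← Finset.sum_mul_sum, ← hΦ]; noncomm_ring
  have e2 : (fn E (fun r => t ^ 2 / (r ^ 2 + t ^ 2))) = 1 - fn E (fun r => ker r t) := by
    rw [← fn_one E, fn_sub]
    refine fn_congr _ fun x => ?_
    unfold ker
    have : E.a x ^ 2 + t ^ 2 ≠ 0 := by positivity
    field_simp
    ring
  have e3 : ∑ i, ∑ j, φ i * φ j = ∑ j, φ j * φ j +
      ∑ p ∈ Finset.univ.filter (fun p : Fin n × Fin n => p.1 ≠ p.2), φ p.1 * φ p.2 := by
    rw [← Finset.sum_product', Finset.univ_product_univ,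
      ← Finset.sum_filter_add_sum_filter_not Finset.univ (fun p : Fin n × Fin n => p.1 = p.2)]
    congr 1
    symm
    refine Finset.sum_bij (fun j _ => (j, j)) (by simp) (by simp) ?_ (by simp)
    rintro ⟨i, j⟩ hij
    simp only [Finset.mem_filter, Finset.mem_univ, true_and] at hij
    exact ⟨i, Finset.mem_univ _, by simp [hij]⟩
  have e4 : (1 - Φ) * (1 - Φ) + ∑ j, (φ j - φ j * φ j) - fn E (fun r => t ^ 2 / (r ^ 2 + t ^ 2)) =
      fn E (fun r => ker r t) - ∑ j, φ j +
      ∑ p ∈ Finset.univ.filter (fun p : Fin n × Fin n => p.1 ≠ p.2), φ p.1 * φ p.2 := by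
    rw [e1, e2, e3, Finset.sum_sub_distrib, ← hΦ]
    abel
  rw [e4] at h
  rw [Matrix.trace_add, Matrix.trace_sub, Matrix.trace_sum, Matrix.trace_sum, trace_fn] at h
  simp only [hφ, trace_fn, trace_fn_mul] at h
  have h' : (0 : ℂ) ≤ ((∑ x, ker (E.a x) t - ∑ j, ∑ x, ker ((D j).a x) t +
      ∑ p ∈ Finset.univ.filter (fun p : Fin n × Fin n => p.1 ≠ p.2),
        ∑ x, ∑ y, ker ((D p.1).a x) t * ker ((D p.2).a y) t *
          ‖(star (D p.1).U * (D p.2).U) x y‖ ^ 2 : ℝ) : ℂ) := by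
    push_cast
    push_cast at h
    exact h
  rw [Complex.zero_le_real] at h'
  linarith

end Pool.Agent.V5helper97.TraceIneqC
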