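import Pool.Agent.V5helper97.TraceIneqC

/-!
# The multivariate trace inequality: integration and the bound for a pair
-/

open Matrix Finset MeasureTheory Set
open scoped MatrixOrder ComplexOrder
open Pool.Agent.V5helper97.TraceIneqA Pool.Agent.V5helper97.TraceIneqB
open Pool.Agent.V5helper97.TraceIneqC

namespace Pool.Agent.V5helper97.TraceIneqD

variable {d n : ℕ}

theorem integrated {A : Fin n → Matrix (Fin d) (Fin d) ℂ} (D : ∀ j, Diag (A j))
    (hD : ∀ j x, 0 ≤ (D j).a x)
    {Q : Matrix (Fin d) (Fin d) ℂ} (E : Diag Q) (hE : ∀ x, 0 ≤ E.a x)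
    (hQ : Q * Q = ∑ j, A j * A j) :
    ∑ j, ∑ x, (D j).a x - ∑ x, E.a x ≤
      ∑ p ∈ Finset.univ.filter (fun p : Fin n × Fin n => p.1 ≠ p.2),
        ∑ x, ∑ y, (D p.1).a x * (D p.2).a y / ((D p.1).a x + (D p.2).a y) *
          ‖(star (D p.1).U * (D p.2).U) x y‖ ^ 2 := by
  have hi : ∀ j x, IntegrableOn (ker ((D j).a x)) (Ioi 0) := fun j x => integrableOn_ker _ (hD j x)
  have hi' : ∀ x, IntegrableOn (ker (E.a x)) (Ioi 0) := fun x => integrableOn_ker _ (hE x)
  have hi2 : ∀ (p : Fin n × Fin n) (x y : Fin d), IntegrableOn (fun t =>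
      ker ((D p.1).a x) t * ker ((D p.2).a y) t *
          ‖(star (D p.1).U * (D p.2).U) x y‖ ^ 2) (Ioi 0) := fun p x y =>
    (integrableOn_ker_mul _ _ (hD _ _)).mul_const _
  have hL1 : IntegrableOn (fun t => ∑ j, ∑ x, ker ((D j).a x) t) (Ioi 0) :=
    integrable_finsetSum _ fun j _ => integrable_finsetSum _ fun x _ => hi j x
  have hL2 : IntegrableOn (fun t => ∑ x, ker (E.a x) t) (Ioi 0) :=
    integrable_finsetSum _ fun x _ => hi' x
  have hR : IntegrableOn (fun t => ∑ p ∈ Finset.univ.filter (fun p : Fin n × Fin n => p.1 ≠ p.2),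
        ∑ x, ∑ y, ker ((D p.1).a x) t * ker ((D p.2).a y) t *
          ‖(star (D p.1).U * (D p.2).U) x y‖ ^ 2) (Ioi 0) :=
    integrable_finsetSum _ fun p _ => integrable_finsetSum _ fun x _ =>
      integrable_finsetSum _ fun y _ => hi2 p x y
  have hmono := setIntegral_mono_on (hL1.sub hL2) hR measurableSet_Ioi
    (fun t ht => pointwise_trace D E hQ t ht)
  simp only [Pi.sub_apply] at hmono
  rw [integral_sub hL1 hL2, integral_finsetSum _ (fun j _ => integrable_finsetSum _
      fun x _ => hi j x), integral_finsetSum _ (fun x _ => hi' x),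
    integral_finsetSum _ (fun p _ => integrable_finsetSum _ fun x _ =>
      integrable_finsetSum _ fun y _ => hi2 p x y)] at hmono
  have e1 : ∀ j, ∫ t in Ioi 0, ∑ x, ker ((D j).a x) t = Real.pi / 2 * ∑ x, (D j).a x := by
    intro j
    rw [integral_finsetSum _ (fun x _ => hi j x), Finset.mul_sum]
    exact Finset.sum_congr rfl fun x _ => integral_ker _ (hD j x)
  have e2 : ∀ p : Fin n × Fin n, ∫ t in Ioi 0, ∑ x, ∑ y, ker ((D p.1).a x) t *
      ker ((D p.2).a y) t * ‖(star (D p.1).U * (D p.2).U) x y‖ ^ 2 =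
      Real.pi / 2 * ∑ x, ∑ y, (D p.1).a x * (D p.2).a y / ((D p.1).a x + (D p.2).a y) *
          ‖(star (D p.1).U * (D p.2).U) x y‖ ^ 2 := by
    intro p
    rw [integral_finsetSum _ (fun x _ => integrable_finsetSum _ fun y _ => hi2 p x y),
      Finset.mul_sum]
    refine Finset.sum_congr rfl fun x _ => ?_
    rw [integral_finsetSum _ (fun y _ => hi2 p x y), Finset.mul_sum]
    refine Finset.sum_congr rfl fun y _ => ?_
    rw [integral_mul_const, integral_ker_mul _ _ (hD _ _) (hD _ _)]
    ring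
  rw [Finset.sum_congr rfl (fun j _ => e1 j), Finset.sum_congr rfl (fun p _ => e2 p),
    Finset.sum_congr rfl (fun x _ => integral_ker _ (hE x)), ← Finset.mul_sum, ← Finset.mul_sum,
    ← Finset.mul_sum, ← mul_sub] at hmono
  exact le_of_mul_le_mul_left hmono (by positivity)

/-- scalar inequality -/
theorem scalar_ineq (a b : ℝ) (ha : 0 ≤ a) (hb : 0 ≤ b) (u v : ℂ) :
    a * b / (a + b) * ‖u + v‖ ^ 2 ≤ a * ‖u‖ ^ 2 + b * ‖v‖ ^ 2 := by
  rcases (add_nonneg ha hb).eq_or_lt with h | h
  · rw [← h]; simp; positivity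
  · rw [div_mul_eq_mul_div, div_le_iff₀ h]
    rw [← Complex.normSq_eq_norm_sq, ← Complex.normSq_eq_norm_sq, ← Complex.normSq_eq_norm_sq,
      Complex.normSq_apply, Complex.normSq_apply, Complex.normSq_apply]
    simp only [Complex.add_re, Complex.add_im]
    nlinarith [sq_nonneg (a * u.re - b * v.re), sq_nonneg (a * u.im - b * v.im)]

theorem abs_eq_fn {X : Matrix (Fin d) (Fin d) ℂ} (hX : X.IsHermitian) (F : Diag X) :
    CFC.abs X = fn F (fun x => |x|) := by
  unfold CFC.abs
  have h0 : (0 : Matrix (Fin d) (Fin d) ℂ) ≤ fn F (fun x => |x|) :=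
    (fn_psd F _ (fun x => abs_nonneg _)).nonneg
  refine CFC.sqrt_unique ?_ h0
  rw [fn_mul]
  have h1 : star X = X := hX
  rw [h1]
  conv_rhs => rw [← fn_id F]
  rw [fn_mul]
  exact fn_congr _ fun x => abs_mul_abs_self _

theorem trace_mul_proj {A B : Matrix (Fin d) (Fin d) ℂ} (D : Diag A) (E : Diag B)
    {P : Matrix (Fin d) (Fin d) ℂ} (hP : P * P = P) (hPs : star P = P) :
    (A * P).trace = ((∑ x, ∑ y, D.a x * ‖(star D.U * P * E.U) x y‖ ^ 2 : ℝ) : ℂ) := by
  set V := star D.U * P * E.U with hV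
  have hVs : star V = star E.U * P * D.U := by
    rw [hV, star_mul, star_mul, star_star, hPs, mul_assoc]
  have h1 : (A * P).trace = (diagonal (fun x => (D.a x : ℂ)) * V * star V).trace := by
    have h2 : A * P = D.U * (diagonal (fun x => (D.a x : ℂ)) * star D.U * P * (E.U * star E.U)
        * P) := by
      rw [E.hU', mul_one, mul_assoc _ P P, hP]
      conv_lhs => rw [D.hA]
      simp only [mul_assoc]
    rw [h2, trace_mul_comm, hVs, hV]
    simp only [mul_assoc]
  rw [h1]
  simp only [Matrix.trace, Matrix.diag_apply, Matrix.mul_apply, diagonal_apply]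
  push_cast
  refine Finset.sum_congr rfl fun x _ => ?_
  refine Finset.sum_congr rfl fun y _ => ?_
  simp only [ite_mul, zero_mul, Finset.sum_ite_eq, Finset.mem_univ, if_true, star_apply]
  have : V x y * star (V x y) = ((‖V x y‖ ^ 2 : ℝ) : ℂ) := by
    rw [RCLike.star_def, Complex.mul_conj, Complex.normSq_eq_norm_sq]
  push_cast at this
  rw [← this]
  ring

theorem pair_bound {A B : Matrix (Fin d) (Fin d) ℂ} (D : Diag A) (E : Diag B)
    (hD : ∀ x, 0 ≤ D.a x) (hE : ∀ x, 0 ≤ E.a x) :
    2 * ∑ x, ∑ y, D.a x * E.a y / (D.a x + E.a y) * ‖(star D.U * E.U) x y‖ ^ 2 ≤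
      (A + B).trace.re - (CFC.abs (A - B)).trace.re := by
  have hAh : star A = A := by
    conv_lhs => rw [← fn_id D]
    rw [fn_herm, fn_id]
  have hBh : star B = B := by
    conv_lhs => rw [← fn_id E]
    rw [fn_herm, fn_id]
  have hX : (A - B).IsHermitian := by
    show star (A - B) = A - B
    rw [star_sub, hAh, hBh]
  obtain ⟨F, -⟩ := exists_diag (A - B) hX
  set P := fn F (fun x => if 0 ≤ x then 1 else 0) with hP
  set P' := fn F (fun x => if 0 ≤ x then 0 else 1) with hP'
  have hPP : P * P = P := by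
    rw [hP, fn_mul]; exact fn_congr _ fun x => by split_ifs <;> simp
  have hPP' : P' * P' = P' := by
    rw [hP', fn_mul]; exact fn_congr _ fun x => by split_ifs <;> simp
  have hsum : P + P' = 1 := by
    rw [hP, hP', fn_add, ← fn_one F]; exact fn_congr _ fun x => by split_ifs <;> simp
  have habs : CFC.abs (A - B) = (A - B) * P - (A - B) * P' := by
    rw [abs_eq_fn hX F]
    have e1 : (A - B) * P = fn F (fun x => x * if 0 ≤ x then 1 else 0) := by
      conv_lhs => rw [← fn_id F]
      rw [hP, fn_mul]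
    have e2 : (A - B) * P' = fn F (fun x => x * if 0 ≤ x then 0 else 1) := by
      conv_lhs => rw [← fn_id F]
      rw [hP', fn_mul]
    rw [e1, e2, fn_sub]
    refine fn_congr _ fun x => ?_
    split_ifs with h
    · simp [abs_of_nonneg h]
    · simp [abs_of_neg (not_le.1 h)]
  have hkey : (A + B) - CFC.abs (A - B) = (A * P' + A * P') + (B * P + B * P) := by
    have h1 : A + B = (A + B) * (P + P') := by rw [hsum, mul_one]
    rw [habs]
    conv_lhs => rw [h1]
    noncomm_ring
  have h2 : (A + B).trace.re - (CFC.abs (A - B)).trace.re =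
      2 * (A * P').trace.re + 2 * (B * P).trace.re := by
    rw [← Complex.sub_re, ← Matrix.trace_sub, hkey, Matrix.trace_add, Matrix.trace_add,
      Matrix.trace_add]
    simp only [Complex.add_re]
    ring
  rw [h2, trace_mul_proj D E hPP' (fn_herm _ _), trace_mul_proj E D hPP (fn_herm _ _),
    Complex.ofReal_re, Complex.ofReal_re, ← mul_add]
  refine mul_le_mul_of_nonneg_left ?_ (by norm_num)
  rw [Finset.sum_comm (f := fun x y => E.a x * ‖(star E.U * P * D.U) x y‖ ^ 2),
    ← Finset.sum_add_distrib]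
  refine Finset.sum_le_sum fun x _ => ?_
  rw [← Finset.sum_add_distrib]
  refine Finset.sum_le_sum fun y _ => ?_
  have e3 : (star D.U * E.U) x y = (star D.U * P' * E.U) x y + (star D.U * P * E.U) x y := by
    rw [← Matrix.add_apply, ← Matrix.add_mul, ← Matrix.mul_add, add_comm P' P, hsum, mul_one]
  have e4 : ‖(star E.U * P * D.U) y x‖ = ‖(star D.U * P * E.U) x y‖ := by
    have : star D.U * P * E.U = star (star E.U * P * D.U) := by
      rw [star_mul, star_mul, star_star, fn_herm, mul_assoc]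
    rw [this, star_apply, norm_star]
  rw [e3, e4]
  exact scalar_ineq _ _ (hD x) (hE y) _ _

theorem sum_pairs (f : Fin n × Fin n → ℝ) (hf : ∀ i j, f (i, j) = f (j, i)) :
    ∑ p ∈ Finset.univ.filter (fun p : Fin n × Fin n => p.1 ≠ p.2), f p =
      ∑ p ∈ Finset.univ.filter (fun p : Fin n × Fin n => p.1 < p.2), 2 * f p := by
  have h1 : Finset.univ.filter (fun p : Fin n × Fin n => p.1 ≠ p.2) =
      Finset.univ.filter (fun p : Fin n × Fin n => p.1 < p.2) ∪
      Finset.univ.filter (fun p : Fin n × Fin n => p.2 < p.1) := by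
    ext p
    simp only [Finset.mem_filter, Finset.mem_univ, true_and, Finset.mem_union]
    exact lt_or_lt_iff_ne.symm
  have h2 : Disjoint (Finset.univ.filter (fun p : Fin n × Fin n => p.1 < p.2))
      (Finset.univ.filter (fun p : Fin n × Fin n => p.2 < p.1)) := by
    rw [Finset.disjoint_filter]
    intro p _ h
    exact not_lt.2 h.le
  rw [h1, Finset.sum_union h2]
  have h3 : ∑ p ∈ Finset.univ.filter (fun p : Fin n × Fin n => p.2 < p.1), f p =
      ∑ p ∈ Finset.univ.filter (fun p : Fin n × Fin n => p.1 < p.2), f p := by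
    refine Finset.sum_bij (fun p _ => (p.2, p.1)) ?_ ?_ ?_ ?_
    · rintro ⟨i, j⟩ h; simpa using h
    · rintro ⟨i, j⟩ _ ⟨k, l⟩ _ h; simp at h; simp [h]
    · rintro ⟨i, j⟩ h; exact ⟨(j, i), by simpa using h, rfl⟩
    · rintro ⟨i, j⟩ _; exact hf i j
  rw [h3, ← Finset.sum_add_distrib]
  exact Finset.sum_congr rfl fun p _ => by ring

/-- The trace inequality with constant one. -/
theorem trace_ineq (A : Fin n → Matrix (Fin d) (Fin d) ℂ) (hA : ∀ j, (A j).PosSemidef) :
    ∑ p ∈ Finset.univ.filter (fun p : Fin n × Fin n => p.1 < p.2),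
      ((CFC.abs (A p.1 - A p.2)).trace.re - (A p.1 + A p.2).trace.re) ≤
    (CFC.sqrt (∑ j, A j ^ 2)).trace.re - ∑ j, (A j).trace.re := by
  choose D hD using fun j => exists_diag_psd (A j) (hA j)
  set Q := CFC.sqrt (∑ j, A j ^ 2) with hQ
  have hS : (0 : Matrix (Fin d) (Fin d) ℂ) ≤ ∑ j, A j ^ 2 := by
    refine (Matrix.posSemidef_sum _ fun j _ => ?_).nonneg
    have : A j ^ 2 = star (A j) * A j := by
      have h : star (A j) = A j := (hA j).1
      rw [h, sq]
    rw [this]
    exact posSemidef_conjTranspose_mul_self _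
  have hQQ : Q * Q = ∑ j, A j * A j := by
    rw [hQ, CFC.sqrt_mul_sqrt_self _ hS]
    exact Finset.sum_congr rfl fun j _ => sq _
  have hQ0 : Q.PosSemidef := (CFC.sqrt_nonneg _).posSemidef
  obtain ⟨E, hE⟩ := exists_diag_psd Q hQ0
  have hmain := integrated D hD E hE hQQ
  have htr : ∀ j, (A j).trace.re = ∑ x, (D j).a x := by
    intro j
    have h := trace_fn (D j) (fun x => x)
    rw [fn_id] at h
    rw [h, Complex.ofReal_re]
  have htrQ : Q.trace.re = ∑ x, E.a x := by
    have h := trace_fn E (fun x => x)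
    rw [fn_id] at h
    rw [h, Complex.ofReal_re]
  rw [sum_pairs] at hmain
  · have hpair : ∑ p ∈ Finset.univ.filter (fun p : Fin n × Fin n => p.1 < p.2),
        2 * ∑ x, ∑ y, (D p.1).a x * (D p.2).a y / ((D p.1).a x + (D p.2).a y) *
          ‖(star (D p.1).U * (D p.2).U) x y‖ ^ 2 ≤
        ∑ p ∈ Finset.univ.filter (fun p : Fin n × Fin n => p.1 < p.2),
          ((A p.1 + A p.2).trace.re - (CFC.abs (A p.1 - A p.2)).trace.re) :=
      Finset.sum_le_sum fun p _ => pair_bound (D p.1) (D p.2) (hD _) (hD _)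
    rw [htrQ, Finset.sum_congr rfl (fun j _ => htr j)]
    have h5 : ∑ p ∈ Finset.univ.filter (fun p : Fin n × Fin n => p.1 < p.2),
      ((CFC.abs (A p.1 - A p.2)).trace.re - (A p.1 + A p.2).trace.re) =
      - ∑ p ∈ Finset.univ.filter (fun p : Fin n × Fin n => p.1 < p.2),
          ((A p.1 + A p.2).trace.re - (CFC.abs (A p.1 - A p.2)).trace.re) := by
      rw [← Finset.sum_neg_distrib]
      exact Finset.sum_congr rfl fun p _ => by ring
    rw [h5]
    linarith
  · intro i j
    rw [Finset.sum_comm]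
    refine Finset.sum_congr rfl fun x _ => Finset.sum_congr rfl fun y _ => ?_
    have : ‖(star (D i).U * (D j).U) y x‖ = ‖(star (D j).U * (D i).U) x y‖ := by
      have h : star (D j).U * (D i).U = star (star (D i).U * (D j).U) := by
        rw [star_mul, star_star]
      rw [h, star_apply, norm_star]
    rw [this, mul_comm ((D i).a y), add_comm ((D i).a y)]

end Pool.Agent.V5helper97.TraceIneqD
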