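import Pool.Agent.V5helper97.TraceIneqD

/-!
# The constant one is optimal in the multivariate trace inequality
-/

open Matrix Finset
open scoped MatrixOrder ComplexOrder

namespace Pool.Agent.V5helper97.TraceIneqE

/-- the projection onto the orthogonal complement of the constant vector -/
noncomputable def P (m : ℕ) : Matrix (Fin (m + 1)) (Fin (m + 1)) ℂ :=
  1 - ((m + 1 : ℝ)⁻¹ : ℂ) • Matrix.of (fun _ _ => 1)

/-- the simplex projections -/
noncomputable def S (m : ℕ) (i : Fin (m + 1)) : Matrix (Fin (m + 1)) (Fin (m + 1)) ℂ :=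
  (((m + 1 : ℝ) / m : ℝ) : ℂ) • (P m * Matrix.single i i 1 * P m)

theorem P_apply (m : ℕ) (i j : Fin (m + 1)) :
    P m i j = (if i = j then 1 else 0) - ((m + 1 : ℝ)⁻¹ : ℂ) := by
  simp [P, Matrix.one_apply]

theorem P_star (m : ℕ) : star (P m) = P m := by
  ext i j
  rw [star_apply, P_apply, P_apply]
  simp [eq_comm]

theorem P_mul (m : ℕ) : P m * P m = P m := by
  have hJ : (Matrix.of (fun _ _ => 1) : Matrix (Fin (m + 1)) (Fin (m + 1)) ℂ) *
      Matrix.of (fun _ _ => 1) = ((m + 1 : ℝ) : ℂ) • Matrix.of (fun _ _ => 1) := by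
    ext i j
    simp [Matrix.mul_apply]
  have hm : ((m + 1 : ℝ) : ℂ) ≠ 0 := by
    exact_mod_cast (by positivity : (m + 1 : ℝ) ≠ 0)
  unfold P
  rw [sub_mul, mul_sub, mul_sub, one_mul, mul_one, one_mul, smul_mul_smul_comm, hJ, smul_smul]
  have : ((m + 1 : ℝ)⁻¹ : ℂ) * ((m + 1 : ℝ)⁻¹ : ℂ) * ((m + 1 : ℝ) : ℂ) = ((m + 1 : ℝ)⁻¹ : ℂ) := by
    push_cast
    push_cast at hm
    field_simp
  rw [this]
  abel

theorem single_P_single (m : ℕ) (i j : Fin (m + 1)) :
    Matrix.single i i (1 : ℂ) * P m * Matrix.single j j 1 = P m i j • Matrix.single i j 1 := by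
  ext k l
  by_cases hk : k = i <;> by_cases hl : l = j
  · subst hk; subst hl; simp [Matrix.mul_apply, Matrix.single_apply]
  · subst hk
    simp [Matrix.mul_apply, Matrix.single_apply, Ne.symm hl]
  · subst hl
    simp [Matrix.mul_apply, Matrix.single_apply, Ne.symm hk]
  · simp [Matrix.mul_apply, Matrix.single_apply, Ne.symm hk]

theorem S_mul (m : ℕ) (i j : Fin (m + 1)) :
    S m i * S m j = ((((m + 1 : ℝ) / m : ℝ) : ℂ) * (((m + 1 : ℝ) / m : ℝ) : ℂ) * P m i j) •
      (P m * Matrix.single i j 1 * P m) := by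
  unfold S
  rw [smul_mul_smul_comm]
  have : P m * Matrix.single i i 1 * P m * (P m * Matrix.single j j 1 * P m) =
      P m i j • (P m * Matrix.single i j 1 * P m) := by
    calc P m * Matrix.single i i 1 * P m * (P m * Matrix.single j j 1 * P m)
        = P m * (Matrix.single i i 1 * (P m * P m) * Matrix.single j j 1) * P m := by
          simp only [mul_assoc]
      _ = P m * (Matrix.single i i 1 * P m * Matrix.single j j 1) * P m := by rw [P_mul]
      _ = _ := by rw [single_P_single, mul_smul_comm, smul_mul_assoc]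
  rw [this, smul_smul]

theorem P_diag (m : ℕ) (hm : 0 < m) (i : Fin (m + 1)) :
    (((m + 1 : ℝ) / m : ℝ) : ℂ) * P m i i = 1 := by
  rw [P_apply]
  have h1 : (m : ℂ) ≠ 0 := by exact_mod_cast hm.ne'
  have h2 : (m + 1 : ℂ) ≠ 0 := by exact_mod_cast (Nat.succ_ne_zero m)
  simp
  field_simp
  ring

theorem P_offdiag (m : ℕ) (hm : 0 < m) (i j : Fin (m + 1)) (hij : i ≠ j) :
    (((m + 1 : ℝ) / m : ℝ) : ℂ) * P m i j = -(m : ℂ)⁻¹ := by
  rw [P_apply]
  have h1 : (m : ℂ) ≠ 0 := by exact_mod_cast hm.ne'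
  have h2 : (m + 1 : ℂ) ≠ 0 := by exact_mod_cast (Nat.succ_ne_zero m)
  simp [hij]
  field_simp

theorem S_sq (m : ℕ) (hm : 0 < m) (i : Fin (m + 1)) : S m i * S m i = S m i := by
  rw [S_mul, mul_assoc, P_diag m hm i, mul_one]
  rfl

theorem S_star (m : ℕ) (i : Fin (m + 1)) : star (S m i) = S m i := by
  unfold S
  rw [star_smul, star_mul, star_mul, P_star, mul_assoc, RCLike.star_def, Complex.conj_ofReal]
  congr 3
  ext k l
  simp [Matrix.single_apply, and_comm]

theorem S_psd (m : ℕ) (hm : 0 < m) (i : Fin (m + 1)) : (S m i).PosSemidef := by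
  have h : S m i = star (S m i) * S m i := by rw [S_star, S_sq m hm]
  rw [h]
  exact posSemidef_conjTranspose_mul_self _

theorem S_aba (m : ℕ) (hm : 0 < m) (i j : Fin (m + 1)) (hij : i ≠ j) :
    S m i * S m j * S m i = ((((m : ℝ)⁻¹) ^ 2 : ℝ) : ℂ) • S m i := by
  have h1 : P m * Matrix.single i j 1 * P m * (P m * Matrix.single i i 1 * P m) =
      P m j i • (P m * Matrix.single i i 1 * P m) := by
    have e : (Matrix.single i j (1 : ℂ)) * P m * Matrix.single i i 1 =
        P m j i • Matrix.single i i 1 := by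
      ext k l
      by_cases hk : k = i <;> by_cases hl : l = i
      · subst hk; subst hl; simp [Matrix.mul_apply, Matrix.single_apply]
      · subst hk
        simp [Matrix.mul_apply, Matrix.single_apply, Ne.symm hl]
      · subst hl
        simp [Matrix.mul_apply, Matrix.single_apply, Ne.symm hk]
      · simp [Matrix.mul_apply, Matrix.single_apply, Ne.symm hk]
    calc P m * Matrix.single i j 1 * P m * (P m * Matrix.single i i 1 * P m)
        = P m * (Matrix.single i j 1 * (P m * P m) * Matrix.single i i 1) * P m := by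
          simp only [mul_assoc]
      _ = P m * (Matrix.single i j 1 * P m * Matrix.single i i 1) * P m := by rw [P_mul]
      _ = _ := by rw [e, mul_smul_comm, smul_mul_assoc]
  rw [S_mul]
  conv_lhs => rw [S]
  rw [smul_mul_smul_comm, h1, smul_smul]
  conv_rhs => rw [S, smul_smul]
  congr 1
  have e1 := P_offdiag m hm i j hij
  have e2 := P_offdiag m hm j i hij.symm
  set κ : ℂ := (((m + 1 : ℝ) / m : ℝ) : ℂ)
  calc κ * κ * P m i j * κ * P m j i = (κ * P m i j) * (κ * P m j i) * κ := by ring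
    _ = _ := by
      rw [e1, e2]
      push_cast
      ring

theorem trace_P (m : ℕ) : (P m).trace = (m : ℂ) := by
  have h2 : (m + 1 : ℂ) ≠ 0 := by exact_mod_cast (Nat.succ_ne_zero m)
  simp only [Matrix.trace, Matrix.diag_apply, P_apply]
  simp
  field_simp
  ring

theorem trace_S (m : ℕ) (hm : 0 < m) (i : Fin (m + 1)) : (S m i).trace = 1 := by
  unfold S
  rw [Matrix.trace_smul, mul_assoc, Matrix.trace_mul_comm, mul_assoc, P_mul]
  have : (Matrix.single i i (1 : ℂ) * P m).trace = P m i i := by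
    simp only [Matrix.trace, Matrix.diag_apply, Matrix.mul_apply, Matrix.single_apply]
    rw [Finset.sum_eq_single i, Finset.sum_eq_single i]
    · simp
    · intro b _ hb; rw [if_neg (by rintro ⟨_, h⟩; exact hb h.symm), zero_mul]
    · intro h; exact absurd (Finset.mem_univ _) h
    · intro b _ hb
      exact Finset.sum_eq_zero fun x _ => by
        rw [if_neg (by rintro ⟨h, _⟩; exact hb h.symm), zero_mul]
    · intro h; exact absurd (Finset.mem_univ _) h
  rw [this, smul_eq_mul, P_diag m hm i]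

theorem sum_S (m : ℕ) : ∑ i, S m i ^ 2 = ∑ i, S m i * S m i :=
  Finset.sum_congr rfl fun _ _ => sq _

theorem sum_S' (m : ℕ) (hm : 0 < m) :
    ∑ i, S m i ^ 2 = (((m + 1 : ℝ) / m : ℝ) : ℂ) • P m := by
  rw [sum_S, Finset.sum_congr rfl (fun i _ => S_sq m hm i)]
  unfold S
  rw [← Finset.smul_sum, ← Finset.sum_mul, ← Finset.mul_sum]
  have : ∑ i : Fin (m + 1), Matrix.single i i (1 : ℂ) = 1 := by
    ext k l
    simp only [Matrix.sum_apply, Matrix.single_apply, Matrix.one_apply]
    by_cases h : k = l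
    · subst h; simp
    · rw [if_neg h]
      refine Finset.sum_eq_zero fun x _ => if_neg ?_
      rintro ⟨rfl, rfl⟩; exact h rfl
  rw [this, mul_one, P_mul]

theorem sqrt_sum (m : ℕ) (hm : 0 < m) :
    CFC.sqrt (∑ i, S m i ^ 2) = ((Real.sqrt ((m + 1 : ℝ) / m) : ℝ) : ℂ) • P m := by
  refine CFC.sqrt_unique ?_ ?_
  · rw [sum_S' m hm, smul_mul_smul_comm, P_mul, ← Complex.ofReal_mul, Real.mul_self_sqrt (by positivity)]
  · have h : ((Real.sqrt ((m + 1 : ℝ) / m) : ℝ) : ℂ) • P m =
        ((Real.sqrt ((m + 1 : ℝ) / m) : ℝ) : ℂ) • (star (P m) * P m) := by rw [P_star, P_mul]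
    rw [h]
    refine Matrix.PosSemidef.nonneg ?_
    refine (posSemidef_conjTranspose_mul_self (P m)).smul ?_
    rw [Complex.zero_le_real]
    positivity

theorem abs_diff (m : ℕ) (hm : 1 < m) (i j : Fin (m + 1)) (hij : i ≠ j) :
    (CFC.abs (S m i - S m j)).trace.re = 2 * Real.sqrt (1 - ((m : ℝ)⁻¹) ^ 2) := by
  set a := S m i with ha
  set b := S m j with hb
  set r2 : ℝ := ((m : ℝ)⁻¹) ^ 2 with hr2
  have hm0 : 0 < m := by omega
  have hr : r2 < 1 := by
    have h1 : (1 : ℝ) < m := by exact_mod_cast hm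
    have h2 : (m : ℝ)⁻¹ < 1 := inv_lt_one_of_one_lt₀ h1
    have h3 : 0 ≤ (m : ℝ)⁻¹ := by positivity
    rw [hr2]; nlinarith
  have hs : 0 < Real.sqrt (1 - r2) := Real.sqrt_pos.2 (by linarith)
  have haa : a * a = a := S_sq m hm0 i
  have hbb : b * b = b := S_sq m hm0 j
  have haba : a * b * a = (r2 : ℂ) • a := S_aba m hm0 i j hij
  have hbab : b * a * b = (r2 : ℂ) • b := S_aba m hm0 j i hij.symm
  have has : star a = a := S_star m i
  have hbs : star b = b := S_star m j
  have hX2 : star (a - b) * (a - b) = a + b - a * b - b * a := by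
    rw [star_sub, has, hbs, sub_mul, mul_sub, mul_sub, haa, hbb]; abel
  have hX3a : a * (a + b - a * b - b * a) = ((1 - r2 : ℝ) : ℂ) • a := by
    have : a * (a + b - a * b - b * a) = a * a + a * b - (a * a) * b - a * b * a := by noncomm_ring
    rw [this, haa, haba]
    push_cast
    rw [sub_smul, one_smul]; abel
  have hX3b : b * (a + b - a * b - b * a) = ((1 - r2 : ℝ) : ℂ) • b := by
    have : b * (a + b - a * b - b * a) = b * a + b * b - b * a * b - (b * b) * a := by noncomm_ring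
    rw [this, hbb, hbab]
    push_cast
    rw [sub_smul, one_smul]; abel
  have hX4 : (star (a - b) * (a - b)) * (star (a - b) * (a - b)) =
      ((1 - r2 : ℝ) : ℂ) • (star (a - b) * (a - b)) := by
    have h1 : (star (a - b) * (a - b)) * (star (a - b) * (a - b)) =
        (a - b) * (a * (a + b - a * b - b * a) - b * (a + b - a * b - b * a)) := by
      rw [hX2, ← sub_mul, ← mul_assoc]
      congr 1
      rw [← hX2, star_sub, has, hbs]
    rw [h1, hX3a, hX3b, ← smul_sub, mul_smul_comm, star_sub, has, hbs]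
  have habs : CFC.abs (a - b) = (((Real.sqrt (1 - r2))⁻¹ : ℝ) : ℂ) • (star (a - b) * (a - b)) := by
    unfold CFC.abs
    refine CFC.sqrt_unique ?_ ?_
    · rw [smul_mul_smul_comm, hX4, smul_smul, ← Complex.ofReal_mul, ← Complex.ofReal_mul]
      have : (Real.sqrt (1 - r2))⁻¹ * (Real.sqrt (1 - r2))⁻¹ * (1 - r2) = 1 := by
        rw [← mul_inv, Real.mul_self_sqrt (by linarith)]
        exact inv_mul_cancel₀ (by linarith)
      rw [this, Complex.ofReal_one, one_smul]
    · refine Matrix.PosSemidef.nonneg ?_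
      refine (posSemidef_conjTranspose_mul_self (a - b)).smul ?_
      rw [Complex.zero_le_real]
      positivity
  have htab : (a * b).trace = (r2 : ℂ) := by
    have h1 : (a * b).trace = (a * b * a).trace := by
      rw [Matrix.trace_mul_comm (a * b) a, ← mul_assoc, haa]
    rw [h1, haba, Matrix.trace_smul, trace_S m hm0, smul_eq_mul, mul_one]
  rw [habs, Matrix.trace_smul, hX2, Matrix.trace_sub, Matrix.trace_sub, Matrix.trace_add,
    trace_S m hm0, trace_S m hm0, Matrix.trace_mul_comm b a, htab, smul_eq_mul,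
    Complex.re_ofReal_mul]
  simp only [Complex.sub_re, Complex.add_re, Complex.one_re, Complex.ofReal_re]
  have h5 : Real.sqrt (1 - r2) * Real.sqrt (1 - r2) = 1 - r2 := Real.mul_self_sqrt (by linarith)
  field_simp
  nlinarith

theorem card_pairs (m : ℕ) :
    ((Finset.univ.filter (fun p : Fin (m + 1) × Fin (m + 1) => p.1 < p.2)).card : ℝ) =
      (m + 1) * m / 2 := by
  have h := Pool.Agent.V5helper97.TraceIneqD.sum_pairs (n := m + 1) (fun _ => (1 : ℝ))
    (fun _ _ => rfl)
  have h1 : (Finset.univ.filter (fun p : Fin (m + 1) × Fin (m + 1) => p.1 ≠ p.2)).card =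
      (m + 1) * (m + 1) - (m + 1) := by
    have := Finset.offDiag_card (Finset.univ : Finset (Fin (m + 1)))
    rw [Finset.card_univ, Fintype.card_fin] at this
    rw [← this]
    congr 1
    ext p
    simp [Finset.mem_offDiag]
  rw [Finset.sum_const, Finset.sum_const, h1, nsmul_eq_mul, nsmul_eq_mul] at h
  rw [Nat.cast_sub (by nlinarith)] at h
  push_cast at h
  linarith

/-- no constant below one works for all numbers of operators -/
theorem sharp (c : ℝ) (hc : c < 1) : ∃ (n d : ℕ) (A : Fin n → Matrix (Fin d) (Fin d) ℂ),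
    (∀ j, (A j).PosSemidef) ∧
    (CFC.sqrt (∑ j, A j ^ 2)).trace.re - ∑ j, (A j).trace.re <
    c * ∑ p ∈ Finset.univ.filter (fun p : Fin n × Fin n => p.1 < p.2),
      ((CFC.abs (A p.1 - A p.2)).trace.re - (A p.1 + A p.2).trace.re) := by
  obtain ⟨k, hk⟩ := exists_nat_gt (3 * |c| / (1 - c))
  set m := k + 2 with hm
  have hm1 : 1 < m := by omega
  have hm0 : 0 < m := by omega
  have hmpos : (0 : ℝ) < m := by exact_mod_cast hm0
  have hkm : 3 * |c| / (1 - c) < m := by
    refine hk.trans_le ?_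
    rw [hm]; push_cast; linarith
  refine ⟨m + 1, m + 1, S m, fun j => S_psd m hm0 j, ?_⟩
  have hR : ∑ p ∈ Finset.univ.filter (fun p : Fin (m + 1) × Fin (m + 1) => p.1 < p.2),
      ((CFC.abs (S m p.1 - S m p.2)).trace.re - (S m p.1 + S m p.2).trace.re) =
      ((m + 1) * m) * (Real.sqrt (1 - ((m : ℝ)⁻¹) ^ 2) - 1) := by
    have h1 : ∀ p ∈ Finset.univ.filter (fun p : Fin (m + 1) × Fin (m + 1) => p.1 < p.2),
        ((CFC.abs (S m p.1 - S m p.2)).trace.re - (S m p.1 + S m p.2).trace.re) =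
        2 * (Real.sqrt (1 - ((m : ℝ)⁻¹) ^ 2) - 1) := by
      intro p hp
      simp only [Finset.mem_filter, Finset.mem_univ, true_and] at hp
      rw [abs_diff m hm1 _ _ hp.ne, Matrix.trace_add, trace_S m hm0, trace_S m hm0]
      simp
      ring
    rw [Finset.sum_congr rfl h1, Finset.sum_const, nsmul_eq_mul, card_pairs]
    ring
  have hL : (CFC.sqrt (∑ j, S m j ^ 2)).trace.re - ∑ j, (S m j).trace.re =
      Real.sqrt ((m + 1 : ℝ) / m) * m - (m + 1) := by
    rw [sqrt_sum m hm0, Matrix.trace_smul, trace_P, smul_eq_mul, Complex.re_ofReal_mul]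
    simp [trace_S m hm0]
  rw [hR, hL]
  -- left hand side is at most -1/2
  have hL2 : Real.sqrt ((m + 1 : ℝ) / m) * m - (m + 1) ≤ -(1 / 2) := by
    have h1 : Real.sqrt ((m + 1 : ℝ) / m) * m = Real.sqrt ((m + 1) * m) := by
      have h2 : ((m : ℝ) + 1) * m = (m + 1 : ℝ) / m * m ^ 2 := by field_simp
      rw [h2, Real.sqrt_mul (by positivity), Real.sqrt_sq hmpos.le]
    have h3 : Real.sqrt ((m + 1 : ℝ) * m) ≤ m + 1 / 2 := by
      rw [Real.sqrt_le_left (by positivity)]
      nlinarith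
    rw [h1]; linarith
  refine lt_of_le_of_lt hL2 ?_
  set x : ℝ := ((m : ℝ)⁻¹) ^ 2 with hx
  have hx0 : 0 ≤ x := by positivity
  have hminv : (m : ℝ)⁻¹ ≤ 1 := inv_le_one_of_one_le₀ (by exact_mod_cast hm1.le)
  have hminv0 : 0 < (m : ℝ)⁻¹ := by positivity
  have hx1 : x ≤ 1 := by rw [hx]; nlinarith
  have hsq : 1 - x / 2 - x ^ 2 / 2 ≤ Real.sqrt (1 - x) := by
    apply Real.le_sqrt_of_sq_le
    nlinarith [mul_nonneg hx0 hx0, mul_nonneg hx0 (sub_nonneg.2 hx1),
      mul_nonneg (mul_nonneg hx0 hx0) (sub_nonneg.2 hx1),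
      mul_nonneg (mul_nonneg (mul_nonneg hx0 hx0) hx0) (sub_nonneg.2 hx1)]
  have hsq1 : Real.sqrt (1 - x) ≤ 1 := by
    rw [Real.sqrt_le_left (by norm_num)]; linarith
  rcases le_or_gt c 0 with hc0 | hc0
  · have : 0 ≤ c * (((m : ℝ) + 1) * m * (Real.sqrt (1 - x) - 1)) := by
      have h1 : ((m : ℝ) + 1) * m * (Real.sqrt (1 - x) - 1) ≤ 0 :=
        mul_nonpos_of_nonneg_of_nonpos (by positivity) (by linarith)
      exact mul_nonneg_of_nonpos_of_nonpos hc0 h1
    linarith
  · have h1 : -((x / 2 + x ^ 2 / 2)) ≤ Real.sqrt (1 - x) - 1 := by linarith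
    have h2 : ((m : ℝ) + 1) * m * -((x / 2 + x ^ 2 / 2)) ≤
        ((m : ℝ) + 1) * m * (Real.sqrt (1 - x) - 1) :=
      mul_le_mul_of_nonneg_left h1 (by positivity)
    have h3 : ((m : ℝ) + 1) * m * (x / 2 + x ^ 2 / 2) ≤ (1 + 3 * (m : ℝ)⁻¹) / 2 := by
      have e1 : ((m : ℝ) + 1) * m * (x / 2 + x ^ 2 / 2) =
          (1 + (m : ℝ)⁻¹) * (1 + ((m : ℝ)⁻¹) ^ 2) / 2 := by
        rw [hx]; field_simp
      rw [e1]
      nlinarith [mul_nonneg hminv0.le (sub_nonneg.2 hminv),
        mul_nonneg (mul_nonneg hminv0.le hminv0.le) (sub_nonneg.2 hminv)]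
    have h4 : c * ((1 + 3 * (m : ℝ)⁻¹) / 2) < 1 / 2 := by
      rw [abs_of_pos hc0, div_lt_iff₀ (by linarith)] at hkm
      have h5 : 3 * c * (m : ℝ)⁻¹ < 1 - c := by
        rw [← div_eq_mul_inv, div_lt_iff₀ hmpos]
        linarith
      linarith
    have h6 := mul_le_mul_of_nonneg_left h2 hc0.le
    have h7 := mul_le_mul_of_nonneg_left h3 hc0.le
    linarith

end Pool.Agent.V5helper97.TraceIneqE
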